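import Pool.Agent.UDV.DegB

/-!
# UDV: weighted counting of places

PROOFS.  `cnt A = ∑ᶠ P, if A P then wt P else 0`; if `A` is contained in a finset `T` this is the
sum over `T` (`finsum_eq_sum_of_support_subset`).  Everything follows termwise from
`wt P ≤ wt P * |ord P x|` where `ord P x ≠ 0`, and from `deg_finset`, `deg_zeros`.
`cnt_ne_le`: `cnt (ord ≠ 0) ≤ cnt (0 < ord) + cnt (ord < 0)`.
`cnt_biUnion_le`: induction on `n` with `cnt_or_le`.
-/

open Polynomial

namespace UDV

universe u

namespace PF

variable {p : ℕ} {L : Type u} [Field L] (S : PF p L)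

open Classical in
theorem cnt_finset (A : S.I → Prop) (T : Finset S.I) (hT : ∀ P, A P → P ∈ T) :
    S.cnt A = ∑ P ∈ T, if A P then (S.wt P : ℤ) else 0 := by
  unfold cnt
  apply finsum_eq_sum_of_support_subset
  intro P hP
  rw [Function.mem_support] at hP
  by_contra h
  apply hP
  rw [if_neg]
  intro hA
  exact h (hT P hA)

theorem cnt_nonneg (A : S.I → Prop) : 0 ≤ S.cnt A := by
  unfold cnt
  apply finsum_nonneg
  intro P
  split_ifs
  · positivity
  · exact le_rfl

theorem cnt_mono {A B : S.I → Prop} (hB : {P | B P}.Finite) (h : ∀ P, A P → B P) :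
    S.cnt A ≤ S.cnt B := by
  classical
  rw [S.cnt_finset A hB.toFinset (fun P hP => by simpa using h P hP),
    S.cnt_finset B hB.toFinset (fun P hP => by simpa using hP)]
  apply Finset.sum_le_sum
  intro P _
  by_cases hA : A P
  · rw [if_pos hA, if_pos (h P hA)]
  · rw [if_neg hA]
    split_ifs
    · positivity
    · exact le_rfl

theorem cnt_or_le {A B : S.I → Prop} (hA : {P | A P}.Finite) (hB : {P | B P}.Finite) :
    S.cnt (fun P => A P ∨ B P) ≤ S.cnt A + S.cnt B := by
  classical
  rw [S.cnt_finset (fun P => A P ∨ B P) (hA.toFinset ∪ hB.toFinset)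
      (fun P hP => by simpa using hP),
    S.cnt_finset A (hA.toFinset ∪ hB.toFinset) (fun P hP => by
      rw [Finset.mem_union]; left; simpa using hP),
    S.cnt_finset B (hA.toFinset ∪ hB.toFinset) (fun P hP => by
      rw [Finset.mem_union]; right; simpa using hP), ← Finset.sum_add_distrib]
  apply Finset.sum_le_sum
  intro P _
  have hw : (0 : ℤ) ≤ S.wt P := by positivity
  by_cases hA : A P <;> by_cases hB : B P <;> simp [hA, hB]

theorem cnt_false : S.cnt (fun _ => False) = 0 := by
  classical
  rw [S.cnt_finset (fun _ => False) ∅ (fun P hP => hP.elim)]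
  simp

theorem cnt_biUnion_le (n : ℕ) (A : ℕ → S.I → Prop) (hA : ∀ j, j < n → {P | A j P}.Finite) :
    S.cnt (fun P => ∃ j, j < n ∧ A j P) ≤ ∑ j ∈ Finset.range n, S.cnt (A j) := by
  induction n with
  | zero =>
    have h : (fun P => ∃ j, j < 0 ∧ A j P) = (fun _ : S.I => False) := by
      funext P
      simp
    rw [h, cnt_false]
    simp
  | succ n ih =>
    have hf : {P | ∃ j, j < n ∧ A j P}.Finite := by
      have : {P | ∃ j, j < n ∧ A j P} = ⋃ j ∈ Finset.range n, {P | A j P} := by
        ext P
        simp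
      rw [this]
      apply Set.Finite.biUnion (Finset.finite_toSet _)
      intro j hj
      have hj' : j < n := by simpa using hj
      exact hA j (Nat.lt_succ_of_lt hj')
    have h : (fun P => ∃ j, j < n + 1 ∧ A j P) =
        (fun P => (∃ j, j < n ∧ A j P) ∨ A n P) := by
      funext P
      apply propext
      constructor
      · rintro ⟨j, hj, hP⟩
        rcases Nat.lt_succ_iff_lt_or_eq.1 hj with h1 | h1
        · left; exact ⟨j, h1, hP⟩
        · right; rw [← h1]; exact hP
      · rintro (⟨j, hj, hP⟩ | hP)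
        · exact ⟨j, Nat.lt_succ_of_lt hj, hP⟩
        · exact ⟨n, Nat.lt_succ_self n, hP⟩
    rw [h, Finset.sum_range_succ]
    refine (S.cnt_or_le hf (hA n (Nat.lt_succ_self n))).trans ?_
    have := ih (fun j hj => hA j (Nat.lt_succ_of_lt hj))
    omega

theorem exists_of_cnt_pos {A : S.I → Prop} (h : 0 < S.cnt A) : ∃ P, A P := by
  by_contra hne
  have h1 : A = (fun _ => False) := by
    funext P
    apply propext
    constructor
    · intro hP
      exact hne ⟨P, hP⟩
    · exact fun h => h.elim
  rw [h1, cnt_false] at h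
  exact lt_irrefl _ h

theorem fin_pos {x : L} (hx : x ≠ 0) : {P | 0 < S.ord P x}.Finite := by
  apply (S.fin hx).subset
  intro P hP
  have h : 0 < S.ord P x := hP
  exact ne_of_gt h

theorem fin_neg (x : L) : {P | S.ord P x < 0}.Finite := by
  by_cases hx : x = 0
  · have : {P | S.ord P x < 0} = ∅ := by
      ext P
      rw [hx]
      simp [S.ord_zero P]
    rw [this]
    exact Set.finite_empty
  · apply (S.fin hx).subset
    intro P hP
    have h : S.ord P x < 0 := hP
    exact ne_of_lt h

theorem deg_zeros_finset {x : L} (hx : x ≠ 0) (T : Finset S.I)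
    (hT : ∀ P, P ∉ T → S.ord P x = 0) :
    S.deg x = ∑ P ∈ T, (S.wt P : ℤ) * max 0 (S.ord P x) := by
  rw [S.deg_zeros hx]
  apply finsum_eq_sum_of_support_subset
  intro P hP
  rw [Function.mem_support] at hP
  by_contra h
  apply hP
  rw [hT P h]
  simp

/-- places where `ord P x` is a nonzero multiple of `N` are few -/
theorem cnt_mult_le {x : L} (hx : x ≠ 0) (N : ℕ) (hN : 0 < N) :
    N * S.cnt (fun P => 0 < S.ord P x ∧ (N : ℤ) ∣ S.ord P x) ≤ S.deg x := by
  classical
  have hT : ∀ P, P ∉ (S.fin hx).toFinset → S.ord P x = 0 := by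
    intro P hP
    by_contra h
    exact hP (by simpa using h)
  rw [S.deg_zeros_finset hx _ hT, S.cnt_finset _ (S.fin hx).toFinset (fun P hP => by
    simpa using ne_of_gt hP.1), Finset.mul_sum]
  apply Finset.sum_le_sum
  intro P _
  have hw : (0 : ℤ) ≤ S.wt P := by positivity
  have _hN := hN
  split_ifs with h
  · have h1 : (N : ℤ) ≤ S.ord P x := Int.le_of_dvd h.1 h.2
    have h2 : (N : ℤ) ≤ max 0 (S.ord P x) := h1.trans (le_max_right _ _)
    calc (N : ℤ) * S.wt P = S.wt P * N := mul_comm _ _
      _ ≤ S.wt P * max 0 (S.ord P x) := mul_le_mul_of_nonneg_left h2 hw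
  · rw [mul_zero]
    exact mul_nonneg hw (le_max_left _ _)

theorem cnt_mult_neg_le (x : L) (N : ℕ) (hN : 0 < N) :
    N * S.cnt (fun P => S.ord P x < 0 ∧ (N : ℤ) ∣ S.ord P x) ≤ S.deg x := by
  classical
  by_cases hx : x = 0
  · have h1 : (fun P => S.ord P x < 0 ∧ (N : ℤ) ∣ S.ord P x) = (fun _ : S.I => False) := by
      funext P
      rw [hx, S.ord_zero P]
      simp
    rw [h1, cnt_false, mul_zero]
    exact S.deg_nonneg x
  have hT : ∀ P, P ∉ (S.fin hx).toFinset → S.ord P x = 0 := by
    intro P hP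
    by_contra h
    exact hP (by simpa using h)
  rw [S.deg_finset x _ hT, S.cnt_finset _ (S.fin hx).toFinset (fun P hP => by
    simpa using ne_of_lt hP.1), Finset.mul_sum]
  apply Finset.sum_le_sum
  intro P _
  have hw : (0 : ℤ) ≤ S.wt P := by positivity
  have _hN := hN
  split_ifs with h
  · have h1 : (N : ℤ) ≤ -S.ord P x := Int.le_of_dvd (by omega) ((dvd_neg).2 h.2)
    have h2 : (N : ℤ) ≤ max 0 (-S.ord P x) := h1.trans (le_max_right _ _)
    calc (N : ℤ) * S.wt P = S.wt P * N := mul_comm _ _
      _ ≤ S.wt P * max 0 (-S.ord P x) := mul_le_mul_of_nonneg_left h2 hw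
  · rw [mul_zero]
    exact mul_nonneg hw (le_max_left _ _)

theorem cnt_zeros_le {x : L} (hx : x ≠ 0) : S.cnt (fun P => 0 < S.ord P x) ≤ S.deg x := by
  have h := S.cnt_mult_le hx 1 one_pos
  have h1 : (fun P => 0 < S.ord P x ∧ ((1 : ℕ) : ℤ) ∣ S.ord P x) = (fun P => 0 < S.ord P x) := by
    funext P
    simp
  rw [h1] at h
  simpa using h

theorem cnt_poles_le (x : L) : S.cnt (fun P => S.ord P x < 0) ≤ S.deg x := by
  have h := S.cnt_mult_neg_le x 1 one_pos
  have h1 : (fun P => S.ord P x < 0 ∧ ((1 : ℕ) : ℤ) ∣ S.ord P x) = (fun P => S.ord P x < 0) := by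
    funext P
    simp
  rw [h1] at h
  simpa using h

theorem cnt_ne_le (x : L) : S.cnt (fun P => S.ord P x ≠ 0) ≤ 2 * S.deg x := by
  by_cases hx : x = 0
  · have h1 : (fun P => S.ord P x ≠ 0) = (fun _ : S.I => False) := by
      funext P
      rw [hx, S.ord_zero P]
      simp
    rw [h1, cnt_false]
    have := S.deg_nonneg x
    omega
  · have h1 : (fun P => S.ord P x ≠ 0) = (fun P => 0 < S.ord P x ∨ S.ord P x < 0) := by
      funext P
      apply propext
      constructor
      · intro h
        rcases lt_trichotomy (S.ord P x) 0 with h2 | h2 | h2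
        · right; exact h2
        · exact (h h2).elim
        · left; exact h2
      · rintro (h | h)
        · exact ne_of_gt h
        · exact ne_of_lt h
    rw [h1]
    have h2 := S.cnt_or_le (S.fin_pos hx) (S.fin_neg x)
    have h3 := S.cnt_zeros_le hx
    have h4 := S.cnt_poles_le x
    omega

end PF

end UDV
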