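import Mathlib

/-!
# UDV: finitely generated fields and divisorial valuation rings (definitions)
-/

namespace UDV

universe u

/-- The field `K` is finitely generated (as a field, over its prime field). -/
def FGField (K : Type u) [Field K] : Prop :=
  ∃ s : Finset K, Subfield.closure (s : Set K) = ⊤

open Classical in
/-- The Kronecker dimension: the transcendence degree over the prime field `⊥`, plus `1` in
characteristic zero. -/
noncomputable def kdim (K : Type u) [Field K] : Cardinal.{u} :=
  Algebra.trdeg (⊥ : Subfield K) K + (if CharZero K then 1 else 0)

/-- `O` is the valuation ring of a rank one divisorial valuation of `K`: it is a discrete valuation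
ring and its residue field is a finitely generated field of Kronecker dimension one less than that
of `K`. -/
structure IsDivisorial {K : Type u} [Field K] (O : ValuationSubring K) : Prop where
  dvr : IsDiscreteValuationRing O
  fg : FGField (IsLocalRing.ResidueField O)
  dim : kdim (IsLocalRing.ResidueField O) + 1 = kdim K

end UDV
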