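import Pool.Agent.UDV.Cnt

/-!
# UDV: the abc inequality

PROOFS.
`deg_one_sub`: if `ord P w < 0` then `ord P (1 - w) = ord P w` (`ord_add_eq`, `ord_neg`,
`ord_one`); if `0 ≤ ord P w` then `0 ≤ ord P (1 - w)` (`ord_add_ge`, `ord_zero`).  So
`max 0 (-ord)` agree at every place.

`abc`: `w` is `NC` (`nc_of_delta`; needs `CharP`), so `w ≠ 0`, `1 - w ≠ 0`; `y = δ i w ≠ 0` and
`δ i (1 - w) = - y`.  For every place `P` (with `b = b P`):
* `0 < ord P w`: `ord P y ≥ ord P w - 1 - b`, and `ord P (1 - w) = 0`;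
* `ord P w < 0`: `ord P y ≥ ord P w - 1 - b`, and `ord P (1-w) = ord P w < 0`;
* `ord P w = 0`, `0 < ord P (1 - w)`: `ord P y ≥ ord P (1 - w) - 1 - b`;
* `ord P w = 0`, `ord P (1 - w) = 0`: `ord P y ≥ - b` (`δ_int`).
(If `ord P w = 0` then `0 ≤ ord P (1 - w)`.)  In all cases
`ord P y ≥ ord P w + max 0 (ord P (1 - w)) - [ord P w ≠ 0] - [0 < ord P (1 - w)] - b`.
Multiply by `wt P` and sum over a finset containing everything (`exists_finset`, `b_fin`):
`0 ≥ 0 + deg (1 - w) - cnt (ord w ≠ 0) - cnt (0 < ord (1-w)) - B` by the product formula for `y`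
and `w`, and `deg_zeros`.
-/

open Polynomial

namespace UDV

universe u

namespace PF

variable {p : ℕ} {L : Type u} [Field L] (S : PF p L)

/-- a pole of `w` is a pole of `1 - w` of the same order -/
private theorem ord_one_sub_neg {w : L} (P : S.I) (h : S.ord P w < 0) :
    S.ord P (1 - w) = S.ord P w := by
  have hw : -w ≠ 0 := by
    intro h1
    rw [neg_eq_zero] at h1
    rw [h1, S.ord_zero] at h
    exact lt_irrefl _ h
  have h1 := (S.ord_add_eq P (x := -w) (y := 1) hw
    (Or.inr (by rw [S.ord_neg, S.ord_one]; exact h))).2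
  rw [S.ord_neg, neg_add_eq_sub] at h1
  exact h1

private theorem ord_one_sub_nonneg {w : L} (P : S.I) (h : 0 ≤ S.ord P w) :
    0 ≤ S.ord P (1 - w) := by
  rcases S.ord_add_ge P (x := 1) (y := -w) (c := 0) (Or.inr (by rw [S.ord_one]))
    (Or.inr (by rw [S.ord_neg]; exact h)) with h1 | h1
  · rw [← sub_eq_add_neg] at h1
    rw [h1, S.ord_zero]
  · rwa [← sub_eq_add_neg] at h1

private theorem ord_one_sub_pos {w : L} (P : S.I) (h : 0 < S.ord P w) :
    S.ord P (1 - w) = 0 := by
  have h1 := (S.ord_add_eq P (x := 1) (y := -w) one_ne_zero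
    (Or.inr (by rw [S.ord_neg, S.ord_one]; exact h))).2
  rw [← sub_eq_add_neg, S.ord_one] at h1
  exact h1

theorem deg_one_sub (w : L) : S.deg (1 - w) = S.deg w := by
  unfold deg
  refine finsum_congr fun P => ?_
  congr 1
  rcases lt_or_ge (S.ord P w) 0 with h | h
  · rw [S.ord_one_sub_neg P h]
  · have h1 := S.ord_one_sub_nonneg P h
    rw [max_eq_left (by linarith), max_eq_left (by linarith)]

theorem abc [Fact p.Prime] [CharP L p] {w : L} {i : Fin S.d} (hδ : S.δ i w ≠ 0) :
    S.deg w ≤ S.cnt (fun P => S.ord P w ≠ 0) + S.cnt (fun P => 0 < S.ord P (1 - w)) + S.B := by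
  classical
  have hw : w ≠ 0 := by
    intro h
    apply hδ
    rw [h, map_zero]
  have hw1 : 1 - w ≠ 0 := by
    intro h
    apply hδ
    rw [← sub_eq_zero.1 h, Derivation.map_one_eq_zero]
  have hδ1 : S.δ i (1 - w) = -S.δ i w := by
    rw [map_sub, Derivation.map_one_eq_zero, zero_sub]
  obtain ⟨T₀, hT₀⟩ := S.exists_finset {w, 1 - w, S.δ i w}
  set T := T₀ ∪ S.b_fin.toFinset with hT
  have hT1 : ∀ P, P ∉ T → S.ord P w = 0 := fun P hP =>
    hT₀ w (by simp) P fun h => hP (Finset.mem_union_left _ h)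
  have hT2 : ∀ P, P ∉ T → S.ord P (1 - w) = 0 := fun P hP =>
    hT₀ (1 - w) (by simp) P fun h => hP (Finset.mem_union_left _ h)
  have hT3 : ∀ P, P ∉ T → S.ord P (S.δ i w) = 0 := fun P hP =>
    hT₀ (S.δ i w) (by simp) P fun h => hP (Finset.mem_union_left _ h)
  have hT4 : ∀ P, P ∉ T → S.b P = 0 := by
    intro P hP
    by_contra h
    exact hP (Finset.mem_union_right _ ((Set.Finite.mem_toFinset _).2 h))
  have hB : S.B = ∑ P ∈ T, (S.wt P : ℤ) * (S.b P : ℤ) := by
    unfold B
    refine finsum_eq_sum_of_support_subset _ fun P hP => ?_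
    by_contra h
    apply hP
    change (S.wt P : ℤ) * (S.b P : ℤ) = 0
    rw [hT4 P h, Nat.cast_zero, mul_zero]
  have hc1 := S.cnt_finset (fun P => S.ord P w ≠ 0) T (fun P hP => by
    by_contra h
    exact hP (hT1 P h))
  have hc2 := S.cnt_finset (fun P => 0 < S.ord P (1 - w)) T (fun P hP => by
    by_contra h
    rw [hT2 P h] at hP
    exact lt_irrefl _ hP)
  have hd := S.deg_finset (1 - w) T hT2
  rw [S.deg_one_sub] at hd
  have hp1 := S.prod_finset hw T hT1
  have hp2 := S.prod_finset hw1 T hT2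
  have hp3 := S.prod_finset hδ T hT3
  have key : ∀ P ∈ T, (S.wt P : ℤ) * S.ord P w + ((S.wt P : ℤ) * max 0 (-(S.ord P (1 - w))) +
      (S.wt P : ℤ) * S.ord P (1 - w)) - (if S.ord P w ≠ 0 then (S.wt P : ℤ) else 0) -
      (if 0 < S.ord P (1 - w) then (S.wt P : ℤ) else 0) - (S.wt P : ℤ) * (S.b P : ℤ) ≤
      (S.wt P : ℤ) * S.ord P (S.δ i w) := by
    intro P _
    have hW : (0 : ℤ) ≤ S.wt P := Int.natCast_nonneg _
    have h1 := S.δ_ord P i hw hδ
    have h1' := mul_le_mul_of_nonneg_left h1 hW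
    rcases lt_trichotomy (S.ord P w) 0 with h | h | h
    · have h2 := S.ord_one_sub_neg P h
      rw [h2, if_pos h.ne, if_neg (not_lt.2 h.le), max_eq_right (by linarith)]
      nlinarith [h1']
    · have h2 := S.ord_one_sub_nonneg P h.ge
      rcases h2.eq_or_lt with h3 | h3
      · have h4 := mul_le_mul_of_nonneg_left (S.δ_int P i hw h.ge hδ) hW
        rw [if_neg (not_not.2 h), if_neg (by rw [← h3]; exact lt_irrefl _), ← h3, h,
          max_eq_left (by simp)]
        nlinarith [h4]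
      · have h4 := S.δ_ord P i hw1 (by rw [hδ1]; exact neg_ne_zero.2 hδ)
        rw [hδ1, S.ord_neg] at h4
        have h4' := mul_le_mul_of_nonneg_left h4 hW
        rw [if_neg (not_not.2 h), if_pos h3, h, max_eq_left (by linarith)]
        nlinarith [h4']
    · have h2 := S.ord_one_sub_pos P h
      rw [h2, if_pos h.ne', if_neg (lt_irrefl _), max_eq_left (by simp)]
      nlinarith [h1']
  have hsum := Finset.sum_le_sum key
  rw [Finset.sum_sub_distrib, Finset.sum_sub_distrib, Finset.sum_sub_distrib,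
    Finset.sum_add_distrib, Finset.sum_add_distrib, hp1, hp2, hp3, ← hd, ← hB] at hsum
  have e1 : ∑ P ∈ T, (if S.ord P w ≠ 0 then (S.wt P : ℤ) else 0) =
      S.cnt (fun P => S.ord P w ≠ 0) := by
    rw [hc1]
    refine Finset.sum_congr rfl fun P _ => ?_
    congr
  have e2 : ∑ P ∈ T, (if 0 < S.ord P (1 - w) then (S.wt P : ℤ) else 0) =
      S.cnt (fun P => 0 < S.ord P (1 - w)) := by
    rw [hc2]
    refine Finset.sum_congr rfl fun P _ => ?_
    congr
  rw [e1, e2] at hsum
  linarith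

end PF

end UDV
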