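import Mathlib

/-!
# UDV: the degree valuation of the field of rational functions

PROOF of `exists_degVal`.  On `R = MvPolynomial σ k` put `v₀ f = exp (totalDegree f)` for `f ≠ 0`
and `v₀ 0 = 0`.  It is a valuation with values in `ℤᵐ⁰`: `totalDegree_mul_of_isDomain`,
`totalDegree_add`, `totalDegree_one`.  Its support is `0`, extend it to the fraction field
(`Valuation.extendToLocalization` with `nonZeroDivisors R`, or define
`v (f / g) = v₀ f / v₀ g` directly).

PROOF of `degVal_der`.  `x = f / g`, `g ≠ 0`.  `D x = (g * D f - f * D g) / g ^ 2`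
(`D (f/g) * g ^ 2 = g * D f - f * D g`, Leibniz).  The total degree of `pderiv i h` is at most that
of `h` and so `v (D x) ≤ exp (deg f + deg g - 2 deg g) = v x ≤ 1` (for `x ≠ 0`).

PROOF of `sep_base`.  `x = f / g = f * g ^ (p-1) / g ^ p`.  Put `h = f * g ^ (p - 1)`;
`x * g ^ p = h` and `D i (g ^ p) = 0`, so `D i h = 0`, i.e. `pderiv i h = 0` for all `i`
(injectivity of `R → F`).  So every exponent `m` in the support of `h` has `p ∣ m i` for all `i`
(the coefficient of `pderiv i h` at `m - e_i` is `m i * coeff m h`), and `c ^ p = c` for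
`c : ZMod p`, hence `h = (∑ coeff m h * X ^ (m / p)) ^ p` (`sum_pow_char`), and `x = (h' / g) ^ p`.
(`MvPolynomial.expand`, `MvPolynomial.frobenius_zmod` may help.)
-/

open WithZero MvPolynomial

namespace UDV

universe u v

open Classical in
/-- The degree valuation on polynomials. -/
private noncomputable def dv₀ (k : Type v) [Field k] (σ : Type v) :
    Valuation (MvPolynomial σ k) ℤᵐ⁰ where
  toFun f := if f = 0 then 0 else exp (f.totalDegree : ℤ)
  map_zero' := if_pos rfl
  map_one' := by
    rw [if_neg one_ne_zero, totalDegree_one]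
    simp
  map_mul' f g := by
    by_cases hf : f = 0
    · simp [hf]
    by_cases hg : g = 0
    · simp [hg]
    rw [if_neg (mul_ne_zero hf hg), if_neg hf, if_neg hg, totalDegree_mul_of_isDomain hf hg,
      ← exp_add]
    push_cast
    rfl
  map_add_le_max' f g := by
    by_cases hf : f = 0
    · simp [hf]
    by_cases hg : g = 0
    · simp [hg]
    by_cases hfg : f + g = 0
    · simp [hfg]
    rw [if_neg hfg, if_neg hf, if_neg hg]
    have h := totalDegree_add f g
    rcases le_total f.totalDegree g.totalDegree with h1 | h1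
    · rw [max_eq_right h1] at h
      refine le_max_of_le_right ?_
      rw [exp_le_exp]
      exact_mod_cast h
    · rw [max_eq_left h1] at h
      refine le_max_of_le_left ?_
      rw [exp_le_exp]
      exact_mod_cast h

private theorem dv₀_apply {k : Type v} [Field k] {σ : Type v} {f : MvPolynomial σ k} (hf : f ≠ 0) :
    dv₀ k σ f = exp (f.totalDegree : ℤ) := if_neg hf

theorem exists_degVal {k : Type v} [Field k] {σ : Type v} [Fintype σ] {F : Type v} [Field F]
    [Algebra (MvPolynomial σ k) F] [IsFractionRing (MvPolynomial σ k) F] :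
    ∃ v : Valuation F ℤᵐ⁰, ∀ f : MvPolynomial σ k, f ≠ 0 →
      v (algebraMap (MvPolynomial σ k) F f) = exp (f.totalDegree : ℤ) := by
  have hS : nonZeroDivisors (MvPolynomial σ k) ≤ (dv₀ k σ).supp.primeCompl := by
    intro f hf hfs
    have hf0 : f ≠ 0 := nonZeroDivisors.ne_zero hf
    have h1 : dv₀ k σ f = 0 := hfs
    rw [dv₀_apply hf0] at h1
    exact exp_ne_zero h1
  refine ⟨(dv₀ k σ).extendToLocalization hS F, fun f hf => ?_⟩
  rw [Valuation.extendToLocalization_apply_map_apply, dv₀_apply hf]

theorem totalDegree_pderiv_le {k : Type v} [Field k] {σ : Type v} (i : σ)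
    (f : MvPolynomial σ k) : (pderiv i f).totalDegree ≤ f.totalDegree := by
  classical
  refine Finset.sup_le fun m hm => ?_
  rw [mem_support_iff, coeff_pderiv] at hm
  have h1 : m + Finsupp.single i 1 ∈ f.support := by
    rw [mem_support_iff]
    exact left_ne_zero_of_mul hm
  refine le_trans ?_ (le_totalDegree h1)
  rw [Finsupp.sum_add_index' (fun _ => rfl) (fun _ _ _ => rfl)]
  exact Nat.le_add_right _ _

theorem degVal_der {k : Type v} [Field k] {σ : Type v} {F : Type v} [Field F]
    [Algebra (MvPolynomial σ k) F] [IsFractionRing (MvPolynomial σ k) F]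
    {v : Valuation F ℤᵐ⁰} (hv : ∀ f : MvPolynomial σ k, f ≠ 0 →
      v (algebraMap (MvPolynomial σ k) F f) = exp (f.totalDegree : ℤ)) (i : σ)
    (D : Derivation ℤ F F) (hD : ∀ f : MvPolynomial σ k,
      D (algebraMap (MvPolynomial σ k) F f) = algebraMap (MvPolynomial σ k) F (pderiv i f))
    {x : F} (hx : v x ≤ 1) : v (D x) ≤ 1 := by
  obtain ⟨f, g, hg, rfl⟩ := IsFractionRing.div_surjective (A := MvPolynomial σ k) x
  have hg0 : g ≠ 0 := nonZeroDivisors.ne_zero hg
  by_cases hf0 : f = 0
  · simp [hf0]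
  have hvx : v (algebraMap (MvPolynomial σ k) F f / algebraMap (MvPolynomial σ k) F g) =
      exp ((f.totalDegree : ℤ) - g.totalDegree) := by
    rw [map_div₀, hv f hf0, hv g hg0, ← exp_sub]
  rw [hvx] at hx
  rw [D.leibniz_div, hD, hD, smul_eq_mul, smul_eq_mul, smul_eq_mul, ← map_mul, ← map_mul, ← map_sub]
  by_cases hh : g * pderiv i f - f * pderiv i g = 0
  · rw [hh]
    simp
  rw [map_mul, map_pow, map_inv₀, hv g hg0, hv _ hh]
  have h1 : (g * pderiv i f - f * pderiv i g).totalDegree ≤ f.totalDegree + g.totalDegree := by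
    refine (totalDegree_sub _ _).trans (max_le ?_ ?_)
    · refine (totalDegree_mul _ _).trans ?_
      have := totalDegree_pderiv_le i f
      omega
    · refine (totalDegree_mul _ _).trans ?_
      have := totalDegree_pderiv_le i g
      omega
  have h2 : (exp (g.totalDegree : ℤ) : ℤᵐ⁰)⁻¹ ^ 2 *
      exp ((g * pderiv i f - f * pderiv i g).totalDegree : ℤ) =
      exp (((g * pderiv i f - f * pderiv i g).totalDegree : ℤ) - 2 * g.totalDegree) := by
    rw [← exp_neg, ← exp_nsmul, ← exp_add]
    congr 1
    simp only [nsmul_eq_mul]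
    push_cast
    ring
  rw [h2]
  refine le_trans ?_ hx
  rw [exp_le_exp]
  omega

private theorem pow_of_pderiv {p : ℕ} [Fact p.Prime] {σ : Type v}
    (h : MvPolynomial σ (ZMod p)) (hh : ∀ i, pderiv i h = 0) :
    ∃ q : MvPolynomial σ (ZMod p), q ^ p = h := by
  classical
  have hdvd : ∀ m ∈ h.support, ∀ i, p ∣ m i := by
    intro m hm i
    by_contra hn
    have hmi : m i ≠ 0 := fun h0 => hn (by rw [h0]; exact dvd_zero p)
    have h1 := congrArg (coeff (m - Finsupp.single i 1)) (hh i)
    rw [coeff_pderiv, coeff_zero] at h1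
    have h2 : m - Finsupp.single i 1 + Finsupp.single i 1 = m := by
      ext j
      simp only [Finsupp.coe_add, Finsupp.coe_tsub, Pi.add_apply, Pi.sub_apply]
      by_cases hj : j = i
      · subst hj
        simp only [Finsupp.single_eq_same]
        omega
      · rw [Finsupp.single_eq_of_ne hj]
        omega
    rw [h2] at h1
    rcases mul_eq_zero.1 h1 with h3 | h3
    · exact (mem_support_iff.1 hm) h3
    · have h4 : (((m - Finsupp.single i 1 : σ →₀ ℕ) i : ℕ) : ZMod p) + 1 = ((m i : ℕ) : ZMod p) := by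
        have h5 : (m - Finsupp.single i 1 : σ →₀ ℕ) i + 1 = m i := by
          simp only [Finsupp.coe_tsub, Pi.sub_apply, Finsupp.single_eq_same]
          omega
        rw [← h5]
        push_cast
        rfl
      rw [h4] at h3
      exact hn ((ZMod.natCast_eq_zero_iff _ _).1 h3)
  refine ⟨∑ m ∈ h.support, monomial (m.mapRange (· / p) (Nat.zero_div p)) (coeff m h), ?_⟩
  rw [sum_pow_char]
  conv_rhs => rw [← h.support_sum_monomial_coeff]
  refine Finset.sum_congr rfl fun m hm => ?_
  rw [monomial_pow, ZMod.pow_card]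
  have h6 : p • m.mapRange (· / p) (Nat.zero_div p) = m := by
    ext i
    rw [Finsupp.smul_apply, Finsupp.mapRange_apply, smul_eq_mul]
    exact Nat.mul_div_cancel' (hdvd m hm i)
  rw [h6]

theorem sep_base {p : ℕ} [Fact p.Prime] {σ : Type v} [Fintype σ] {F : Type v} [Field F]
    [Algebra (MvPolynomial σ (ZMod p)) F] [IsFractionRing (MvPolynomial σ (ZMod p)) F]
    (D : σ → Derivation ℤ F F) (hD : ∀ i (f : MvPolynomial σ (ZMod p)),
      D i (algebraMap (MvPolynomial σ (ZMod p)) F f) =
        algebraMap (MvPolynomial σ (ZMod p)) F (pderiv i f))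
    (x : F) (hx : ∀ i, D i x = 0) : ∃ y, y ^ p = x := by
  obtain ⟨f, g, hg, rfl⟩ := IsFractionRing.div_surjective (A := MvPolynomial σ (ZMod p)) x
  have hg0 : g ≠ 0 := nonZeroDivisors.ne_zero hg
  have hinj : Function.Injective (algebraMap (MvPolynomial σ (ZMod p)) F) :=
    IsFractionRing.injective _ _
  have hG : algebraMap (MvPolynomial σ (ZMod p)) F g ≠ 0 := by
    intro h
    exact hg0 (hinj (by rw [h, map_zero]))
  have hp : 0 < p := (Fact.out : p.Prime).pos
  have hx' : algebraMap (MvPolynomial σ (ZMod p)) F f / algebraMap (MvPolynomial σ (ZMod p)) F g *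
      (algebraMap (MvPolynomial σ (ZMod p)) F g) ^ p =
      algebraMap (MvPolynomial σ (ZMod p)) F (f * g ^ (p - 1)) := by
    rw [map_mul, map_pow]
    obtain ⟨n, rfl⟩ : ∃ n, p = n + 1 := ⟨p - 1, by omega⟩
    rw [Nat.add_sub_cancel, pow_succ]
    field_simp
  have hpd : ∀ i, pderiv i (f * g ^ (p - 1)) = 0 := by
    intro i
    apply hinj
    rw [map_zero, ← hD, ← hx', Derivation.leibniz, hx i, smul_zero, add_zero, ← map_pow, hD,
      Derivation.leibniz_pow]
    simp
  obtain ⟨q, hq⟩ := pow_of_pderiv _ hpd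
  refine ⟨algebraMap (MvPolynomial σ (ZMod p)) F q / algebraMap (MvPolynomial σ (ZMod p)) F g, ?_⟩
  rw [div_pow, ← map_pow, hq, ← hx', mul_div_assoc, div_self (pow_ne_zero _ hG), mul_one]

end UDV
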