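import Mathlib

/-!
# UDV: elements killed by all derivations, extension step

PROOF.  Let `x : L` with `δ i x = 0` for all `i`.  `x` is separable over `F`, so
`F⟮x⟯ = F⟮x ^ p⟯` (`IntermediateField.adjoin_eq_adjoin_pow_expChar_of_isSeparable`).  Let
`n = finrank F F⟮x⟯`; then `x = ∑_{k < n} c k * (x ^ p) ^ k` with `c k ∈ F` (power basis of
`F⟮x ^ p⟯`), and the elements `(x ^ p) ^ k`, `k < n`, are linearly independent over `F`.
Apply `δ i`: `δ i ((x ^ p) ^ k) = 0` (a `p`-th power in characteristic `p`), so
`0 = ∑ algebraMap (D i (c k)) * (x ^ p) ^ k` and `D i (c k) = 0` for all `i`, `k`.  By the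
hypothesis for `F`, `c k = (e k) ^ p`, so `x = ∑ (e k) ^ p * (x ^ k) ^ p = (∑ e k * x ^ k) ^ p`
(`sum_pow_char`).
-/

open Polynomial

namespace UDV

universe u v

theorem sep_ext {p : ℕ} [Fact p.Prime] {F : Type v} {L : Type u} [Field F] [Field L] [CharP F p]
    [Algebra F L] [Algebra.IsSeparable F L] {ι : Type*} (D : ι → Derivation ℤ F F)
    (δ : ι → Derivation ℤ L L)
    (hδ : ∀ i x, δ i (algebraMap F L x) = algebraMap F L (D i x))
    (hF : ∀ x : F, (∀ i, D i x = 0) → ∃ y, y ^ p = x) :
    ∀ x : L, (∀ i, δ i x = 0) → ∃ y, y ^ p = x := by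
  intro x hx
  have : CharP L p := charP_of_injective_algebraMap (algebraMap F L).injective p
  have : ExpChar F p := ExpChar.prime Fact.out
  have : ExpChar L p := ExpChar.prime Fact.out
  set y : L := x ^ p with hy
  have hyint : IsIntegral F y := Algebra.IsIntegral.isIntegral y
  have hxy : x ∈ IntermediateField.adjoin F {y} := by
    rw [hy, ← IntermediateField.adjoin_simple_eq_adjoin_pow_expChar_of_isSeparable' F L x p]
    exact IntermediateField.mem_adjoin_simple_self F x
  have hxy' : x ∈ Algebra.adjoin F {y} := by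
    rw [← IntermediateField.adjoin_simple_toSubalgebra_of_isAlgebraic hyint.isAlgebraic]
    exact hxy
  rw [Algebra.adjoin_singleton_eq_range_aeval] at hxy'
  obtain ⟨g0, hg0⟩ := hxy'
  have hm : (minpoly F y).Monic := minpoly.monic hyint
  have hm1 : minpoly F y ≠ 1 := minpoly.ne_one F y
  obtain ⟨g, hg, hgn⟩ : ∃ g : F[X], aeval y g = x ∧ g.natDegree < (minpoly F y).natDegree := by
    refine ⟨g0 %ₘ minpoly F y, ?_, natDegree_modByMonic_lt g0 hm hm1⟩
    rw [aeval_modByMonic_eq_self_of_root (minpoly.aeval F y)]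
    exact hg0
  set n := (minpoly F y).natDegree with hn
  have hsum : x = ∑ k ∈ Finset.range n, algebraMap F L (g.coeff k) * y ^ k := by
    conv_lhs => rw [← hg, aeval_eq_sum_range' hgn]
    refine Finset.sum_congr rfl fun k _ => ?_
    rw [Algebra.smul_def]
  have hdy : ∀ i k, δ i (y ^ k) = 0 := by
    intro i k
    rw [hy, ← pow_mul, Derivation.leibniz_pow, hx i, smul_zero, smul_zero]
  have hD : ∀ i k, D i (g.coeff k) = 0 := by
    intro i
    set g' : F[X] := ∑ k ∈ Finset.range n, monomial k (D i (g.coeff k)) with hg'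
    have hcoeff : ∀ j, g'.coeff j = if j < n then D i (g.coeff j) else 0 := by
      intro j
      rw [hg', finsetSum_coeff]
      simp only [coeff_monomial]
      rw [Finset.sum_ite_eq' (Finset.range n) j (fun k => D i (g.coeff k))]
      simp only [Finset.mem_range]
    have hroot : aeval y g' = 0 := by
      have h1 : δ i x = ∑ k ∈ Finset.range n, algebraMap F L (D i (g.coeff k)) * y ^ k := by
        conv_lhs => rw [hsum]
        rw [map_sum]
        refine Finset.sum_congr rfl fun k _ => ?_
        rw [Derivation.leibniz, hdy i k, smul_zero, zero_add, hδ, smul_eq_mul, mul_comm]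
      rw [hx i] at h1
      rw [hg', map_sum, h1]
      refine Finset.sum_congr rfl fun k _ => ?_
      rw [aeval_monomial]
    have hz : g' = 0 := by
      by_contra hne
      have h1 := minpoly.degree_le_of_ne_zero F y hne hroot
      have h2 : g'.degree < n := by
        rw [degree_lt_iff_coeff_zero]
        intro j hj
        rw [hcoeff, if_neg (by exact_mod_cast not_lt.2 hj)]
      rw [degree_eq_natDegree hm.ne_zero, ← hn] at h1
      exact absurd (lt_of_le_of_lt h1 h2) (lt_irrefl _)
    intro k
    by_cases hk : k < n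
    · have h1 := hcoeff k
      rw [hz, coeff_zero, if_pos hk] at h1
      exact h1.symm
    · rw [coeff_eq_zero_of_natDegree_lt (lt_of_lt_of_le hgn (not_lt.1 hk)), map_zero]
  choose e he using fun k => hF (g.coeff k) (fun i => hD i k)
  refine ⟨∑ k ∈ Finset.range n, algebraMap F L (e k) * x ^ k, ?_⟩
  rw [sum_pow_char]
  conv_rhs => rw [hsum]
  refine Finset.sum_congr rfl fun k _ => ?_
  rw [mul_pow, ← map_pow, he k, hy, ← pow_mul, ← pow_mul, mul_comm k p]

end UDV
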