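import Pool.Agent.UDV.DerA
import Pool.Agent.UDV.SepExt
import Pool.Agent.UDV.DegVal

/-!
# UDV: a separating transcendence basis and its derivations

PROOF.  `K` is essentially of finite type over `k = ZMod p` (`ZMod.algebra K p`), because
`Subfield.closure s = ⊤` implies `IntermediateField.adjoin k s = ⊤`.
`exists_isTranscendenceBasis_and_isSeparable_of_perfectField` gives a finite transcendence basis
`t` with `K` separable over `adjoin k t`; `d = card t`, `x : Fin d → K` an enumeration; the
transcendence degree is `d` (`IsTranscendenceBasis.cardinalMk_eq_trdeg`).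
Let `R = MvPolynomial (Fin d) k`, `F = FractionRing R`; `aeval x : R → K` is injective and extends to
`F → K` (`IsFractionRing.lift`), `K` becomes an `F`-algebra, the image of `F` is `adjoin k t`, so `K`
is separable over `F`.
* `δ j`: extend `pderiv j` (as a `ℤ`-derivation of `R`) to `F` (`der_frac`), then to `K`
  (`der_exists`).  `δ j (x i) = algebraMap (pderiv j (X i))`.
* uniqueness: `D (x j) = 0` for all `j` implies that `D` vanishes on the image of `R` (induction on
  polynomials, constants of `ZMod p` are images of integers), hence on the image of `F`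
  (quotients), and `D = 0` by `der_unique` (compare with `0`).
* last claim: `sep_ext` applied to `sep_base`.
-/

open MvPolynomial

namespace UDV

universe u

/-- separability over a larger copy of the base field -/
theorem sep_of_range {F : Type} {K : Type u} [Field F] [Field K] [Algebra F K] {E : Subfield K}
    [hE : Algebra.IsSeparable E K] (h : ∀ y ∈ E, y ∈ Set.range (algebraMap F K)) :
    Algebra.IsSeparable F K := by
  refine ⟨fun y => ?_⟩
  have h1 : (minpoly E y).Separable := hE.isSeparable' y
  have h2 : (minpoly E y).map (algebraMap E K) ∈ Polynomial.lifts (algebraMap F K) := by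
    rw [Polynomial.lifts_iff_coeff_lifts]
    intro n
    rw [Polynomial.coeff_map]
    exact h _ ((minpoly E y).coeff n).2
  obtain ⟨q, hq⟩ := h2
  have hq' : q.map (algebraMap F K) = (minpoly E y).map (algebraMap E K) := hq
  have h3 : q.Separable := by
    rw [← Polynomial.separable_map (algebraMap F K), hq', Polynomial.separable_map]
    exact h1
  have h4 : Polynomial.aeval y q = 0 := by
    rw [← Polynomial.eval_map_algebraMap, hq', Polynomial.eval_map_algebraMap]
    exact minpoly.aeval E y
  exact h3.of_dvd (minpoly.dvd F y h4)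

theorem sep_basis (p : ℕ) [Fact p.Prime] (K : Type u) [Field K] [CharP K p]
    (hfg : ∃ s : Finset K, Subfield.closure (s : Set K) = ⊤) :
    letI := ZMod.algebra K p
    ∃ (d : ℕ) (x : Fin d → K) (δ : Fin d → Derivation ℤ K K),
      Algebra.trdeg (ZMod p) K = d ∧ AlgebraicIndependent (ZMod p) x ∧
      (∀ i j, δ j (x i) = if i = j then 1 else 0) ∧
      (∀ D : Derivation ℤ K K, (∀ j, D (x j) = 0) → D = 0) ∧
      (∀ a, (∀ j, δ j a = 0) → ∃ y, y ^ p = a) := by
  let _ := ZMod.algebra K p
  have hess : Algebra.EssFiniteType (ZMod p) K := by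
    rw [← IntermediateField.fg_top_iff]
    obtain ⟨s, hs⟩ := hfg
    refine ⟨s, ?_⟩
    rw [eq_top_iff]
    intro y _
    have h1 : Subfield.closure (s : Set K) ≤
        (IntermediateField.adjoin (ZMod p) (s : Set K)).toSubfield := by
      rw [Subfield.closure_le]
      exact IntermediateField.subset_adjoin _ _
    rw [hs] at h1
    exact h1 (Subfield.mem_top y)
  obtain ⟨t, ht, hsep⟩ := exists_isTranscendenceBasis_and_isSeparable_of_perfectField (ZMod p) K
  obtain ⟨e, -⟩ : ∃ e : Fin t.card ≃ t, True := ⟨t.equivFin.symm, trivial⟩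
  obtain ⟨x, hx⟩ : ∃ x : Fin t.card → K, ∀ i, x i = (e i : K) := ⟨fun i => e i, fun _ => rfl⟩
  have hind : AlgebraicIndependent (ZMod p) x := by
    have h1 := ht.1.comp e e.injective
    have h2 : x = (fun i : t => (i : K)) ∘ e := funext hx
    rw [h2]
    exact h1
  have hinj : Function.Injective (aeval x : MvPolynomial (Fin t.card) (ZMod p) →ₐ[ZMod p] K) :=
    hind
  obtain ⟨ψ, hψ⟩ : ∃ ψ : FractionRing (MvPolynomial (Fin t.card) (ZMod p)) →+* K,
      ∀ f : MvPolynomial (Fin t.card) (ZMod p), ψ (algebraMap _ _ f) = aeval x f :=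
    ⟨IsFractionRing.lift (g := (aeval x : MvPolynomial (Fin t.card) (ZMod p) →ₐ[ZMod p] K).toRingHom)
      hinj, fun f => IsFractionRing.lift_algebraMap hinj f⟩
  let _ : Algebra (FractionRing (MvPolynomial (Fin t.card) (ZMod p))) K := ψ.toAlgebra
  have hψ' : ∀ f : MvPolynomial (Fin t.card) (ZMod p),
      algebraMap (FractionRing (MvPolynomial (Fin t.card) (ZMod p))) K
        (algebraMap (MvPolynomial (Fin t.card) (ZMod p)) _ f) = aeval x f := hψ
  have hsepF : Algebra.IsSeparable (FractionRing (MvPolynomial (Fin t.card) (ZMod p))) K := by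
    have hsep' : Algebra.IsSeparable
      (IntermediateField.adjoin (ZMod p) (t : Set K)).toSubfield K := hsep
    refine sep_of_range (E := (IntermediateField.adjoin (ZMod p) (t : Set K)).toSubfield) ?_
    intro y hy
    have hle : IntermediateField.adjoin (ZMod p) (t : Set K) ≤
        (Subfield.toIntermediateField ψ.fieldRange (fun c => ⟨algebraMap (MvPolynomial (Fin t.card) (ZMod p)) _ (C c), by
          rw [hψ, aeval_C]⟩) : IntermediateField (ZMod p) K) := by
      rw [IntermediateField.adjoin_le_iff]
      intro z hz
      refine ⟨algebraMap (MvPolynomial (Fin t.card) (ZMod p)) _ (X (e.symm ⟨z, hz⟩)), ?_⟩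
      rw [hψ, aeval_X, hx, Equiv.apply_symm_apply]
    exact hle hy
  choose D' hD' using fun j : Fin t.card => der_frac
    (F := FractionRing (MvPolynomial (Fin t.card) (ZMod p)))
    ((pderiv j : Derivation (ZMod p) (MvPolynomial (Fin t.card) (ZMod p)) _).restrictScalars ℤ)
  choose δ hδ using fun j : Fin t.card => der_exists (L := K) (D' j)
  have hD'' : ∀ (j : Fin t.card) (f : MvPolynomial (Fin t.card) (ZMod p)),
      D' j (algebraMap _ _ f) = algebraMap _ _ (pderiv j f) := fun j f => hD' j f
  refine ⟨t.card, x, δ, ?_, hind, ?_, ?_, ?_⟩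
  · rw [← ht.cardinalMk_eq_trdeg]
    simp
  · intro i j
    have h1 : x i = algebraMap (FractionRing (MvPolynomial (Fin t.card) (ZMod p))) K
        (algebraMap (MvPolynomial (Fin t.card) (ZMod p)) _ (X i)) := by
      rw [hψ', aeval_X]
    rw [h1, hδ, hD'', hψ']
    by_cases hij : i = j
    · rw [hij, pderiv_X_self, map_one, if_pos rfl]
    · rw [pderiv_X_of_ne hij, map_zero, if_neg hij]
  · intro D hD
    have hpoly : ∀ f : MvPolynomial (Fin t.card) (ZMod p), D (aeval x f) = 0 := by
      intro f
      induction f using MvPolynomial.induction_on with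
      | C c =>
        rw [aeval_C]
        obtain ⟨n, rfl⟩ := ZMod.natCast_zmod_surjective c
        rw [map_natCast]
        exact D.map_natCast n
      | add f g hf hg => rw [map_add, map_add, hf, hg, add_zero]
      | mul_X f i hf => rw [map_mul, D.leibniz, hf, aeval_X, hD, smul_zero, smul_zero, add_zero]
    refine der_unique (F := FractionRing (MvPolynomial (Fin t.card) (ZMod p))) D 0 fun y => ?_
    obtain ⟨f, g, hg, rfl⟩ := IsFractionRing.div_surjective
      (A := MvPolynomial (Fin t.card) (ZMod p)) y
    rw [map_div₀, hψ', hψ', D.leibniz_div, hpoly, hpoly, smul_zero, smul_zero, sub_zero, smul_zero]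
    rfl
  · have hchar : CharP (FractionRing (MvPolynomial (Fin t.card) (ZMod p))) p :=
      charP_of_injective_algebraMap (IsFractionRing.injective
        (MvPolynomial (Fin t.card) (ZMod p)) _) p
    exact sep_ext D' δ hδ (sep_base D' hD'')

end UDV
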