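import Pool.Agent.UDV.Divisorial
import Pool.Agent.UDV.SepBasis

/-!
# UDV: a separating transcendence basis adapted to a divisorial valuation ring

PROOF of `kdim_eq`.  In characteristic `p` the second summand is `0`, and the prime field
`(⊥ : Subfield K)` is the image of `ZMod p` (a field isomorphism compatible with the algebra
structures), so the transcendence degrees over both agree (algebraic independence over `ZMod p` and
over its image is the same).

PROOF of `div_basis`.  Let `κ` be the residue field of `O`, of characteristic `p`.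
`kdim K < ℵ₀` (finitely generated; `sep_basis`), so `kdim κ = n` and `kdim K = n + 1` for some
natural `n` (`kdim_eq` for both).
1. Choose a transcendence basis of `κ` over `ZMod p`, indexed by `Fin n`, and lift it to
`y : Fin n → O`.  For `0 ≠ g ∈ MvPolynomial (Fin n) (ZMod p)` the element `g(y)` is a unit of `O`.
Let `ϖ` be a generator of the maximal ideal of `O`.
2. `sep_basis` gives `d = n + 1`, `x`, `δ`.  `ϖ` is not a `p`-th power in `K` (`ϖ = y ^ p` would give
`y ∈ O` a non-unit, so `ϖ ∣ y`, and `ϖ ^ 2 ∣ y ^ p = ϖ`).  So `δ j₀ ϖ ≠ 0` for some `j₀`; let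
`σ : Fin n ≃ {j // j ≠ j₀}`, e.g. `j₀.succAbove`.
3. Choose `N` with `ϖ ^ (p N) * x j ∈ (ϖ)` for all `j` (`O` is a discrete valuation ring of `K`:
every element of `K` is `ϖ ^ k` times a unit, `k ∈ ℤ`).  Put `z i = y i ^ p + ϖ ^ (p N) * x (σ i)`
for `i : Fin n` and `z (last) = ϖ` (`Fin.snoc`).  The residue of `z i` is the `p`-th power of the
residue of `y i`, so the residues of `z i`, `i < n`, are still algebraically independent.
4. Fourth claim: let `f(z)` be in the maximal ideal, `f = f₀ + X_last * f₁` with `f₀` not containing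
`X_last`.  Then `f₀(z)` is in the maximal ideal, `f₀ = 0` by the independence of the residues.
Fifth claim (algebraic independence): if `f(z) = 0`, `f ≠ 0`, write `f = X_last ^ m * g`,
`X_last ∤ g`; then `g(z) = 0` and `X_last ∣ g` by the fourth claim, contradiction.
6. Separability: `z` has `n + 1 = trdeg` elements, so it is a transcendence basis and
`E = adjoin (ZMod p) (range z) ⊆ K` has `K / E` algebraic and finitely generated, so finite.  By
`Algebra.FormallyUnramified.iff_isSeparable` it suffices that `Ω[K⁄E] = 0`, i.e. that every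
`E`-derivation `D : K → K` is `0` (a nonzero vector space has a nonzero linear form).  As a
`ℤ`-derivation, `D - ∑ j, D (x j) • δ j` vanishes at all `x j`, so
`D = ∑ j, D (x j) • δ j`.  For `i < n`: `0 = D (z i) = ϖ ^ (p N) * D (x (σ i))`
(derivatives of `p`-th powers are `0`), so `D (x (σ i)) = 0`, and `0 = D ϖ = D (x j₀) * δ j₀ ϖ` gives
`D (x j₀) = 0`.
-/

open MvPolynomial

namespace UDV

universe u

/-! ### Auxiliary lemmas -/

private theorem hom_aeval {p : ℕ} {A B : Type*} [CommRing A] [CommRing B] [Algebra (ZMod p) A]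
    [Algebra (ZMod p) B] (φ : A →+* B) {σ : Type*} (g : σ → A) (f : MvPolynomial σ (ZMod p)) :
    φ (aeval g f) = aeval (fun i => φ (g i)) f := by
  rw [MvPolynomial.map_aeval, MvPolynomial.aeval_def]
  have h : φ.comp (algebraMap (ZMod p) A) = algebraMap (ZMod p) B := Subsingleton.elim _ _
  rw [h]
  rfl

private theorem dvd_sub_snoc {R : Type*} [CommRing R] {n : ℕ}
    (f : MvPolynomial (Fin (n + 1)) R) :
    X (Fin.last n) ∣ f - rename Fin.castSucc (aeval (Fin.snoc (fun i => X i) 0 :
      Fin (n + 1) → MvPolynomial (Fin n) R) f) := by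
  induction f using MvPolynomial.induction_on with
  | C a => simp
  | add f g hf hg =>
    rw [map_add, map_add, add_sub_add_comm]
    exact dvd_add hf hg
  | mul_X f i hf =>
    rw [map_mul, map_mul, aeval_X]
    induction i using Fin.lastCases with
    | last =>
      rw [Fin.snoc_last, map_zero, mul_zero, sub_zero]
      exact dvd_mul_left _ _
    | cast j =>
      rw [Fin.snoc_castSucc, rename_X, ← sub_mul]
      exact hf.mul_right _

private theorem algInd_of_dvd {k K : Type*} [Field k] [Field K] [Algebra k K] {n : ℕ}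
    (z : Fin (n + 1) → K) (hz : z (Fin.last n) ≠ 0)
    (h : ∀ f : MvPolynomial (Fin (n + 1)) k, aeval z f = 0 → X (Fin.last n) ∣ f) :
    AlgebraicIndependent k z := by
  rw [algebraicIndependent_iff]
  intro f hf
  by_contra hne
  induction hd : f.totalDegree using Nat.strong_induction_on generalizing f with
  | _ d ih =>
    obtain ⟨g, rfl⟩ := h f hf
    have hg0 : g ≠ 0 := right_ne_zero_of_mul hne
    have hg : aeval z g = 0 := by
      rw [map_mul, aeval_X] at hf
      exact (mul_eq_zero.1 hf).resolve_left hz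
    have h1 : (X (Fin.last n) * g).totalDegree = 1 + g.totalDegree := by
      rw [totalDegree_mul_of_isDomain (X_ne_zero _) hg0, totalDegree_X]
    exact ih g.totalDegree (by omega) g hg hg0 rfl

private theorem exists_fin_algInd {k κ : Type*} [Field k] [Field κ] [Algebra k κ] {n : ℕ}
    (h : Algebra.trdeg k κ = n) : ∃ y : Fin n → κ, AlgebraicIndependent k y := by
  obtain ⟨s, hs⟩ := exists_isTranscendenceBasis k κ
  have h1 : Cardinal.mk s = n := by rw [hs.cardinalMk_eq_trdeg, h]
  obtain ⟨e⟩ := Cardinal.mk_eq_nat_iff.1 h1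
  exact ⟨fun i => (e.symm i : κ), hs.1.comp e.symm e.symm.injective⟩

private theorem exists_pow_mul {K : Type*} [Field K] (O : ValuationSubring K)
    [IsDiscreteValuationRing O] {ϖ : O} (hϖ : Irreducible ϖ) (a : K) :
    ∃ M : ℕ, ∀ m, M ≤ m → ∃ w : O, ((w * ϖ : O) : K) = (ϖ : K) ^ m * a := by
  obtain ⟨b, c, hc, rfl⟩ := IsFractionRing.div_surjective (A := O) a
  have hc0 : c ≠ 0 := nonZeroDivisors.ne_zero hc
  obtain ⟨j, v, hv⟩ := IsDiscreteValuationRing.eq_unit_mul_pow_irreducible hc0 hϖ
  refine ⟨j + 1, fun m hm => ⟨ϖ ^ (m - (j + 1)) * b * ((v⁻¹ : Oˣ) : O), ?_⟩⟩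
  have hcK : algebraMap O K c ≠ 0 := by
    intro h0
    apply hc0
    exact IsFractionRing.injective O K (by rw [h0, map_zero])
  rw [mul_div_assoc', eq_div_iff hcK]
  have h1 : ϖ ^ (m - (j + 1)) * b * ((v⁻¹ : Oˣ) : O) * ϖ * c = ϖ ^ m * b := by
    rw [hv]
    have h2 : ϖ ^ m = ϖ ^ (m - (j + 1)) * (ϖ * ϖ ^ j) := by
      rw [← pow_succ', ← pow_add]
      congr 1
      omega
    have h3 : ((v⁻¹ : Oˣ) : O) * (v : O) = 1 := v.inv_mul
    rw [h2]
    linear_combination ϖ ^ (m - (j + 1)) * b * ϖ * ϖ ^ j * h3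
  exact congrArg (algebraMap O K) h1 |>.trans (by rw [map_mul, map_pow]; rfl)

private theorem der_pow_zero {K : Type*} [Field K] (p : ℕ) [CharP K p] {E : Type*} [Field E]
    [Algebra E K] (D : Derivation E K K) (a : K) (m : ℕ) (hm : p ∣ m) : D (a ^ m) = 0 := by
  rw [Derivation.leibniz_pow, ← Nat.cast_smul_eq_nsmul K, (CharP.cast_eq_zero_iff K p m).2 hm,
    zero_smul]

private theorem sum_der_apply {K : Type*} [Field K] {d : ℕ} (c : Fin d → K)
    (δ : Fin d → Derivation ℤ K K) (a : K) :
    (∑ j, c j • δ j : Derivation ℤ K K) a = ∑ j, c j * δ j a := by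
  have h := map_sum (Derivation.coeFnAddMonoidHom (R := ℤ) (A := K) (M := K))
    (fun j => c j • δ j) Finset.univ
  have h2 := congrFun h a
  rw [Finset.sum_apply] at h2
  exact h2

private theorem separable_of_der {E K : Type u} [Field E] [Field K] [Algebra E K]
    [Algebra.EssFiniteType E K] (hD : ∀ D : Derivation E K K, D = 0) :
    Algebra.IsSeparable E K := by
  refine (Algebra.FormallyUnramified.iff_isSeparable E K).1 ⟨⟨fun a b => ?_⟩⟩
  rw [← sub_eq_zero, ← Module.forall_dual_apply_eq_zero_iff K]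
  intro φ
  have h1 : KaehlerDifferential.linearMapEquivDerivation E K φ = 0 := hD _
  have h2 : φ = 0 := (LinearEquiv.map_eq_zero_iff _).1 h1
  rw [h2]
  rfl

theorem kdim_eq (p : ℕ) [Fact p.Prime] (K : Type u) [Field K] [CharP K p] :
    letI := ZMod.algebra K p
    kdim K = Algebra.trdeg (ZMod p) K := by
  let _ := ZMod.algebra K p
  have hp : p.Prime := Fact.out
  have hchar : CharP (⊥ : Subfield K) p :=
    (⊥ : Subfield K).subtype.charP (⊥ : Subfield K).subtype_injective p
  let I1 := ZMod.algebra (⊥ : Subfield K) p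
  have hnz : ¬ CharZero K := fun h => by
    have h0 : CharP K 0 := CharP.ofCharZero K
    exact hp.ne_zero (CharP.eq K ‹CharP K p› h0)
  have htow : @IsScalarTower (ZMod p) (⊥ : Subfield K) K I1.toSMul _ _ :=
    IsScalarTower.of_algebraMap_eq' (Subsingleton.elim _ _)
  have halg : Algebra.IsAlgebraic (ZMod p) (⊥ : Subfield K) := by
    refine ⟨fun x => ?_⟩
    have hle : (⊥ : Subfield K) ≤ (algebraMap (ZMod p) K).fieldRange := bot_le
    have hx : (x : K) ∈ (algebraMap (ZMod p) K).fieldRange := hle x.2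
    obtain ⟨a, ha⟩ := hx
    have h1 : algebraMap (ZMod p) (⊥ : Subfield K) a = x := by
      apply Subtype.ext
      rw [← ha]
      exact (IsScalarTower.algebraMap_apply (ZMod p) (⊥ : Subfield K) K a).symm
    rw [← h1]
    exact isAlgebraic_algebraMap a
  unfold kdim
  rw [if_neg hnz, add_zero, ← trdeg_add_eq (ZMod p) (⊥ : Subfield K) (A := K),
    trdeg_eq_zero (R := ZMod p) (A := (⊥ : Subfield K)), zero_add]

theorem div_basis (p : ℕ) [Fact p.Prime] (K : Type u) [Field K] [CharP K p] (hfg : FGField K)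
    (O : ValuationSubring K) (hO : IsDivisorial O) :
    letI := ZMod.algebra K p
    ∃ (n : ℕ) (z : Fin (n + 1) → K), (∀ i, z i ∈ O) ∧ O.valuation (z (Fin.last n)) < 1 ∧
      (∀ x, O.valuation x < 1 → ∃ y ∈ O, x = y * z (Fin.last n)) ∧
      (∀ f : MvPolynomial (Fin (n + 1)) (ZMod p), O.valuation (aeval z f) < 1 →
        X (Fin.last n) ∣ f) ∧
      AlgebraicIndependent (ZMod p) z ∧
      Algebra.IsAlgebraic (IntermediateField.adjoin (ZMod p) (Set.range z)) K ∧
      Algebra.IsSeparable (IntermediateField.adjoin (ZMod p) (Set.range z)) K := by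
  let _ := ZMod.algebra K p
  have hp : p.Prime := Fact.out
  have hdvr := hO.dvr
  have hchO : CharP O p := O.subtype.charP O.subtype_injective p
  have hchκ : CharP (IsLocalRing.ResidueField O) p :=
    CharP.of_ringHom_of_ne_zero (IsLocalRing.residue O) p hp.ne_zero
  let _ := ZMod.algebra O p
  let _ := ZMod.algebra (IsLocalRing.ResidueField O) p
  have hess : Algebra.EssFiniteType (ZMod p) K := by
    rw [← IntermediateField.fg_top_iff]
    obtain ⟨s, hs⟩ := hfg
    refine ⟨s, ?_⟩
    rw [eq_top_iff]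
    intro y _
    have h1 : Subfield.closure (s : Set K) ≤
        (IntermediateField.adjoin (ZMod p) (s : Set K)).toSubfield := by
      rw [Subfield.closure_le]
      exact IntermediateField.subset_adjoin _ _
    rw [hs] at h1
    exact h1 (Subfield.mem_top y)
  obtain ⟨d, x, δ, htr, hx, hδ, huniq, hpow⟩ := sep_basis p K hfg
  have hdim := hO.dim
  rw [kdim_eq p K, kdim_eq p (IsLocalRing.ResidueField O), htr] at hdim
  obtain ⟨n, hn⟩ := Cardinal.lt_aleph0.1 (lt_of_le_of_lt (le_self_add (b := 1))
    (hdim ▸ Cardinal.natCast_lt_aleph0 (n := d)))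
  have hd : d = n + 1 := by
    rw [hn] at hdim
    exact_mod_cast hdim.symm
  subst hd
  obtain ⟨y₀, hy₀⟩ := exists_fin_algInd hn
  choose y hy using fun i => IsLocalRing.residue_surjective (R := O) (y₀ i)
  obtain ⟨ϖ, hϖ⟩ := IsDiscreteValuationRing.exists_irreducible O
  have hϖK : (ϖ : K) ≠ 0 := fun h => hϖ.ne_zero (Subtype.ext h)
  have hϖnp : ¬ ∃ y, y ^ p = (ϖ : K) := by
    rintro ⟨a, ha⟩
    have ha1 : a ∈ O := by
      rcases O.mem_or_inv_mem a with h1 | h1
      · exact h1
      · by_cases ha0 : a = 0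
        · rw [ha0]; exact O.zero_mem
        · have h2 : a = a⁻¹ ^ (p - 1) * (ϖ : K) := by
            rw [← ha]
            have h3 : a ^ p = a ^ (p - 1) * a := by
              rw [← pow_succ]
              congr 1
              have := hp.one_lt
              omega
            rw [h3, ← mul_assoc, ← mul_pow, inv_mul_cancel₀ ha0, one_pow, one_mul]
          rw [h2]
          exact O.mul_mem _ _ (O.pow_mem h1 _) ϖ.2
    have h4 : (⟨a, ha1⟩ : O) ^ p = ϖ := Subtype.ext ha
    rw [← h4] at hϖ
    exact not_irreducible_pow hp.ne_one hϖ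
  obtain ⟨j₀, hj₀⟩ : ∃ j₀, δ j₀ (ϖ : K) ≠ 0 := by
    by_contra hcon
    push Not at hcon
    exact hϖnp (hpow _ hcon)
  choose M hM using fun j => exists_pow_mul O hϖ (x j)
  obtain ⟨N, hN⟩ : ∃ N : ℕ, ∀ j, M j ≤ p * N := by
    refine ⟨∑ j, M j, fun j => ?_⟩
    have h1 : M j ≤ ∑ j, M j := Finset.single_le_sum (fun _ _ => Nat.zero_le _) (Finset.mem_univ j)
    exact h1.trans (Nat.le_mul_of_pos_left _ hp.pos)
  choose w hw using fun j => hM j (p * N) (hN j)
  obtain ⟨zO, hzO⟩ : ∃ zO : Fin (n + 1) → O,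
      zO = Fin.snoc (fun i => y i ^ p + w (j₀.succAbove i) * ϖ) ϖ := ⟨_, rfl⟩
  have hzl : zO (Fin.last n) = ϖ := by rw [hzO, Fin.snoc_last]
  have hzc : ∀ i : Fin n, zO i.castSucc = y i ^ p + w (j₀.succAbove i) * ϖ := fun i => by
    rw [hzO, Fin.snoc_castSucc]
  have hϖm : ϖ ∈ IsLocalRing.maximalIdeal O := (IsLocalRing.mem_maximalIdeal _).2 hϖ.not_isUnit
  have hresϖ : IsLocalRing.residue O ϖ = 0 := (IsLocalRing.residue_eq_zero_iff _).2 hϖm
  obtain ⟨z, hz⟩ : ∃ z : Fin (n + 1) → K, z = fun i => (zO i : K) := ⟨_, rfl⟩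
  have hzlast : z (Fin.last n) = (ϖ : K) := by rw [hz, ← hzl]
  have haev : ∀ f : MvPolynomial (Fin (n + 1)) (ZMod p), aeval z f = ((aeval zO f : O) : K) := by
    intro f
    have h1 := hom_aeval O.subtype zO f
    rw [hz]
    exact h1.symm
  -- the fourth claim
  have h4 : ∀ f : MvPolynomial (Fin (n + 1)) (ZMod p), O.valuation (aeval z f) < 1 →
      X (Fin.last n) ∣ f := by
    intro f hf
    rw [haev, ← ValuationSubring.valuation_lt_one_iff] at hf
    have h1 : IsLocalRing.residue O (aeval zO f) = 0 := (IsLocalRing.residue_eq_zero_iff _).2 hf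
    rw [hom_aeval] at h1
    have h2 : (fun i => IsLocalRing.residue O (zO i)) =
        fun i => aeval (fun i => y₀ i ^ p) ((Fin.snoc (fun i => X i) 0 :
          Fin (n + 1) → MvPolynomial (Fin n) (ZMod p)) i) := by
      funext i
      induction i using Fin.lastCases with
      | last => rw [hzl, hresϖ, Fin.snoc_last, map_zero]
      | cast j =>
        rw [hzc, Fin.snoc_castSucc, aeval_X, map_add, map_mul, map_pow, hresϖ, mul_zero, add_zero,
          hy]
    rw [h2] at h1
    have h3 := hom_aeval (aeval (fun i => y₀ i ^ p) :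
      MvPolynomial (Fin n) (ZMod p) →ₐ[ZMod p] IsLocalRing.ResidueField O).toRingHom
      (Fin.snoc (fun i => X i) 0 : Fin (n + 1) → MvPolynomial (Fin n) (ZMod p)) f
    have h5 : aeval (fun i => y₀ i ^ p) (aeval (Fin.snoc (fun i => X i) 0 :
        Fin (n + 1) → MvPolynomial (Fin n) (ZMod p)) f) = 0 := h3.trans h1
    have h6 := hom_aeval (frobenius (IsLocalRing.ResidueField O) p) y₀
      (aeval (Fin.snoc (fun i => X i) 0 : Fin (n + 1) → MvPolynomial (Fin n) (ZMod p)) f)
    have h7 : (aeval y₀ (aeval (Fin.snoc (fun i => X i) 0 :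
        Fin (n + 1) → MvPolynomial (Fin n) (ZMod p)) f)) ^ p = 0 := h6.trans h5
    have h8 := (algebraicIndependent_iff.1 hy₀) _ (pow_eq_zero_iff hp.ne_zero |>.1 h7)
    have h9 := dvd_sub_snoc f
    rw [h8, map_zero, sub_zero] at h9
    exact h9
  have h5 : AlgebraicIndependent (ZMod p) z := by
    refine algInd_of_dvd z (by rw [hzlast]; exact hϖK) fun f hf => h4 f ?_
    rw [hf, map_zero]
    exact zero_lt_one
  have htb : IsTranscendenceBasis (ZMod p) z := by
    refine h5.isTranscendenceBasis_of_lift_trdeg_le_of_finite ?_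
    rw [htr]
    simp
  have hE : Algebra.EssFiniteType (IntermediateField.adjoin (ZMod p) (Set.range z)) K :=
    Algebra.EssFiniteType.of_comp (ZMod p) _ K
  refine ⟨n, z, fun i => ?_, ?_, ?_, h4, h5, htb.isAlgebraic_field, separable_of_der fun D => ?_⟩
  · rw [hz]
    exact (zO i).2
  · rw [hzlast]
    exact (ValuationSubring.valuation_lt_one_iff O ϖ).1 hϖm
  · intro a ha
    have ha1 : a ∈ O := (O.valuation_le_one_iff a).1 ha.le
    have ha2 : (⟨a, ha1⟩ : O) ∈ IsLocalRing.maximalIdeal O :=
      (ValuationSubring.valuation_lt_one_iff O ⟨a, ha1⟩).2 ha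
    rw [(IsDiscreteValuationRing.irreducible_iff_uniformizer ϖ).1 hϖ,
      Ideal.mem_span_singleton'] at ha2
    obtain ⟨b, hb⟩ := ha2
    refine ⟨b, b.2, ?_⟩
    rw [hzlast]
    exact (congrArg Subtype.val hb).symm
  · have hDz : ∀ i, D (z i) = 0 := by
      intro i
      exact D.map_algebraMap ⟨z i, IntermediateField.subset_adjoin _ _ ⟨i, rfl⟩⟩
    have h6 : D.restrictScalars ℤ = ∑ j, D (x j) • δ j := by
      rw [← sub_eq_zero]
      refine huniq _ fun i => ?_
      rw [Derivation.sub_apply, sum_der_apply, Derivation.restrictScalars_apply]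
      simp only [hδ, mul_ite, mul_one, mul_zero, Finset.sum_ite_eq, Finset.mem_univ, if_true,
        sub_self]
    have h7 : ∀ a, D a = ∑ j, D (x j) * δ j a := by
      intro a
      rw [← sum_der_apply, ← h6]
      rfl
    have h8 : ∀ i : Fin n, D (x (j₀.succAbove i)) = 0 := by
      intro i
      have h9 := hDz i.castSucc
      have h10 : z i.castSucc = (y i : K) ^ p + (ϖ : K) ^ (p * N) * x (j₀.succAbove i) := by
        rw [← hw]
        have h11 := hzc i
        rw [hz]
        show ((zO i.castSucc : O) : K) = _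
        rw [h11]
        rfl
      rw [h10, map_add, Derivation.leibniz, der_pow_zero p D _ p dvd_rfl,
        der_pow_zero p D _ (p * N) (dvd_mul_right p N), smul_zero, add_zero, zero_add,
        smul_eq_mul] at h9
      exact (mul_eq_zero.1 h9).resolve_left (pow_ne_zero _ hϖK)
    have h9 : D (x j₀) = 0 := by
      have h10 := hDz (Fin.last n)
      rw [hzlast, h7, Finset.sum_eq_single j₀] at h10
      · exact (mul_eq_zero.1 h10).resolve_right hj₀
      · intro j _ hj
        rcases Fin.eq_self_or_eq_succAbove j₀ j with h11 | ⟨i, h11⟩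
        · exact absurd h11 hj
        · rw [h11, h8, zero_mul]
      · intro h11
        exact absurd (Finset.mem_univ _) h11
    refine Derivation.ext fun a => ?_
    rw [h7]
    refine Finset.sum_eq_zero fun j _ => ?_
    rcases Fin.eq_self_or_eq_succAbove j₀ j with h11 | ⟨i, h11⟩
    · rw [h11, h9, zero_mul]
    · rw [h11, h8, zero_mul]

end UDV
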