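import Mathlib

/-!
# UDV: the valuation of a prime element in a factorial ring

PROOF of `exists_piVal`.  For example: `O = Localization.AtPrime (Ideal.span {π})` is a local
noetherian domain whose maximal ideal is generated by (the image of) `π` and not a field, hence a
discrete valuation ring, with fraction field `F`
(`IsFractionRing.isFractionRing_of_isDomain_of_isLocalization`); let `v` be the valuation of its
maximal ideal (`IsDiscreteValuationRing.maximalIdeal`, `HeightOneSpectrum.valuation`).  Elements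
`f` of `R` not divisible by `π` are units of `O`, so `v f = 1`; `π` generates the maximal ideal, so
`v π = exp (-1)`.  Alternatively define `v` by hand on `R` as `exp (- emultiplicity π f)` and extend
it to the fraction field (`Valuation.extendToLocalization`).
(Noetherian is assumed only for this proof.)

PROOF of `piVal_le_one`.  `x = f / g`, `f = π ^ a * f'`, `g = π ^ b * g'` with `π ∤ f'`, `π ∤ g'`
(finite multiplicity in a factorial ring); `v x = exp (b - a) ≤ 1` gives `b ≤ a`, and
`x = π ^ (a - b) * f' / g'`.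
PROOF of `piVal_mul`.  By induction on multiplicity / from the two defining properties.
-/

open WithZero

namespace UDV

universe u v

open Classical in
/-- the valuation on the ring -/
noncomputable def piVal0 {R : Type v} [CommRing R] [IsDomain R] [WfDvdMonoid R] {π : R}
    (hπ : Prime π) : Valuation R ℤᵐ⁰ where
  toFun f := if f = 0 then 0 else exp (-(multiplicity π f : ℤ))
  map_zero' := if_pos rfl
  map_one' := by
    rw [if_neg one_ne_zero]
    have h1 : multiplicity π (1 : R) = 0 := by
      rw [multiplicity_eq_zero]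
      exact fun h => hπ.not_isUnit (isUnit_of_dvd_one h)
    rw [h1]
    simp
  map_mul' f g := by
    by_cases hf : f = 0
    · simp [hf]
    by_cases hg : g = 0
    · simp [hg]
    rw [if_neg hf, if_neg hg, if_neg (mul_ne_zero hf hg),
      multiplicity_mul hπ (FiniteMultiplicity.of_not_isUnit hπ.not_isUnit (mul_ne_zero hf hg)),
      ← exp_add]
    congr 1
    push_cast
    ring
  map_add_le_max' f g := by
    by_cases hf : f = 0
    · simp [hf]
    by_cases hg : g = 0
    · simp [hg]
    by_cases hfg : f + g = 0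
    · rw [if_pos hfg]
      exact zero_le
    rw [if_neg hf, if_neg hg, if_neg hfg, le_max_iff, exp_le_exp, exp_le_exp]
    have h1 := FiniteMultiplicity.of_not_isUnit hπ.not_isUnit hf
    have h2 := FiniteMultiplicity.of_not_isUnit hπ.not_isUnit hg
    have h3 := FiniteMultiplicity.of_not_isUnit hπ.not_isUnit hfg
    rcases le_total (multiplicity π f) (multiplicity π g) with h | h
    · left
      have h4 : π ^ multiplicity π f ∣ f + g :=
        dvd_add (h1.pow_dvd_iff_le_multiplicity.2 le_rfl) (h2.pow_dvd_iff_le_multiplicity.2 h)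
      have h5 := h3.pow_dvd_iff_le_multiplicity.1 h4
      omega
    · right
      have h4 : π ^ multiplicity π g ∣ f + g :=
        dvd_add (h1.pow_dvd_iff_le_multiplicity.2 h) (h2.pow_dvd_iff_le_multiplicity.2 le_rfl)
      have h5 := h3.pow_dvd_iff_le_multiplicity.1 h4
      omega

theorem piVal0_apply {R : Type v} [CommRing R] [IsDomain R] [WfDvdMonoid R] {π : R}
    (hπ : Prime π) {f : R} (hf : f ≠ 0) : piVal0 hπ f = exp (-(multiplicity π f : ℤ)) := if_neg hf

theorem exists_piVal {R : Type v} [CommRing R] [IsDomain R] [IsNoetherianRing R]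
    {F : Type u} [Field F] [Algebra R F] [IsFractionRing R F] {π : R} (hπ : Prime π) :
    ∃ v : Valuation F ℤᵐ⁰, v (algebraMap R F π) = exp (-1 : ℤ) ∧
      ∀ f : R, ¬ π ∣ f → v (algebraMap R F f) = 1 := by
  have hS : nonZeroDivisors R ≤ (piVal0 hπ).supp.primeCompl := by
    intro f hf h0
    have hf0 : f ≠ 0 := nonZeroDivisors.ne_zero hf
    have h1 : piVal0 hπ f = 0 := h0
    rw [piVal0_apply hπ hf0] at h1
    exact exp_ne_zero h1
  refine ⟨(piVal0 hπ).extendToLocalization hS F, ?_, fun f hf => ?_⟩
  · rw [Valuation.extendToLocalization_apply_map_apply, piVal0_apply hπ hπ.ne_zero]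
    have h1 : multiplicity π π = 1 :=
      multiplicity_self
    rw [h1]
    rfl
  · have hf0 : f ≠ 0 := fun h => hf (h ▸ dvd_zero π)
    rw [Valuation.extendToLocalization_apply_map_apply, piVal0_apply hπ hf0,
      multiplicity_eq_zero.2 hf]
    simp

/-- the form of a nonzero element -/
theorem pi_split {R : Type v} [CommRing R] [IsDomain R] [UniqueFactorizationMonoid R] {π : R}
    (hπ : Prime π) {f : R} (hf : f ≠ 0) : ∃ (n : ℕ) (c : R), f = π ^ n * c ∧ ¬ π ∣ c := by
  obtain ⟨c, h1, h2⟩ := (FiniteMultiplicity.of_not_isUnit hπ.not_isUnit hf).exists_eq_pow_mul_and_not_dvd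
  exact ⟨_, c, h1, h2⟩

theorem piVal_int {R : Type v} [CommRing R] [IsDomain R] [UniqueFactorizationMonoid R]
    {F : Type u} [Field F] [Algebra R F] [IsFractionRing R F] {π : R} (hπ : Prime π)
    {v : Valuation F ℤᵐ⁰} (h1 : v (algebraMap R F π) = exp (-1 : ℤ))
    (h2 : ∀ f : R, ¬ π ∣ f → v (algebraMap R F f) = 1) (f : R) : v (algebraMap R F f) ≤ 1 := by
  by_cases hf : f = 0
  · rw [hf, map_zero, map_zero]
    exact zero_le
  · obtain ⟨n, c, h3, h4⟩ := pi_split hπ hf
    rw [h3, map_mul, map_mul, h2 c h4, mul_one, map_pow, map_pow, h1]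
    refine pow_le_one₀ zero_le ?_
    rw [← exp_zero, exp_le_exp]
    norm_num

theorem piVal_le_one {R : Type v} [CommRing R] [IsDomain R] [UniqueFactorizationMonoid R]
    {F : Type u} [Field F] [Algebra R F] [IsFractionRing R F] {π : R} (hπ : Prime π)
    {v : Valuation F ℤᵐ⁰} (h1 : v (algebraMap R F π) = exp (-1 : ℤ))
    (h2 : ∀ f : R, ¬ π ∣ f → v (algebraMap R F f) = 1) {x : F} (hx : v x ≤ 1) :
    ∃ f g : R, ¬ π ∣ g ∧ x = algebraMap R F f / algebraMap R F g := by
  obtain ⟨f, g, hg, rfl⟩ := IsFractionRing.div_surjective (A := R) x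
  have hg0 : g ≠ 0 := nonZeroDivisors.ne_zero hg
  by_cases hf : f = 0
  · refine ⟨0, 1, fun h => hπ.not_isUnit (isUnit_of_dvd_one h), ?_⟩
    rw [hf]
    simp
  obtain ⟨a, f', hf1, hf2⟩ := pi_split hπ hf
  obtain ⟨b, g', hg1, hg2⟩ := pi_split hπ hg0
  have hinj : Function.Injective (algebraMap R F) := IsFractionRing.injective R F
  have hπ0 : algebraMap R F π ≠ 0 := fun h =>
    hπ.ne_zero (hinj (by rw [h, map_zero]))
  have hg'0 : algebraMap R F g' ≠ 0 := fun h => by
    have h3 : g' = 0 := hinj (by rw [h, map_zero])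
    exact hg2 (h3 ▸ dvd_zero π)
  have hba : b ≤ a := by
    have h3 : v (algebraMap R F f / algebraMap R F g) = exp ((b : ℤ) - a) := by
      rw [hf1, hg1, map_div₀, map_mul, map_mul, map_mul, map_mul, h2 f' hf2, h2 g' hg2, mul_one,
        mul_one, map_pow, map_pow, map_pow, map_pow, h1, ← exp_nsmul, ← exp_nsmul, ← exp_sub]
      congr 1
      simp
      ring
    rw [h3, ← exp_zero, exp_le_exp] at hx
    omega
  refine ⟨π ^ (a - b) * f', g', hg2, ?_⟩
  rw [hf1, hg1, map_mul, map_mul, map_mul, map_pow, map_pow, map_pow]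
  rw [div_eq_div_iff (mul_ne_zero (pow_ne_zero _ hπ0) hg'0) hg'0]
  have h5 : algebraMap R F π ^ a = algebraMap R F π ^ (a - b) * algebraMap R F π ^ b := by
    rw [← pow_add, Nat.sub_add_cancel hba]
  rw [h5]
  ring

end UDV
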