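import Pool.Agent.UDV.DefB

/-!
# UDV: definability of the coding relations

PROOFS.  Each relation is by definition a first-order combination of relations already known to be
definable: use `UD.ex`, `UD.all`, `UD.and`, `UD.or`, `UD.not`, `UD.imp`, `UD.eq`, `ud_NC`, `ud_Phi`,
`ud_Cg`, `ud_Pr`, `ud_Lt`, `ud_Le`, `ud_Np`.  Technique: first prove the statement for the variables
`v 0, v 1, ...` (bound variables get new numbers; `simp [Function.update]` evaluates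
`Function.update v i x j` for numerals), then substitute the terms with `UD.subst`
(`σ i = f_{i+1}` for the parameters and `σ i = f₁` for larger `i`).
-/

open Polynomial

namespace UDV

universe u

/-- the substitution given by a list of terms -/
def sg (l : List (∀ (K : Type u) [Field K], (ℕ → K) → K))
    (d : ∀ (K : Type u) [Field K], (ℕ → K) → K) (i : ℕ) :
    ∀ (K : Type u) [Field K], (ℕ → K) → K := l.getD i d

theorem sg_TT {l : List (∀ (K : Type u) [Field K], (ℕ → K) → K)}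
    {d : ∀ (K : Type u) [Field K], (ℕ → K) → K} (hd : TT d) (h : ∀ f ∈ l, TT f) (i : ℕ) :
    TT (sg l d i) := by
  unfold sg
  rcases lt_or_ge i l.length with hi | hi
  · rw [List.getD_eq_getElem l d hi]
    exact h _ (List.getElem_mem hi)
  · rw [List.getD_eq_default l d hi]
    exact hd

section

variable {f₁ f₂ f₃ f₄ f₅ f₆ f₇ f₈ f₉ : ∀ (K : Type u) [Field K], (ℕ → K) → K}

theorem ud_Dec0 : UD.{u} (fun K _ v => Dec (ringChar K) (v 0) (v 1) (v 2) (v 3) (v 4) (v 5)) :=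
  UD.congr (fun _ _ _ _ => Iff.rfl) <| (ud_NC (TT.var 5)).and <|
    (ud_Cg (TT.var 0) (TT.var 1) (TT.var 3) (TT.var 5)).and <|
    (ud_Cg (TT.var 0) (TT.var 2) (TT.var 4) (TT.one.sub (TT.var 5))).and <|
    UD.all 6 <| (ud_NC (TT.var 6)).imp <|
      (ud_Cg (TT.var 0) (TT.var 1) (TT.var 3) (TT.var 6)).imp <|
      (ud_Cg (TT.var 0) (TT.var 2) (TT.var 4) (TT.one.sub (TT.var 6))).imp <|
      ud_Phi (TT.var 5) (TT.var 6)

theorem ud_Dec (h₁ : TT f₁) (h₂ : TT f₂) (h₃ : TT f₃) (h₄ : TT f₄) (h₅ : TT f₅) (h₆ : TT f₆) :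
    UD (fun K _ v => Dec (ringChar K) (f₁ K v) (f₂ K v) (f₃ K v) (f₄ K v) (f₅ K v) (f₆ K v)) :=
  UD.subst (σ := sg [f₁, f₂, f₃, f₄, f₅, f₆] f₁) (sg_TT h₁ (by
    simp only [List.mem_cons, List.not_mem_nil, or_false, forall_eq_or_imp, forall_eq]
    exact ⟨h₁, h₂, h₃, h₄, h₅, h₆⟩)) ud_Dec0

theorem ud_Pair0 : UD.{u} (fun K _ v => Pair (ringChar K) (v 0) (v 1) (v 2)) :=
  UD.congr (fun _ _ _ _ => Iff.rfl) <| UD.ex 3 <| (ud_NC (TT.var 3)).and <|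
    (ud_Phi (TT.var 3) (TT.var 0)).and <|
    (UD.all 4 <| (ud_Phi (TT.var 4) (TT.var 3)).imp <| UD.eq (TT.var 4) (TT.var 3)).and <|
    UD.ex 5 <| UD.ex 6 <| UD.ex 7 <| UD.ex 8 <|
      (ud_Np (TT.var 3) (TT.var 0) (TT.var 5)).and <|
      (ud_Np (TT.var 3) (TT.var 5) (TT.var 6)).and <|
      (ud_Np (TT.var 3) (TT.var 6) (TT.var 7)).and <|
      (ud_Np (TT.var 3) (TT.var 7) (TT.var 8)).and <|
      (ud_Dec (TT.var 3) (TT.var 5) (TT.var 6) (TT.var 3) (TT.var 3) (TT.var 1)).and <|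
      ud_Dec (TT.var 3) (TT.var 7) (TT.var 8) (TT.var 3) (TT.var 3) (TT.var 2)

theorem ud_Pair (h₁ : TT f₁) (h₂ : TT f₂) (h₃ : TT f₃) :
    UD (fun K _ v => Pair (ringChar K) (f₁ K v) (f₂ K v) (f₃ K v)) :=
  UD.subst (σ := sg [f₁, f₂, f₃] f₁) (sg_TT h₁ (by
    simp only [List.mem_cons, List.not_mem_nil, or_false, forall_eq_or_imp, forall_eq]
    exact ⟨h₁, h₂, h₃⟩)) ud_Pair0

theorem ud_Gen0 : UD.{u} (fun K _ v => Gen (ringChar K) (v 0) (v 1) (v 2) (v 3) (v 4) (v 5)) :=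
  UD.congr (fun _ _ _ _ => Iff.rfl) <| UD.ex 6 <| (ud_Pr (TT.var 0) (TT.var 6)).and <|
    (ud_Lt (TT.var 0) (TT.var 3) (TT.var 6)).and <|
    (ud_Le (TT.var 0) (TT.var 6) (TT.var 4)).and <|
    ud_Dec (TT.var 0) (TT.var 6) (TT.var 6) (TT.var 1) (TT.var 2) (TT.var 5)

theorem ud_Gen (h₁ : TT f₁) (h₂ : TT f₂) (h₃ : TT f₃) (h₄ : TT f₄) (h₅ : TT f₅) (h₆ : TT f₆) :
    UD (fun K _ v => Gen (ringChar K) (f₁ K v) (f₂ K v) (f₃ K v) (f₄ K v) (f₅ K v) (f₆ K v)) :=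
  UD.subst (σ := sg [f₁, f₂, f₃, f₄, f₅, f₆] f₁) (sg_TT h₁ (by
    simp only [List.mem_cons, List.not_mem_nil, or_false, forall_eq_or_imp, forall_eq]
    exact ⟨h₁, h₂, h₃, h₄, h₅, h₆⟩)) ud_Gen0

theorem ud_Ent0 : UD.{u} (fun K _ v =>
    Ent (ringChar K) (v 0) (v 1) (v 2) (v 3) (v 4) (v 5) (v 6)) :=
  UD.congr (fun _ _ _ _ => Iff.rfl) <| (ud_Pr (TT.var 0) (TT.var 5)).and <|
    (ud_Lt (TT.var 0) (TT.var 3) (TT.var 5)).and <|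
    (ud_Le (TT.var 0) (TT.var 5) (TT.var 4)).and <|
    UD.ex 7 <| (UD.eq ((TT.var 7).mul (TT.var 0)) (((TT.var 6).mul (TT.var 0)).add TT.one)).and <|
      ud_Dec (TT.var 0) (TT.var 5) (TT.var 5) (TT.var 1) (TT.var 2) (TT.var 7)

theorem ud_Ent (h₁ : TT f₁) (h₂ : TT f₂) (h₃ : TT f₃) (h₄ : TT f₄) (h₅ : TT f₅) (h₆ : TT f₆)
    (h₇ : TT f₇) :
    UD (fun K _ v => Ent (ringChar K) (f₁ K v) (f₂ K v) (f₃ K v) (f₄ K v) (f₅ K v) (f₆ K v)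
      (f₇ K v)) :=
  UD.subst (σ := sg [f₁, f₂, f₃, f₄, f₅, f₆, f₇] f₁) (sg_TT h₁ (by
    simp only [List.mem_cons, List.not_mem_nil, or_false, forall_eq_or_imp, forall_eq]
    exact ⟨h₁, h₂, h₃, h₄, h₅, h₆, h₇⟩)) ud_Ent0

theorem ud_Rule0 : UD.{u} (fun K _ v =>
    Rule (ringChar K) (v 0) (v 1) (v 2) (v 3) (v 4) (v 5) (v 6) (v 7) (v 8) (v 9) (v 10)) :=
  UD.congr (fun _ _ _ _ => Iff.rfl) <| (UD.eq (TT.var 10) TT.one).or <|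
    (ud_Gen (TT.var 0) (TT.var 1) (TT.var 2) (TT.var 3) (TT.var 4) (TT.var 10)).or <|
    UD.ex 11 <| UD.ex 12 <| UD.ex 13 <| UD.ex 14 <|
      (ud_Lt (TT.var 0) (TT.var 11) (TT.var 9)).and <|
      (ud_Lt (TT.var 0) (TT.var 12) (TT.var 9)).and <|
      (ud_Ent (TT.var 0) (TT.var 5) (TT.var 6) (TT.var 7) (TT.var 8) (TT.var 11)
        (TT.var 13)).and <|
      (ud_Ent (TT.var 0) (TT.var 5) (TT.var 6) (TT.var 7) (TT.var 8) (TT.var 12)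
        (TT.var 14)).and <|
      (UD.eq (TT.var 10) ((TT.var 13).add (TT.var 14))).or
        (UD.eq (TT.var 10) ((TT.var 13).mul (TT.var 14)))

theorem ud_Drv0 : UD.{u} (fun K _ v =>
    Drv (ringChar K) (v 0) (v 1) (v 2) (v 3) (v 4) (v 5) (v 6) (v 7) (v 8)) :=
  UD.congr (fun _ _ _ _ => Iff.rfl) <| UD.all 9 <| (ud_Pr (TT.var 0) (TT.var 9)).imp <|
    (ud_Lt (TT.var 0) (TT.var 7) (TT.var 9)).imp <|
    (ud_Le (TT.var 0) (TT.var 9) (TT.var 8)).imp <|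
    UD.ex 10 <| (ud_Ent (TT.var 0) (TT.var 5) (TT.var 6) (TT.var 7) (TT.var 8) (TT.var 9)
      (TT.var 10)).and ud_Rule0

theorem ud_Drv (h₁ : TT f₁) (h₂ : TT f₂) (h₃ : TT f₃) (h₄ : TT f₄) (h₅ : TT f₅) (h₆ : TT f₆)
    (h₇ : TT f₇) (h₈ : TT f₈) (h₉ : TT f₉) :
    UD (fun K _ v => Drv (ringChar K) (f₁ K v) (f₂ K v) (f₃ K v) (f₄ K v) (f₅ K v) (f₆ K v)
      (f₇ K v) (f₈ K v) (f₉ K v)) :=
  UD.subst (σ := sg [f₁, f₂, f₃, f₄, f₅, f₆, f₇, f₈, f₉] f₁) (sg_TT h₁ (by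
    simp only [List.mem_cons, List.not_mem_nil, or_false, forall_eq_or_imp, forall_eq]
    exact ⟨h₁, h₂, h₃, h₄, h₅, h₆, h₇, h₈, h₉⟩)) ud_Drv0

theorem ud_Mem0 : UD.{u} (fun K _ v => Mem (ringChar K) (v 0) (v 1) (v 2) (v 3) (v 4) (v 5)) :=
  UD.congr (fun _ _ _ _ => Iff.rfl) <| UD.ex 6 <| UD.ex 7 <| UD.ex 8 <| UD.ex 9 <|
    (ud_Drv (TT.var 0) (TT.var 1) (TT.var 2) (TT.var 3) (TT.var 4) (TT.var 6) (TT.var 7)
      (TT.var 8) (TT.var 9)).and <|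
    UD.ex 10 <| ud_Ent (TT.var 0) (TT.var 6) (TT.var 7) (TT.var 8) (TT.var 9) (TT.var 10)
      (TT.var 5)

theorem ud_Mem (h₁ : TT f₁) (h₂ : TT f₂) (h₃ : TT f₃) (h₄ : TT f₄) (h₅ : TT f₅) (h₆ : TT f₆) :
    UD (fun K _ v => Mem (ringChar K) (f₁ K v) (f₂ K v) (f₃ K v) (f₄ K v) (f₅ K v) (f₆ K v)) :=
  UD.subst (σ := sg [f₁, f₂, f₃, f₄, f₅, f₆] f₁) (sg_TT h₁ (by
    simp only [List.mem_cons, List.not_mem_nil, or_false, forall_eq_or_imp, forall_eq]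
    exact ⟨h₁, h₂, h₃, h₄, h₅, h₆⟩)) ud_Mem0

theorem ud_Val0 : UD.{u} (fun K _ v => Val (ringChar K) (v 0) (v 1) (v 2) (v 3) (v 4) (v 5)) :=
  UD.congr (fun _ _ _ _ => Iff.rfl) <| UD.ex 6 <|
    (ud_Mem (TT.var 0) (TT.var 1) (TT.var 2) (TT.var 3) (TT.var 4) (TT.var 6)).and <|
    (ud_Mem (TT.var 0) (TT.var 1) (TT.var 2) (TT.var 3) (TT.var 4)
      ((TT.var 6).mul (TT.var 5))).and <|
    UD.not <| UD.ex 7 <|
      (ud_Mem (TT.var 0) (TT.var 1) (TT.var 2) (TT.var 3) (TT.var 4) (TT.var 7)).and <|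
      UD.eq ((TT.var 7).mul (TT.var 0)) (TT.var 6)

theorem ud_Val (h₁ : TT f₁) (h₂ : TT f₂) (h₃ : TT f₃) (h₄ : TT f₄) (h₅ : TT f₅) (h₆ : TT f₆) :
    UD (fun K _ v => Val (ringChar K) (f₁ K v) (f₂ K v) (f₃ K v) (f₄ K v) (f₅ K v) (f₆ K v)) :=
  UD.subst (σ := sg [f₁, f₂, f₃, f₄, f₅, f₆] f₁) (sg_TT h₁ (by
    simp only [List.mem_cons, List.not_mem_nil, or_false, forall_eq_or_imp, forall_eq]
    exact ⟨h₁, h₂, h₃, h₄, h₅, h₆⟩)) ud_Val0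

theorem ud_Fnl0 : UD.{u} (fun K _ v => Fnl (ringChar K) (v 0) (v 1)) :=
  UD.congr (fun _ _ _ _ => Iff.rfl) <| UD.ex 2 <| UD.ex 3 <| UD.ex 4 <| UD.ex 5 <| UD.ex 6 <|
    UD.ex 7 <| UD.ex 8 <| UD.ex 9 <|
    (ud_Pair (TT.var 1) (TT.var 5) (TT.var 2)).and <|
    (ud_Pair (TT.var 2) (TT.var 6) (TT.var 3)).and <|
    (ud_Pair (TT.var 3) (TT.var 7) (TT.var 4)).and <|
    (ud_Pair (TT.var 4) (TT.var 8) (TT.var 9)).and <|
    ud_Val (TT.var 5) (TT.var 6) (TT.var 7) (TT.var 8) (TT.var 9) (TT.var 0)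

theorem ud_Fnl (h₁ : TT f₁) (h₂ : TT f₂) :
    UD (fun K _ v => Fnl (ringChar K) (f₁ K v) (f₂ K v)) :=
  UD.subst (σ := sg [f₁, f₂] f₁) (sg_TT h₁ (by
    simp only [List.mem_cons, List.not_mem_nil, or_false, forall_eq_or_imp, forall_eq]
    exact ⟨h₁, h₂⟩)) ud_Fnl0

end

end UDV
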