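import Mathlib

/-!
# UDV: base definitions

Project UDV (problem MP_0f854b_lc): uniform definability of divisorial valuation rings in
finitely generated fields of positive characteristic.

`PF p L` is the data of a field `L` of characteristic `p` with a product formula, and with
finitely many derivations satisfying local bounds.
-/

open Polynomial

namespace UDV

universe u

/-- A field with a product formula and derivations. -/
structure PF (p : ℕ) (L : Type u) [Field L] where
  /-- index type of the places -/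
  I : Type u
  /-- the weight (degree) of a place -/
  wt : I → ℕ
  wt_pos : ∀ P, 0 < wt P
  /-- the additive valuation at a place, with the convention `ord P 0 = 0` -/
  ord : I → L → ℤ
  ord_zero : ∀ P, ord P 0 = 0
  ord_mul : ∀ P {x y : L}, x ≠ 0 → y ≠ 0 → ord P (x * y) = ord P x + ord P y
  ord_add : ∀ P {x y : L}, x ≠ 0 → y ≠ 0 → x + y ≠ 0 → min (ord P x) (ord P y) ≤ ord P (x + y)
  fin : ∀ {x : L}, x ≠ 0 → {P | ord P x ≠ 0}.Finite
  prod : ∀ {x : L}, x ≠ 0 → ∑ᶠ P, (wt P : ℤ) * ord P x = 0
  /-- number of derivations -/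
  d : ℕ
  δ : Fin d → Derivation ℤ L L
  /-- the correction terms, zero for almost all places -/
  b : I → ℕ
  b_fin : {P | b P ≠ 0}.Finite
  δ_int : ∀ P i {x : L}, x ≠ 0 → 0 ≤ ord P x → δ i x ≠ 0 → -(b P : ℤ) ≤ ord P (δ i x)
  δ_ord : ∀ P i {x : L}, x ≠ 0 → δ i x ≠ 0 → ord P x - 1 - b P ≤ ord P (δ i x)
  δ_sep : ∀ x : L, (∀ i, δ i x = 0) → ∃ y, y ^ p = x
  const : ∀ {x : L}, x ≠ 0 → (∀ P, ord P x = 0) → ∃ n, 0 < n ∧ x ^ (p ^ n) = x

/-- `x` is transcendental over the prime field (characteristic `p`). -/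
def NC (p : ℕ) {K : Type u} [Field K] (x : K) : Prop := ∀ n, 0 < n → x ^ (p ^ n) ≠ x

/-- Evaluation at `a` of a polynomial over the prime field. -/
noncomputable def ev {p : ℕ} {L : Type u} [Field L] [CharP L p] (f : (ZMod p)[X]) (a : L) : L :=
  f.eval₂ (ZMod.castHom (dvd_refl p) L) a

/-- `(p ^ s - 1) / (p - 1)`. -/
def nn (p s : ℕ) : ℕ := ∑ i ∈ Finset.range s, p ^ i

/-- The exponent used for characteristic `p`. -/
def ee (p : ℕ) : ℕ := if p = 2 then 3 else 2

/-- The finite set of test polynomials for characteristic `p`. -/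
noncomputable def FS (p : ℕ) : Finset ℤ[X] := by
  classical exact
  if p < 7 then
    Finset.univ.image (fun c : Fin 6 → Fin p => ∑ i, C ((c i : ℕ) : ℤ) * X ^ (i : ℕ))
  else (Finset.range 7).image (fun c => X - C ((c : ℕ) : ℤ))

namespace PF

variable {p : ℕ} {L : Type u} [Field L] (S : PF p L)

/-- The degree (number of poles, with multiplicity and weight). -/
noncomputable def deg (x : L) : ℤ := ∑ᶠ P, (S.wt P : ℤ) * max 0 (-(S.ord P x))

/-- Weighted number of the places at which a predicate holds. -/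
noncomputable def cnt (A : S.I → Prop) : ℤ := by
  classical exact ∑ᶠ P, if A P then (S.wt P : ℤ) else 0

/-- The total correction. -/
noncomputable def B : ℤ := ∑ᶠ P, (S.wt P : ℤ) * (S.b P : ℤ)

/-- The bound for the total multiplicity of multiple zeros, `y` is the derivative. -/
noncomputable def Lc (y : L) : ℤ :=
  2 * ∑ᶠ P, (S.wt P : ℤ) * (max 0 (S.ord P y) + (S.b P : ℤ))

/-- `x` vanishes at the place `P`. -/
def Van (P : S.I) (x : L) : Prop := x = 0 ∨ 0 < S.ord P x

/-- The relation between `a` and `w` obtained from `SR`. -/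
def Star (a w : L) : Prop := ∀ P, ∀ f ∈ FS p,
  (((ee p : ℕ) : ℤ) ∣ S.ord P (aeval a f) ↔ ((ee p : ℕ) : ℤ) ∣ S.ord P (aeval w f))

end PF

/-- A chart of a field `K` of characteristic `p`: an embedding into a field with a product
formula, and an element on which some derivation does not vanish. -/
structure Chart (p : ℕ) (K : Type u) [Field K] where
  L : Type u
  [fL : Field L]
  emb : K →+* L
  S : PF p L
  i₀ : Fin S.d
  x₀ : K
  hx₀ : S.δ i₀ (emb x₀) ≠ 0

attribute [instance] Chart.fL

/-- The basic definable relation. -/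
def SR (p : ℕ) {K : Type u} [Field K] (a b : K) : Prop :=
  ∃ u : ℕ, 1 ≤ u ∧ u < ee p ∧ ∀ f ∈ FS p, ∃ y : K, y ≠ 0 ∧
    aeval b f = (aeval a f) ^ u * y ^ (ee p)

/-- `Phi p x y`: `y` is in the Frobenius orbit of `x`. -/
def Phi (p : ℕ) {K : Type u} [Field K] (x y : K) : Prop := ∃ s : ℕ, y = x ^ (p ^ s)

/-- Simultaneous Frobenius relation. -/
def EE (p : ℕ) {K : Type u} [Field K] (t w x y : K) : Prop :=
  ∃ s : ℕ, w = t ^ (p ^ s) ∧ y = x ^ (p ^ s)

end UDV
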