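import Pool.Agent.UDV.BaseB

/-!
# UDV: valuation rings over a discrete valuation are localizations

PROOF.  Let `A = v.valuationSubring`, a discrete valuation ring (it has an element of value
`exp (-1)`) with fraction field `F`, and `B = integralClosure A K`, a Dedekind domain with fraction
field `K` (`integralClosure.isDedekindDomain`, `K / F` finite separable).  `B ⊆ O`, since `A ⊆ O` and
`O` is integrally closed.  Let `P` be the prime ideal `{b ∈ B | O.valuation b < 1}`.  `P ≠ ⊥`:
otherwise all nonzero elements of `B` are units of `O` and `K = Frac B ⊆ O`, contradicting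
`O ≠ ⊤`.  So `P` is maximal and the localization `B_P` is a discrete valuation ring with fraction
field `K`; it is contained in `O`.  Let `y ∈ O`.  If `y ∈ B_P` we are done: `y = a / b`, `a, b ∈ B`,
`b ∉ P`.  Otherwise `y⁻¹` is in the maximal ideal of `B_P`, `y⁻¹ = a / b` with `a ∈ P`, `b ∉ P`, so
`O.valuation y⁻¹ < 1`, contradicting `y ∈ O`.
Elements of `B` satisfy `IntV v` (a monic polynomial over `A` maps to one over `F` with coefficients
of value `≤ 1`).

PROOF of `int_mul`.  Let `q = X ^ n + ∑_{k<n} c_k X ^ k`, `v (c_k) ≤ 1`, `q(a) = 0`.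
`piVal_le_one`: `c_k = f_k / g_k`, `π ∤ g_k`.  `s = ∏ g_k`, `π ∤ s` (prime).  `s a` is a root of
`X ^ n + ∑ s ^ (n-k) c_k X ^ k`, whose coefficients are in `R` as `n - k ≥ 1`.
-/

open Polynomial WithZero

namespace UDV

universe u v

private theorem intV_of {F : Type v} {K : Type u} [Field F] [Field K] [Algebra F K]
    (v : Valuation F ℤᵐ⁰) {x : K} (h : IsIntegral v.integer x) : IntV v x := by
  obtain ⟨p, hp, h0⟩ := h
  refine ⟨p.map (algebraMap v.integer F), hp.map _, fun n => ?_, ?_⟩
  · rw [coeff_map]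
    exact (p.coeff n).2
  · rw [aeval_map_algebraMap, aeval_def]
    exact h0

private theorem divX_iter_coeff {F : Type v} [Field F] (f : F[X]) (j i : ℕ) :
    (divX^[j] f).coeff i = f.coeff (i + j) := by
  induction j generalizing i with
  | zero => rfl
  | succ j ih =>
    rw [Function.iterate_succ_apply', coeff_divX, ih]
    congr 1
    omega

private theorem divX_iter_step {F : Type v} {K : Type u} [Field F] [Field K] [Algebra F K]
    (f : F[X]) (y : K) (j : ℕ) : y * aeval y (divX^[j + 1] f) =
      aeval y (divX^[j] f) - algebraMap F K (f.coeff j) := by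
  have h1 := divX_mul_X_add (divX^[j] f)
  have h2 := congrArg (aeval y) h1
  rw [map_add, map_mul, aeval_X, aeval_C, divX_iter_coeff, zero_add] at h2
  rw [Function.iterate_succ_apply', ← h2]
  ring

private theorem horner_pow {F : Type v} {K : Type u} [Field F] [Field K] [Algebra F K]
    (f : F[X]) {y : K} (h0 : aeval y f = 0) (j : ℕ) : y ^ j * aeval y (divX^[j] f) =
      -∑ k ∈ Finset.range j, algebraMap F K (f.coeff k) * y ^ k := by
  induction j with
  | zero => simpa using h0
  | succ j ih =>
    rw [pow_succ, mul_assoc, divX_iter_step, mul_sub, ih, Finset.sum_range_succ]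
    ring

private theorem horner_int {F : Type v} {K : Type u} [Field F] [Field K] [Algebra F K]
    (v : Valuation F ℤᵐ⁰) {f : F[X]} (hf : ∀ n, v (f.coeff n) ≤ 1) {y : K}
    (h0 : aeval y f = 0) (hn : 1 ≤ f.natDegree) (j : ℕ) :
    IsIntegral v.integer (aeval y (divX^[j] f)) := by
  obtain ⟨N, hN⟩ : ∃ N : Submodule v.integer K,
      N = Submodule.span v.integer ((fun i => y ^ i) '' Set.Iio f.natDegree) := ⟨_, rfl⟩
  have hmem : ∀ (c : F) (i : ℕ), v c ≤ 1 → i < f.natDegree → algebraMap F K c * y ^ i ∈ N := by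
    intro c i hc hi
    have h1 : algebraMap F K c * y ^ i = (⟨c, hc⟩ : v.integer) • y ^ i := by
      rw [Algebra.smul_def]
      rfl
    rw [h1, hN]
    exact Submodule.smul_mem _ _ (Submodule.subset_span ⟨i, hi, rfl⟩)
  refine isIntegral_of_smul_mem_submodule N ?_ ?_ _ ?_
  · intro hb
    have h1 := hmem 1 0 (by rw [map_one]) (by omega)
    rw [hb, Submodule.mem_bot, map_one, one_mul, pow_zero] at h1
    exact one_ne_zero h1
  · rw [hN]
    exact Submodule.fg_span ((Set.finite_Iio _).image _)
  · intro x hx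
    rw [hN] at hx
    induction hx using Submodule.span_induction with
    | zero =>
      rw [smul_zero]
      exact N.zero_mem
    | add x y _ _ h1 h2 =>
      rw [smul_add]
      exact N.add_mem h1 h2
    | smul a x _ h1 =>
      rw [smul_comm]
      exact N.smul_mem _ h1
    | mem x hx =>
      obtain ⟨i, hi, rfl⟩ := hx
      rw [Set.mem_Iio] at hi
      simp only
      rw [smul_eq_mul]
      rcases Nat.lt_or_ge i j with h1 | h1
      · rw [aeval_eq_sum_range, Finset.sum_mul]
        refine N.sum_mem fun k _ => ?_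
        rw [divX_iter_coeff, Algebra.smul_def, mul_assoc, ← pow_add]
        by_cases h2 : f.coeff (k + j) = 0
        · rw [h2, map_zero, zero_mul]
          exact N.zero_mem
        · have h3 := le_natDegree_of_ne_zero h2
          exact hmem _ _ (hf _) (by omega)
      · have h2 : aeval y (divX^[j] f) * y ^ i =
            -∑ k ∈ Finset.range j, algebraMap F K (f.coeff k) * y ^ (k + (i - j)) := by
          have h3 := horner_pow f h0 j
          have h4 : y ^ i = y ^ j * y ^ (i - j) := by
            rw [← pow_add]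
            congr 1
            omega
          rw [h4, ← mul_assoc, mul_comm _ (y ^ j), h3, neg_mul, Finset.sum_mul]
          congr 1
          refine Finset.sum_congr rfl fun k _ => ?_
          rw [mul_assoc, ← pow_add]
        rw [h2]
        refine N.neg_mem (N.sum_mem fun k hk => ?_)
        rw [Finset.mem_range] at hk
        exact hmem _ _ (hf _) (by omega)

theorem frac_O {F : Type v} {K : Type u} [Field F] [Field K] [Algebra F K]
    [FiniteDimensional F K] [Algebra.IsSeparable F K] (v : Valuation F ℤᵐ⁰)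
    (hv : ∃ ϖ, v ϖ = exp (-1 : ℤ)) (O : ValuationSubring K) (hO : O ≠ ⊤)
    (h : ∀ x : F, v x ≤ 1 → algebraMap F K x ∈ O) {y : K} (hy : y ∈ O) :
    ∃ a b : K, IntV v a ∧ IntV v b ∧ O.valuation b = 1 ∧ y * b = a := by
  have hyi : IsIntegral F y := Algebra.IsIntegral.isIntegral y
  obtain ⟨f₀, hf₀⟩ : ∃ f₀, f₀ = minpoly F y := ⟨_, rfl⟩
  have hne : f₀ ≠ 0 := by
    rw [hf₀]
    exact minpoly.ne_zero hyi
  have hdeg : 1 ≤ f₀.natDegree := by
    rw [hf₀]
    exact minpoly.natDegree_pos hyi
  have hroot : aeval y f₀ = 0 := by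
    rw [hf₀]
    exact minpoly.aeval F y
  obtain ⟨m, hm, hmax⟩ := Finset.exists_max_image f₀.support (fun i => v (f₀.coeff i))
    (Polynomial.nonempty_support_iff.2 hne)
  have hcm : f₀.coeff m ≠ 0 := Polynomial.mem_support_iff.1 hm
  have hvm : v (f₀.coeff m) ≠ 0 := (Valuation.ne_zero_iff v).2 hcm
  obtain ⟨f, hf⟩ : ∃ f, f = C (f₀.coeff m)⁻¹ * f₀ := ⟨_, rfl⟩
  have hfc : ∀ n, f.coeff n = (f₀.coeff m)⁻¹ * f₀.coeff n := by
    intro n
    rw [hf, coeff_C_mul]
  have hf1 : ∀ n, v (f.coeff n) ≤ 1 := by
    intro n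
    rw [hfc, map_mul, map_inv₀]
    by_cases h1 : f₀.coeff n = 0
    · rw [h1, map_zero, mul_zero]
      exact zero_le
    · have h2 := hmax n (Polynomial.mem_support_iff.2 h1)
      rw [inv_mul_le_iff₀ (zero_lt_iff.2 hvm), mul_one]
      exact h2
  have hfm : v (f.coeff m) = 1 := by
    rw [hfc, inv_mul_cancel₀ hcm, map_one]
  have hfd : 1 ≤ f.natDegree := by
    rw [hf, natDegree_C_mul (inv_ne_zero hcm)]
    exact hdeg
  have hf0 : aeval y f = 0 := by
    rw [hf, map_mul, hroot, mul_zero]
  have hbO : ∀ j, aeval y (divX^[j] f) ∈ O := by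
    intro j
    rw [aeval_eq_sum_range]
    refine sum_mem fun k _ => ?_
    rw [divX_iter_coeff, Algebra.smul_def]
    exact mul_mem (h _ (hf1 _)) (pow_mem hy _)
  have hex : ∃ j, O.valuation (aeval y (divX^[j + 1] f)) = 1 := by
    by_contra hno
    push Not at hno
    have h1 : ∀ j, O.valuation (aeval y (divX^[j] f)) < 1 := by
      intro j
      cases j with
      | zero =>
        rw [Function.iterate_zero_apply, hf0, map_zero]
        exact zero_lt_one
      | succ j => exact lt_of_le_of_ne ((O.valuation_le_one_iff _).2 (hbO (j + 1))) (hno j)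
    have h2 : algebraMap F K (f.coeff m) =
        aeval y (divX^[m] f) - y * aeval y (divX^[m + 1] f) := by
      rw [divX_iter_step]
      ring
    have h3 : O.valuation (algebraMap F K (f.coeff m)) < 1 := by
      rw [h2]
      refine lt_of_le_of_lt (Valuation.map_sub _ _ _) (max_lt (h1 m) ?_)
      rw [map_mul]
      exact mul_lt_one_of_nonneg_of_lt_one_right ((O.valuation_le_one_iff _).2 hy)
        zero_le (h1 (m + 1))
    have h4 : algebraMap F K (f.coeff m)⁻¹ ∈ O := by
      refine h _ ?_
      rw [map_inv₀, hfm, inv_one]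
    have h5 := (O.valuation_le_one_iff _).2 h4
    have hne' : f.coeff m ≠ 0 := by
      intro h0
      rw [h0, map_zero] at hfm
      exact zero_ne_one hfm
    have h6 : O.valuation (algebraMap F K (f.coeff m)) *
        O.valuation (algebraMap F K (f.coeff m)⁻¹) = 1 := by
      rw [← map_mul, ← map_mul, mul_inv_cancel₀ hne', map_one, map_one]
    have h7 : O.valuation (algebraMap F K (f.coeff m)) *
        O.valuation (algebraMap F K (f.coeff m)⁻¹) < 1 :=
      mul_lt_one_of_nonneg_of_lt_one_left zero_le h3 h5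
    rw [h6] at h7
    exact lt_irrefl _ h7
  obtain ⟨j, hj⟩ := hex
  refine ⟨y * aeval y (divX^[j + 1] f), aeval y (divX^[j + 1] f), ?_,
    intV_of v (horner_int v hf1 hf0 hfd (j + 1)), hj, rfl⟩
  rw [divX_iter_step]
  refine intV_of v ((horner_int v hf1 hf0 hfd j).sub ?_)
  have h8 : algebraMap F K (f.coeff j) = algebraMap v.integer K ⟨f.coeff j, hf1 j⟩ := rfl
  rw [h8]
  exact isIntegral_algebraMap

theorem int_mul {R : Type v} [CommRing R] [IsDomain R] [UniqueFactorizationMonoid R]
    {F : Type v} [Field F] [Algebra R F] [IsFractionRing R F] {K : Type u} [Field K] [Algebra F K]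
    [Algebra R K] [IsScalarTower R F K] {π : R} (hπ : Prime π)
    {v : Valuation F ℤᵐ⁰} (h1 : v (algebraMap R F π) = exp (-1 : ℤ))
    (h2 : ∀ f : R, ¬ π ∣ f → v (algebraMap R F f) = 1) {a : K} (ha : IntV v a) :
    ∃ s : R, ¬ π ∣ s ∧ IsIntegral R (algebraMap R K s * a) := by
  obtain ⟨q, hqm, hqv, hqa⟩ := ha
  have hexp : (exp (-1 : ℤ) : ℤᵐ⁰) < 1 := by
    rw [← exp_zero, exp_lt_exp]
    norm_num
  have hR : ∀ r : R, v (algebraMap R F r) ≤ 1 := by
    intro r
    by_cases hr : r = 0
    · rw [hr, map_zero, map_zero]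
      exact zero_le
    · obtain ⟨n, r', hr', he⟩ := WfDvdMonoid.max_power_factor hr hπ.irreducible
      rw [he, map_mul, map_mul, map_pow, map_pow, h1, h2 r' hr', mul_one]
      exact pow_le_one' hexp.le n
  have hfrac : ∀ c : F, v c ≤ 1 → ∃ r g : R, ¬ π ∣ g ∧ c * algebraMap R F g = algebraMap R F r := by
    intro c hc
    obtain ⟨r, g, hrel, hx⟩ := IsFractionRing.exists_reduced_fraction R c
    have hcg : c * algebraMap R F (g : R) = algebraMap R F r := by
      rw [← hx]
      exact IsLocalization.mk'_spec F r g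
    refine ⟨r, g, fun hg => ?_, hcg⟩
    have hr : ¬ π ∣ r := fun hr => hπ.not_isUnit (hrel hr hg)
    obtain ⟨g', hg'⟩ := hg
    have h3 := congrArg v hcg
    rw [map_mul, h2 r hr, hg', map_mul, map_mul, h1] at h3
    have h4 : (exp (-1 : ℤ) : ℤᵐ⁰) * v (algebraMap R F g') < 1 :=
      mul_lt_one_of_nonneg_of_lt_one_left zero_le hexp (hR g')
    have h5 : v c * (exp (-1 : ℤ) * v (algebraMap R F g')) < 1 :=
      mul_lt_one_of_nonneg_of_lt_one_right hc zero_le h4
    rw [h3] at h5
    exact lt_irrefl _ h5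
  choose r g hg hrg using fun k => hfrac (q.coeff k) (hqv k)
  obtain ⟨s, hs⟩ : ∃ s, s = ∏ k ∈ Finset.range q.natDegree, g k := ⟨_, rfl⟩
  refine ⟨s, ?_, ?_⟩
  · intro hd
    rw [hs] at hd
    obtain ⟨k, -, hk⟩ := hπ.exists_mem_finset_dvd hd
    exact hg k hk
  · have hsc : ∀ k, k < q.natDegree → ∃ t : R, q.coeff k * algebraMap R F s = algebraMap R F t := by
      intro k hk
      refine ⟨r k * ∏ l ∈ (Finset.range q.natDegree).erase k, g l, ?_⟩
      rw [hs, ← Finset.mul_prod_erase _ _ (Finset.mem_range.2 hk), map_mul, map_mul, ← mul_assoc,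
        hrg]
    have hlift : q.scaleRoots (algebraMap R F s) ∈ lifts (algebraMap R F) := by
      rw [lifts_iff_coeff_lifts]
      intro k
      rw [coeff_scaleRoots]
      rcases lt_trichotomy k q.natDegree with hk | hk | hk
      · obtain ⟨t, ht⟩ := hsc k hk
        refine ⟨t * s ^ (q.natDegree - k - 1), ?_⟩
        have e : q.natDegree - k = (q.natDegree - k - 1) + 1 := by omega
        rw [map_mul, ← ht, map_pow]
        conv_rhs => rw [e, pow_succ]
        ring
      · refine ⟨1, ?_⟩
        rw [hk, Nat.sub_self, pow_zero, mul_one, hqm.coeff_natDegree, map_one]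
      · refine ⟨0, ?_⟩
        rw [coeff_eq_zero_of_natDegree_lt hk, zero_mul, map_zero]
    obtain ⟨P, hP, -, hPm⟩ := lifts_and_natDegree_eq_and_monic hlift
      ((monic_scaleRoots_iff _).2 hqm)
    refine ⟨P, hPm, ?_⟩
    have h3 := scaleRoots_aeval_eq_zero (r := algebraMap R F s) hqa
    rw [← hP, aeval_map_algebraMap, ← IsScalarTower.algebraMap_apply R F K, aeval_def] at h3
    exact h3

end UDV
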