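import Pool.Agent.UDV.DivA
import Pool.Agent.UDV.FracO
import Pool.Agent.UDV.PiVal
import Pool.Agent.UDV.Base

/-!
# UDV: a divisorial valuation ring is the localization of a finitely generated ring

PROOF.  Take `n`, `z` from `div_basis`, `ϖ = z (last)`.  `R = MvPolynomial (Fin (n+1)) (ZMod p)`,
`F = FractionRing R`; `K` is an `R`-algebra by `aeval z` (injective) and an `F`-algebra
(`IsFractionRing.lift`), finite (finitely generated and algebraic) and separable (the image of `F` is
`adjoin (ZMod p) (range z)`).  `π₀ = X last` is prime in `R`, `v` the valuation of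
`exists_piVal`.
1. `v x ≤ 1 → algebraMap x ∈ O`: `x = f / g`, `π₀ ∤ g` (`piVal_le_one`), so
`O.valuation (aeval z g) = 1` by the fourth claim of `div_basis` (values of elements of `R` are
`≤ 1` as `z i ∈ O`).  `O ≠ ⊤` as `ϖ⁻¹ ∉ O`.
2. Let `B = integralClosure R K`, a finitely generated `R`-module
(`IsIntegralClosure.finite`: `R` is a noetherian integrally closed domain, `K / F` is finite
separable), `B ⊆ O`, noetherian, `P = {b ∈ B | O.valuation b < 1}`.
For `y ∈ O`: `frac_O` gives `y * b = a`, `IntV v a`, `IntV v b`, `O.valuation b = 1`;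
`int_mul` gives `s, s' ∈ R` not divisible by `π₀` with `s a, s' b ∈ B`; then
`y * (s s' b) = s s' a` with `s s' a, s s' b ∈ B` and `O.valuation (s s' b) = 1`.
So `O = {y | ∃ c ∈ B, c ∉ P, c y ∈ B}`.
3. `P` is a finitely generated ideal of `B`, generated by `q_1, ..., q_m`;
`q_j = u_j * ϖ` with `u_j ∈ O` (third claim of `div_basis`) and `u_j c_j = a_j` with
`a_j, c_j ∈ B`, `c_j ∉ P` (step 2).  `f = ∏ c_j ∈ B`, `O.valuation f = 1`.
4. Let `S₀` be the finite set consisting of all `z i`, of finitely many generators of `B` as an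
`R`-module, and of `f⁻¹`.  `A = Subring.closure S₀` contains `B` (the elements of `ZMod p` are
integers), `f⁻¹`, so `c_j⁻¹ = f⁻¹ * ∏_{i ≠ j} c_i`, and `A ⊆ O`.  Every element of `A` is
`b / f ^ k` with `b ∈ B` (these elements form a subring containing `S₀`).
Let `S` be `{ϖ} ∪ {s ∈ S₀ | s is NC} ∪ {s + ϖ | s ∈ S₀, s not NC}`; then `Subring.closure S = A`
(`ϖ ∈ S₀`) and all elements of `S` are `NC p`: `ϖ` is `NC` since `O.valuation ϖ < 1` and `ϖ ≠ 0`
while an element with `x ^ (p ^ k) = x` is `0` or of value `1`; if `s` is not `NC` and `s + ϖ`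
were not `NC` then `ϖ` would not be `NC` (the elements with `x ^ (p ^ k) = x` for some `k > 0` form
a subfield: take the product of the exponents).
5. If `c ∈ A` and `O.valuation c < 1` then `c = y ϖ` with `y ∈ A`: `c = b / f ^ k`, `b ∈ P`,
`b = ∑ b_j q_j = ∑ b_j a_j c_j⁻¹ ϖ`.  Conversely `c = y ϖ`, `y ∈ A ⊆ O` implies
`O.valuation c < 1`.
6. Last claim.  (→) `x ∈ O`: by step 2 there is `c ∈ B ⊆ A`, `O.valuation c = 1`, `c x ∈ B ⊆ A`;
`c ≠ y ϖ`.  (←) `c ∈ A`, `c x ∈ A`, `c` not in `A ϖ`: by step 5 `O.valuation c = 1`, so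
`x = (c x) c⁻¹ ∈ O`.
-/

open MvPolynomial

namespace UDV

universe u

private lemma nc_iter {K : Type u} [Field K] {p : ℕ} {x : K} {k : ℕ} (h : x ^ (p ^ k) = x) (m : ℕ) :
    x ^ (p ^ (k * m)) = x := by
  induction m with
  | zero => simp
  | succ m ih =>
    rw [Nat.mul_succ, pow_add, pow_mul, ih, h]

private lemma nc_of_val (p : ℕ) [Fact p.Prime] {K : Type u} [Field K] (O : ValuationSubring K)
    {ϖ : K} (h0 : ϖ ≠ 0) (h1 : O.valuation ϖ < 1) : NC p ϖ := by
  intro n hn h
  have h2 : 1 < p ^ n := Nat.one_lt_pow hn.ne' (Fact.out : p.Prime).one_lt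
  have h3 : ϖ ^ (p ^ n - 1) = 1 := by
    apply mul_right_cancel₀ h0
    rw [← pow_succ, Nat.sub_add_cancel h2.le, h, one_mul]
  have h4 : O.valuation ϖ ^ (p ^ n - 1) < 1 := pow_lt_one₀ zero_le' h1 (by omega)
  rw [← map_pow, h3, map_one] at h4
  exact lt_irrefl _ h4

private lemma nc_gen (p : ℕ) [Fact p.Prime] {K : Type u} [Field K] [CharP K p] {ϖ : K}
    (hϖ : NC p ϖ) (S₀ : Finset K) (h0 : ϖ ∈ S₀) :
    ∃ S : Finset K, ϖ ∈ S ∧ (∀ g ∈ S, NC p g) ∧
      Subring.closure (S : Set K) = Subring.closure (S₀ : Set K) := by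
  classical
  have key : ∀ s : K, ¬ NC p s → NC p (s + ϖ) := by
    intro s hs l hl hsl
    unfold NC at hs
    push Not at hs
    obtain ⟨k, hk, hsk⟩ := hs
    have e1 := nc_iter hsk l
    have e2 := nc_iter hsl k
    rw [mul_comm l k, add_pow_char_pow, e1] at e2
    have e3 : ϖ ^ (p ^ (k * l)) = ϖ := add_left_cancel e2
    exact hϖ (k * l) (Nat.mul_pos hk hl) e3
  refine ⟨S₀.image (fun s => if NC p s then s else s + ϖ), ?_, ?_, ?_⟩
  · rw [Finset.mem_image]
    exact ⟨ϖ, h0, if_pos hϖ⟩
  · intro g hg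
    rw [Finset.mem_image] at hg
    obtain ⟨s, _, rfl⟩ := hg
    split_ifs with h
    · exact h
    · exact key s h
  · have hϖS : ϖ ∈ Subring.closure
        ((S₀.image (fun s => if NC p s then s else s + ϖ) : Finset K) : Set K) := by
      apply Subring.subset_closure
      rw [Finset.mem_coe, Finset.mem_image]
      exact ⟨ϖ, h0, if_pos hϖ⟩
    apply le_antisymm
    · rw [Subring.closure_le]
      intro g hg
      rw [Finset.mem_coe, Finset.mem_image] at hg
      obtain ⟨s, hs, rfl⟩ := hg
      have h1 : s ∈ Subring.closure (S₀ : Set K) := Subring.subset_closure hs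
      have h2 : ϖ ∈ Subring.closure (S₀ : Set K) := Subring.subset_closure h0
      show (if NC p s then s else s + ϖ) ∈ Subring.closure (S₀ : Set K)
      split_ifs
      · exact h1
      · exact add_mem h1 h2
    · rw [Subring.closure_le]
      intro s hs
      have h1 : (if NC p s then s else s + ϖ) ∈ Subring.closure
          ((S₀.image (fun s => if NC p s then s else s + ϖ) : Finset K) : Set K) := by
        apply Subring.subset_closure
        rw [Finset.mem_coe, Finset.mem_image]
        exact ⟨s, hs, rfl⟩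
      split_ifs at h1 with h
      · exact h1
      · have h2 := sub_mem h1 hϖS
        rw [add_sub_cancel_right] at h2
        exact h2

private theorem divB_core (p : ℕ) [Fact p.Prime] {K : Type u} [Field K] [CharP K p]
    (O : ValuationSubring K) (B : Subring K) (hnoeth : IsNoetherianRing B)
    (hBO : ∀ b ∈ B, b ∈ O) (G : Finset K) (hG : Subring.closure (G : Set K) = B) {ϖ : K}
    (hϖB : ϖ ∈ B) (hϖ0 : ϖ ≠ 0) (hϖ1 : O.valuation ϖ < 1)
    (hgen : ∀ x, O.valuation x < 1 → ∃ y ∈ O, x = y * ϖ)
    (hst : ∀ y ∈ O, ∃ c ∈ B, O.valuation c = 1 ∧ c * y ∈ B) :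
    ∃ (S : Finset K) (π : K), π ≠ 0 ∧ π ∈ S ∧ (∀ g ∈ S, NC p g) ∧
      (∀ x ∈ Subring.closure (S : Set K), x ∈ O) ∧ π⁻¹ ∉ O ∧
      ∀ x : K, x ∈ O ↔ ∃ c ∈ Subring.closure (S : Set K), c * x ∈ Subring.closure (S : Set K) ∧
        ∀ y ∈ Subring.closure (S : Set K), y * π ≠ c := by
  classical
  have hvle : ∀ b ∈ O, O.valuation b ≤ 1 := fun b hb => (O.valuation_le_one_iff b).2 hb
  -- the prime ideal
  let P : Ideal B :=
    { carrier := {b | O.valuation (b : K) < 1}
      add_mem' := by
        intro a b ha hb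
        show O.valuation ((a : K) + b) < 1
        exact Valuation.map_add_lt _ ha hb
      zero_mem' := by
        show O.valuation ((0 : B) : K) < 1
        rw [ZeroMemClass.coe_zero, map_zero]
        exact zero_lt_one
      smul_mem' := by
        intro c b hb
        show O.valuation ((c : K) * b) < 1
        rw [map_mul, mul_comm]
        exact mul_lt_one_of_lt_of_le hb (hvle _ (hBO _ c.2)) }
  obtain ⟨T, hT⟩ : P.FG := (isNoetherianRing_iff_ideal_fg B).1 hnoeth P
  have hq : ∀ q : B, O.valuation (q : K) < 1 → ∃ c : B, O.valuation (c : K) = 1 ∧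
      ∃ a : B, (c : K) * q = a * ϖ := by
    intro q hq
    obtain ⟨y, hy, hqy⟩ := hgen q hq
    obtain ⟨c, hc, hc1, hcy⟩ := hst y hy
    exact ⟨⟨c, hc⟩, hc1, ⟨c * y, hcy⟩, by
      show c * (q : K) = c * y * ϖ
      rw [hqy, mul_assoc]⟩
  choose! c hc1 a hca using hq
  have hTP : ∀ q ∈ T, O.valuation (q : K) < 1 := by
    intro q hq
    have h1 : q ∈ P := by
      rw [← hT]
      exact Submodule.subset_span hq
    exact h1
  obtain ⟨f, hf⟩ : ∃ f : B, f = ∏ q ∈ T, c q := ⟨_, rfl⟩
  have hf1 : O.valuation (f : K) = 1 := by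
    have h1 : (f : K) = ∏ q ∈ T, (c q : K) := by
      rw [hf]
      exact map_prod B.subtype c T
    rw [h1, map_prod]
    exact Finset.prod_eq_one fun q hq => hc1 q (hTP q hq)
  have hf0 : (f : K) ≠ 0 := by
    intro h
    rw [h, map_zero] at hf1
    exact zero_ne_one hf1
  have hstar : ∀ b : B, O.valuation (b : K) < 1 → ∃ b' : B, (f : K) * b = b' * ϖ := by
    intro b hb
    have hb' : b ∈ Submodule.span B (T : Set B) := by
      have h1 : b ∈ P := hb
      rw [← hT] at h1
      exact h1
    induction hb' using Submodule.span_induction with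
    | mem q hq =>
      refine ⟨(∏ r ∈ T.erase q, c r) * a q, ?_⟩
      have h1 : f = (∏ r ∈ T.erase q, c r) * c q := by
        rw [hf, Finset.prod_erase_mul _ _ hq]
      have h2 := hca q (hTP q hq)
      rw [h1, Subring.coe_mul, Subring.coe_mul, mul_assoc, mul_assoc, h2]
    | zero => exact ⟨0, by simp⟩
    | add x y hx hy ihx ihy =>
      have hxP : O.valuation (x : K) < 1 := by
        have h1 : x ∈ P := by rw [← hT]; exact hx
        exact h1
      have hyP : O.valuation (y : K) < 1 := by
        have h1 : y ∈ P := by rw [← hT]; exact hy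
        exact h1
      obtain ⟨x', hx'⟩ := ihx hxP
      obtain ⟨y', hy'⟩ := ihy hyP
      refine ⟨x' + y', ?_⟩
      rw [Subring.coe_add, Subring.coe_add, mul_add, add_mul, hx', hy']
    | smul r x hx ihx =>
      have hxP : O.valuation (x : K) < 1 := by
        have h1 : x ∈ P := by rw [← hT]; exact hx
        exact h1
      obtain ⟨x', hx'⟩ := ihx hxP
      refine ⟨r * x', ?_⟩
      rw [smul_eq_mul, Subring.coe_mul, Subring.coe_mul, mul_assoc, ← hx']
      ring
  -- the ring `A`
  obtain ⟨S₀, hS₀⟩ : ∃ S₀ : Finset K, S₀ = insert ϖ (insert (f : K)⁻¹ G) := ⟨_, rfl⟩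
  obtain ⟨S, hϖS, hNC, hcl⟩ := nc_gen p (nc_of_val p O hϖ0 hϖ1) S₀ (by
    rw [hS₀]
    exact Finset.mem_insert_self _ _)
  have hfinvO : (f : K)⁻¹ ∈ O := by
    rw [← O.valuation_le_one_iff, map_inv₀, hf1, inv_one]
  have hBA : ∀ b ∈ B, b ∈ Subring.closure (S₀ : Set K) := by
    intro b hb
    rw [← hG] at hb
    refine Subring.closure_mono ?_ hb
    intro g hg
    rw [hS₀, Finset.mem_coe]
    exact Finset.mem_insert_of_mem (Finset.mem_insert_of_mem hg)
  have hfA : (f : K)⁻¹ ∈ Subring.closure (S₀ : Set K) := by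
    apply Subring.subset_closure
    rw [hS₀, Finset.mem_coe]
    exact Finset.mem_insert_of_mem (Finset.mem_insert_self _ _)
  have hAO : ∀ x ∈ Subring.closure (S₀ : Set K), x ∈ O := by
    intro x hx
    have h1 : Subring.closure (S₀ : Set K) ≤ O.toSubring := by
      rw [Subring.closure_le]
      intro g hg
      rw [hS₀, Finset.mem_coe, Finset.mem_insert, Finset.mem_insert] at hg
      rcases hg with hg | hg | hg
      · rw [hg]
        exact hBO _ hϖB
      · rw [hg]
        exact hfinvO
      · refine hBO g ?_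
        rw [← hG]
        exact Subring.subset_closure hg
    exact h1 hx
  have hAf : ∀ x ∈ Subring.closure (S₀ : Set K), ∃ (k : ℕ) (b : B), x * (f : K) ^ k = b := by
    intro x hx
    induction hx using Subring.closure_induction with
    | mem g hg =>
      rw [hS₀, Finset.mem_coe, Finset.mem_insert, Finset.mem_insert] at hg
      rcases hg with hg | hg | hg
      · exact ⟨0, ⟨ϖ, hϖB⟩, by rw [hg, pow_zero, mul_one]⟩
      · exact ⟨1, 1, by rw [hg, pow_one, inv_mul_cancel₀ hf0, OneMemClass.coe_one]⟩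
      · exact ⟨0, ⟨g, by rw [← hG]; exact Subring.subset_closure hg⟩, by rw [pow_zero, mul_one]⟩
    | zero => exact ⟨0, 0, by simp⟩
    | one => exact ⟨0, 1, by simp⟩
    | add x y _ _ ihx ihy =>
      obtain ⟨k, b, hb⟩ := ihx
      obtain ⟨l, b', hb'⟩ := ihy
      refine ⟨k + l, b * f ^ l + b' * f ^ k, ?_⟩
      rw [Subring.coe_add, Subring.coe_mul, Subring.coe_mul, Subring.coe_pow, Subring.coe_pow,
        ← hb, ← hb', pow_add]
      ring
    | neg x _ ihx =>
      obtain ⟨k, b, hb⟩ := ihx
      exact ⟨k, -b, by rw [neg_mul, hb, Subring.coe_neg]⟩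
    | mul x y _ _ ihx ihy =>
      obtain ⟨k, b, hb⟩ := ihx
      obtain ⟨l, b', hb'⟩ := ihy
      refine ⟨k + l, b * b', ?_⟩
      rw [Subring.coe_mul, ← hb, ← hb', pow_add]
      ring
  have hstep5 : ∀ c ∈ Subring.closure (S₀ : Set K), O.valuation c < 1 →
      ∃ y ∈ Subring.closure (S₀ : Set K), y * ϖ = c := by
    intro c hc hc1
    obtain ⟨k, b, hb⟩ := hAf c hc
    have hb1 : O.valuation (b : K) < 1 := by
      rw [← hb, map_mul, map_pow, hf1, one_pow, mul_one]
      exact hc1
    obtain ⟨b', hb'⟩ := hstar b hb1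
    refine ⟨b' * ((f : K)⁻¹) ^ (k + 1), mul_mem (hBA _ b'.2) (pow_mem hfA _), ?_⟩
    have h1 : (b' : K) * ((f : K)⁻¹) ^ (k + 1) * ϖ = (b' * ϖ) * ((f : K)⁻¹) ^ (k + 1) := by ring
    rw [h1, ← hb', ← hb, inv_pow, pow_succ]
    field_simp
  refine ⟨S, ϖ, hϖ0, hϖS, hNC, ?_, ?_, ?_⟩
  · rw [hcl]
    exact hAO
  · intro h
    have h1 := hvle _ h
    have h2 : O.valuation (ϖ * ϖ⁻¹) < 1 := by
      rw [map_mul]
      exact mul_lt_one_of_lt_of_le hϖ1 h1
    rw [mul_inv_cancel₀ hϖ0, map_one] at h2
    exact lt_irrefl _ h2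
  · intro x
    rw [hcl]
    constructor
    · intro hx
      obtain ⟨c, hcB, hc1, hcx⟩ := hst x hx
      refine ⟨c, hBA c hcB, hBA _ hcx, fun y hy hyc => ?_⟩
      have h1 : O.valuation c < 1 := by
        rw [← hyc, map_mul, mul_comm]
        exact mul_lt_one_of_lt_of_le hϖ1 (hvle _ (hAO y hy))
      rw [hc1] at h1
      exact lt_irrefl _ h1
    · rintro ⟨c, hcA, hcx, hne⟩
      have h1 : O.valuation c = 1 := by
        refine le_antisymm (hvle _ (hAO c hcA)) ?_
        by_contra hlt
        rw [not_le] at hlt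
        obtain ⟨y, hy, hyc⟩ := hstep5 c hcA hlt
        exact hne y hy hyc
      have h2 := hvle _ (hAO _ hcx)
      rw [map_mul, h1, one_mul] at h2
      exact (O.valuation_le_one_iff x).1 h2

/-- elements integral over a ring contained in `O` are in `O` -/
private theorem divB_int {R : Type} [CommRing R] {K : Type u} [Field K] [Algebra R K]
    (O : ValuationSubring K) (hRO : ∀ f : R, algebraMap R K f ∈ O) {x : K}
    (hx : IsIntegral R x) : x ∈ O := by
  obtain ⟨q, hq, hqx⟩ := hx
  let φ : R →+* O := (algebraMap R K).codRestrict O.toSubring hRO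
  have h1 : IsIntegral O x := by
    refine ⟨q.map φ, hq.map φ, ?_⟩
    rw [Polynomial.eval₂_map]
    exact hqx
  obtain ⟨y, hy⟩ := (IsIntegrallyClosed.isIntegral_iff (R := O) (K := K)).1 h1
  rw [← hy]
  exact y.2

private theorem divB_step2 {R : Type} [CommRing R] [IsDomain R] [UniqueFactorizationMonoid R]
    [IsNoetherianRing R] {F : Type} [Field F] [Algebra R F] [IsFractionRing R F] {K : Type u}
    [Field K] [Algebra F K] [Algebra R K] [IsScalarTower R F K] [FiniteDimensional F K]
    [Algebra.IsSeparable F K] (O : ValuationSubring K) (hRO : ∀ f : R, algebraMap R K f ∈ O)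
    {π : R} (hπ : Prime π) (hπ1 : O.valuation (algebraMap R K π) < 1)
    (hdiv : ∀ f : R, O.valuation (algebraMap R K f) < 1 → π ∣ f) {y : K} (hy : y ∈ O) :
    ∃ c : K, IsIntegral R c ∧ O.valuation c = 1 ∧ IsIntegral R (c * y) := by
  have hinj : Function.Injective (algebraMap R K) := by
    rw [IsScalarTower.algebraMap_eq R F K]
    exact (algebraMap F K).injective.comp (IsFractionRing.injective R F)
  have hval : ∀ f : R, ¬ π ∣ f → O.valuation (algebraMap R K f) = 1 := by
    intro f hf
    refine le_antisymm ((O.valuation_le_one_iff _).2 (hRO f)) ?_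
    by_contra hlt
    rw [not_le] at hlt
    exact hf (hdiv f hlt)
  obtain ⟨v, h1, h2⟩ := exists_piVal (F := F) hπ
  have h : ∀ x : F, v x ≤ 1 → algebraMap F K x ∈ O := by
    intro x hx
    obtain ⟨f, g, hg, rfl⟩ := piVal_le_one hπ h1 h2 hx
    rw [map_div₀, ← IsScalarTower.algebraMap_apply, ← IsScalarTower.algebraMap_apply,
      ← O.valuation_le_one_iff, map_div₀, hval g hg, div_one]
    exact (O.valuation_le_one_iff _).2 (hRO f)
  have hO : O ≠ ⊤ := by
    intro htop
    have hne : algebraMap R K π ≠ 0 := fun h0 => hπ.ne_zero (hinj (by rw [h0, map_zero]))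
    have h3 : (algebraMap R K π)⁻¹ ∈ O := by
      rw [htop]
      trivial
    have h4 := (O.valuation_le_one_iff _).2 h3
    have h5 : O.valuation (algebraMap R K π * (algebraMap R K π)⁻¹) < 1 := by
      rw [map_mul]
      exact mul_lt_one_of_lt_of_le hπ1 h4
    rw [mul_inv_cancel₀ hne, map_one] at h5
    exact lt_irrefl _ h5
  obtain ⟨a, b, ha, hb, hb1, hab⟩ := frac_O v ⟨_, h1⟩ O hO h hy
  obtain ⟨s, hs, hsa⟩ := int_mul hπ h1 h2 ha
  obtain ⟨s', hs', hsb⟩ := int_mul hπ h1 h2 hb
  refine ⟨algebraMap R K s * (algebraMap R K s' * b), isIntegral_algebraMap.mul hsb, ?_, ?_⟩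
  · rw [map_mul, map_mul, hval s hs, hval s' hs', hb1, one_mul, one_mul]
  · have h3 : algebraMap R K s * (algebraMap R K s' * b) * y =
        algebraMap R K s' * (algebraMap R K s * a) := by
      rw [← hab]
      ring
    rw [h3]
    exact isIntegral_algebraMap.mul hsa

theorem div_fg (p : ℕ) [Fact p.Prime] (K : Type u) [Field K] [CharP K p] (hfg : FGField K)
    (O : ValuationSubring K) (hO : IsDivisorial O) :
    ∃ (S : Finset K) (π : K), π ≠ 0 ∧ π ∈ S ∧ (∀ g ∈ S, NC p g) ∧
      (∀ x ∈ Subring.closure (S : Set K), x ∈ O) ∧ π⁻¹ ∉ O ∧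
      ∀ x : K, x ∈ O ↔ ∃ c ∈ Subring.closure (S : Set K), c * x ∈ Subring.closure (S : Set K) ∧
        ∀ y ∈ Subring.closure (S : Set K), y * π ≠ c := by
  classical
  letI := ZMod.algebra K p
  obtain ⟨n, z, hzO, hz1, hgen, hdiv, hai, halg, hsep⟩ := div_basis p K hfg O hO
  letI : Algebra (MvPolynomial (Fin (n + 1)) (ZMod p)) K :=
    (aeval z : MvPolynomial (Fin (n + 1)) (ZMod p) →ₐ[ZMod p] K).toRingHom.toAlgebra
  have hmap : ∀ f : MvPolynomial (Fin (n + 1)) (ZMod p),
      algebraMap (MvPolynomial (Fin (n + 1)) (ZMod p)) K f = aeval z f := fun _ => rfl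
  haveI : FaithfulSMul (MvPolynomial (Fin (n + 1)) (ZMod p)) K :=
    (faithfulSMul_iff_algebraMap_injective _ K).2 (algebraicIndependent_iff_injective_aeval.1 hai)
  letI := FractionRing.liftAlgebra (MvPolynomial (Fin (n + 1)) (ZMod p)) K
  haveI := FractionRing.isScalarTower_liftAlgebra (MvPolynomial (Fin (n + 1)) (ZMod p)) K
  haveI : Algebra.IsSeparable (FractionRing (MvPolynomial (Fin (n + 1)) (ZMod p))) K := by
    refine Algebra.IsSeparable.of_equiv_equiv (hai.aevalEquivField.symm.toRingEquiv)
      (RingEquiv.refl K) ?_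
    ext x
    obtain ⟨y, rfl⟩ := hai.aevalEquivField.surjective x
    show algebraMap _ K (hai.aevalEquivField.symm (hai.aevalEquivField y)) =
      ((hai.aevalEquivField y : IntermediateField.adjoin (ZMod p) (Set.range z)) : K)
    rw [AlgEquiv.symm_apply_apply, hai.aevalEquivField_apply_coe]
    rfl
  haveI : FiniteDimensional (FractionRing (MvPolynomial (Fin (n + 1)) (ZMod p))) K := by
    obtain ⟨s, hs⟩ := hfg
    haveI : FiniteDimensional (FractionRing (MvPolynomial (Fin (n + 1)) (ZMod p)))
        (IntermediateField.adjoin (FractionRing (MvPolynomial (Fin (n + 1)) (ZMod p)))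
          (s : Set K)) :=
      IntermediateField.finiteDimensional_adjoin fun x _ => Algebra.IsIntegral.isIntegral x
    have htop : IntermediateField.adjoin (FractionRing (MvPolynomial (Fin (n + 1)) (ZMod p)))
        (s : Set K) = ⊤ := by
      rw [eq_top_iff]
      intro x _
      have h1 : x ∈ Subfield.closure (s : Set K) := by
        rw [hs]
        trivial
      have h2 : Subfield.closure (s : Set K) ≤ (IntermediateField.adjoin
          (FractionRing (MvPolynomial (Fin (n + 1)) (ZMod p))) (s : Set K)).toSubfield := by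
        rw [Subfield.closure_le]
        exact IntermediateField.subset_adjoin _ _
      exact h2 h1
    rw [htop] at this
    exact Module.Finite.equiv
      (IntermediateField.topEquiv (F := FractionRing (MvPolynomial (Fin (n + 1)) (ZMod p)))
        (E := K)).toLinearEquiv
  haveI hfin : Module.Finite (MvPolynomial (Fin (n + 1)) (ZMod p))
      (integralClosure (MvPolynomial (Fin (n + 1)) (ZMod p)) K) :=
    IsIntegralClosure.finite (MvPolynomial (Fin (n + 1)) (ZMod p))
      (FractionRing (MvPolynomial (Fin (n + 1)) (ZMod p))) K _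
  haveI hnoeth : IsNoetherianRing (integralClosure (MvPolynomial (Fin (n + 1)) (ZMod p)) K) :=
    IsNoetherianRing.of_finite (MvPolynomial (Fin (n + 1)) (ZMod p)) _
  have hRO : ∀ f : MvPolynomial (Fin (n + 1)) (ZMod p),
      algebraMap (MvPolynomial (Fin (n + 1)) (ZMod p)) K f ∈ O := by
    intro f
    rw [hmap]
    induction f using MvPolynomial.induction_on with
    | C a =>
      have h1 : aeval z (C a : MvPolynomial (Fin (n + 1)) (ZMod p)) = ((a.val : ℕ) : K) := by
        rw [aeval_C, ← map_natCast (algebraMap (ZMod p) K), ZMod.natCast_zmod_val]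
      rw [h1]
      exact natCast_mem O _
    | add f g hf hg =>
      rw [map_add]
      exact add_mem hf hg
    | mul_X f i hf =>
      rw [map_mul, aeval_X]
      exact mul_mem hf (hzO i)
  have hϖ0 : z (Fin.last n) ≠ 0 := hai.ne_zero _
  obtain ⟨G', hG'⟩ := hfin.fg_top
  refine divB_core p O (integralClosure (MvPolynomial (Fin (n + 1)) (ZMod p)) K).toSubring
    hnoeth (fun b hb => divB_int O hRO hb)
    (Finset.univ.image z ∪ G'.image Subtype.val) ?_ (ϖ := z (Fin.last n)) ?_ hϖ0 hz1 hgen ?_
  · apply le_antisymm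
    · rw [Subring.closure_le]
      intro g hg
      rw [Finset.mem_coe, Finset.mem_union, Finset.mem_image, Finset.mem_image] at hg
      rcases hg with ⟨i, _, rfl⟩ | ⟨g, _, rfl⟩
      · show IsIntegral (MvPolynomial (Fin (n + 1)) (ZMod p)) (z i)
        have h1 := isIntegral_algebraMap (R := MvPolynomial (Fin (n + 1)) (ZMod p)) (A := K)
          (x := X i)
        rw [hmap, aeval_X] at h1
        exact h1
      · exact g.2
    · intro b hb
      have hz : ∀ f : MvPolynomial (Fin (n + 1)) (ZMod p), aeval z f ∈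
          Subring.closure ((Finset.univ.image z ∪ G'.image Subtype.val : Finset K) : Set K) := by
        intro f
        induction f using MvPolynomial.induction_on with
        | C a =>
          have h1 : aeval z (C a : MvPolynomial (Fin (n + 1)) (ZMod p)) = ((a.val : ℕ) : K) := by
            rw [aeval_C, ← map_natCast (algebraMap (ZMod p) K), ZMod.natCast_zmod_val]
          rw [h1]
          exact natCast_mem _ _
        | add f g hf hg =>
          rw [map_add]
          exact add_mem hf hg
        | mul_X f i hf =>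
          rw [map_mul, aeval_X]
          refine mul_mem hf (Subring.subset_closure ?_)
          rw [Finset.mem_coe, Finset.mem_union, Finset.mem_image]
          exact Or.inl ⟨i, Finset.mem_univ _, rfl⟩
      have hspan : (⟨b, hb⟩ : integralClosure (MvPolynomial (Fin (n + 1)) (ZMod p)) K) ∈
          Submodule.span (MvPolynomial (Fin (n + 1)) (ZMod p)) (G' : Set
            (integralClosure (MvPolynomial (Fin (n + 1)) (ZMod p)) K)) := by
        rw [hG']
        trivial
      have hall : ∀ c ∈ Submodule.span (MvPolynomial (Fin (n + 1)) (ZMod p)) (G' : Set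
          (integralClosure (MvPolynomial (Fin (n + 1)) (ZMod p)) K)), (c : K) ∈
          Subring.closure ((Finset.univ.image z ∪ G'.image Subtype.val : Finset K) : Set K) := by
        intro c hc
        induction hc using Submodule.span_induction with
        | mem g hg =>
          apply Subring.subset_closure
          rw [Finset.mem_coe, Finset.mem_union, Finset.mem_image, Finset.mem_image]
          exact Or.inr ⟨g, hg, rfl⟩
        | zero => exact zero_mem _
        | add x y _ _ hx hy => exact add_mem hx hy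
        | smul r x _ hx =>
          show ((r • x : integralClosure (MvPolynomial (Fin (n + 1)) (ZMod p)) K) : K) ∈ _
          have h1 : ((r • x : integralClosure (MvPolynomial (Fin (n + 1)) (ZMod p)) K) : K) =
              aeval z r * (x : K) := by
            rw [← hmap, ← Algebra.smul_def]
            rfl
          rw [h1]
          exact mul_mem (hz r) hx
      exact hall _ hspan
  · show IsIntegral (MvPolynomial (Fin (n + 1)) (ZMod p)) (z (Fin.last n))
    have h1 := isIntegral_algebraMap (R := MvPolynomial (Fin (n + 1)) (ZMod p)) (A := K)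
      (x := X (Fin.last n))
    rw [hmap, aeval_X] at h1
    exact h1
  · intro y hy
    obtain ⟨c, h1, h2, h3⟩ := divB_step2 (R := MvPolynomial (Fin (n + 1)) (ZMod p))
      (F := FractionRing (MvPolynomial (Fin (n + 1)) (ZMod p))) O hRO
      (π := X (Fin.last n)) (MvPolynomial.X_prime) (by
        rw [hmap, aeval_X]
        exact hz1) (fun f hf => hdiv f hf) hy
    exact ⟨c, h1, h2, h3⟩

end UDV
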