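import Pool.Agent.UDV.MemB
import Pool.Agent.UDV.DefC
import Pool.Agent.UDV.DivB

/-!
# UDV: the main theorem

PROOF of `val_iff`.  `exists_chart` gives a chart (`π` is `NC`).  By `mem_sound` and
`mem_complete`, `Mem p π b b' A B x ↔ x ∈ Subring.closure S`; for `mem_complete`:
`c ∈ Subring.closure S ⊆ O`, `c + π⁻¹ ∉ O` (as `π⁻¹ ∉ O`), and elements with
`x ^ (p ^ n) = x`, `n > 0`, are integral over `ℤ`, so in `O` (valuation rings are integrally closed:
`O.valuation x ^ (p ^ n) = O.valuation x` forces `O.valuation x ≤ 1`).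
Then `Val` is exactly the right side of `hO`.

PROOF of `main`.  The formula is given by `ud_Fnl` (variables `0`: `x`, `1`: `a`) and `UD.fin2`.
Let `K`, `O` be given, `p = ringChar K`.  `div_fg` gives `S`, `π`; `K` is good.  `gen_code` with
`t = π` gives `b, b', A, B`, all `NC`.  `pair_exists` four times gives `a₄` coding `(A, B)`,
`a₃` coding `(b', a₄)`, `a₂` coding `(b, a₃)`, `a` coding `(π, a₂)`.
`Fnl p x a ↔ Val p π b b' A B x` (`pair_unique`), `↔ x ∈ O` (`val_iff`).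
-/

open Polynomial FirstOrder

namespace UDV

universe u

/-- elements with `x ^ m = x` are integral. -/
private theorem mem_of_pow {K : Type u} [Field K] (O : ValuationSubring K) {x : K} {m : ℕ}
    (hm : 2 ≤ m) (h : x ^ m = x) : x ∈ O := by
  by_cases hx : x ∈ O
  · exact hx
  · have hx0 : x ≠ 0 := by
      rintro rfl
      exact hx O.zero_mem
    have h1 : x⁻¹ ∈ O := (O.mem_or_inv_mem x).resolve_left hx
    have h2 : x = x⁻¹ ^ (m - 2) := by
      have h3 : x ^ m = x ^ (m - 2) * (x * x) := by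
        rw [← pow_two, ← pow_add]
        congr 1
        omega
      rw [h3] at h
      have h4 : x ^ (m - 2) * x = 1 := by
        apply mul_right_cancel₀ hx0
        rw [one_mul, mul_assoc]
        exact h
      rw [inv_pow]
      exact eq_inv_of_mul_eq_one_right h4
    rw [h2]
    exact O.pow_mem h1 _

theorem val_iff {p : ℕ} [Fact p.Prime] {K : Type u} [Field K] [CharP K p] (hfg : FGField K)
    {O : ValuationSubring K} {S : Finset K} {π b b' A B : K} (hπ : NC p π)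
    (hSO : ∀ x ∈ Subring.closure (S : Set K), x ∈ O) (hπO : π⁻¹ ∉ O)
    (hO : ∀ x : K, x ∈ O ↔ ∃ c ∈ Subring.closure (S : Set K),
      c * x ∈ Subring.closure (S : Set K) ∧ ∀ y ∈ Subring.closure (S : Set K), y * π ≠ c)
    (hgen : ∀ g, Gen p π b b' A B g ↔ g ∈ S) (x : K) :
    Val p π b b' A B x ↔ x ∈ O := by
  obtain ⟨C⟩ := exists_chart p K hfg hπ
  have hp : p.Prime := Fact.out
  have hnc : ∀ c ∈ Subring.closure (S : Set K), NC p (c + π⁻¹) := by
    intro c hc n hn h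
    apply hπO
    have h1 : c + π⁻¹ ∈ O := by
      refine mem_of_pow O (m := p ^ n) ?_ h
      calc 2 ≤ p := hp.two_le
        _ = p ^ 1 := (pow_one p).symm
        _ ≤ p ^ n := Nat.pow_le_pow_right hp.pos hn
    have h2 : c + π⁻¹ - c ∈ O := sub_mem h1 (hSO c hc)
    rwa [add_sub_cancel_left] at h2
  have hM : ∀ y, Mem p π b b' A B y ↔ y ∈ Subring.closure (S : Set K) := fun y =>
    ⟨fun h => mem_sound hπ hgen h, fun h => mem_complete C hπ hgen hnc h⟩
  rw [hO]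
  unfold Val
  simp only [hM]
  constructor
  · rintro ⟨c, hc, hcx, hn⟩
    exact ⟨c, hc, hcx, fun y hy h => hn ⟨y, hy, h⟩⟩
  · rintro ⟨c, hc, hcx, hn⟩
    refine ⟨c, hc, hcx, ?_⟩
    rintro ⟨y, hy, h⟩
    exact hn y hy h

theorem main : ∃ φ : Language.ring.Formula (Fin 2), ∀ (K : Type u) [Field K],
    (∃ p : ℕ, p.Prime ∧ CharP K p) → FGField K → ∀ O : ValuationSubring K, IsDivisorial O →
      ∃ a : K, ∀ x : K, x ∈ O ↔ Rlz φ ![x, a] := by
  obtain ⟨φ, hφ⟩ := UD.fin2 (ud_Fnl (TT.var 0) (TT.var.{u} 1))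
    (fun K _ v w h0 h1 h => by
      rw [← h0, ← h1]
      exact h)
  refine ⟨φ, fun K _ hK hfg O hdiv => ?_⟩
  obtain ⟨p, hp, hchar⟩ := hK
  have hpf : Fact p.Prime := ⟨hp⟩
  obtain ⟨S, π, hπ0, hπS, hSnc, hSO, hπO, hO⟩ := div_fg p K hfg O hdiv
  have hπ : NC p π := hSnc π hπS
  have hgood : Good K := ⟨p, hp, hchar, hfg, π, hπ⟩
  have hrc : ringChar K = p := ringChar.eq_iff.2 hchar
  obtain ⟨C⟩ := exists_chart p K hfg hπ
  obtain ⟨b, b', A, B, hb, hb', hA, hB, hgen⟩ := gen_code C hπ S hSnc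
  obtain ⟨a₄, ha₄, hp₄⟩ := pair_exists C hA hB
  obtain ⟨a₃, ha₃, hp₃⟩ := pair_exists C hb' ha₄
  obtain ⟨a₂, ha₂, hp₂⟩ := pair_exists C hb ha₃
  obtain ⟨a, ha, hp₁⟩ := pair_exists C hπ ha₂
  refine ⟨a, fun x => ?_⟩
  have h1 := hφ K hgood (fun i => Nat.casesOn i x (fun _ => a))
  refine Iff.trans ?_ h1.symm
  rw [← val_iff hfg hπ hSO hπO hO hgen x, hrc]
  constructor
  · intro h
    exact ⟨a₂, a₃, a₄, π, b, b', A, B, hp₁, hp₂, hp₃, hp₄, h⟩
  · rintro ⟨e₂, e₃, e₄, c₁, c₂, c₃, c₄, c₅, h1, h2, h3, h4, h5⟩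
    obtain ⟨rfl, rfl⟩ := pair_unique h1 hp₁
    obtain ⟨rfl, rfl⟩ := pair_unique h2 hp₂
    obtain ⟨rfl, rfl⟩ := pair_unique h3 hp₃
    obtain ⟨rfl, rfl⟩ := pair_unique h4 hp₄
    exact h5

end UDV
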