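import Mathlib

/-!
# UDV: extension of derivations

PROOFS.
* `der_frac`: `F` is formally étale over `R` (`Algebra.FormallyEtale.of_isLocalization`,
  `nonZeroDivisors R`).  The derivation `algebraMap ∘ D : Derivation ℤ R F` corresponds to a linear
  map `Ω[R⁄ℤ] →ₗ[R] F` (`Derivation.liftKaehlerDifferential`), which extends to an `F`-linear map
  `F ⊗[R] Ω[R⁄ℤ] → F` (`LinearMap.liftBaseChange`), and
  `KaehlerDifferential.tensorKaehlerEquivOfFormallyEtale ℤ R F : F ⊗[R] Ω[R⁄ℤ] ≃ Ω[F⁄ℤ]`;
  compose with the universal derivation `KaehlerDifferential.D ℤ F`.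
  (`tensorKaehlerEquivOfFormallyEtale_symm_D_algebraMap`.)
* `der_exists`: the same with `Algebra.FormallyEtale.of_isSeparable`.
* `der_unique`: `E = D₁ - D₂` vanishes on the image of `F`.  For `x : L` let `f` be its minimal
  polynomial over `F`, separable.  `0 = E (aeval x f) = aeval x (derivative f) * E x` (prove by
  `Polynomial.induction_on'`), and `aeval x (derivative f) ≠ 0`.  So `E x = 0`.
-/

open Polynomial

namespace UDV

universe u v

private theorem der_etale {S : Type v} {T : Type u} [CommRing S] [CommRing T] [Algebra S T]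
    [Algebra.FormallyEtale S T] (D : Derivation ℤ S S) :
    ∃ D' : Derivation ℤ T T, ∀ x : S, D' (algebraMap S T x) = algebraMap S T (D x) := by
  obtain ⟨D₁, hD₁⟩ : ∃ D₁ : Derivation ℤ S T, D₁ = (Algebra.linearMap S T).compDer D := ⟨_, rfl⟩
  refine ⟨((D₁.liftKaehlerDifferential.liftBaseChange T).comp
    (KaehlerDifferential.tensorKaehlerEquivOfFormallyEtale ℤ S T).symm.toLinearMap).compDer
      (KaehlerDifferential.D ℤ T), fun x => ?_⟩
  change (D₁.liftKaehlerDifferential.liftBaseChange T)
    ((KaehlerDifferential.tensorKaehlerEquivOfFormallyEtale ℤ S T).symm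
      (KaehlerDifferential.D ℤ T (algebraMap S T x))) = _
  rw [KaehlerDifferential.tensorKaehlerEquivOfFormallyEtale_symm_D_algebraMap,
    LinearMap.liftBaseChange_tmul, one_smul, Derivation.liftKaehlerDifferential_comp_D, hD₁]
  rfl

theorem der_frac {R : Type v} {F : Type u} [CommRing R] [IsDomain R] [Field F] [Algebra R F]
    [IsFractionRing R F] (D : Derivation ℤ R R) :
    ∃ D' : Derivation ℤ F F, ∀ x : R, D' (algebraMap R F x) = algebraMap R F (D x) := by
  have : Algebra.FormallyEtale R F := Algebra.FormallyEtale.of_isLocalization (nonZeroDivisors R)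
  exact der_etale D

theorem der_exists {F : Type v} {L : Type u} [Field F] [Field L] [Algebra F L]
    [Algebra.IsSeparable F L] (D : Derivation ℤ F F) :
    ∃ D' : Derivation ℤ L L, ∀ x : F, D' (algebraMap F L x) = algebraMap F L (D x) := by
  have : Algebra.FormallyEtale F L := Algebra.FormallyEtale.of_isSeparable F L
  exact der_etale D

theorem der_unique {F : Type v} {L : Type u} [Field F] [Field L] [Algebra F L]
    [Algebra.IsSeparable F L] (D₁ D₂ : Derivation ℤ L L)
    (h : ∀ x : F, D₁ (algebraMap F L x) = D₂ (algebraMap F L x)) : D₁ = D₂ := by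
  have hE : ∀ x : F, (D₁ - D₂) (algebraMap F L x) = 0 := by
    intro x
    rw [Derivation.sub_apply, h, sub_self]
  obtain ⟨E, hEE⟩ : ∃ E : Derivation F L L, ∀ x, E x = (D₁ - D₂) x := by
    refine ⟨Derivation.mk' ⟨⟨fun x => (D₁ - D₂) x, fun x y => map_add _ x y⟩, ?_⟩ ?_,
      fun x => rfl⟩
    · intro c x
      simp only [RingHom.id_apply, Algebra.smul_def]
      rw [Derivation.leibniz, hE, smul_zero, add_zero, smul_eq_mul]
    · intro a b
      exact (D₁ - D₂).leibniz a b
  have : Algebra.FormallyEtale F L := Algebra.FormallyEtale.of_isSeparable F L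
  have hsub : Subsingleton (Ω[L⁄F]) := inferInstance
  refine Derivation.ext fun x => ?_
  have h1 : E x = 0 := by
    rw [← Derivation.liftKaehlerDifferential_comp_D E x,
      Subsingleton.elim (KaehlerDifferential.D F L x) 0, map_zero]
  rw [hEE, Derivation.sub_apply] at h1
  exact sub_eq_zero.1 h1

/-- an extension of a derivation commutes with the automorphisms -/
theorem der_comm {F : Type v} {L : Type u} [Field F] [Field L] [Algebra F L]
    [Algebra.IsSeparable F L] {D : Derivation ℤ F F} {D' : Derivation ℤ L L}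
    (h : ∀ x : F, D' (algebraMap F L x) = algebraMap F L (D x)) (σ : L ≃ₐ[F] L) (x : L) :
    D' (σ x) = σ (D' x) := by
  obtain ⟨E, hE⟩ : ∃ E : Derivation ℤ L L, ∀ x, E x = σ.symm (D' (σ x)) := by
    refine ⟨Derivation.mk' (AddMonoidHom.toIntLinearMap ⟨⟨fun x => σ.symm (D' (σ x)), ?_⟩, ?_⟩) ?_,
      fun x => rfl⟩
    · rw [map_zero, map_zero, map_zero]
    · intro x y
      simp only
      rw [map_add, map_add, map_add]
    · intro a b
      change σ.symm (D' (σ (a * b))) = a • σ.symm (D' (σ b)) + b • σ.symm (D' (σ a))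
      rw [map_mul, Derivation.leibniz, map_add, smul_eq_mul, smul_eq_mul, map_mul, map_mul,
        AlgEquiv.symm_apply_apply, AlgEquiv.symm_apply_apply, smul_eq_mul, smul_eq_mul]
  have h1 : E = D' := by
    refine der_unique (F := F) E D' fun x => ?_
    rw [hE, AlgEquiv.commutes, h, AlgEquiv.commutes]
  have h2 := hE x
  rw [h1] at h2
  rw [h2, AlgEquiv.apply_symm_apply]

end UDV
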