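import Pool.Agent.UDV.BaseB
import Pool.Agent.UDV.DerA
import Pool.Agent.UDV.PiVal
import Pool.Agent.UDV.DegVal

/-!
# UDV: the base product formula field

PROOF.  `R = MvPolynomial (Fin d) (ZMod p)` is a factorial noetherian domain.  Fix a set
`Π` of representatives of the irreducible elements up to units: e.g.
`Π = {π : R // Irreducible π ∧ normalize π = π}` for a normalization monoid structure
(`UniqueFactorizationMonoid.normalizationMonoid`, local instance), `J = Option Π`.
For `some π`: `val` = the valuation of `exists_piVal` (choice), `w = totalDegree π > 0` (an element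
of total degree `0` is a constant, so `0` or a unit).  For `none`: `val` = the valuation of
`exists_degVal`, `w = 1`.
* `unif`: `π`, respectively `(X 0)⁻¹` (`totalDegree (X 0) = 1`, `d > 0`).
* Let `f : R`, `f ≠ 0`.  `f = unit * ∏ π` over its normalized factors; `val (some π) f =
  exp (- m)`, where `m = count π (normalizedFactors f)`; hence `fin` for `f`, and
  `∑ π, totalDegree π * m_π = totalDegree f` (`totalDegree` of a product is the sum,
  `totalDegree_mul_of_isDomain`, units have total degree `0`), which is the product formula for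
  `f`.  For `x = f / g` take differences (`log (val x) = log (val f) - log (val g)`; the finsums
  have finite support).
* `const`: let all `val j x ≤ 1`, `x = f / g` with `f`, `g` coprime
  (`IsLocalization`/`IsFractionRing.exists_reduced_fraction`).  If an irreducible `π` divided `g`
  then it does not divide `f` and `val (some π) x > 1` (normalize `π`).  So `g` is a unit, and
  `x = algebraMap h`, `exp (totalDegree h) ≤ 1` (or `h = 0`), so `h = C c` and `x ^ p = x` as
  `c ^ p = c`.
* derivations: `D i` extends `pderiv i` (`der_frac`, `pderiv i` restricted to scalars `ℤ`).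
  `D_int` for `some π`: `x = f / g`, `π ∤ g` (`piVal_le_one`),
  `D x * g ^ 2 = g * D f - f * D g ∈ R`, so `val (D x) ≤ 1` (`piVal_int`).
  `D_int` for `none`: `degVal_der`.    `D_sep`: `sep_base`.
-/

open WithZero MvPolynomial

namespace UDV

/-- the valuations of a product formula of the fraction field of a factorial ring, multiplicative
version: a real-valued function which is additive with finite supports -/
theorem bpf_mul {F : Type*} [Field F] {J : Type*} (w : J → ℕ) (val : J → Valuation F ℤᵐ⁰)
    {x y : F} (hx0 : x ≠ 0) (hy0 : y ≠ 0)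
    (hx : {j | val j x ≠ 1}.Finite ∧ ∑ᶠ j, (w j : ℤ) * log (val j x) = 0)
    (hy : {j | val j y ≠ 1}.Finite ∧ ∑ᶠ j, (w j : ℤ) * log (val j y) = 0) :
    {j | val j (x * y) ≠ 1}.Finite ∧ ∑ᶠ j, (w j : ℤ) * log (val j (x * y)) = 0 := by
  have hvx : ∀ j, val j x ≠ 0 := fun j => (Valuation.ne_zero_iff _).2 hx0
  have hvy : ∀ j, val j y ≠ 0 := fun j => (Valuation.ne_zero_iff _).2 hy0
  refine ⟨(hx.1.union hy.1).subset ?_, ?_⟩
  · intro j hj
    by_contra h
    simp only [Set.mem_union, Set.mem_ofPred_eq, not_or, not_not] at h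
    exact hj (by rw [map_mul, h.1, h.2, one_mul])
  · have hs : ∀ z : F, {j | val j z ≠ 1}.Finite →
        (Function.support fun j => (w j : ℤ) * log (val j z)).Finite := by
      intro z hz
      refine hz.subset ?_
      intro j hj h
      exact hj (by simp only [h, log_one, mul_zero])
    have : (fun j => (w j : ℤ) * log (val j (x * y))) =
        fun j => (w j : ℤ) * log (val j x) + (w j : ℤ) * log (val j y) := by
      funext j
      rw [map_mul, log_mul (hvx j) (hvy j), mul_add]
    rw [this, finsum_add_distrib (hs x hx.1) (hs y hy.1), hx.2, hy.2, add_zero]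

theorem bpf_inv {F : Type*} [Field F] {J : Type*} (w : J → ℕ) (val : J → Valuation F ℤᵐ⁰)
    {x : F}
    (hx : {j | val j x ≠ 1}.Finite ∧ ∑ᶠ j, (w j : ℤ) * log (val j x) = 0) :
    {j | val j x⁻¹ ≠ 1}.Finite ∧ ∑ᶠ j, (w j : ℤ) * log (val j x⁻¹) = 0 := by
  refine ⟨hx.1.subset ?_, ?_⟩
  · intro j hj h
    exact hj (by rw [map_inv₀, h, inv_one])
  · have : (fun j => (w j : ℤ) * log (val j x⁻¹)) =
        fun j => -((w j : ℤ) * log (val j x)) := by
      funext j
      rw [map_inv₀, log_inv, mul_neg]
    rw [this, finsum_neg_distrib, hx.2, neg_zero]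

theorem exists_bpf_gen (p : ℕ) [Fact p.Prime] (d : ℕ) (hd : 0 < d) (F : Type) [Field F]
    [Algebra (MvPolynomial (Fin d) (ZMod p)) F]
    [IsFractionRing (MvPolynomial (Fin d) (ZMod p)) F] :
    ∃ B : BPF p F,
      ∃ i, B.D i (algebraMap (MvPolynomial (Fin d) (ZMod p)) F (X ⟨0, hd⟩)) ≠ 0 := by
  classical
  let _ : StrongNormalizationMonoid (MvPolynomial (Fin d) (ZMod p)) :=
    UniqueFactorizationMonoid.strongNormalizationMonoid
  -- the degree valuation
  obtain ⟨vd, hvd⟩ := exists_degVal (k := ZMod p) (σ := Fin d)
    (F := F)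
  -- the valuations of the primes
  have hpi : ∀ π : {π : MvPolynomial (Fin d) (ZMod p) // Irreducible π ∧ normalize π = π},
      ∃ v : Valuation F ℤᵐ⁰,
        v (algebraMap _ _ π.1) = exp (-1 : ℤ) ∧
        ∀ f : MvPolynomial (Fin d) (ZMod p), ¬ π.1 ∣ f → v (algebraMap _ _ f) = 1 :=
    fun π => exists_piVal (UniqueFactorizationMonoid.irreducible_iff_prime.1 π.2.1)
  choose vp hvp1 hvp2 using hpi
  have hprime : ∀ π : {π : MvPolynomial (Fin d) (ZMod p) // Irreducible π ∧ normalize π = π},
      Prime π.1 := fun π => UniqueFactorizationMonoid.irreducible_iff_prime.1 π.2.1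
  -- the derivations
  have hder : ∀ i : Fin d, ∃ D : Derivation ℤ F
      F, ∀ f : MvPolynomial (Fin d) (ZMod p),
      D (algebraMap _ _ f) = algebraMap _ _ (pderiv i f) := by
    intro i
    obtain ⟨D, hD⟩ := der_frac (F := F)
      ((pderiv (R := ZMod p) i).restrictScalars ℤ)
    exact ⟨D, hD⟩
  choose D hD using hder
  -- units have degree zero
  have hunit : ∀ f : MvPolynomial (Fin d) (ZMod p), IsUnit f → f.totalDegree = 0 := by
    intro f hf
    obtain ⟨g, hg⟩ := hf.exists_right_inv
    have hf0 : f ≠ 0 := hf.ne_zero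
    have hg0 : g ≠ 0 := by
      rintro rfl
      simp at hg
    have := totalDegree_mul_of_isDomain hf0 hg0
    rw [hg, totalDegree_one] at this
    omega
  have hdegpos : ∀ f : MvPolynomial (Fin d) (ZMod p), Irreducible f → 0 < f.totalDegree := by
    intro f hf
    rcases Nat.eq_zero_or_pos f.totalDegree with h | h
    · exfalso
      rw [totalDegree_eq_zero_iff_eq_C] at h
      have h0 : f.coeff 0 ≠ 0 := by
        intro h0
        rw [h0, C_0] at h
        exact hf.ne_zero h
      apply hf.not_isUnit
      rw [h]
      exact (isUnit_iff_ne_zero.2 h0).map C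
    · exact h
  have hassdeg : ∀ f g : MvPolynomial (Fin d) (ZMod p), f ≠ 0 → Associated f g →
      f.totalDegree = g.totalDegree := by
    rintro f g hf ⟨u, rfl⟩
    rw [totalDegree_mul_of_isDomain hf u.ne_zero, hunit _ u.isUnit, add_zero]
  have hnirr : ∀ q : MvPolynomial (Fin d) (ZMod p), Irreducible q →
      Irreducible (normalize q) ∧ normalize (normalize q) = normalize q := by
    intro q hq
    exact ⟨(associated_normalize q).irreducible hq, normalize_idem q⟩
  set Jt := Option {π : MvPolynomial (Fin d) (ZMod p) // Irreducible π ∧ normalize π = π} with hJt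
  let w : Jt → ℕ := fun j => j.elim 1 (fun π => π.1.totalDegree)
  let val : Jt → Valuation F ℤᵐ⁰ :=
    fun j => j.elim vd vp
  have hinj : ∀ f : MvPolynomial (Fin d) (ZMod p), f ≠ 0 →
      algebraMap _ F f ≠ 0 := by
    intro f hf h
    exact hf ((IsFractionRing.injective (MvPolynomial (Fin d) (ZMod p))
      F) (by rw [h, map_zero]))
  -- product formula for polynomials
  have key : ∀ f : MvPolynomial (Fin d) (ZMod p), f ≠ 0 →
      {j | val j (algebraMap _ _ f) ≠ 1}.Finite ∧
        ∑ᶠ j, (w j : ℤ) * log (val j (algebraMap _ _ f)) = 0 := by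
    intro f
    refine UniqueFactorizationMonoid.induction_on_prime f ?_ ?_ ?_
    · intro h
      exact absurd rfl h
    · intro u hu _
      have h1 : ∀ j, val j (algebraMap _ _ u) = 1 := by
        rintro (_ | π)
        · change vd _ = 1
          rw [hvd u hu.ne_zero, hunit u hu]
          simp
        · change vp π _ = 1
          apply hvp2
          intro h
          exact π.2.1.not_isUnit (isUnit_of_dvd_unit h hu)
      refine ⟨?_, ?_⟩
      · convert Set.finite_empty
        ext j
        simp [h1 j]
      · have : (fun j => (w j : ℤ) * log (val j (algebraMap _ _ u))) = fun _ => 0 := by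
          funext j
          rw [h1 j, log_one, mul_zero]
        rw [this, finsum_zero]
    · intro a q ha hq ih _
      rw [map_mul]
      refine bpf_mul w val (hinj q hq.ne_zero) (hinj a ha) ?_ (ih ha)
      have hqi : Irreducible q := hq.irreducible
      let π₀ : {π : MvPolynomial (Fin d) (ZMod p) // Irreducible π ∧ normalize π = π} :=
        ⟨normalize q, hnirr q hqi⟩
      have h0 : val (some π₀) (algebraMap _ _ q) = exp (-1 : ℤ) := by
        change vp π₀ _ = _
        obtain ⟨u, hu⟩ := (associated_normalize q).symm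
        rw [← hu, map_mul, map_mul]
        have h2 := hvp1 π₀
        change vp π₀ (algebraMap _ _ (normalize q)) = _ at h2
        rw [h2, hvp2, mul_one]
        intro h
        exact π₀.2.1.not_isUnit (isUnit_of_dvd_unit h u.isUnit)
      have h1 : val none (algebraMap _ _ q) = exp (q.totalDegree : ℤ) := hvd q hq.ne_zero
      have h2 : ∀ π, π ≠ π₀ → val (some π) (algebraMap _ _ q) = 1 := by
        intro π hπ
        change vp π _ = 1
        apply hvp2
        intro h
        apply hπ
        have hass : Associated π.1 q := π.2.1.associated_of_dvd hqi h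
        have := normalize_eq_normalize_iff_associated.2 hass
        rw [π.2.2] at this
        exact Subtype.ext this
      have hsub : ∀ j, j ∉ ({some π₀, none} : Finset Jt) → val j (algebraMap _ _ q) = 1 := by
        rintro (_ | π) hj
        · simp at hj
        · apply h2
          rintro rfl
          simp at hj
      refine ⟨(Finset.finite_toSet ({some π₀, none} : Finset Jt)).subset ?_, ?_⟩
      · intro j hj
        by_contra h
        exact hj (hsub j (by simpa using h))
      · rw [finsum_eq_sum_of_support_subset (s := {some π₀, none})]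
        · rw [Finset.sum_pair (by simp), h0, h1, log_exp, log_exp]
          have h3 : (w (some π₀) : ℤ) = q.totalDegree := by
            change (((normalize q).totalDegree : ℕ) : ℤ) = _
            rw [hassdeg q (normalize q) hq.ne_zero (associated_normalize q)]
          have h4 : (w none : ℤ) = 1 := rfl
          rw [h3, h4]
          ring
        · intro j hj
          by_contra h
          apply hj
          change (w j : ℤ) * log (val j (algebraMap _ _ q)) = 0
          rw [hsub j (by simpa using h), log_one, mul_zero]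
  have keyx : ∀ x : F, x ≠ 0 →
      {j | val j x ≠ 1}.Finite ∧ ∑ᶠ j, (w j : ℤ) * log (val j x) = 0 := by
    intro x hx
    obtain ⟨a, b, hb, rfl⟩ := IsFractionRing.div_surjective
      (A := MvPolynomial (Fin d) (ZMod p)) x
    have hb0 : b ≠ 0 := nonZeroDivisors.ne_zero hb
    have ha0 : a ≠ 0 := by
      rintro rfl
      exact hx (by rw [map_zero, zero_div])
    rw [div_eq_mul_inv]
    exact bpf_mul w val (hinj a ha0) (inv_ne_zero (hinj b hb0)) (key a ha0)
      (bpf_inv w val (key b hb0))
  have hX : (X ⟨0, hd⟩ : MvPolynomial (Fin d) (ZMod p)) ≠ 0 := X_ne_zero _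
  refine ⟨{
    J := Jt
    w := w
    w_pos := ?_
    val := val
    unif := ?_
    fin := fun {x} hx => (keyx x hx).1
    prod := fun {x} hx => (keyx x hx).2
    const := ?_
    d := d
    D := D
    D_int := ?_
    D_sep := fun x hx => sep_base D hD x hx }, ⟨0, hd⟩, ?_⟩
  · rintro (_ | π)
    · exact Nat.one_pos
    · exact hdegpos _ π.2.1
  · rintro (_ | π)
    · refine ⟨(algebraMap _ _ (X ⟨0, hd⟩ : MvPolynomial (Fin d) (ZMod p)))⁻¹, ?_⟩
      change vd _ = _
      rw [map_inv₀, hvd _ hX, totalDegree_X, ← exp_neg]
      simp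
    · exact ⟨_, hvp1 π⟩
  · intro x hx
    obtain ⟨f, g, hfg, rfl⟩ := IsFractionRing.exists_reduced_fraction
      (A := MvPolynomial (Fin d) (ZMod p)) x
    have hg0 : (g : MvPolynomial (Fin d) (ZMod p)) ≠ 0 := nonZeroDivisors.ne_zero g.2
    rw [IsFractionRing.mk'_eq_div] at hx ⊢
    have hgu : IsUnit (g : MvPolynomial (Fin d) (ZMod p)) := by
      by_contra hgu
      obtain ⟨q, hq, hqg⟩ := WfDvdMonoid.exists_irreducible_factor hgu hg0
      let π₀ : {π : MvPolynomial (Fin d) (ZMod p) // Irreducible π ∧ normalize π = π} :=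
        ⟨normalize q, hnirr q hq⟩
      have hπg : π₀.1 ∣ (g : MvPolynomial (Fin d) (ZMod p)) :=
        (normalize_dvd_iff).2 hqg
      have hπf : ¬ π₀.1 ∣ f := fun h => π₀.2.1.not_isUnit (hfg h hπg)
      have h1 := hx (some π₀)
      change vp π₀ _ ≤ 1 at h1
      rw [map_div₀, hvp2 π₀ f hπf] at h1
      obtain ⟨g', hg'⟩ := hπg
      have hg'0 : g' ≠ 0 := by
        rintro rfl
        exact hg0 (by rw [hg', mul_zero])
      have h2 : vp π₀ (algebraMap _ _ (g : MvPolynomial (Fin d) (ZMod p))) < 1 := by
        rw [hg', map_mul, map_mul, hvp1 π₀]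
        calc exp (-1 : ℤ) * vp π₀ (algebraMap _ _ g') ≤ exp (-1 : ℤ) * 1 := by
              gcongr
              exact piVal_int (hprime π₀) (hvp1 π₀) (hvp2 π₀) g'
          _ = exp (-1 : ℤ) := mul_one _
          _ < 1 := by
              rw [← exp_zero]
              exact exp_lt_exp.2 (by norm_num)
      have h3 : vp π₀ (algebraMap _ _ (g : MvPolynomial (Fin d) (ZMod p))) ≠ 0 :=
        (Valuation.ne_zero_iff _).2 (hinj _ hg0)
      have h4 : 1 ≤ vp π₀ (algebraMap _ _ (g : MvPolynomial (Fin d) (ZMod p))) := by
        rw [div_le_iff₀ (zero_lt_iff.2 h3), one_mul] at h1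
        exact h1
      exact absurd h2 (not_lt.2 h4)
    obtain ⟨g', hg'⟩ := hgu.exists_right_inv
    have hx' : algebraMap _ F f /
        algebraMap _ F
          (g : MvPolynomial (Fin d) (ZMod p)) =
        algebraMap _ F (f * g') := by
      rw [div_eq_iff (hinj _ hg0), ← map_mul, mul_assoc, mul_comm g', hg', mul_one]
    rw [hx'] at hx ⊢
    by_cases hh : f * g' = 0
    · rw [hh, map_zero, zero_pow (Nat.Prime.ne_zero Fact.out)]
    · have h1 := hx none
      change vd _ ≤ 1 at h1
      rw [hvd _ hh, ← exp_zero, exp_le_exp] at h1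
      have h2 : (f * g').totalDegree = 0 := by omega
      rw [totalDegree_eq_zero_iff_eq_C] at h2
      rw [h2, ← map_pow, ← map_pow, ZMod.pow_card]
  · rintro (_ | π) i x hx
    · exact degVal_der hvd i (D i) (hD i) hx
    · change vp π _ ≤ 1
      obtain ⟨f, g, hg, rfl⟩ := piVal_le_one (hprime π) (hvp1 π) (hvp2 π) hx
      have hg0 : g ≠ 0 := by
        rintro rfl
        exact hg (dvd_zero _)
      have hG : algebraMap _ F g ≠ 0 := hinj g hg0
      set G := algebraMap _ F g with hGdef
      set A := algebraMap _ F f with hAdef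
      have e1 : D i A = D i (A / G) * G + (A / G) * D i G := by
        conv_lhs => rw [show A = (A / G) * G by field_simp]
        rw [Derivation.leibniz]
        simp only [smul_eq_mul]
        ring
      have e2 : D i (A / G) = (D i A * G - A * D i G) / (G * G) := by
        rw [e1]
        field_simp
        ring
      rw [e2, hGdef, hAdef, hD, hD, ← map_mul, ← map_mul, ← map_sub, ← map_mul, map_div₀,
        hvp2 π (g * g), div_one]
      · exact piVal_int (hprime π) (hvp1 π) (hvp2 π) _
      · intro h
        rcases (hprime π).dvd_or_dvd h with h | h <;> exact hg h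
  · change D ⟨0, hd⟩ _ ≠ 0
    rw [hD, pderiv_X_self, map_one]
    exact one_ne_zero

theorem exists_bpf (p : ℕ) [Fact p.Prime] (d : ℕ) (hd : 0 < d) :
    ∃ B : BPF p (FractionRing (MvPolynomial (Fin d) (ZMod p))),
      ∃ i, B.D i (algebraMap (MvPolynomial (Fin d) (ZMod p)) _ (X ⟨0, hd⟩)) ≠ 0 :=
  exists_bpf_gen p d hd (FractionRing (MvPolynomial (Fin d) (ZMod p)))

end UDV
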