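import Pool.Agent.UDV.Base

/-!
# UDV: definitions for the construction of product formula fields
-/

open Polynomial WithZero

namespace UDV

universe u v

/-- `y` is integral over the valuation ring of `v` -/
def IntV {F : Type v} {L : Type u} [Field F] [Field L] [Algebra F L] (v : Valuation F ℤᵐ⁰)
    (y : L) : Prop :=
  ∃ q : F[X], q.Monic ∧ (∀ n, v (q.coeff n) ≤ 1) ∧ aeval y q = 0

/-- A base field with a product formula and derivations without correction terms. -/
structure BPF (p : ℕ) (F : Type) [Field F] where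
  J : Type
  w : J → ℕ
  w_pos : ∀ j, 0 < w j
  val : J → Valuation F ℤᵐ⁰
  unif : ∀ j, ∃ ϖ, val j ϖ = exp (-1 : ℤ)
  fin : ∀ {x : F}, x ≠ 0 → {j | val j x ≠ 1}.Finite
  prod : ∀ {x : F}, x ≠ 0 → ∑ᶠ j, (w j : ℤ) * log (val j x) = 0
  const : ∀ {x : F}, (∀ j, val j x ≤ 1) → x ^ p = x
  d : ℕ
  D : Fin d → Derivation ℤ F F
  D_int : ∀ j i x, val j x ≤ 1 → val j (D i x) ≤ 1
  D_sep : ∀ x, (∀ i, D i x = 0) → ∃ y, y ^ p = x

/-- `w` is a discrete valuation of `L` lying over the discrete valuation `v` of `F`, with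
ramification index `e`. -/
structure ExtOK {F : Type v} {L : Type u} [Field F] [Field L] [Algebra F L]
    (v : Valuation F ℤᵐ⁰) (w : Valuation L ℤᵐ⁰) (e : ℕ) : Prop where
  pos : 0 < e
  map : ∀ x : F, w (algebraMap F L x) = v x ^ e
  unif : ∃ ϖ, w ϖ = exp (-1 : ℤ)
  int : ∀ y : L, IntV v y → w y ≤ 1
  frac : ∀ y : L, w y ≤ 1 → ∃ a b : L, IntV v a ∧ IntV v b ∧ w b = 1 ∧ y * b = a

end UDV
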