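import Pool.Agent.UDV.BaseB

/-!
# UDV: places of a Galois extension

Setting: `B : BPF p F`, `L / F` finite Galois, `w j` a valuation of `L` over `B.val j` with
ramification index `e j` for every `j : B.J`.

PROOFS.
* `gal_fin_le`: let `q = minpoly F x`; it has finitely many nonzero coefficients and for each of
  them `{j | B.val j c ≠ 1}` is finite.  For the other `j` all coefficients have value `≤ 1`, and
  `q` is also the minimal polynomial of `σ x`, so `IntV (B.val j) (σ x)` and `w j (σ x) ≤ 1`
  (`ExtOK.int`).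
* `gal_fin`: apply `gal_fin_le` to `x` and `x⁻¹`.
* `gal_prod`: `∏ σ, σ x = algebraMap (Algebra.norm F x)` (`Algebra.norm_eq_prod_automorphisms`), so
  `∑ σ, log (w j (σ x)) = log (w j (algebraMap (norm x))) = e j * log (B.val j (norm x))`
  (`ExtOK.map`, `log_pow`, `log_prod`).
* `gal_const`: if all `w j (σ x) = 1` then the coefficients `c` of the characteristic polynomial
  `∏ σ, (X - C (σ x))` (which has coefficients in `F`; e.g. it is a power of the minimal
  polynomial, or use `minpoly F x = ∏ (X - C y)` over the conjugates) have `w j c ≤ 1`, so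
  `B.val j c ^ e j ≤ 1`, `B.val j c ≤ 1` for all `j`, and `c ^ p = c` by `B.const`.  So all
  coefficients of `q = minpoly F x` are in the image of the prime field `ZMod p` (the roots of
  `X ^ p - X` in `F`), `x` is algebraic over a finite field and `x ^ (p ^ n) = x` for some `n > 0`
  (`x` lies in a finite subfield with `p ^ n` elements).
-/

open Polynomial WithZero

namespace UDV

universe u

variable {p : ℕ} {F : Type} [Field F] (B : BPF p F) {L : Type u} [Field L] [Algebra F L]
  [FiniteDimensional F L] [IsGalois F L] {w : B.J → Valuation L ℤᵐ⁰} {e : B.J → ℕ}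

omit [FiniteDimensional F L] [IsGalois F L] in
theorem gal_log_prod {ι : Type*} (s : Finset ι) (f : ι → ℤᵐ⁰) (h : ∀ i ∈ s, f i ≠ 0) :
    log (∏ i ∈ s, f i) = ∑ i ∈ s, log (f i) := by
  classical
  induction s using Finset.induction_on with
  | empty => simp
  | insert a s ha ih =>
    rw [Finset.prod_insert ha, Finset.sum_insert ha, log_mul (h a (Finset.mem_insert_self a s)),
      ih fun i hi => h i (Finset.mem_insert_of_mem hi)]
    exact Finset.prod_ne_zero_iff.2 fun i hi => h i (Finset.mem_insert_of_mem hi)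

/-- a product of linear factors with roots in the valuation ring has coefficients there -/
theorem gal_coeff {M : Type*} [Field M] (v : Valuation M ℤᵐ⁰) (s : Multiset M)
    (h : ∀ y ∈ s, v y ≤ 1) (n : ℕ) : v ((s.map fun y => X - C y).prod.coeff n) ≤ 1 := by
  induction s using Multiset.induction_on generalizing n with
  | empty =>
    rw [Multiset.map_zero, Multiset.prod_zero, coeff_one]
    split_ifs <;> simp
  | cons a s ih =>
    have h1 : ∀ n, v ((s.map fun y => X - C y).prod.coeff n) ≤ 1 :=
      fun n => ih (fun y hy => h y (Multiset.mem_cons_of_mem hy)) n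
    have ha : v a ≤ 1 := h a (Multiset.mem_cons_self a s)
    rw [Multiset.map_cons, Multiset.prod_cons, sub_mul, coeff_sub, coeff_C_mul]
    refine (v.map_sub _ _).trans (max_le ?_ ?_)
    · cases n with
      | zero => simp
      | succ n => rw [coeff_X_mul]; exact h1 n
    · rw [map_mul]
      exact mul_le_one' ha (h1 n)

theorem gal_fin_le (hw : ∀ j, ExtOK (B.val j) (w j) (e j)) (x : L) :
    {j | ∃ σ : L ≃ₐ[F] L, ¬ w j (σ x) ≤ 1}.Finite := by
  classical
  have hx : IsIntegral F x := Algebra.IsIntegral.isIntegral x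
  have hfin : (⋃ n ∈ (minpoly F x).support, {j | B.val j ((minpoly F x).coeff n) ≠ 1}).Finite := by
    refine Set.Finite.biUnion (Finset.finite_toSet _) fun n hn => B.fin ?_
    exact mem_support_iff.1 hn
  refine hfin.subset fun j hj => ?_
  obtain ⟨σ, hσ⟩ := hj
  by_contra hc
  refine hσ ((hw j).int _ ⟨minpoly F x, minpoly.monic hx, fun n => ?_, ?_⟩)
  · by_cases hn : n ∈ (minpoly F x).support
    · by_contra hlt
      refine hc ?_
      refine Set.mem_biUnion hn ?_
      intro h1
      exact hlt (le_of_eq h1)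
    · rw [notMem_support_iff.1 hn]; simp
  · have : aeval (σ x) (minpoly F x) = σ (aeval x (minpoly F x)) := aeval_algHom_apply σ x _
    rw [this, minpoly.aeval, map_zero]

theorem gal_fin (hw : ∀ j, ExtOK (B.val j) (w j) (e j)) {x : L} (hx : x ≠ 0) :
    {j | ∃ σ : L ≃ₐ[F] L, w j (σ x) ≠ 1}.Finite := by
  refine ((gal_fin_le B hw x).union (gal_fin_le B hw x⁻¹)).subset fun j hj => ?_
  obtain ⟨σ, hσ⟩ := hj
  by_cases h : w j (σ x) ≤ 1
  · right
    refine ⟨σ, fun h' => hσ (le_antisymm h ?_)⟩
    have h0 : w j (σ x) ≠ 0 := (w j).ne_zero_iff.2 (by simpa using hx)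
    rw [map_inv₀, map_inv₀, inv_le_one₀ (zero_lt_iff.2 h0)] at h'
    exact h'
  · left
    exact ⟨σ, h⟩

theorem gal_prod (hw : ∀ j, ExtOK (B.val j) (w j) (e j)) {x : L} (hx : x ≠ 0) (j : B.J) :
    ∑ σ : L ≃ₐ[F] L, log (w j (σ x)) = e j * log (B.val j (Algebra.norm F x)) := by
  have h0 : ∀ σ : L ≃ₐ[F] L, w j (σ x) ≠ 0 := fun σ => (w j).ne_zero_iff.2 (by simpa using hx)
  rw [← gal_log_prod _ _ fun σ _ => h0 σ, ← map_prod, ← Algebra.norm_eq_prod_automorphisms,
    (hw j).map, log_pow]
  simp

theorem gal_const [Fact p.Prime] [CharP F p] (hw : ∀ j, ExtOK (B.val j) (w j) (e j)) {x : L}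
    (hx : ∀ j (σ : L ≃ₐ[F] L), w j (σ x) = 1) : ∃ n, 0 < n ∧ x ^ (p ^ n) = x := by
  classical
  have hint : IsIntegral F x := Algebra.IsIntegral.isIntegral x
  have : CharP L p := charP_of_injective_algebraMap (algebraMap F L).injective p
  have hq0 : minpoly F x ≠ 0 := minpoly.ne_zero hint
  -- the coefficients of the minimal polynomial are constants
  have hc : ∀ n, (minpoly F x).coeff n ^ p = (minpoly F x).coeff n := by
    intro n
    refine B.const fun j => ?_
    have hsp : ((minpoly F x).map (algebraMap F L)).Splits := Normal.splits inferInstance x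
    have hmon : ((minpoly F x).map (algebraMap F L)).Monic := (minpoly.monic hint).map _
    have hprod : (minpoly F x).map (algebraMap F L) =
        (((minpoly F x).map (algebraMap F L)).roots.map fun y => X - C y).prod := by
      have := hsp.eq_prod_roots
      rw [hmon.leadingCoeff, C_1, one_mul] at this
      exact this
    have hle : w j (algebraMap F L ((minpoly F x).coeff n)) ≤ 1 := by
      rw [← coeff_map, hprod]
      refine gal_coeff (w j) _ (fun y hy => ?_) n
      have hy0 : aeval y (minpoly F x) = 0 := by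
        rw [mem_roots hmon.ne_zero, IsRoot.def, eval_map_algebraMap] at hy
        exact hy
      obtain ⟨σ, hσ⟩ := minpoly.exists_algEquiv_of_root hint.isAlgebraic hy0
      have hy' : y = σ.symm x := by rw [← hσ, AlgEquiv.symm_apply_apply]
      rw [hy']
      exact le_of_eq (hx j σ.symm)
    rw [(hw j).map] at hle
    exact (pow_le_one_iff (hw j).pos.ne').1 hle
  -- the Frobenius permutes the roots
  have hfr : ∀ y : L, aeval y (minpoly F x) = 0 → aeval (y ^ p) (minpoly F x) = 0 := by
    intro y hy
    have h1 : aeval (y ^ p) (minpoly F x) = (aeval y (minpoly F x)) ^ p := by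
      rw [aeval_eq_sum_range, aeval_eq_sum_range, sum_pow_char]
      refine Finset.sum_congr rfl fun i _ => ?_
      rw [Algebra.smul_def, Algebra.smul_def, mul_pow, ← map_pow, hc i, ← pow_mul, ← pow_mul,
        mul_comm p i]
    rw [h1, hy, zero_pow (Fact.out : p.Prime).ne_zero]
  have hroot : ∀ n, aeval (x ^ p ^ n) (minpoly F x) = 0 := by
    intro n
    induction n with
    | zero => simp
    | succ n ih => rw [pow_succ, pow_mul]; exact hfr _ ih
  have hfin : (Set.range fun n : ℕ => x ^ p ^ n).Finite := by
    refine ((minpoly F x).rootSet_finite L).subset ?_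
    rintro _ ⟨n, rfl⟩
    exact (mem_rootSet.2 ⟨hq0, hroot n⟩)
  have hinj : ¬ Function.Injective fun n : ℕ => x ^ p ^ n := fun h =>
    Set.infinite_range_of_injective h hfin
  have hfi : ∀ n, Function.Injective fun y : L => y ^ p ^ n := fun n =>
    (iterateFrobenius_inj L p n)
  obtain ⟨a, b, hab, hne⟩ : ∃ a b : ℕ, a < b ∧ x ^ p ^ a = x ^ p ^ b := by
    rw [Function.Injective] at hinj
    push Not at hinj
    obtain ⟨a, b, h1, h2⟩ := hinj
    rcases lt_or_gt_of_ne h2 with h | h
    · exact ⟨a, b, h, h1⟩
    · exact ⟨b, a, h, h1.symm⟩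
  refine ⟨b - a, by omega, hfi a ?_⟩
  change (x ^ p ^ (b - a)) ^ p ^ a = x ^ p ^ a
  rw [← pow_mul, ← pow_add, Nat.sub_add_cancel hab.le, hne]

end UDV
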