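import Pool.Agent.UDV.BaseB
import Pool.Agent.UDV.DerA

/-!
# UDV: local bounds for the extended derivations

PROOF of `ext_der_bound`.  Let `B` be the power basis of `L / F` with generator `θ`
(`IntermediateField.adjoin.powerBasis`, `IntermediateField.topEquiv`; or
`PowerBasis.ofAdjoinEqTop`-style) and `D0 = Algebra.discr F B.basis ≠ 0`
(`Algebra.discr_not_zero_of_basis`).  Let `v`, `w`, `e` be given, `O = v.valuationSubring`, a
principal ideal domain (so integrally closed) with fraction field `F`; `θ` is integral over `O`.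
Step 1.  Let `a : L` with `IntV v a`, i.e. `a` is integral over `O`.
`Algebra.discr_mul_isIntegral_mem_adjoin` gives `D0 * a ∈ O[θ]`, so `D0 * a = aeval θ q`, where
`q : F[X]` has coefficients of value `≤ 1`.  `δ (aeval θ q) = aeval θ (coefficientwise D of q) +
aeval θ q' * δ θ` (induction on polynomials).  As `w θ ≤ 1` (`h.int`) and `v (D c) ≤ 1`,
`w (δ (D0 * a)) ≤ max 1 (w (δ θ)) =: M`.  Now `δ (D0 * a) = D0 * δ a + (D D0) * a` and
`v D0 ≤ 1` (discriminant of an integral basis is integral, `Algebra.discr_isIntegral`), so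
`v (D D0) ≤ 1`, `w (D0 * δ a) ≤ M`.
Step 2.  General `y`, `w y ≤ 1`: `y * b = a` with `IntV v a`, `IntV v b`, `w b = 1` (`h.frac`).
`D0 * δ y * b = D0 * δ a - y * (D0 * δ b)`, so `w (D0 * δ y) ≤ M`, and
`w (algebraMap D0) = v D0 ^ e`.

PROOF of `ext_der`.  Choose `θ` with `F⟮θ⟯ = ⊤` (`Field.exists_primitive_element`).  There is
`c : F`, `c ≠ 0` such that `c * θ` has a minimal polynomial with coefficients of value `≤ 1`
(the coefficients of `minpoly F (c θ)` are `c ^ (n - k) * coeff`, take `v c` small enough: a power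
of the uniformizer; `minpoly` of a multiple: `Polynomial.scaleRoots`), and `F⟮c θ⟯ = ⊤`.  Apply
`ext_der_bound` to `c θ`: `v D0 ^ e * w (δ y) ≤ max 1 (w (δ (c θ)))`, a fixed bound.

PROOF of `ext_der_ord`.  `x = 0` is clear.  Otherwise `w x = exp (-k)`, `x = ϖ ^ k * u` with
`k : ℤ`, `w ϖ = exp (-1)`, `w u = 1`.
`δ x = k * ϖ ^ (k-1) * δ ϖ * u + ϖ ^ k * δ u` (`Derivation.leibniz_zpow`), `w (k : L) ≤ 1`, so
`w (δ x) ≤ max (exp (1 - k) * exp b) (exp (-k) * exp b)`.
-/

open Polynomial WithZero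

namespace UDV

universe u v

private lemma intV_integral {F : Type v} {L : Type u} [Field F] [Field L] [Algebra F L]
    {v : Valuation F ℤᵐ⁰} [Algebra v.valuationSubring L]
    [IsScalarTower v.valuationSubring F L] {y : L} (hy : IntV v y) :
    IsIntegral v.valuationSubring y := by
  obtain ⟨q, hq, hc, h0⟩ := hy
  have hl : q ∈ lifts (algebraMap v.valuationSubring F) := by
    rw [lifts_iff_coeff_lifts]
    intro n
    exact ⟨⟨q.coeff n, (v.mem_valuationSubring_iff _).2 (hc n)⟩, rfl⟩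
  obtain ⟨r, hr, _, hm⟩ := lifts_and_natDegree_eq_and_monic hl hq
  refine ⟨r, hm, ?_⟩
  rw [← aeval_def, ← aeval_map_algebraMap F y r, hr, h0]

private lemma v_int {L : Type u} [Field L] (w : Valuation L ℤᵐ⁰) (k : ℤ) : w (k : L) ≤ 1 :=
  (w.mem_valuationSubring_iff _).1 (intCast_mem w.valuationSubring k)

private lemma v_nat {L : Type u} [Field L] (w : Valuation L ℤᵐ⁰) (k : ℕ) : w (k : L) ≤ 1 := by
  have := v_int w (k : ℤ)
  simpa using this

private lemma w_map_le {F : Type v} {L : Type u} [Field F] [Field L] [Algebra F L]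
    {v : Valuation F ℤᵐ⁰} {w : Valuation L ℤᵐ⁰} {e : ℕ} (h : ExtOK v w e) {x : F} (hx : v x ≤ 1) :
    w (algebraMap F L x) ≤ 1 := by
  rw [h.map]; exact pow_le_one₀ zero_le hx

private lemma aeval_bound {F : Type v} {L : Type u} [Field F] [Field L] [Algebra F L]
    {v : Valuation F ℤᵐ⁰} {w : Valuation L ℤᵐ⁰} {e : ℕ} (h : ExtOK v w e) {θ : L}
    (hθ : w θ ≤ 1) (D : Derivation ℤ F F) (δ : Derivation ℤ L L)
    (hδ : ∀ x, δ (algebraMap F L x) = algebraMap F L (D x)) (hD : ∀ x, v x ≤ 1 → v (D x) ≤ 1)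
    [Algebra v.valuationSubring L] [IsScalarTower v.valuationSubring F L]
    (q : (v.valuationSubring)[X]) : w (δ (aeval θ q)) ≤ max 1 (w (δ θ)) := by
  induction q using Polynomial.induction_on' with
  | add p q hp hq =>
    rw [map_add, map_add]
    exact (w.map_add _ _).trans (max_le hp hq)
  | monomial n c =>
    rw [aeval_monomial, IsScalarTower.algebraMap_apply v.valuationSubring F L, δ.leibniz, hδ,
      Derivation.leibniz_pow]
    have hc : v (algebraMap v.valuationSubring F c) ≤ 1 :=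
      (v.mem_valuationSubring_iff _).1 c.2
    refine (w.map_add _ _).trans (max_le ?_ ?_)
    · refine le_trans ?_ (le_max_right _ _)
      rw [smul_eq_mul, nsmul_eq_mul, smul_eq_mul, map_mul, map_mul, map_mul, map_pow]
      have h1 := w_map_le h hc
      have h2 := v_nat w n
      have h3 : w θ ^ (n - 1) ≤ 1 := pow_le_one₀ zero_le hθ
      calc _ ≤ 1 * (1 * (1 * w (δ θ))) := by gcongr
        _ = w (δ θ) := by simp
    · refine le_trans ?_ (le_max_left _ _)
      rw [smul_eq_mul, map_mul, map_pow]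
      have h1 := w_map_le h (hD _ hc)
      have h3 : w θ ^ n ≤ 1 := pow_le_one₀ zero_le hθ
      exact mul_le_one' h3 h1

theorem ext_der_bound {F : Type v} {L : Type u} [Field F] [Field L] [Algebra F L]
    [FiniteDimensional F L] [Algebra.IsSeparable F L] {θ : L}
    (hθ : IntermediateField.adjoin F {θ} = ⊤) :
    ∃ D0 : F, D0 ≠ 0 ∧ ∀ (v : Valuation F ℤᵐ⁰) (w : Valuation L ℤᵐ⁰) (e : ℕ), ExtOK v w e →
      (∃ ϖ, v ϖ = exp (-1 : ℤ)) → (∀ n, v ((minpoly F θ).coeff n) ≤ 1) →
      ∀ (D : Derivation ℤ F F) (δ : Derivation ℤ L L),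
        (∀ x, δ (algebraMap F L x) = algebraMap F L (D x)) → (∀ x, v x ≤ 1 → v (D x) ≤ 1) →
        ∀ y : L, w y ≤ 1 → v D0 ^ e * w (δ y) ≤ max 1 (w (δ θ)) := by
  have hint : IsIntegral F θ := Algebra.IsIntegral.isIntegral θ
  have htop : Algebra.adjoin F {θ} = ⊤ := by
    have h1 := IntermediateField.adjoin_simple_toSubalgebra_of_isAlgebraic (F := F) (α := θ)
      hint.isAlgebraic
    rw [hθ, IntermediateField.top_toSubalgebra] at h1
    exact h1.symm
  obtain ⟨B, hB⟩ : ∃ B : PowerBasis F L, B.gen = θ :=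
    ⟨PowerBasis.ofAdjoinEqTop hint htop, rfl⟩
  refine ⟨Algebra.discr F B.basis, Algebra.discr_not_zero_of_basis F B.basis, ?_⟩
  intro v w e h _ hmin D δ hδ hD
  letI : Algebra v.valuationSubring L :=
    ((algebraMap F L).comp (algebraMap v.valuationSubring F)).toAlgebra
  haveI : IsScalarTower v.valuationSubring F L := IsScalarTower.of_algebraMap_eq fun _ => rfl
  have hθV : IntV v θ := ⟨minpoly F θ, minpoly.monic hint, hmin, minpoly.aeval F θ⟩
  have hθw : w θ ≤ 1 := h.int θ hθV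
  have hθO : IsIntegral v.valuationSubring θ := intV_integral hθV
  obtain ⟨D0, hD0⟩ : ∃ D0, D0 = Algebra.discr F B.basis := ⟨_, rfl⟩
  have hD0int : IsIntegral v.valuationSubring D0 := by
    rw [hD0]
    apply Algebra.discr_isIntegral
    intro i
    rw [B.basis_eq_pow, hB]
    exact hθO.pow _
  have hD0v : v D0 ≤ 1 := by
    obtain ⟨z, hz⟩ := (IsIntegrallyClosed.isIntegral_iff (R := v.valuationSubring)).1 hD0int
    rw [← hz]
    exact (v.mem_valuationSubring_iff _).1 z.2
  have step1 : ∀ a : L, IntV v a → w (algebraMap F L D0 * δ a) ≤ max 1 (w (δ θ)) := by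
    intro a ha
    have haO : IsIntegral v.valuationSubring a := intV_integral ha
    have hmem := Algebra.discr_mul_isIntegral_mem_adjoin (R := v.valuationSubring) F (B := B)
      (by rw [hB]; exact hθO) haO
    rw [hB, Algebra.adjoin_singleton_eq_range_aeval, AlgHom.mem_range, ← hD0] at hmem
    obtain ⟨q, hq⟩ := hmem
    have h1 := aeval_bound h hθw D δ hδ hD q
    rw [hq, Algebra.smul_def, δ.leibniz, hδ, smul_eq_mul, smul_eq_mul] at h1
    have h2 : algebraMap F L D0 * δ a =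
        (algebraMap F L D0 * δ a + a * algebraMap F L (D D0)) - a * algebraMap F L (D D0) := by
      ring
    rw [h2]
    refine (w.map_sub _ _).trans (max_le h1 ?_)
    refine le_trans ?_ (le_max_left _ _)
    rw [map_mul]
    exact mul_le_one' (h.int a ha) (w_map_le h (hD _ hD0v))
  intro y hy
  rw [← hD0, ← h.map, ← map_mul]
  obtain ⟨a, b, ha, hb, hwb, hyb⟩ := h.frac y hy
  have h1 : algebraMap F L D0 * δ y * b =
      algebraMap F L D0 * δ a - y * (algebraMap F L D0 * δ b) := by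
    rw [← hyb, δ.leibniz, smul_eq_mul, smul_eq_mul]
    ring
  have h2 : w (algebraMap F L D0 * δ y) = w (algebraMap F L D0 * δ y * b) := by
    rw [map_mul _ _ b, hwb, mul_one]
  rw [h2, h1]
  refine (w.map_sub _ _).trans (max_le (step1 a ha) ?_)
  rw [map_mul]
  calc w y * w (algebraMap F L D0 * δ b) ≤ 1 * max 1 (w (δ θ)) := by
        gcongr
        exact step1 b hb
    _ = _ := one_mul _

theorem ext_der {F : Type v} {L : Type u} [Field F] [Field L] [Algebra F L]
    [FiniteDimensional F L] [Algebra.IsSeparable F L] {v : Valuation F ℤᵐ⁰}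
    {w : Valuation L ℤᵐ⁰} {e : ℕ} (h : ExtOK v w e) (hv : ∃ ϖ, v ϖ = exp (-1 : ℤ))
    (D : Derivation ℤ F F) (δ : Derivation ℤ L L)
    (hδ : ∀ x, δ (algebraMap F L x) = algebraMap F L (D x)) (hD : ∀ x, v x ≤ 1 → v (D x) ≤ 1) :
    ∃ b : ℕ, ∀ y : L, w y ≤ 1 → w (δ y) ≤ exp (b : ℤ) := by
  letI : Algebra v.valuationSubring L :=
    ((algebraMap F L).comp (algebraMap v.valuationSubring F)).toAlgebra
  haveI : IsScalarTower v.valuationSubring F L := IsScalarTower.of_algebraMap_eq fun _ => rfl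
  obtain ⟨θ, hθ⟩ := Field.exists_primitive_element F L
  have hsurj : Function.Injective (algebraMap v.valuationSubring F) := Subtype.val_injective
  have halg : IsAlgebraic v.valuationSubring θ :=
    (IsFractionRing.isAlgebraic_iff v.valuationSubring F L).2
      (Algebra.IsIntegral.isIntegral (R := F) θ).isAlgebraic
  obtain ⟨c, hc, hcθ⟩ := halg.exists_integral_multiple
  obtain ⟨c', hc'⟩ : ∃ c' : F, c' = algebraMap v.valuationSubring F c := ⟨_, rfl⟩
  have hc0 : c' ≠ 0 := by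
    rw [hc']
    intro h0
    exact hc (hsurj (by rw [h0, map_zero]))
  obtain ⟨θ', hθ'⟩ : ∃ θ' : L, θ' = c • θ := ⟨_, rfl⟩
  have hθ'2 : θ' = algebraMap F L c' * θ := by
    rw [hθ', hc', Algebra.smul_def]
    rfl
  rw [← hθ'] at hcθ
  have hθ'top : IntermediateField.adjoin F {θ'} = ⊤ := by
    rw [eq_top_iff, ← hθ, IntermediateField.adjoin_simple_le_iff]
    have h1 : θ = algebraMap F L c'⁻¹ * θ' := by
      rw [hθ'2, ← mul_assoc, ← map_mul, inv_mul_cancel₀ hc0, map_one, one_mul]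
    rw [h1]
    exact mul_mem (IntermediateField.algebraMap_mem _ _)
      (IntermediateField.mem_adjoin_simple_self F θ')
  have hmin : ∀ n, v ((minpoly F θ').coeff n) ≤ 1 := by
    intro n
    rw [minpoly.isIntegrallyClosed_eq_field_fractions' (R := v.valuationSubring) F hcθ, coeff_map]
    exact (v.mem_valuationSubring_iff _).1 ((minpoly v.valuationSubring θ').coeff n).2
  obtain ⟨D0, hD0, H⟩ := ext_der_bound hθ'top
  have H' := H v w e h hv hmin D δ hδ hD
  have hD0' : v D0 ^ e ≠ 0 := pow_ne_zero _ ((v.ne_zero_iff).2 hD0)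
  obtain ⟨t, ht⟩ : ∃ t, t = (v D0 ^ e)⁻¹ * max 1 (w (δ θ')) := ⟨_, rfl⟩
  have hb : ∃ b : ℕ, t ≤ exp (b : ℤ) := by
    by_cases h0 : t = 0
    · exact ⟨0, by rw [h0]; exact zero_le⟩
    · refine ⟨(log t).toNat, ?_⟩
      rw [← exp_log h0, exp_le_exp, log_exp]
      exact Int.self_le_toNat _
  obtain ⟨b, hb⟩ := hb
  refine ⟨b, fun y hy => le_trans ?_ hb⟩
  rw [ht]
  have h1 := H' y hy
  calc w (δ y) = (v D0 ^ e)⁻¹ * (v D0 ^ e * w (δ y)) := by
        rw [← mul_assoc, inv_mul_cancel₀ hD0', one_mul]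
    _ ≤ _ := by gcongr

/-- the bound for all elements from the bound for integral elements -/
theorem ext_der_ord {L : Type u} [Field L] {w : Valuation L ℤᵐ⁰}
    (hw : ∃ ϖ, w ϖ = exp (-1 : ℤ)) (δ : Derivation ℤ L L) {b : ℤ}
    (hb : ∀ y : L, w y ≤ 1 → w (δ y) ≤ exp b) (x : L) :
    w (δ x) ≤ w x * exp (b + 1) := by
  by_cases hx : x = 0
  · rw [hx]; simp
  obtain ⟨ϖ, hϖ⟩ := hw
  have hϖ0 : ϖ ≠ 0 := by
    rintro rfl
    rw [map_zero] at hϖ
    exact exp_ne_zero hϖ.symm
  have hwx : w x ≠ 0 := (w.ne_zero_iff).2 hx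
  obtain ⟨n, hn⟩ : ∃ n : ℤ, n = log (w x) := ⟨_, rfl⟩
  have hn' : w x = exp n := by rw [hn, exp_log hwx]
  obtain ⟨u, hu⟩ : ∃ u, u = x * ϖ ^ n := ⟨_, rfl⟩
  have hpow : ∀ k : ℤ, w (ϖ ^ k) = exp (-k) := by
    intro k
    rw [map_zpow₀, hϖ, ← exp_zsmul]
    congr 1
    simp
  have hwu : w u = 1 := by
    rw [hu, map_mul, hpow, hn', ← exp_add, add_neg_cancel, exp_zero]
  have hx2 : x = ϖ ^ (-n) * u := by
    rw [hu, zpow_neg]
    field_simp
  have hδ : δ x = ϖ ^ (-n) * δ u + u * (((-n : ℤ) : L) * (ϖ ^ (-n - 1) * δ ϖ)) := by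
    conv_lhs => rw [hx2]
    rw [δ.leibniz, Derivation.leibniz_zpow, smul_eq_mul, smul_eq_mul, zsmul_eq_mul, smul_eq_mul]
  rw [hδ, hn']
  refine (w.map_add _ _).trans (max_le ?_ ?_)
  · rw [map_mul, hpow, neg_neg]
    have h1 := hb u hwu.le
    calc exp n * w (δ u) ≤ exp n * exp b := by gcongr
      _ ≤ exp n * exp (b + 1) := by
        gcongr
        rw [exp_le_exp]; omega
  · rw [map_mul, map_mul, map_mul, hwu, one_mul, hpow]
    have h1 : w (δ ϖ) ≤ exp b := hb ϖ (by
      rw [hϖ, ← exp_zero, exp_le_exp]; omega)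
    calc w ((-n : ℤ) : L) * (exp (-(-n - 1)) * w (δ ϖ)) ≤ 1 * (exp (-(-n - 1)) * exp b) := by
          gcongr
          exact v_int w _
      _ = exp n * exp (b + 1) := by
          rw [one_mul, ← exp_add, ← exp_add]
          congr 1
          ring

end UDV
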