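import Pool.Agent.UDV.BaseB

/-!
# UDV: extension of a discrete valuation to a finite separable extension

PROOF of `ext_val`.  Let `O = v.valuationSubring` (a discrete valuation ring: there is an element of
value `exp (-1)`, so `v` is surjective; `Valuation.IsRankOneDiscrete`,
`Valuation.valuationSubring_isDiscreteValuationRing`; or prove directly that it is a principal
ideal domain which is not a field) with fraction field `F`, and let `B = integralClosure O L`
(give `L` the `O`-algebra structure through `F`).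
`B` is a Dedekind domain with fraction field `L` (`integralClosure.isDedekindDomain`,
`integralClosure.isFractionRing_of_finite_extension`).  Let `ϖ₀ ∈ O` have value `exp (-1)`.
There is a maximal ideal `P` of `B` over the maximal ideal of `O`
(`Ideal.exists_ideal_over_maximal_of_isIntegral`), `P ≠ ⊥` as `ϖ₀ ∈ P`.  Let `w` be the valuation of
the height one prime `P` (`IsDedekindDomain.HeightOneSpectrum.valuation`).
* `unif`: `valuation_exists_uniformizer`.
* `int`: `IntV v y` means that `y` is integral over `O` (the coefficients lift to `O`), so it is in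
  `B`, `valuation_le_one`.
* `map`: if `v x = 1` then `x`, `x⁻¹ ∈ O`, so `w x ≤ 1`, `w x⁻¹ ≤ 1` and `w x = 1`.
  `w ϖ₀ < 1` as `ϖ₀ ∈ P` (`valuation_lt_one_iff_mem`), so `w ϖ₀ = exp (-e)` with `e ≥ 1`.
  For general `x ≠ 0`, `v x = exp (-k)`, `x = ϖ₀ ^ k * u` with `v u = 1`.
* `frac`: let `w y ≤ 1`, `y = c / s` with `c, s ∈ B`, `s ≠ 0`, `c ≠ 0`.  Write
`span {s} = P ^ k * J` with `J` not contained in `P` (unique factorization of ideals); then
`w s = exp (-k)`, so `w c ≤ exp (-k)` and `c ∈ P ^ k`
(`IsDedekindDomain.HeightOneSpectrum.intValuation_le_pow_iff_mem`).  Choose `b ∈ J`, `b ∉ P`.  Then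
`b * c ∈ J * P ^ k = span {s}`, so `b * c = s * a` with `a ∈ B` and `y * b = a`; `w b = 1` as
`b ∉ P`.
* `IntV` of elements of `B`: a monic polynomial over `O` maps to a monic polynomial over `F` with
  coefficients of value `≤ 1`.

PROOF of `ext_ram`.  Let `w ϖ = exp (-1)`, `n = finrank F L`.  The elements `1, ϖ, ..., ϖ ^ (e-1)`
are linearly independent over `F`: in a nontrivial relation `∑ c i * ϖ ^ i = 0` the nonzero terms
have values `v (c i) ^ e * exp (-i)`, which are pairwise different (`log` is `≡ -i` mod `e`), so the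
sum has the value of the largest term (`Valuation.map_sum_eq_of_lt` or induction), not `0`.
Hence `e ≤ n`.
-/

open Polynomial WithZero

namespace UDV

universe u v

theorem extval_dvr {F : Type v} [Field F] (v : Valuation F ℤᵐ⁰) (hv : ∃ ϖ, v ϖ = exp (-1 : ℤ)) :
    IsDiscreteValuationRing v.valuationSubring := by
  have h1 : Nontrivial (MonoidWithZeroHom.valueGroup (.ofClass v)) := by
    obtain ⟨ϖ, h⟩ := hv
    have hne : v ϖ ≠ 0 := by rw [h]; exact exp_ne_zero
    rw [Subgroup.nontrivial_iff_exists_ne_one]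
    refine ⟨Units.mk0 (v ϖ) hne, ?_, ?_⟩
    · apply MonoidWithZeroHom.mem_valueGroup
      exact ⟨ϖ, rfl⟩
    · intro h2
      have h3 := congrArg Units.val h2
      rw [Units.val_mk0, h, Units.val_one] at h3
      exact absurd h3 (by decide)
  infer_instance

/-- elements integral over the valuation ring -/
theorem extval_int {F : Type v} {L : Type u} [Field F] [Field L] [Algebra F L]
    (v : Valuation F ℤᵐ⁰) (y : L) : IsIntegral v.valuationSubring y ↔ IntV v y := by
  constructor
  · rintro ⟨q, hq, hy⟩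
    refine ⟨q.map (algebraMap v.valuationSubring F), hq.map _, fun n => ?_, ?_⟩
    · rw [coeff_map]
      exact (q.coeff n).2
    · rw [aeval_map_algebraMap]
      exact hy
  · rintro ⟨q, hq, hn, hy⟩
    have hlift : q ∈ Polynomial.lifts (algebraMap v.valuationSubring F) := by
      rw [Polynomial.lifts_iff_coeff_lifts]
      intro n
      exact ⟨⟨q.coeff n, hn n⟩, rfl⟩
    obtain ⟨q', hq', -, hm⟩ := Polynomial.lifts_and_degree_eq_and_monic hlift hq
    refine ⟨q', hm, ?_⟩
    rw [← hq', aeval_map_algebraMap] at hy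
    exact hy

theorem ext_val {F : Type v} {L : Type u} [Field F] [Field L] [Algebra F L]
    [FiniteDimensional F L] [Algebra.IsSeparable F L] (v : Valuation F ℤᵐ⁰)
    (hv : ∃ ϖ, v ϖ = exp (-1 : ℤ)) :
    ∃ (w : Valuation L ℤᵐ⁰) (e : ℕ), ExtOK v w e := by
  have hO : IsDiscreteValuationRing v.valuationSubring := extval_dvr v hv
  have hB : IsDedekindDomain (integralClosure v.valuationSubring L) :=
    integralClosure.isDedekindDomain v.valuationSubring F L
  have hF : IsFractionRing (integralClosure v.valuationSubring L) L :=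
    integralClosure.isFractionRing_of_finite_extension F L
  obtain ⟨ϖ, hϖ⟩ := hv
  have hinj : Function.Injective (algebraMap v.valuationSubring
      (integralClosure v.valuationSubring L)) := by
    intro a b hab
    have h1 := congrArg (algebraMap (integralClosure v.valuationSubring L) L) hab
    rw [← IsScalarTower.algebraMap_apply, ← IsScalarTower.algebraMap_apply,
      IsScalarTower.algebraMap_apply v.valuationSubring F L,
      IsScalarTower.algebraMap_apply v.valuationSubring F L] at h1
    exact Subtype.ext ((algebraMap F L).injective h1)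
  obtain ⟨Q, hQ, hQc⟩ := Ideal.exists_ideal_over_maximal_of_isIntegral
    (S := integralClosure v.valuationSubring L) (IsLocalRing.maximalIdeal v.valuationSubring)
    (by rw [(RingHom.injective_iff_ker_eq_bot _).mp hinj]; exact bot_le)
  have hϖ1 : v ϖ ≤ 1 := by rw [hϖ]; decide
  have hϖ0 : ϖ ≠ 0 := by
    rintro rfl
    rw [map_zero] at hϖ
    exact exp_ne_zero hϖ.symm
  obtain ⟨π, hπ⟩ : ∃ π : v.valuationSubring, (π : F) = ϖ := ⟨⟨ϖ, hϖ1⟩, rfl⟩
  have hπm : π ∈ IsLocalRing.maximalIdeal v.valuationSubring := by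
    rw [IsLocalRing.mem_maximalIdeal, mem_nonunits_iff]
    intro hu
    obtain ⟨π', hπ'⟩ := isUnit_iff_exists_inv.mp hu
    have h1 : v (π : F) * v (π' : F) = 1 := by
      rw [← map_mul]
      have h2 := congrArg (algebraMap v.valuationSubring F) hπ'
      rw [map_mul, map_one] at h2
      rw [← map_one v, ← h2]
      rfl
    have h3 : v (π' : F) ≤ 1 := π'.2
    rw [hπ, hϖ] at h1
    have h4 : exp (-1 : ℤ) * v (π' : F) ≤ exp (-1 : ℤ) * 1 := mul_le_mul_right h3 _
    rw [h1, mul_one] at h4
    exact absurd h4 (by decide)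
  have hπQ : algebraMap v.valuationSubring (integralClosure v.valuationSubring L) π ∈ Q := by
    rw [← hQc] at hπm
    exact hπm
  have hQ0 : Q ≠ ⊥ := by
    intro h
    rw [h, Ideal.mem_bot, map_eq_zero_iff _ hinj] at hπQ
    rw [hπQ] at hπ
    exact hϖ0 (by rw [← hπ]; rfl)
  obtain ⟨P, hP⟩ : ∃ P : IsDedekindDomain.HeightOneSpectrum
      (integralClosure v.valuationSubring L), P.asIdeal = Q := ⟨⟨Q, hQ.isPrime, hQ0⟩, rfl⟩
  have hle : ∀ y : L, IntV v y → P.valuation L y ≤ 1 := by
    intro y hy
    exact P.valuation_le_one (K := L) ⟨y, (extval_int v y).mpr hy⟩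
  have hOint : ∀ x : F, v x ≤ 1 → IntV v (algebraMap F L x) := by
    intro x hx
    rw [← extval_int]
    exact isIntegral_algebraMap (R := v.valuationSubring) (x := ⟨x, hx⟩)
  have hone : ∀ x : F, v x = 1 → P.valuation L (algebraMap F L x) = 1 := by
    intro x hx
    have h1 := hle _ (hOint x hx.le)
    have h2 := hle _ (hOint x⁻¹ (by rw [map_inv₀, hx, inv_one]))
    rw [map_inv₀, map_inv₀] at h2
    have hx0 : P.valuation L (algebraMap F L x) ≠ 0 := by
      rw [Valuation.ne_zero_iff, Ne, map_eq_zero]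
      rintro rfl
      rw [map_zero] at hx
      exact zero_ne_one hx
    refine le_antisymm h1 ?_
    rwa [inv_le_one₀ (zero_lt_iff.mpr hx0)] at h2
  have hlt : P.valuation L (algebraMap F L ϖ) < 1 := by
    have h1 := (P.valuation_lt_one_iff_mem (K := L)
      (algebraMap v.valuationSubring (integralClosure v.valuationSubring L) π)).mpr
      (by rw [hP]; exact hπQ)
    rw [← hπ]
    exact h1
  have hne : P.valuation L (algebraMap F L ϖ) ≠ 0 := by
    rw [Valuation.ne_zero_iff, Ne, map_eq_zero]
    exact hϖ0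
  obtain ⟨e, he0, he⟩ : ∃ e : ℕ, 0 < e ∧ P.valuation L (algebraMap F L ϖ) = exp (-1 : ℤ) ^ e := by
    have h1 : log (P.valuation L (algebraMap F L ϖ)) < 0 := by
      rw [← log_one]
      exact (log_lt_log hne one_ne_zero).mpr hlt
    refine ⟨(-log (P.valuation L (algebraMap F L ϖ))).toNat, by omega, ?_⟩
    rw [← exp_nsmul, nsmul_eq_mul, Int.toNat_of_nonneg (by omega)]
    rw [show -log (P.valuation L (algebraMap F L ϖ)) * -1 = log (P.valuation L (algebraMap F L ϖ))
      by ring, exp_log hne]
  refine ⟨P.valuation L, e, he0, ?_, P.valuation_exists_uniformizer L, hle, ?_⟩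
  · intro x
    by_cases hx : x = 0
    · rw [hx, map_zero, map_zero, map_zero, zero_pow he0.ne']
    · have hvx : v x ≠ 0 := (Valuation.ne_zero_iff v).mpr hx
      have h1 : v (x * ϖ ^ (log (v x))) = 1 := by
        rw [map_mul, map_zpow₀, hϖ]
        nth_rw 1 [← exp_log hvx]
        rw [← exp_zsmul, ← exp_add]
        simp
      have h2 := hone _ h1
      rw [map_mul, map_mul, map_zpow₀, map_zpow₀, he, mul_eq_one_iff_eq_inv₀ (by
        exact zpow_ne_zero _ (pow_ne_zero _ exp_ne_zero))] at h2
      rw [h2]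
      nth_rw 2 [← exp_log hvx]
      rw [← exp_nsmul, ← exp_zsmul, ← exp_neg, ← exp_nsmul]
      congr 1
      simp
      ring
  · intro y hy
    obtain ⟨n, d, hnd⟩ := P.exists_primeCompl_mul_eq_of_integer y hy
    refine ⟨algebraMap _ L n, algebraMap _ L (d : integralClosure v.valuationSubring L),
      (extval_int v _).mp n.2, (extval_int v _).mp (d : integralClosure v.valuationSubring L).2,
      ?_, hnd⟩
    rw [IsDedekindDomain.HeightOneSpectrum.valuation_eq_one_iff_notMem]
    exact d.2

theorem ext_ram {F : Type v} {L : Type u} [Field F] [Field L] [Algebra F L]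
    [FiniteDimensional F L] {v : Valuation F ℤᵐ⁰} {w : Valuation L ℤᵐ⁰} {e : ℕ}
    (h : ExtOK v w e) : e ≤ Module.finrank F L := by
  classical
  obtain ⟨ϖ, hϖ⟩ := h.unif
  have hϖ0 : ϖ ≠ 0 := by
    rintro rfl
    rw [map_zero] at hϖ
    exact exp_ne_zero hϖ.symm
  have hval : ∀ (g : F) (i : ℕ), g ≠ 0 →
      w (g • ϖ ^ i) ≠ 0 ∧ log (w (g • ϖ ^ i)) = e * log (v g) - i := by
    intro g i hg
    have hvg : v g ≠ 0 := (Valuation.ne_zero_iff v).mpr hg
    have h1 : w (g • ϖ ^ i) = v g ^ e * exp (-1 : ℤ) ^ i := by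
      rw [Algebra.smul_def, map_mul, h.map, map_pow, hϖ]
    rw [h1]
    refine ⟨mul_ne_zero (pow_ne_zero _ hvg) (pow_ne_zero _ exp_ne_zero), ?_⟩
    rw [log_mul (pow_ne_zero _ hvg) (pow_ne_zero _ exp_ne_zero), log_pow, log_pow, log_exp]
    simp
    ring
  have hli : LinearIndependent F (fun i : Fin e => ϖ ^ (i : ℕ)) := by
    rw [Fintype.linearIndependent_iff]
    intro g hg
    by_contra hcon
    push Not at hcon
    obtain ⟨i1, hi1⟩ := hcon
    obtain ⟨i0, hi0, hmax⟩ := Finset.exists_max_image (Finset.univ.filter fun i => g i ≠ 0)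
      (fun i => w (g i • ϖ ^ (i : ℕ))) ⟨i1, by simp [hi1]⟩
    have hg0 : g i0 ≠ 0 := by simpa using hi0
    have hw0 := (hval (g i0) i0 hg0).1
    have hlt : ∀ i ∈ Finset.univ.erase i0, w (g i • ϖ ^ (i : ℕ)) < w (g i0 • ϖ ^ (i0 : ℕ)) := by
      intro i hi
      have hne := Finset.ne_of_mem_erase hi
      by_cases hgi : g i = 0
      · rw [hgi, zero_smul, map_zero]
        exact zero_lt_iff.mpr hw0
      · refine lt_of_le_of_ne (hmax i (by simp [hgi])) ?_
        intro heq
        have e1 := (hval (g i) i hgi).2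
        have e2 := (hval (g i0) i0 hg0).2
        rw [heq, e2] at e1
        have e3 : (e : ℤ) ∣ (i : ℤ) - (i0 : ℤ) := ⟨log (v (g i)) - log (v (g i0)), by
          linear_combination e1⟩
        have h4 := i.2
        have h5 := i0.2
        have e4 : (i : ℤ) - (i0 : ℤ) = 0 := by
          apply Int.eq_zero_of_abs_lt_dvd e3
          rw [abs_lt]
          constructor <;> omega
        exact hne (Fin.ext (by omega))
    have hsum := Finset.add_sum_erase Finset.univ (fun i : Fin e => g i • ϖ ^ (i : ℕ))
      (Finset.mem_univ i0)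
    rw [hg] at hsum
    have hlt2 := Valuation.map_sum_lt w hw0 hlt
    have h6 : g i0 • ϖ ^ (i0 : ℕ) = -∑ i ∈ Finset.univ.erase i0, g i • ϖ ^ (i : ℕ) :=
      eq_neg_of_add_eq_zero_left hsum
    have h7 := congrArg w h6
    rw [Valuation.map_neg] at h7
    rw [h7] at hlt2
    exact lt_irrefl _ hlt2
  have := hli.fintype_card_le_finrank
  rwa [Fintype.card_fin] at this

end UDV
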