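import Pool.Agent.UDV.Base
import Pool.Agent.UDV.Divisorial

/-!
# UDV: calculus of uniformly definable relations

`Good K`: `K` is an infinite finitely generated field of positive characteristic.
`UD R`: the relation `R` (on assignments `ℕ → K` of the variables) is given by one formula of the
language of rings in all good fields.  `TT f`: `f` is given by a term.

PROOFS.  Everything is the corresponding `realize` lemma of Mathlib; the structure of `K` is
`FirstOrder.Ring.compatibleRingOfRing K`, and `FirstOrder.Ring.realize_add`, ... compute terms.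
* `TT.*`: terms of `Language.ring` (`+`, `*`, `-`, `0`, `1` have instances on terms,
  `FirstOrder.Ring`).  `TT.int`: induction on the polynomial (integer constants from
  `1`, `+`, `-`; powers from products).
* `UD.eq`: `Term.equal`, `Formula.realize_equal`.
* `UD.not`, `UD.and`, `UD.or`, `UD.imp`, `UD.iff`: `Formula.realize_not` etc.
* `UD.ex`: relabel the variable `i` to a bound variable:
  `(φ.relabel (fun j => if j = i then Sum.inr 0 else Sum.inl j) : BoundedFormula ℕ 1).ex`
  (`BoundedFormula.realize_relabel`, `BoundedFormula.realize_ex`), the assignment becomes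
  `Function.update v i x`.  `UD.all` = `not ex not`.
* `UD.subst`: `Formula`/`BoundedFormula.subst`, `BoundedFormula.realize_subst`
  (choose terms for the `σ i`).
* `UD.finAnd`, `UD.finOr`: `Finset.induction_on`, with `UD.top`, `UD.and` (the formula may be chosen
  by induction; use `UD.congr`).
-/

open FirstOrder Polynomial

namespace UDV

universe u

/-- The infinite finitely generated fields of positive characteristic. -/
def Good (K : Type u) [Field K] : Prop :=
  ∃ p : ℕ, p.Prime ∧ CharP K p ∧ FGField K ∧ ∃ g : K, NC p g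

/-- Realization of a ring formula in a field. -/
def Rlz {α : Type} {K : Type u} [Field K] (φ : Language.ring.Formula α) (v : α → K) : Prop :=
  letI := FirstOrder.Ring.compatibleRingOfRing K
  φ.Realize v

/-- Uniformly definable relation. -/
def UD (R : ∀ (K : Type u) [Field K], (ℕ → K) → Prop) : Prop :=
  ∃ φ : Language.ring.Formula ℕ, ∀ (K : Type u) [Field K], Good K → ∀ v : ℕ → K,
    (Rlz φ v ↔ R K v)

/-- Function given by a term. -/
def TT (f : ∀ (K : Type u) [Field K], (ℕ → K) → K) : Prop :=
  ∃ t : Language.ring.Term ℕ, ∀ (K : Type u) [Field K] (v : ℕ → K),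
    (letI := FirstOrder.Ring.compatibleRingOfRing K; t.realize v) = f K v

section terms

variable {f g : ∀ (K : Type u) [Field K], (ℕ → K) → K}

private theorem TT.congr' (h : ∀ (K : Type u) [Field K] (v : ℕ → K), f K v = g K v) (hf : TT f) :
    TT g := by
  obtain ⟨t, ht⟩ := hf
  exact ⟨t, fun K _ v => (ht K v).trans (h K v)⟩

theorem TT.var (i : ℕ) : TT.{u} (fun _ _ v => v i) := by
  exact ⟨Language.Term.var i, fun K _ v => rfl⟩

theorem TT.zero : TT.{u} (fun _ _ _ => 0) := by
  refine ⟨0, fun K _ v => ?_⟩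
  letI := FirstOrder.Ring.compatibleRingOfRing K
  exact FirstOrder.Ring.realize_zero v

theorem TT.one : TT.{u} (fun _ _ _ => 1) := by
  refine ⟨1, fun K _ v => ?_⟩
  letI := FirstOrder.Ring.compatibleRingOfRing K
  exact FirstOrder.Ring.realize_one v

theorem TT.add (hf : TT f) (hg : TT g) : TT (fun K _ v => f K v + g K v) := by
  obtain ⟨s, hs⟩ := hf
  obtain ⟨t, ht⟩ := hg
  refine ⟨s + t, fun K _ v => ?_⟩
  beta_reduce
  rw [← hs K v, ← ht K v]
  letI := FirstOrder.Ring.compatibleRingOfRing K
  exact FirstOrder.Ring.realize_add s t v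

theorem TT.mul (hf : TT f) (hg : TT g) : TT (fun K _ v => f K v * g K v) := by
  obtain ⟨s, hs⟩ := hf
  obtain ⟨t, ht⟩ := hg
  refine ⟨s * t, fun K _ v => ?_⟩
  beta_reduce
  rw [← hs K v, ← ht K v]
  letI := FirstOrder.Ring.compatibleRingOfRing K
  exact FirstOrder.Ring.realize_mul s t v

theorem TT.neg (hf : TT f) : TT (fun K _ v => - f K v) := by
  obtain ⟨s, hs⟩ := hf
  refine ⟨-s, fun K _ v => ?_⟩
  beta_reduce
  rw [← hs K v]
  letI := FirstOrder.Ring.compatibleRingOfRing K
  exact FirstOrder.Ring.realize_neg s v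

theorem TT.sub (hf : TT f) (hg : TT g) : TT (fun K _ v => f K v - g K v) := by
  refine TT.congr' (fun K _ v => ?_) (hf.add hg.neg)
  exact (sub_eq_add_neg _ _).symm

theorem TT.pow (hf : TT f) (n : ℕ) : TT (fun K _ v => f K v ^ n) := by
  induction n with
  | zero => exact TT.congr' (fun K _ v => (pow_zero _).symm) TT.one
  | succ n ih => exact TT.congr' (fun K _ v => (pow_succ _ _).symm) (ih.mul hf)

private theorem TT.const (a : ℤ) : TT.{u} (fun K _ _ => (a : K)) := by
  induction a using Int.induction_on with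
  | zero => exact TT.congr' (fun K _ v => Int.cast_zero.symm) TT.zero
  | succ n ih =>
    refine TT.congr' (fun K _ v => ?_) (ih.add TT.one)
    push_cast
    rfl
  | pred n ih =>
    refine TT.congr' (fun K _ v => ?_) (ih.sub TT.one)
    push_cast
    rfl

theorem TT.int (hf : TT f) (F : ℤ[X]) : TT (fun K _ v => aeval (f K v) F) := by
  induction F using Polynomial.induction_on' with
  | add p q hp hq =>
    exact TT.congr' (fun K _ v => (map_add _ _ _).symm) (hp.add hq)
  | monomial n a =>
    refine TT.congr' (fun K _ v => ?_) ((TT.const a).mul (hf.pow n))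
    rw [aeval_monomial]
    simp

end terms

section rel

variable {R R' : ∀ (K : Type u) [Field K], (ℕ → K) → Prop}

theorem UD.congr (h : ∀ (K : Type u) [Field K], Good K → ∀ v : ℕ → K, (R K v ↔ R' K v))
    (hR : UD R) : UD R' := by
  obtain ⟨φ, hφ⟩ := hR
  exact ⟨φ, fun K _ hK v => (hφ K hK v).trans (h K hK v)⟩

theorem UD.eq {f g : ∀ (K : Type u) [Field K], (ℕ → K) → K} (hf : TT f) (hg : TT g) :
    UD (fun K _ v => f K v = g K v) := by
  obtain ⟨s, hs⟩ := hf
  obtain ⟨t, ht⟩ := hg
  refine ⟨s.equal t, fun K _ _ v => ?_⟩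
  beta_reduce
  rw [← hs K v, ← ht K v]
  unfold Rlz
  letI := FirstOrder.Ring.compatibleRingOfRing K
  exact Language.Formula.realize_equal

theorem UD.top : UD.{u} (fun _ _ _ => True) := by
  refine ⟨⊤, fun K _ _ v => ?_⟩
  unfold Rlz
  letI := FirstOrder.Ring.compatibleRingOfRing K
  exact Language.Formula.realize_top

theorem UD.not (h : UD R) : UD (fun K _ v => ¬ R K v) := by
  obtain ⟨φ, hφ⟩ := h
  refine ⟨φ.not, fun K _ hK v => ?_⟩
  beta_reduce
  rw [← hφ K hK v]
  unfold Rlz
  letI := FirstOrder.Ring.compatibleRingOfRing K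
  exact Language.Formula.realize_not

theorem UD.and (h : UD R) (h' : UD R') : UD (fun K _ v => R K v ∧ R' K v) := by
  obtain ⟨φ, hφ⟩ := h
  obtain ⟨ψ, hψ⟩ := h'
  refine ⟨φ ⊓ ψ, fun K _ hK v => ?_⟩
  beta_reduce
  rw [← hφ K hK v, ← hψ K hK v]
  unfold Rlz
  letI := FirstOrder.Ring.compatibleRingOfRing K
  exact Language.Formula.realize_inf

theorem UD.or (h : UD R) (h' : UD R') : UD (fun K _ v => R K v ∨ R' K v) := by
  obtain ⟨φ, hφ⟩ := h
  obtain ⟨ψ, hψ⟩ := h'
  refine ⟨φ ⊔ ψ, fun K _ hK v => ?_⟩
  beta_reduce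
  rw [← hφ K hK v, ← hψ K hK v]
  unfold Rlz
  letI := FirstOrder.Ring.compatibleRingOfRing K
  exact Language.Formula.realize_sup

theorem UD.imp (h : UD R) (h' : UD R') : UD (fun K _ v => R K v → R' K v) := by
  obtain ⟨φ, hφ⟩ := h
  obtain ⟨ψ, hψ⟩ := h'
  refine ⟨φ.imp ψ, fun K _ hK v => ?_⟩
  beta_reduce
  rw [← hφ K hK v, ← hψ K hK v]
  unfold Rlz
  letI := FirstOrder.Ring.compatibleRingOfRing K
  exact Language.Formula.realize_imp

theorem UD.iff (h : UD R) (h' : UD R') : UD (fun K _ v => (R K v ↔ R' K v)) := by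
  obtain ⟨φ, hφ⟩ := h
  obtain ⟨ψ, hψ⟩ := h'
  refine ⟨φ.iff ψ, fun K _ hK v => ?_⟩
  beta_reduce
  rw [← hφ K hK v, ← hψ K hK v]
  unfold Rlz
  letI := FirstOrder.Ring.compatibleRingOfRing K
  exact Language.Formula.realize_iff

theorem UD.ex (i : ℕ) (h : UD R) : UD (fun K _ v => ∃ x : K, R K (Function.update v i x)) := by
  obtain ⟨φ, hφ⟩ := h
  refine ⟨(Language.Formula.relabel
    (fun j : ℕ => if j = i then (Sum.inr () : ℕ ⊕ Unit) else Sum.inl j) φ).iExs Unit,
    fun K _ hK v => ?_⟩
  have key : ∀ x : K, (Rlz φ (Function.update v i x) ↔ R K (Function.update v i x)) :=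
    fun x => hφ K hK _
  beta_reduce
  simp_rw [← key]
  unfold Rlz
  letI := FirstOrder.Ring.compatibleRingOfRing K
  rw [Language.Formula.realize_iExs]
  have e : ∀ a : Unit → K, (Sum.elim v a ∘
      (fun j : ℕ => if j = i then (Sum.inr () : ℕ ⊕ Unit) else Sum.inl j)) =
      Function.update v i (a ()) := by
    intro a
    funext j
    by_cases hj : j = i
    · subst hj
      simp
    · simp [hj]
  constructor
  · rintro ⟨a, ha⟩
    refine ⟨a (), ?_⟩
    rw [Language.Formula.realize_relabel, e] at ha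
    exact ha
  · rintro ⟨x, hx⟩
    refine ⟨fun _ => x, ?_⟩
    rw [Language.Formula.realize_relabel, e]
    exact hx

theorem UD.all (i : ℕ) (h : UD R) : UD (fun K _ v => ∀ x : K, R K (Function.update v i x)) := by
  refine UD.congr (fun K _ _ v => ?_) (h.not.ex i).not
  push Not
  exact Iff.rfl

theorem UD.subst {σ : ℕ → ∀ (K : Type u) [Field K], (ℕ → K) → K} (hσ : ∀ i, TT (σ i))
    (h : UD R) : UD (fun K _ v => R K (fun i => σ i K v)) := by
  obtain ⟨φ, hφ⟩ := h
  choose t ht using hσ
  refine ⟨Language.BoundedFormula.subst φ t, fun K _ hK v => ?_⟩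
  beta_reduce
  rw [← hφ K hK]
  unfold Rlz
  letI := FirstOrder.Ring.compatibleRingOfRing K
  have e : (fun i => σ i K v) = fun i => (t i).realize v := by
    funext i
    exact (ht i K v).symm
  rw [e]
  exact Language.BoundedFormula.realize_subst

theorem UD.finAnd {ι : Type*} (s : Finset ι) {Q : ι → ∀ (K : Type u) [Field K], (ℕ → K) → Prop}
    (h : ∀ i ∈ s, UD (Q i)) : UD (fun K _ v => ∀ i ∈ s, Q i K v) := by
  classical
  induction s using Finset.induction_on with
  | empty => exact UD.congr (fun K _ _ v => by simp) UD.top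
  | insert a s ha ih =>
    refine UD.congr (fun K _ _ v => ?_) ((h a (Finset.mem_insert_self a s)).and
      (ih (fun i hi => h i (Finset.mem_insert_of_mem hi))))
    simp

theorem UD.finOr {ι : Type*} (s : Finset ι) {Q : ι → ∀ (K : Type u) [Field K], (ℕ → K) → Prop}
    (h : ∀ i ∈ s, UD (Q i)) : UD (fun K _ v => ∃ i ∈ s, Q i K v) := by
  classical
  induction s using Finset.induction_on with
  | empty => exact UD.congr (fun K _ _ v => by simp) UD.top.not
  | insert a s ha ih =>
    refine UD.congr (fun K _ _ v => ?_) ((h a (Finset.mem_insert_self a s)).or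
      (ih (fun i hi => h i (Finset.mem_insert_of_mem hi))))
    simp

/-- From variables `0`, `1` to a formula in two variables. -/
theorem UD.fin2 (h : UD R) (hR : ∀ (K : Type u) [Field K] (v w : ℕ → K), v 0 = w 0 → v 1 = w 1 →
      R K v → R K w) :
    ∃ φ : Language.ring.Formula (Fin 2), ∀ (K : Type u) [Field K], Good K → ∀ v : ℕ → K,
      (Rlz φ ![v 0, v 1] ↔ R K v) := by
  obtain ⟨φ, hφ⟩ := h
  refine ⟨Language.Formula.relabel (fun j : ℕ => if j = 0 then (0 : Fin 2) else 1) φ,
    fun K _ hK v => ?_⟩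
  have h1 : R K v ↔ R K (![v 0, v 1] ∘ (fun j : ℕ => if j = 0 then (0 : Fin 2) else 1)) :=
    ⟨hR K _ _ (by simp) (by simp), hR K _ _ (by simp) (by simp)⟩
  rw [h1, ← hφ K hK]
  unfold Rlz
  letI := FirstOrder.Ring.compatibleRingOfRing K
  exact Language.Formula.realize_relabel

end rel

end UDV
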