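import Pool.Agent.UDV.GalA
import Pool.Agent.UDV.ExtVal
import Pool.Agent.UDV.ExtDer
import Pool.Agent.UDV.SepExt

/-!
# UDV: the product formula field of a Galois extension

PROOF.  For every `j` choose `w j`, `e j` with `ExtOK (B.val j) (w j) (e j)` (`ext_val`, `B.unif`),
`1 ≤ e j ≤ N := finrank F L` (`ext_ram`).  For every `i : Fin B.d` choose `δ i` extending `B.D i`
(`der_exists`); it commutes with the automorphisms (`der_comm`).
Put `I = ULift.{u} B.J × (L ≃ₐ[F] L)`, `wt (j, σ) = B.w j * (N ! / e j)` (positive, as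
`e j ≤ N` divides `N !`), `ord (j, σ) x = - log (w j (σ x))`.
* `ord_zero`: `log 0 = 0`.  `ord_mul`, `ord_add`: valuations (`log` is monotone on nonzero
  elements).
* `fin`: `gal_fin` (`log (w j (σ x)) ≠ 0` implies `w j (σ x) ≠ 1`).
* `prod`: `∑ᶠ` over pairs = `∑ᶠ j, ∑ σ` (finite support; e.g. sum over a finset `T ×ˢ univ`);
  `∑ σ, wt * ord = - B.w j * (N !/e j) * e j * log (B.val j (norm x)) =
  - N ! * (B.w j * log (B.val j (norm x)))` (`gal_prod`), and the sum over `j` is `0` by `B.prod`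
  (`norm x ≠ 0`).
* bounds: let `θ` be a primitive element, `D0` as in `ext_der_bound`.  Call `j` good if all
  coefficients of `minpoly F θ` have `B.val j ≤ 1`, `B.val j D0 = 1` and `w j (δ i θ) ≤ 1` for all
  `i`.  All but finitely many `j` are good (`B.fin`, `gal_fin_le`), and for good `j`
  `w j y ≤ 1 → w j (δ i y) ≤ 1`.  For the other `j` take the maximum over `i` of the bounds of
  `ext_der`.  This defines `b (j, σ) = b₀ j`, zero for good `j`, finite support.
  `δ_int`: `w j (σ (δ i x)) = w j (δ i (σ x)) ≤ exp (b₀ j)`.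
  `δ_ord`: `ext_der_ord`.
* `δ_sep`: `sep_ext` with `B.D_sep`.    * `const`: `gal_const` (`log (w j (σ x)) = 0` and
  `w j (σ x) ≠ 0` give `w j (σ x) = 1`).
* last claim: `δ i (algebraMap F L x) = algebraMap F L (B.D i x) ≠ 0`.
-/

open Polynomial WithZero

namespace UDV

universe u

private theorem exists_bound {p : ℕ} {F : Type} [Field F] (B : BPF p F)
    {L : Type u} [Field L] [Algebra F L] [FiniteDimensional F L] [IsGalois F L]
    {w : B.J → Valuation L ℤᵐ⁰} {e : B.J → ℕ} (hw : ∀ j, ExtOK (B.val j) (w j) (e j))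
    {δ : Fin B.d → Derivation ℤ L L}
    (hδ : ∀ i x, δ i (algebraMap F L x) = algebraMap F L (B.D i x)) :
    ∃ b₀ : B.J → ℕ, {j | b₀ j ≠ 0}.Finite ∧
      ∀ j i y, w j y ≤ 1 → w j (δ i y) ≤ exp (b₀ j : ℤ) := by
  classical
  obtain ⟨θ, hθ⟩ := Field.exists_primitive_element F L
  obtain ⟨D0, hD0, hb⟩ := ext_der_bound (L := L) hθ
  have h1 : ∀ (j : B.J) (i : Fin B.d), ∃ b : ℕ, ∀ y : L, w j y ≤ 1 → w j (δ i y) ≤ exp (b : ℤ) :=
    fun j i => ext_der (hw j) (B.unif j) (B.D i) (δ i) (hδ i) (B.D_int j i)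
  choose c hc using h1
  obtain ⟨Gd, hGd⟩ : ∃ Gd : B.J → Prop, Gd = fun j => (∀ n, B.val j ((minpoly F θ).coeff n) ≤ 1) ∧
    B.val j D0 = 1 ∧ ∀ i, w j (δ i θ) ≤ 1 := ⟨_, rfl⟩
  have hfin : {j | ¬ Gd j}.Finite := by
    have f1 : (⋃ n ∈ (minpoly F θ).support, {j | B.val j ((minpoly F θ).coeff n) ≠ 1}).Finite := by
      refine Set.Finite.biUnion (Finset.finite_toSet _) fun n hn => ?_
      exact B.fin (Polynomial.mem_support_iff.1 hn)
    have f2 : {j | B.val j D0 ≠ 1}.Finite := B.fin hD0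
    have f3 : (⋃ i : Fin B.d, {j | ∃ σ : L ≃ₐ[F] L, ¬ w j (σ (δ i θ)) ≤ 1}).Finite :=
      Set.finite_iUnion fun i => gal_fin_le B hw (δ i θ)
    refine ((f1.union f2).union f3).subset ?_
    intro j hj
    by_contra hn
    rw [Set.mem_union, Set.mem_union, not_or, not_or] at hn
    obtain ⟨⟨h2, h3⟩, h4⟩ := hn
    apply hj
    rw [hGd]
    refine ⟨fun n => ?_, ?_, fun i => ?_⟩
    · by_cases h5 : (minpoly F θ).coeff n = 0
      · rw [h5, map_zero]
        exact zero_le_one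
      · by_contra h6
        apply h2
        rw [Set.mem_iUnion₂]
        refine ⟨n, Polynomial.mem_support_iff.2 h5, ?_⟩
        intro h7
        exact h6 (le_of_eq h7)
    · by_contra h5
      exact h3 h5
    · by_contra h5
      apply h4
      rw [Set.mem_iUnion]
      exact ⟨i, AlgEquiv.refl, h5⟩
  refine ⟨fun j => if Gd j then 0 else Finset.univ.sup (c j), ?_, ?_⟩
  · refine hfin.subset ?_
    intro j hj hG
    apply hj
    change (if Gd j then 0 else Finset.univ.sup (c j)) = 0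
    rw [if_pos hG]
  · intro j i y hy
    change w j (δ i y) ≤ exp ((if Gd j then 0 else Finset.univ.sup (c j) : ℕ) : ℤ)
    by_cases hG : Gd j
    · rw [if_pos hG]
      rw [hGd] at hG
      obtain ⟨h2, h3, h4⟩ := hG
      have h5 := hb (B.val j) (w j) (e j) (hw j) (B.unif j) h2 (B.D i) (δ i) (hδ i) (B.D_int j i)
        y hy
      rw [h3, one_pow, one_mul, max_eq_left (h4 i)] at h5
      exact h5
    · rw [if_neg hG]
      refine (hc j i y hy).trans ?_
      rw [WithZero.exp_le_exp]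
      exact_mod_cast Finset.le_sup (f := c j) (Finset.mem_univ i)

private theorem val_ne {L : Type u} [Field L] (w : Valuation L ℤᵐ⁰) {x : L} (hx : x ≠ 0) :
    w x ≠ 0 := (Valuation.ne_zero_iff w).2 hx

theorem pf_of_bpf {p : ℕ} [Fact p.Prime] {F : Type} [Field F] [CharP F p] (B : BPF p F)
    (L : Type u) [Field L] [Algebra F L] [FiniteDimensional F L] [IsGalois F L] :
    ∃ S : PF p L, ∀ x : F, (∃ i, B.D i x ≠ 0) → ∃ i, S.δ i (algebraMap F L x) ≠ 0 := by
  classical
  choose w e hw using fun j => ext_val (L := L) (B.val j) (B.unif j)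
  choose δ hδ using fun i => der_exists (L := L) (B.D i)
  obtain ⟨b₀, hbf, hb₀⟩ := exists_bound B hw hδ
  obtain ⟨N, hN⟩ : ∃ N, N = Module.finrank F L := ⟨_, rfl⟩
  have heN : ∀ j, e j ≤ N := fun j => by
    rw [hN]
    exact ext_ram (hw j)
  have he0 : ∀ j, 0 < e j := fun j => (hw j).pos
  have hdvd : ∀ j, e j ∣ N.factorial := fun j => Nat.dvd_factorial (he0 j) (heN j)
  have hσ : ∀ (σ : L ≃ₐ[F] L) {x : L}, x ≠ 0 → σ x ≠ 0 := fun σ x hx h => hx (by
    have := congrArg σ.symm h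
    rwa [AlgEquiv.symm_apply_apply, map_zero] at this)
  have hcomm : ∀ (i : Fin B.d) (σ : L ≃ₐ[F] L) (x : L), σ (δ i x) = δ i (σ x) :=
    fun i σ x => (der_comm (hδ i) σ x).symm
  refine ⟨{
    I := B.J × (L ≃ₐ[F] L)
    wt := fun P => B.w P.1 * (N.factorial / e P.1)
    wt_pos := ?_
    ord := fun P x => -log (w P.1 (P.2 x))
    ord_zero := ?_
    ord_mul := ?_
    ord_add := ?_
    fin := ?_
    prod := ?_
    d := B.d
    δ := δ
    b := fun P => b₀ P.1
    b_fin := ?_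
    δ_int := ?_
    δ_ord := ?_
    δ_sep := ?_
    const := ?_ }, ?_⟩
  · rintro ⟨j, σ⟩
    exact Nat.mul_pos (B.w_pos j)
      (Nat.div_pos (Nat.le_of_dvd (Nat.factorial_pos N) (hdvd j)) (he0 j))
  · rintro ⟨j, σ⟩
    change -log (w j (σ 0)) = 0
    rw [map_zero, map_zero, log_zero, neg_zero]
  · rintro ⟨j, σ⟩ x y hx hy
    change -log (w j (σ (x * y))) = -log (w j (σ x)) + -log (w j (σ y))
    rw [map_mul, map_mul, log_mul (val_ne _ (hσ σ hx)) (val_ne _ (hσ σ hy)), neg_add]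
  · rintro ⟨j, σ⟩ x y hx hy hxy
    change min (-log (w j (σ x))) (-log (w j (σ y))) ≤ -log (w j (σ (x + y)))
    have h1 : w j (σ (x + y)) ≤ max (w j (σ x)) (w j (σ y)) := by
      rw [map_add]
      exact Valuation.map_add _ _ _
    rcases le_max_iff.1 h1 with h2 | h2
    · have h3 := (log_le_log (val_ne _ (hσ σ hxy)) (val_ne _ (hσ σ hx))).2 h2
      exact (min_le_left _ _).trans (by linarith)
    · have h3 := (log_le_log (val_ne _ (hσ σ hxy)) (val_ne _ (hσ σ hy))).2 h2
      exact (min_le_right _ _).trans (by linarith)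
  · intro x hx
    refine ((gal_fin B hw hx).prod (Set.finite_univ (α := L ≃ₐ[F] L))).subset ?_
    rintro ⟨j, σ⟩ h
    refine ⟨⟨σ, fun h1 => h ?_⟩, Set.mem_univ _⟩
    change -log (w j (σ x)) = 0
    rw [h1, log_one, neg_zero]
  · intro x hx
    obtain ⟨T, hT⟩ : ∃ T : Finset B.J, T = (gal_fin B hw hx).toFinset := ⟨_, rfl⟩
    have hT' : ∀ j, j ∉ T → ∀ σ : L ≃ₐ[F] L, w j (σ x) = 1 := by
      intro j hj σ
      by_contra h1
      apply hj
      rw [hT, Set.Finite.mem_toFinset]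
      exact ⟨σ, h1⟩
    have hs : Function.support (fun P : B.J × (L ≃ₐ[F] L) =>
        ((B.w P.1 * (N.factorial / e P.1) : ℕ) : ℤ) * -log (w P.1 (P.2 x))) ⊆
        ((T ×ˢ (Finset.univ : Finset (L ≃ₐ[F] L)) : Finset _) : Set _) := by
      rintro ⟨j, σ⟩ h
      rw [Finset.mem_coe, Finset.mem_product]
      refine ⟨?_, Finset.mem_univ _⟩
      by_contra hj
      apply h
      change ((B.w j * (N.factorial / e j) : ℕ) : ℤ) * -log (w j (σ x)) = 0
      rw [hT' j hj σ, log_one, neg_zero, mul_zero]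
    change ∑ᶠ P : B.J × (L ≃ₐ[F] L),
        ((B.w P.1 * (N.factorial / e P.1) : ℕ) : ℤ) * -log (w P.1 (P.2 x)) = 0
    rw [finsum_eq_sum_of_support_subset _ hs, Finset.sum_product]
    have hnx : Algebra.norm F x ≠ 0 := Algebra.norm_ne_zero_iff.2 hx
    have h1 : ∀ j ∈ T, ∑ σ : L ≃ₐ[F] L,
        ((B.w j * (N.factorial / e j) : ℕ) : ℤ) * -log (w j (σ x)) =
        -(N.factorial : ℤ) * ((B.w j : ℤ) * log (B.val j (Algebra.norm F x))) := by
      intro j _
      rw [← Finset.mul_sum, Finset.sum_neg_distrib, gal_prod B hw hx j]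
      obtain ⟨Q, hQ⟩ : ∃ Q, Q = N.factorial / e j := ⟨_, rfl⟩
      have h2 : (Q : ℤ) * (e j : ℤ) = (N.factorial : ℤ) := by
        rw [hQ]
        exact_mod_cast Nat.div_mul_cancel (hdvd j)
      rw [← hQ, Nat.cast_mul, ← h2]
      ring
    rw [Finset.sum_congr rfl h1, ← Finset.mul_sum]
    have hs2 : Function.support (fun j => (B.w j : ℤ) * log (B.val j (Algebra.norm F x))) ⊆
        (T : Set B.J) := by
      intro j h
      by_contra hj
      apply h
      have h3 := gal_prod B hw hx j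
      rw [Finset.sum_eq_zero (fun σ _ => by rw [hT' j hj σ, log_one])] at h3
      have h4 : (e j : ℤ) ≠ 0 := by exact_mod_cast (he0 j).ne'
      have h5 : log (B.val j (Algebra.norm F x)) = 0 := by
        rcases mul_eq_zero.1 h3.symm with h6 | h6
        · exact absurd h6 h4
        · exact h6
      change (B.w j : ℤ) * log (B.val j (Algebra.norm F x)) = 0
      rw [h5, mul_zero]
    rw [← finsum_eq_sum_of_support_subset _ hs2, B.prod hnx, mul_zero]
  · refine (hbf.prod (Set.finite_univ (α := L ≃ₐ[F] L))).subset ?_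
    rintro ⟨j, σ⟩ h
    exact ⟨h, Set.mem_univ _⟩
  · rintro ⟨j, σ⟩ i x hx h0 hδx
    change 0 ≤ -log (w j (σ x)) at h0
    change -(b₀ j : ℤ) ≤ -log (w j (σ (δ i x)))
    have h1 : w j (σ x) ≤ 1 := by
      have h2 := (log_le_iff_le_exp (val_ne (w j) (hσ σ hx)) (a := 0)).1 (by linarith)
      rwa [exp_zero] at h2
    have h2 := hb₀ j i (σ x) h1
    rw [← hcomm] at h2
    have h3 := (log_le_iff_le_exp (val_ne (w j) (hσ σ hδx))).2 h2
    linarith
  · rintro ⟨j, σ⟩ i x hx hδx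
    change -log (w j (σ x)) - 1 - (b₀ j : ℤ) ≤ -log (w j (σ (δ i x)))
    have h1 := ext_der_ord (hw j).unif (δ i) (hb₀ j i) (σ x)
    rw [← hcomm] at h1
    have h2 := (log_le_log (val_ne (w j) (hσ σ hδx))
      (mul_ne_zero (val_ne (w j) (hσ σ hx)) exp_ne_zero)).2 h1
    rw [log_mul (val_ne (w j) (hσ σ hx)) exp_ne_zero, log_exp] at h2
    linarith
  · exact sep_ext B.D δ hδ B.D_sep
  · intro x hx h
    refine gal_const B hw (x := x) fun j σ => ?_
    have h1 : -log (w j (σ x)) = 0 := h (j, σ)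
    rw [← exp_log (val_ne (w j) (hσ σ hx)), neg_eq_zero.1 h1, exp_zero]
  · rintro x ⟨i, hi⟩
    refine ⟨i, ?_⟩
    change δ i (algebraMap F L x) ≠ 0
    rw [hδ]
    exact (_root_.map_ne_zero _).2 hi

end UDV
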