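import Pool.Agent.UDV.BPFa
import Pool.Agent.UDV.PFc

/-!
# UDV: every infinite finitely generated field of characteristic `p` has a chart

PROOF.  `K` is an algebra over `k = ZMod p` (`ZMod.algebra K p`); it is essentially of finite type
(`IntermediateField.adjoin k s = ⊤`, as it contains the subfield generated by `s`).
`exists_isTranscendenceBasis_and_isSeparable_of_perfectField` gives a finite transcendence basis
`t ⊆ K` with `K` separable over `adjoin k t`.  Let `d = card t`, enumerate `t` by
`x : Fin d → K`.  `d > 0`: otherwise `K` is algebraic over `ZMod p` and every element satisfies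
`g ^ (p ^ n) = g` for some `n > 0` (it generates a finite field), contradicting `NC p g`.
`R = MvPolynomial (Fin d) k → K`, `aeval x`, is injective, extend it to
`F = FractionRing R → K` (`IsFractionRing.lift`), and let `K` be an `F`-algebra in this way; the
image of `F` is `adjoin k t`, so `K` is separable (transport along `F ≃ adjoin k t`) and algebraic
over `F`, and finite (generated by the finite set `s`).
Let `L = normalClosure F K (AlgebraicClosure K)` (with `AlgebraicClosure K` an `F`-algebra), a
finite Galois extension of `F` (`IsGalois.normalClosure`, `normalClosure.is_finiteDimensional`) and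
a `K`-algebra.  `pf_of_bpf` applied to `exists_bpf p d` gives `S`, and for `x₀ = x 0` (the image of
`X 0`) some `i₀` with `S.δ i₀ (emb x₀) ≠ 0`.
(`L : Type u` for `K : Type u`.)
-/

open WithZero MvPolynomial

namespace UDV

universe u

/-- finitely generated fields are essentially of finite type over the prime field -/
private theorem ess_of_fg (p : ℕ) [Fact p.Prime] (K : Type u) [Field K] [Algebra (ZMod p) K]
    (hfg : ∃ s : Finset K, Subfield.closure (s : Set K) = ⊤) :
    Algebra.EssFiniteType (ZMod p) K := by
  obtain ⟨s, hs⟩ := hfg
  rw [← IntermediateField.fg_top_iff]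
  refine ⟨s, ?_⟩
  rw [eq_top_iff]
  intro x _
  have h1 : Subfield.closure (s : Set K) ≤
      (IntermediateField.adjoin (ZMod p) (s : Set K)).toSubfield :=
    Subfield.closure_le.2 (IntermediateField.subset_adjoin _ _)
  rw [hs] at h1
  exact h1 (Subfield.mem_top x)

/-- elements algebraic over the prime field -/
private theorem nc_not_alg {p : ℕ} [Fact p.Prime] {K : Type u} [Field K] [Algebra (ZMod p) K]
    {g : K} (hg : NC p g) : ¬ IsAlgebraic (ZMod p) g := by
  intro halg
  have hint : IsIntegral (ZMod p) g := halg.isIntegral
  have hfd : FiniteDimensional (ZMod p) (IntermediateField.adjoin (ZMod p) {g}) :=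
    IntermediateField.adjoin.finiteDimensional hint
  have hfin : Finite (IntermediateField.adjoin (ZMod p) {g}) :=
    Module.finite_of_finite (ZMod p)
  have hft : Fintype (IntermediateField.adjoin (ZMod p) {g}) := Fintype.ofFinite _
  have hcard : Fintype.card (IntermediateField.adjoin (ZMod p) {g}) =
      p ^ Module.finrank (ZMod p) (IntermediateField.adjoin (ZMod p) {g}) := by
    rw [Module.card_eq_pow_finrank (K := ZMod p), ZMod.card]
  have hpos : 0 < Module.finrank (ZMod p) (IntermediateField.adjoin (ZMod p) {g}) :=
    Module.finrank_pos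
  have h1 := FiniteField.pow_card (⟨g, IntermediateField.mem_adjoin_simple_self (ZMod p) g⟩ :
    IntermediateField.adjoin (ZMod p) {g})
  rw [hcard] at h1
  refine hg _ hpos ?_
  exact (Subtype.ext_iff.1 h1 :)

/-- the chart for a finite separable extension of a rational function field -/
private theorem chart_of_sep {p : ℕ} [Fact p.Prime] {K : Type u} [Field K] {d : ℕ} (hd : 0 < d)
    [Algebra (FractionRing (MvPolynomial (Fin d) (ZMod p))) K]
    [FiniteDimensional (FractionRing (MvPolynomial (Fin d) (ZMod p))) K]
    [Algebra.IsSeparable (FractionRing (MvPolynomial (Fin d) (ZMod p))) K] :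
    Nonempty (Chart p K) := by
  have hF : CharP (FractionRing (MvPolynomial (Fin d) (ZMod p))) p :=
    charP_of_injective_algebraMap (R := MvPolynomial (Fin d) (ZMod p))
      (IsFractionRing.injective _ _) p
  obtain ⟨B, i, hi⟩ := exists_bpf p d hd
  have h1 : Algebra.IsSeparable (FractionRing (MvPolynomial (Fin d) (ZMod p)))
      (SeparableClosure K) := Algebra.IsSeparable.trans _ K _
  have h2 : IsSepClosure (FractionRing (MvPolynomial (Fin d) (ZMod p)))
      (SeparableClosure K) := ⟨inferInstance, h1⟩
  have h3 : IsGalois (FractionRing (MvPolynomial (Fin d) (ZMod p)))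
      (SeparableClosure K) := inferInstance
  obtain ⟨S, hS⟩ := pf_of_bpf B (IntermediateField.normalClosure (FractionRing (MvPolynomial (Fin d) (ZMod p))) K
    (SeparableClosure K))
  obtain ⟨i₀, hi₀⟩ := hS _ ⟨i, hi⟩
  refine ⟨{ L := IntermediateField.normalClosure (FractionRing (MvPolynomial (Fin d) (ZMod p))) K
              (SeparableClosure K)
            emb := algebraMap K _
            S := S
            i₀ := i₀
            x₀ := algebraMap (FractionRing (MvPolynomial (Fin d) (ZMod p))) K
              (algebraMap (MvPolynomial (Fin d) (ZMod p)) _ (X ⟨0, hd⟩))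
            hx₀ := ?_ }⟩
  rw [← IsScalarTower.algebraMap_apply]
  exact hi₀

theorem exists_chart (p : ℕ) [Fact p.Prime] (K : Type u) [Field K] [CharP K p]
    (hfg : ∃ s : Finset K, Subfield.closure (s : Set K) = ⊤) {g : K} (hg : NC p g) :
    Nonempty (Chart p K) := by
  let _iA : Algebra (ZMod p) K := ZMod.algebra K p
  have hess : Algebra.EssFiniteType (ZMod p) K := ess_of_fg p K hfg
  obtain ⟨t, ht, hsep⟩ := exists_isTranscendenceBasis_and_isSeparable_of_perfectField (ZMod p) K
  -- `t` is not empty
  have htne : 0 < t.card := by
    rw [Finset.card_pos]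
    by_contra hne
    rw [Finset.not_nonempty_iff_eq_empty] at hne
    have hemp : IsEmpty t := by
      rw [hne]
      infer_instance
    have halg : Algebra.IsAlgebraic (ZMod p) K := (ht.isEmpty_iff_isAlgebraic).1 hemp
    exact nc_not_alg hg (halg.isAlgebraic g)
  set d := t.card with hd
  let x : Fin d → K := fun i => (t.equivFin.symm i : K)
  have hx : AlgebraicIndependent (ZMod p) x :=
    ht.1.comp (fun i : Fin d => t.equivFin.symm i) t.equivFin.symm.injective
  have hrange : Set.range x = (t : Set K) := by
    ext y
    constructor
    · rintro ⟨i, rfl⟩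
      exact (t.equivFin.symm i).2
    · intro hy
      exact ⟨t.equivFin ⟨y, hy⟩, by simp [x]⟩
  rw [← hrange] at hsep
  let φ : FractionRing (MvPolynomial (Fin d) (ZMod p)) →ₐ[ZMod p] K :=
    (IntermediateField.val _).comp hx.aevalEquivField.toAlgHom
  let _iF : Algebra (FractionRing (MvPolynomial (Fin d) (ZMod p))) K := φ.toRingHom.toAlgebra
  have hsepF : Algebra.IsSeparable (FractionRing (MvPolynomial (Fin d) (ZMod p))) K :=
    Algebra.IsSeparable.of_equiv_equiv hx.aevalEquivField.symm.toRingEquiv (RingEquiv.refl K)
      (by
        ext y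
        change φ (hx.aevalEquivField.symm y) = (y : K)
        change ((hx.aevalEquivField (hx.aevalEquivField.symm y)) : K) = (y : K)
        rw [AlgEquiv.apply_symm_apply])
  have htow : IsScalarTower (ZMod p) (FractionRing (MvPolynomial (Fin d) (ZMod p))) K :=
    IsScalarTower.of_algebraMap_eq fun r => (φ.commutes r).symm
  have hessF : Algebra.EssFiniteType (FractionRing (MvPolynomial (Fin d) (ZMod p))) K :=
    Algebra.EssFiniteType.of_comp (ZMod p) _ K
  have hfin : FiniteDimensional (FractionRing (MvPolynomial (Fin d) (ZMod p))) K :=
    Algebra.finite_of_essFiniteType_of_isAlgebraic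
  exact chart_of_sep htne

end UDV
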