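import Pool.Agent.UDV.Curve

/-!
# UDV: good elements

PROOFS.
* `SR_frob`: `aeval (a ^ (p ^ s)) f = (aeval a f) ^ (p ^ s)` (integer coefficients,
  characteristic `p`).  Let `e = ee p` (a prime different from `p`), `u = p ^ s % e`,
  `k = p ^ s / e`; `1 ≤ u < e`.  For `A = aeval a f ≠ 0` take `y = A ^ k`; for `A = 0` take `y = 1`.
* `star_of_SR`: for `f ∈ FS p` with `A = aeval z f`, `aeval w f = A ^ u * y ^ e`.  If `A = 0` then
  both values are `0`.  Otherwise (in `L`, `map_aeval`-type lemma `aeval (emb z) f =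
  emb (aeval z f)`) `ord P (aeval w f) = u * ord P A + e * ord P y`, and `e` is prime, `e ∤ u`.
* `star_descend`: `ord P (aeval (w ^ (p ^ s)) f) = p ^ s * ord P (aeval w f)`, `e` is prime and
  `e ≠ p`.
* `good_frob`: `Star (emb z) (emb w)`; by `not_star`, `emb w` is `NC`; `exists_not_pow`:
  `emb w = v ^ (p ^ s)` with some `δ j v ≠ 0`; `star_descend` and `curve` give `v = emb z`; `emb` is
  injective.
-/

open Polynomial

namespace UDV

universe u

theorem ee_prime (p : ℕ) : (ee p).Prime := by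
  unfold ee
  split_ifs
  · norm_num
  · norm_num

theorem ee_ne (p : ℕ) : ee p ≠ p := by
  unfold ee
  split_ifs with h
  · omega
  · exact fun h' => h h'.symm

theorem ee_not_dvd_pow (p : ℕ) [hp : Fact p.Prime] (s : ℕ) : ¬ ee p ∣ p ^ s := by
  intro h
  have h1 := (ee_prime p).dvd_of_dvd_pow h
  exact ee_ne p ((Nat.prime_dvd_prime_iff_eq (ee_prime p) hp.out).1 h1)

theorem aeval_frob (p : ℕ) [Fact p.Prime] {K : Type u} [Field K] [CharP K p] (a : K) (s : ℕ)
    (f : ℤ[X]) : aeval (a ^ (p ^ s)) f = (aeval a f) ^ (p ^ s) := by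
  have h := Polynomial.hom_eval₂ f (algebraMap ℤ K) (iterateFrobenius K p s) a
  rw [iterateFrobenius_def, iterateFrobenius_def] at h
  rw [aeval_def, aeval_def, h]
  congr 1
  exact RingHom.ext_int _ _

theorem aeval_emb {K L : Type u} [Field K] [Field L] (φ : K →+* L) (a : K) (f : ℤ[X]) :
    aeval (φ a) f = φ (aeval a f) := by
  rw [aeval_def, aeval_def, Polynomial.hom_eval₂]
  congr 1
  exact RingHom.ext_int _ _

theorem SR_frob (p : ℕ) [Fact p.Prime] {K : Type u} [Field K] [CharP K p] (a : K) (s : ℕ) :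
    SR p a (a ^ (p ^ s)) := by
  have he := (ee_prime p).pos
  have hu : 1 ≤ p ^ s % ee p := by
    rw [Nat.one_le_iff_ne_zero]
    intro h
    exact ee_not_dvd_pow p s (Nat.dvd_of_mod_eq_zero h)
  refine ⟨p ^ s % ee p, hu, Nat.mod_lt _ he, fun f _ => ?_⟩
  rw [aeval_frob]
  by_cases hA : aeval a f = 0
  · refine ⟨1, one_ne_zero, ?_⟩
    rw [hA, zero_pow (pow_ne_zero _ (Nat.Prime.ne_zero Fact.out)), zero_pow (by omega), zero_mul]
  · refine ⟨(aeval a f) ^ (p ^ s / ee p), pow_ne_zero _ hA, ?_⟩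
    rw [← pow_mul, ← pow_add]
    congr 1
    exact (Nat.mod_add_div' (p ^ s) (ee p)).symm

namespace PF

variable {p : ℕ} {L : Type u} [Field L] (S : PF p L) [Fact p.Prime] [CharP L p]

theorem star_descend {a w : L} (s : ℕ) (h : S.Star a (w ^ (p ^ s))) : S.Star a w := by
  intro P f hf
  rw [h P f hf, aeval_frob, S.ord_pow]
  have hpr : Prime ((ee p : ℕ) : ℤ) := Nat.prime_iff_prime_int.1 (ee_prime p)
  constructor
  · intro h1
    rcases hpr.dvd_or_dvd h1 with h2 | h2
    · exact absurd (Int.natCast_dvd_natCast.1 h2) (ee_not_dvd_pow p s)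
    · exact h2
  · intro h1
    exact h1.mul_left _

end PF

variable {p : ℕ} [Fact p.Prime] {K : Type u} [Field K] [CharP K p]

theorem Chart.charP (C : Chart p K) : CharP C.L p :=
  charP_of_injective_ringHom C.emb.injective p

theorem star_of_SR (C : Chart p K) {z w : K} (h : SR p z w) : C.S.Star (C.emb z) (C.emb w) := by
  obtain ⟨u, hu1, hu2, hf⟩ := h
  intro P f hfF
  obtain ⟨y, hy, e⟩ := hf f hfF
  rw [aeval_emb, aeval_emb, e, map_mul, map_pow, map_pow]
  by_cases hA : aeval z f = 0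
  · rw [hA, map_zero, zero_pow (by omega), zero_mul]
  · have hA' : C.emb (aeval z f) ≠ 0 := (map_ne_zero C.emb).2 hA
    have hy' : C.emb y ≠ 0 := (map_ne_zero C.emb).2 hy
    rw [C.S.ord_mul P (pow_ne_zero _ hA') (pow_ne_zero _ hy'), C.S.ord_pow, C.S.ord_pow]
    have hpr : Prime ((ee p : ℕ) : ℤ) := Nat.prime_iff_prime_int.1 (ee_prime p)
    constructor
    · intro h1
      exact dvd_add (h1.mul_left _) (dvd_mul_right _ _)
    · intro h1
      have h2 := (dvd_add_left (dvd_mul_right ((ee p : ℕ) : ℤ) (C.S.ord P (C.emb y)))).1 h1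
      rcases hpr.dvd_or_dvd h2 with h3 | h3
      · exfalso
        have h4 := Nat.le_of_dvd (by omega) (Int.natCast_dvd_natCast.1 h3)
        omega
      · exact h3

theorem good_frob (C : Chart p K) {z w : K} {i : Fin C.S.d} (hz : C.S.δ i (C.emb z) ≠ 0)
    (hm : C.S.B + C.S.Lc (C.S.δ i (C.emb z)) < C.S.deg (C.emb z)) (h : SR p z w) :
    ∃ s : ℕ, w = z ^ (p ^ s) := by
  haveI := C.charP
  have hst := star_of_SR C h
  have hw : NC p (C.emb w) := by
    by_contra hcon
    exact C.S.not_star hz hm hcon hst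
  obtain ⟨s, y, e, -, j, hj⟩ := C.S.exists_not_pow hw
  rw [e] at hst
  have h1 := C.S.curve hz hj (C.S.star_descend s hst) hm
  refine ⟨s, C.emb.injective ?_⟩
  rw [e, h1, map_pow]

end UDV
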