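import Pool.Agent.UDV.Base

/-!
# UDV: the numbers `nn p s = 1 + p + ... + p ^ (s - 1)`

PROOFS.  `nn_mul`: geometric sum (`Nat.geomSum_eq` / `geom_sum_mul`).  `nn_mod`: `nn p s - 1` is
divisible by `p` for `s ≥ 1`.  `nn_ge`: the last summand.  `nn_coprime`: `(p - 1) * gcd (nn p s) (nn p s') =
gcd (p ^ s - 1) (p ^ s' - 1) = p ^ (gcd s s') - 1 = p - 1` (`Nat.pow_sub_one_gcd_pow_sub_one`), and
`p - 1 > 0`.
`pow_sub_one_dvd`: same gcd formula: `p ^ s - 1 ∣ p ^ s' - 1` iff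
`p ^ (gcd s s') - 1 = p ^ s - 1` iff `gcd s s' = s`.

`frob_alt`: let `N = nn p s`, `l' = l % s < s`; `N ∣ p ^ s - 1`, so `p ^ l ≡ p ^ l'` mod `N`.
If `2 l' ≤ s`: `N ∣ p ^ l' * a P - c P` and `|p ^ l' * a P - c P| ≤ p ^ (s/2) * A + M < N`, so it is
`0`.  If `s < 2 l'`: `k = s - l' ≥ 1`, `2 k < s`; `N` is coprime to `p`; from
`N ∣ p ^ l' * a P - c P` multiply by `p ^ k`: `N ∣ p ^ s * a P - p ^ k * c P`, so
`N ∣ a P - p ^ k * c P` and `|a P - p ^ k * c P| ≤ A + p ^ (s/2) * M < N`, so it is `0`.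
Here `N ≥ p ^ (s - 1) ≥ p ^ (s / 2) * p ^ (s - 1 - s / 2)`, `s - 1 - s / 2 ≥ A + M + 1` and
`p ^ k ≥ 2 ^ k > k`.
-/

namespace UDV

theorem nn_mul (p s : ℕ) (hp : 1 ≤ p) : (p - 1) * nn p s = p ^ s - 1 := by
  obtain ⟨x, rfl⟩ : ∃ x, p = x + 1 := ⟨p - 1, by omega⟩
  have h := geom_sum_mul_add x s
  unfold nn
  rw [← h, Nat.add_sub_cancel, Nat.add_sub_cancel, mul_comm]

theorem nn_mod (p s : ℕ) (hs : 1 ≤ s) : ∃ k, nn p s = p * k + 1 := by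
  obtain ⟨t, rfl⟩ : ∃ t, s = t + 1 := ⟨s - 1, by omega⟩
  refine ⟨nn p t, ?_⟩
  unfold nn
  rw [Finset.sum_range_succ', Finset.mul_sum, pow_zero]
  congr 1
  exact Finset.sum_congr rfl fun i _ => pow_succ' p i

theorem nn_coprime_p (p s : ℕ) (hs : 1 ≤ s) : Nat.Coprime (nn p s) p := by
  obtain ⟨k, hk⟩ := nn_mod p s hs
  rw [hk]
  simp

theorem nn_ge (p s : ℕ) (hs : 1 ≤ s) : p ^ (s - 1) ≤ nn p s := by
  unfold nn
  exact Finset.single_le_sum (f := fun i => p ^ i) (fun i _ => Nat.zero_le _)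
    (Finset.mem_range.mpr (by omega))

theorem nn_coprime (p : ℕ) (hp : 2 ≤ p) {s s' : ℕ} (h : Nat.Coprime s s') :
    Nat.Coprime (nn p s) (nn p s') := by
  have h1 := Nat.pow_sub_one_gcd_pow_sub_one p s s'
  rw [← nn_mul p s (by omega), ← nn_mul p s' (by omega), Nat.gcd_mul_left, h, pow_one] at h1
  exact Nat.eq_of_mul_eq_mul_left (show 0 < p - 1 by omega) (by rw [h1, mul_one])

private theorem bound {p : ℕ} (hp : 2 ≤ p) {k A M s : ℕ} (hk : 2 * k ≤ s)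
    (hs : 2 * (A + M + 3) ≤ s) : p ^ k * A + M < nn p s := by
  refine lt_of_lt_of_le ?_ (nn_ge p s (by omega))
  obtain ⟨r, hr⟩ : ∃ r, s - 1 = k + r := ⟨s - 1 - k, by omega⟩
  have hr' : A + M + 1 ≤ r := by omega
  have h1 : r < p ^ r := Nat.lt_pow_self (by omega)
  have h2 : 1 ≤ p ^ k := Nat.one_le_pow _ _ (by omega)
  rw [hr, pow_add]
  calc p ^ k * A + M < p ^ k * A + p ^ k * (M + 1) := by nlinarith
    _ = p ^ k * (A + M + 1) := by ring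
    _ ≤ p ^ k * p ^ r := Nat.mul_le_mul_left _ (by omega)

theorem frob_alt {p : ℕ} (hp : 2 ≤ p) {ι : Type*} (a c : ι → ℤ) {A M s l : ℕ}
    (ha : ∀ P, |a P| ≤ A) (hc : ∀ P, |c P| ≤ M) (hs : 2 * (A + M + 3) ≤ s)
    (h : ∀ P, ((nn p s : ℕ) : ℤ) ∣ (p : ℤ) ^ l * a P - c P) :
    (∃ l', l' ≤ l ∧ ∀ P, (p : ℤ) ^ l' * a P = c P) ∨
      (∃ k, 1 ≤ k ∧ ∀ P, a P = (p : ℤ) ^ k * c P) := by
  have hN : ((nn p s : ℕ) : ℤ) ∣ (p : ℤ) ^ s - 1 := by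
    have h1 := nn_mul p s (by omega)
    refine ⟨((p - 1 : ℕ) : ℤ), ?_⟩
    have h2 : 1 ≤ p ^ s := Nat.one_le_pow _ _ (by omega)
    have h3 : (((p - 1) * nn p s : ℕ) : ℤ) = ((p ^ s - 1 : ℕ) : ℤ) := by rw [h1]
    rw [Nat.cast_sub h2] at h3
    push_cast at h3
    rw [mul_comm, h3]
  have hl : l % s + s * (l / s) = l := Nat.mod_add_div l s
  have hls : l % s < s := Nat.mod_lt _ (by omega)
  have hd : ((nn p s : ℕ) : ℤ) ∣ (p : ℤ) ^ l - (p : ℤ) ^ (l % s) := by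
    have h1 : (p : ℤ) ^ l - (p : ℤ) ^ (l % s) =
        (p : ℤ) ^ (l % s) * (((p : ℤ) ^ s) ^ (l / s) - 1 ^ (l / s)) := by
      conv_lhs => rw [← hl, pow_add, pow_mul, hl]
      rw [one_pow]
      ring_nf
    rw [h1]
    exact Dvd.dvd.mul_left (hN.trans (sub_dvd_pow_sub_pow _ _ _)) _
  have h3 : ∀ P, ((nn p s : ℕ) : ℤ) ∣ (p : ℤ) ^ (l % s) * a P - c P := by
    intro P
    have h4 := dvd_sub (h P) (Dvd.dvd.mul_right hd (a P))
    have h5 : (p : ℤ) ^ l * a P - c P - ((p : ℤ) ^ l - (p : ℤ) ^ (l % s)) * a P =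
        (p : ℤ) ^ (l % s) * a P - c P := by ring
    rwa [h5] at h4
  have habs : ∀ (k X Y : ℕ) (x y : ℤ), |x| ≤ X → |y| ≤ Y → 2 * k ≤ s → 2 * (X + Y + 3) ≤ s →
      |(p : ℤ) ^ k * x - y| < ((nn p s : ℕ) : ℤ) := by
    intro k X Y x y hx hy hk hXY
    have h4 := bound hp hk hXY
    have h5 : |(p : ℤ) ^ k * x - y| ≤ (p : ℤ) ^ k * X + Y := by
      have h6 : |(p : ℤ) ^ k * x - y| ≤ |(p : ℤ) ^ k * x| + |y| := abs_sub _ _
      have h7 : |(p : ℤ) ^ k * x| = (p : ℤ) ^ k * |x| := by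
        rw [abs_mul, abs_of_nonneg (by positivity)]
      have h8 : (p : ℤ) ^ k * |x| ≤ (p : ℤ) ^ k * X :=
        mul_le_mul_of_nonneg_left hx (by positivity)
      rw [h7] at h6
      linarith
    have h9 : (p : ℤ) ^ k * X + Y < ((nn p s : ℕ) : ℤ) := by exact_mod_cast h4
    linarith
  by_cases hcase : 2 * (l % s) ≤ s
  · left
    refine ⟨l % s, Nat.mod_le _ _, fun P => ?_⟩
    have h4 := Int.eq_zero_of_abs_lt_dvd (h3 P) (habs _ _ _ _ _ (ha P) (hc P) hcase hs)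
    linarith
  · right
    refine ⟨s - l % s, by omega, fun P => ?_⟩
    have h4 : ((nn p s : ℕ) : ℤ) ∣ (p : ℤ) ^ (s - l % s) * c P - a P := by
      have h5 := Dvd.dvd.mul_left (h3 P) ((p : ℤ) ^ (s - l % s))
      have h6 := dvd_sub (Dvd.dvd.mul_right hN (a P)) h5
      have h7 : ((p : ℤ) ^ s - 1) * a P -
          (p : ℤ) ^ (s - l % s) * ((p : ℤ) ^ (l % s) * a P - c P) =
          (p : ℤ) ^ (s - l % s) * c P - a P := by
        have h8 : (p : ℤ) ^ s = (p : ℤ) ^ (s - l % s) * (p : ℤ) ^ (l % s) := by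
          rw [← pow_add, Nat.sub_add_cancel hls.le]
        rw [h8]
        ring
      rwa [h7] at h6
    have h5 := Int.eq_zero_of_abs_lt_dvd h4
      (habs _ _ _ _ _ (hc P) (ha P) (by omega) (by omega))
    linarith

theorem pow_sub_one_dvd {p : ℕ} (hp : 2 ≤ p) {s s' : ℕ} :
    p ^ s - 1 ∣ p ^ s' - 1 ↔ s ∣ s' := by
  have h1 := Nat.pow_sub_one_gcd_pow_sub_one p s s'
  constructor
  · intro h
    rw [Nat.gcd_eq_left h] at h1
    have h2 : 1 ≤ p ^ s := Nat.one_le_pow _ _ (by omega)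
    have h3 : 1 ≤ p ^ (Nat.gcd s s') := Nat.one_le_pow _ _ (by omega)
    have h4 : p ^ s = p ^ (Nat.gcd s s') := by omega
    have h5 : s = Nat.gcd s s' := Nat.pow_right_injective hp h4
    rw [h5]
    exact Nat.gcd_dvd_right _ _
  · intro h
    rw [Nat.gcd_eq_left h] at h1
    rw [← h1]
    exact Nat.gcd_dvd_right _ _

end UDV
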