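import Pool.Agent.UDV.DecA
import Pool.Agent.UDV.NN
import Pool.Agent.UDV.Good

/-!
# UDV: decoding

PROOF of `decode`.  Put `X = emb x`, `m = deg X > 0`, `M = m.toNat`,
`A = (8 m + 2 B).toNat`, and `s₀ = 2 (A + M + 3) + 4`; for `s ≥ s₀` we have `nn p s ≥ 6`
(`nn_ge`).  Let `x'` be given, `emb x'` is `NC`; `exists_not_pow`: `emb x' = v ^ (p ^ l)`,
`v` is not a `p`-th power and `δ i v ≠ 0`.  `ord P (emb x') = p ^ l * ord P v` and
`ord P (emb (1 - x')) = ord P ((1 - v) ^ (p ^ l)) = p ^ l * ord P (1 - v)`.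
`dec_bound` gives `n = deg v ≤ 8 m + 2 B`, `n > 0`.  `abs_ord_le` bounds `|ord P v|`,
`|ord P (1 - v)|` by `n ≤ A` (`deg_one_sub`) and `|ord P X|`, `|ord P (1 - X)|` by `M`.
`frob_alt` twice:
(a) `∃ l₁ ≤ l, ∀ P, p ^ l₁ * ord P v = ord P X`, or (b) `∃ k₁ ≥ 1, ord P v = p ^ k₁ * ord P X`;
(a') `∃ l₂ ≤ l, p ^ l₂ * ord P (1 - v) = ord P (1 - X)`, or
(b') `∃ k₂ ≥ 1, ord P (1 - v) = p ^ k₂ * ord P (1 - X)`.
Taking degrees: (a) `m = p ^ l₁ n`; (b) `n = p ^ k₁ m`; (a') `m = p ^ l₂ n`; (b') `n = p ^ k₂ m`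
(with `deg_one_sub`).  As `m, n > 0` and `p ≥ 2`, (a)+(b') and (b)+(a') are impossible
(`m ≥ n` and `n ≥ 2 m`); in (a)+(a') `l₁ = l₂`, in (b)+(b') `k₁ = k₂` (injectivity of `p ^ ·`).
(a)+(a'): `W = v ^ (p ^ l₁)` satisfies the hypotheses of `same_div`
(`1 - W = (1 - v) ^ (p ^ l₁)`), so `X = v ^ (p ^ l₁)` and
`emb x' = v ^ (p ^ l) = X ^ (p ^ (l - l₁))`, i.e. `x' = x ^ (p ^ (l - l₁))`.
(b)+(b'): `same_div` gives `v = X ^ (p ^ k₁)`, a `p`-th power: contradiction.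

`NC.map`: `f` is injective.  `NC.pow`: if `(x ^ (p ^ s)) ^ (p ^ n) = x ^ (p ^ s)` then
`(x ^ (p ^ n)) ^ (p ^ s) = x ^ (p ^ s)` and the Frobenius is injective.

PROOF of `dvd_iff`.  (⇐) `s ∣ s'`: if `s = 0` then `s' = 0`, `y = 1`.  Otherwise
`p ^ s - 1 ∣ p ^ s' - 1` (`pow_sub_one_dvd`), `p ^ s' - 1 = (p ^ s - 1) k`, `y = u ^ k`:
`y ^ (p ^ s) * u = y * y ^ (p ^ s - 1) * u = y * u ^ (p ^ s' - 1) * u`.
(⇒) `s = 0`: with `u = g`: `g = g ^ (p ^ s')` so `s' = 0` by `NC`.  `s ≥ 1`: there is `P` with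
`ord P (emb g) ≠ 0` (`deg_pos_of_NC`).  The set `{ord P (emb u) | u ≠ 0}` is a nonzero subgroup of
`ℤ`; let `γ > 0` be its generator (least positive element), `γ = ord P (emb u)`.  For the `y` of this
`u`: `p ^ s * ord y + γ = p ^ s' * γ + ord y` and `ord y = k γ`, so
`(p ^ s - 1) k = p ^ s' - 1`, and `pow_sub_one_dvd`.
-/

open Polynomial

namespace UDV

universe u

variable {p : ℕ} [Fact p.Prime] {K : Type u} [Field K] [CharP K p]

theorem NC.map {L : Type u} [Field L] (f : K →+* L) {x : K} (hx : NC p x) : NC p (f x) := by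
  intro n hn h
  apply hx n hn
  apply f.injective
  rw [map_pow]
  exact h

theorem NC.pow {x : K} (hx : NC p x) (s : ℕ) : NC p (x ^ (p ^ s)) := by
  intro n hn h
  apply hx n hn
  haveI : ExpChar K p := ExpChar.prime (Fact.out : p.Prime)
  apply iterateFrobenius_inj K p s
  rw [iterateFrobenius_def, iterateFrobenius_def, ← pow_mul, mul_comm, pow_mul]
  exact h

/-- The degree only depends on the orders. -/
private theorem deg_congr' {L : Type u} [Field L] (S : PF p L) {x y : L}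
    (h : ∀ P, S.ord P x = S.ord P y) : S.deg x = S.deg y := by
  unfold PF.deg
  simp only [h]

theorem decode (C : Chart p K) {x : K} (hx : NC p x) :
    ∃ s₀ : ℕ, ∀ s s' : ℕ, s₀ ≤ s → s₀ ≤ s' → ∀ x' : K, NC p x' →
      (∀ P, ((nn p s : ℕ) : ℤ) ∣ C.S.ord P (C.emb x') - C.S.ord P (C.emb x)) →
      (∀ P, ((nn p s' : ℕ) : ℤ) ∣ C.S.ord P (C.emb (1 - x')) - C.S.ord P (C.emb (1 - x))) →
      Phi p x x' := by
  haveI := C.charP
  have hp : 2 ≤ p := (Fact.out : p.Prime).two_le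
  obtain ⟨X, hXdef⟩ : ∃ X, X = C.emb x := ⟨_, rfl⟩
  have hX : NC p X := by
    rw [hXdef]
    exact hx.map C.emb
  have hm : 0 < C.S.deg X := C.S.deg_pos_of_NC hX
  have hX1 : C.emb (1 - x) = 1 - X := by rw [map_sub, map_one, hXdef]
  obtain ⟨A, hA⟩ : ∃ A : ℕ, A = (8 * C.S.deg X + 2 * C.S.B).toNat := ⟨_, rfl⟩
  obtain ⟨M, hM⟩ : ∃ M : ℕ, M = (C.S.deg X).toNat := ⟨_, rfl⟩
  have hA' : 8 * C.S.deg X + 2 * C.S.B ≤ (A : ℤ) := by
    rw [hA]
    exact Int.self_le_toNat _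
  have hM' : C.S.deg X ≤ (M : ℤ) := by
    rw [hM]
    exact Int.self_le_toNat _
  refine ⟨2 * (A + M + 3) + 4, fun s s' hs hs' x' hx' h h' => ?_⟩
  obtain ⟨l, v, hv, hnp, i, hδ⟩ := C.S.exists_not_pow (hx'.map C.emb)
  have hvN : NC p v := C.S.nc_of_delta hδ
  have hv1 : C.emb (1 - x') = (1 - v) ^ (p ^ l) := by
    rw [map_sub, map_one, hv, sub_pow_char_pow, one_pow]
  have hord : ∀ P, C.S.ord P (C.emb x') = (p : ℤ) ^ l * C.S.ord P v := by
    intro P
    rw [hv, C.S.ord_pow, Nat.cast_pow]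
  have hord1 : ∀ P, C.S.ord P (C.emb (1 - x')) = (p : ℤ) ^ l * C.S.ord P (1 - v) := by
    intro P
    rw [hv1, C.S.ord_pow, Nat.cast_pow]
  have h1 : ∀ P, ((nn p s : ℕ) : ℤ) ∣ (p : ℤ) ^ l * C.S.ord P v - C.S.ord P X := by
    intro P
    rw [← hord, hXdef]
    exact h P
  have h2 : ∀ P, ((nn p s' : ℕ) : ℤ) ∣ (p : ℤ) ^ l * C.S.ord P (1 - v) -
      C.S.ord P (1 - X) := by
    intro P
    rw [← hord1, ← hX1]
    exact h' P
  have hnn : ∀ t : ℕ, 2 * (A + M + 3) + 4 ≤ t → 6 ≤ nn p t := by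
    intro t ht
    have h3 := nn_ge p t (by omega)
    have h4 : 2 ^ 3 ≤ p ^ (t - 1) :=
      (Nat.pow_le_pow_right (by norm_num) (by omega)).trans (Nat.pow_le_pow_left hp _)
    omega
  have hbd : C.S.deg v ≤ 8 * C.S.deg X + 2 * C.S.B :=
    C.S.dec_bound hX hδ (hnn s hs) (hnn s' hs') (nn_coprime_p p s (by omega))
      (nn_coprime_p p s' (by omega)) h1 h2
  have hn : 0 < C.S.deg v := C.S.deg_pos_of_NC hvN
  have hb1 : ∀ P, |C.S.ord P v| ≤ (A : ℤ) := fun P =>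
    (C.S.abs_ord_le P v).trans (hbd.trans hA')
  have hb2 : ∀ P, |C.S.ord P (1 - v)| ≤ (A : ℤ) := fun P =>
    (C.S.abs_ord_le P (1 - v)).trans (by
      rw [C.S.deg_one_sub]
      exact hbd.trans hA')
  have hb3 : ∀ P, |C.S.ord P X| ≤ (M : ℤ) := fun P => (C.S.abs_ord_le P X).trans hM'
  have hb4 : ∀ P, |C.S.ord P (1 - X)| ≤ (M : ℤ) := fun P =>
    (C.S.abs_ord_le P (1 - X)).trans (by
      rw [C.S.deg_one_sub]
      exact hM')
  have alt1 := frob_alt hp (fun P => C.S.ord P v) (fun P => C.S.ord P X) hb1 hb3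
    (by omega : 2 * (A + M + 3) ≤ s) h1
  have alt2 := frob_alt hp (fun P => C.S.ord P (1 - v)) (fun P => C.S.ord P (1 - X)) hb2 hb4
    (by omega : 2 * (A + M + 3) ≤ s') h2
  -- the degrees
  have dpow : ∀ (y : C.L) (k : ℕ), C.S.deg (y ^ (p ^ k)) = ((p ^ k : ℕ) : ℤ) * C.S.deg y :=
    fun y k => C.S.deg_pow y _
  have opow : ∀ P (y : C.L) (k : ℕ), C.S.ord P (y ^ (p ^ k)) = (p : ℤ) ^ k * C.S.ord P y :=
    fun P y k => by rw [C.S.ord_pow, Nat.cast_pow]
  have onesub : ∀ (y : C.L) (k : ℕ), 1 - y ^ (p ^ k) = (1 - y) ^ (p ^ k) := by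
    intro y k
    rw [sub_pow_char_pow, one_pow]
  have hone : ∀ k : ℕ, (1 : ℤ) ≤ ((p ^ k : ℕ) : ℤ) := fun k => by
    exact_mod_cast Nat.one_le_pow k p (by omega)
  have htwo : ∀ k : ℕ, 1 ≤ k → (2 : ℤ) ≤ ((p ^ k : ℕ) : ℤ) := fun k hk => by
    have h3 : p ^ 1 ≤ p ^ k := Nat.pow_le_pow_right (by omega) hk
    rw [pow_one] at h3
    exact_mod_cast hp.trans h3
  have hinj : ∀ (k k' : ℕ) (d : ℤ), 0 < d → ((p ^ k : ℕ) : ℤ) * d = ((p ^ k' : ℕ) : ℤ) * d →
      k = k' := by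
    intro k k' d hd he
    have h3 := mul_right_cancel₀ hd.ne' he
    have h4 : p ^ k = p ^ k' := by exact_mod_cast h3
    exact Nat.pow_right_injective hp h4
  rcases alt1 with ⟨l₁, hl₁, ha⟩ | ⟨k₁, hk₁, ha⟩
  · have d1 : C.S.deg X = ((p ^ l₁ : ℕ) : ℤ) * C.S.deg v := by
      rw [← dpow]
      exact deg_congr' C.S fun P => by rw [opow]; exact (ha P).symm
    rcases alt2 with ⟨l₂, hl₂, hb⟩ | ⟨k₂, hk₂, hb⟩
    · have d2 : C.S.deg (1 - X) = ((p ^ l₂ : ℕ) : ℤ) * C.S.deg (1 - v) := by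
        rw [← dpow]
        exact deg_congr' C.S fun P => by rw [opow]; exact (hb P).symm
      rw [C.S.deg_one_sub, C.S.deg_one_sub] at d2
      have hll : l₁ = l₂ := hinj _ _ _ hn (d1.symm.trans d2)
      have hXv : X = v ^ (p ^ l₁) := by
        refine C.S.same_div hX (hvN.pow l₁) (fun P => ?_) (fun P => ?_)
        · rw [opow]
          exact (ha P).symm
        · rw [onesub, opow, hll]
          exact (hb P).symm
      refine ⟨l - l₁, ?_⟩
      apply C.emb.injective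
      rw [map_pow, ← hXdef, hXv, hv, ← pow_mul, ← pow_add]
      congr 2
      omega
    · exfalso
      have d2 : C.S.deg (1 - v) = ((p ^ k₂ : ℕ) : ℤ) * C.S.deg (1 - X) := by
        rw [← dpow]
        exact deg_congr' C.S fun P => by rw [opow]; exact hb P
      rw [C.S.deg_one_sub, C.S.deg_one_sub] at d2
      have h3 := htwo k₂ hk₂
      have h4 := hone l₁
      nlinarith
  · have d1 : C.S.deg v = ((p ^ k₁ : ℕ) : ℤ) * C.S.deg X := by
      rw [← dpow]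
      exact deg_congr' C.S fun P => by rw [opow]; exact ha P
    rcases alt2 with ⟨l₂, hl₂, hb⟩ | ⟨k₂, hk₂, hb⟩
    · exfalso
      have d2 : C.S.deg (1 - X) = ((p ^ l₂ : ℕ) : ℤ) * C.S.deg (1 - v) := by
        rw [← dpow]
        exact deg_congr' C.S fun P => by rw [opow]; exact (hb P).symm
      rw [C.S.deg_one_sub, C.S.deg_one_sub] at d2
      have h3 := htwo k₁ hk₁
      have h4 := hone l₂
      nlinarith
    · exfalso
      have d2 : C.S.deg (1 - v) = ((p ^ k₂ : ℕ) : ℤ) * C.S.deg (1 - X) := by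
        rw [← dpow]
        exact deg_congr' C.S fun P => by rw [opow]; exact hb P
      rw [C.S.deg_one_sub, C.S.deg_one_sub] at d2
      have hkk : k₁ = k₂ := hinj _ _ _ hm (d1.symm.trans d2)
      have hvX : v = X ^ (p ^ k₁) := by
        refine C.S.same_div hvN (hX.pow k₁) (fun P => ?_) (fun P => ?_)
        · rw [opow]
          exact ha P
        · rw [onesub, opow, hkk]
          exact hb P
      apply hnp (X ^ (p ^ (k₁ - 1)))
      rw [hvX, ← pow_mul, ← pow_succ]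
      congr 2
      omega

/-- divisibility of exponents is definable -/
theorem dvd_iff (C : Chart p K) {g : K} (hg : NC p g) (s s' : ℕ) :
    (∀ u : K, u ≠ 0 → ∃ y : K, y ≠ 0 ∧ y ^ (p ^ s) * u = u ^ (p ^ s') * y) ↔ s ∣ s' := by
  have hp : 2 ≤ p := (Fact.out : p.Prime).two_le
  constructor
  · intro H
    have hg0 : g ≠ 0 := by
      rintro rfl
      exact hg 1 one_pos (zero_pow (pow_ne_zero _ (by omega)))
    rcases Nat.eq_zero_or_pos s with hs | hs
    · subst hs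
      obtain ⟨y, hy, he⟩ := H g hg0
      rw [pow_zero, pow_one, mul_comm] at he
      have h1 := mul_right_cancel₀ hy he
      rcases Nat.eq_zero_or_pos s' with hs' | hs'
      · rw [hs']
      · exact absurd h1.symm (hg s' hs')
    · have hX : NC p (C.emb g) := hg.map C.emb
      obtain ⟨P, hP⟩ : ∃ P, C.S.ord P (C.emb g) ≠ 0 := by
        by_contra hcon
        push Not at hcon
        have h1 := C.S.deg_pos_of_NC hX
        have h2 : C.S.deg (C.emb g) = 0 := by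
          unfold PF.deg
          rw [finsum_eq_zero_of_forall_eq_zero]
          intro P
          rw [hcon P, neg_zero, max_self, mul_zero]
        omega
      have hne : ∀ {u : K}, u ≠ 0 → C.emb u ≠ 0 := fun hu => (map_ne_zero C.emb).2 hu
      obtain ⟨G, hG⟩ : ∃ G : AddSubgroup ℤ, ∀ z, z ∈ G ↔
          ∃ u : K, u ≠ 0 ∧ C.S.ord P (C.emb u) = z := by
        refine ⟨⟨⟨⟨{z | ∃ u : K, u ≠ 0 ∧ C.S.ord P (C.emb u) = z}, ?_⟩, ?_⟩, ?_⟩,
          fun z => Iff.rfl⟩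
        · rintro a b ⟨u, hu, rfl⟩ ⟨u', hu', rfl⟩
          exact ⟨u * u', mul_ne_zero hu hu', by rw [map_mul, C.S.ord_mul P (hne hu) (hne hu')]⟩
        · exact ⟨1, one_ne_zero, by rw [map_one, C.S.ord_one]⟩
        · rintro a ⟨u, hu, rfl⟩
          exact ⟨u⁻¹, inv_ne_zero hu, by rw [map_inv₀, C.S.ord_inv]⟩
      obtain ⟨γ, hγ⟩ := Int.subgroup_cyclic G
      have hγm : γ ∈ G := by
        rw [hγ]
        exact AddSubgroup.mem_closure_singleton_self γ
      obtain ⟨u, hu, hou⟩ := (hG γ).1 hγm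
      have hγ0 : γ ≠ 0 := by
        rintro rfl
        have h1 : C.S.ord P (C.emb g) ∈ G := (hG _).2 ⟨g, hg0, rfl⟩
        rw [hγ, AddSubgroup.mem_closure_singleton] at h1
        obtain ⟨k, hk⟩ := h1
        rw [smul_zero] at hk
        exact hP hk.symm
      obtain ⟨y, hy, he⟩ := H u hu
      have h1 : C.S.ord P (C.emb y) ∈ G := (hG _).2 ⟨y, hy, rfl⟩
      rw [hγ, AddSubgroup.mem_closure_singleton] at h1
      obtain ⟨k, hk⟩ := h1
      have h2 := congrArg (fun z => C.S.ord P (C.emb z)) he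
      simp only [map_mul, map_pow] at h2
      rw [C.S.ord_mul P (pow_ne_zero _ (hne hy)) (hne hu),
        C.S.ord_mul P (pow_ne_zero _ (hne hu)) (hne hy), C.S.ord_pow, C.S.ord_pow, hou, ← hk,
        smul_eq_mul] at h2
      have h3 : (((p ^ s : ℕ) : ℤ) - 1) * k = ((p ^ s' : ℕ) : ℤ) - 1 := by
        have h4 : ((((p ^ s : ℕ) : ℤ) - 1) * k) * γ = (((p ^ s' : ℕ) : ℤ) - 1) * γ := by
          linear_combination h2
        exact mul_right_cancel₀ hγ0 h4
      rw [← pow_sub_one_dvd hp]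
      have h5 : ((p ^ s - 1 : ℕ) : ℤ) ∣ ((p ^ s' - 1 : ℕ) : ℤ) := by
        refine ⟨k, ?_⟩
        rw [Nat.cast_sub (Nat.one_le_pow _ _ (by omega)),
          Nat.cast_sub (Nat.one_le_pow _ _ (by omega)), Nat.cast_one]
        exact h3.symm
      exact Int.natCast_dvd_natCast.1 h5
  · intro hdvd u hu
    obtain ⟨k, hk⟩ := (pow_sub_one_dvd hp).2 hdvd
    refine ⟨u ^ k, pow_ne_zero _ hu, ?_⟩
    rw [← pow_mul, ← pow_succ, ← pow_add]
    congr 1
    have h1 : 1 ≤ p ^ s := Nat.one_le_pow _ _ (by omega)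
    have h2 : 1 ≤ p ^ s' := Nat.one_le_pow _ _ (by omega)
    obtain ⟨q, hq⟩ := Nat.exists_eq_add_of_le h1
    rw [hq, Nat.add_sub_cancel_left] at hk
    have h3 : p ^ s' = q * k + 1 := by omega
    rw [hq, h3]
    ring

end UDV
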