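import Pool.Agent.UDV.Rel
import Pool.Agent.UDV.Decode
import Pool.Agent.UDV.NN

/-!
# UDV: congruences modulo powers, existence of codes

PROOFS.
* `nc_of_not_pow`: if `x ^ (p ^ n) = x` with `n > 0` then `x = (x ^ (p ^ (n-1))) ^ p`.
* `exists_not_pow_K`: `x₀` is not a `p`-th power, since the derivation `δ i₀` kills `p`-th powers
  (characteristic `p`), but not `emb x₀`.
* `cg_of_pow`: `x = y z ^ (nn p s)`, witness `z`: `x ^ p * y * z = y ^ (p+1) * z ^ (p * nn p s + 1)`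
  and `x * y ^ p * z ^ (p ^ s) = y ^ (p + 1) * z ^ (nn p s + p ^ s)`; `p * nn p s + 1 =
  nn p s + p ^ s` (`nn_mul`, also for `s = 0`).
* `cg_ord`: the exponent is unique (`t` is `NC`, Frobenius injective).  From
  `x ^ p * y * z = x * y ^ p * z ^ (p ^ s)`, taking `ord P` in `L`:
  `(p - 1) (ord x - ord y) = (p ^ s - 1) ord z = (p - 1) * nn p s * ord z`.
* `phi_antisymm`: `y = x ^ (p ^ s)`, `x = y ^ (p ^ s')` gives `x = x ^ (p ^ (s + s'))`, so
  `s + s' = 0` by `NC`.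
* `dec_unique`: both are minimal: `Phi x x'` and `Phi x' x`.
* `dec_exists`: let `s₀` be the number of `decode` for `y`.  `Cg` for `y` and `1 - y` by
  `cg_of_pow` (`y ≠ 0`, `1 - y ≠ 0` as `y` is `NC`).  If `x'` is `NC` with the same congruences, then
  `cg_ord` for `(b, x')`, `(b, y)` and `(b', 1 - x')`, `(b', 1 - y)` shows the hypotheses of
  `decode` (differences).
* `crt`: let `N_j = nn p (s j)`, pairwise coprime (`nn_coprime`), and `N = ∏ N_j`.  Choose natural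
  numbers `e_j` with `e_j ≡ 1` mod `N_j` and `e_j ≡ 0` mod `N_i`, `i ≠ j`, `e_j ≥ 1`
  (`Nat.chineseRemainderOfFinset`, add `N`).  `b₀ = ∏ y_j ^ e_j = y_j * z_j ^ N_j` with
  `z_j = y_j ^ ((e_j - 1)/N_j) * ∏_{i ≠ j} y_i ^ (e_i / N_j)`.  If `b₀` is not a `p`-th power take
  `b = b₀`.  Otherwise `b = b₀ * w ^ N`: `w` is not a `p`-th power and `N` is coprime to `p`
  (`nn_coprime_p`), so `w ^ N` and `b` are not `p`-th powers (Bezout: if `w ^ N = v ^ p` and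
  `a N = 1 + c p` then `w = (v ^ a / w ^ c) ^ p`); `b = y_j * (z_j * w ^ (N / N_j)) ^ N_j`.
-/

open Polynomial

namespace UDV

universe u

variable {p : ℕ} [Fact p.Prime] {K : Type u} [Field K] [CharP K p]

theorem nc_of_not_pow {x : K} (h : ∀ z : K, z ^ p ≠ x) : NC p x := by
  intro n hn he
  apply h (x ^ (p ^ (n - 1)))
  rw [← pow_mul, ← pow_succ, Nat.sub_add_cancel hn]
  exact he

theorem exists_not_pow_K (C : Chart p K) : ∀ z : K, z ^ p ≠ C.x₀ := by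
  intro z hz
  haveI := C.charP
  apply C.hx₀
  rw [← hz, map_pow, Derivation.leibniz_pow, nsmul_eq_mul, CharP.cast_eq_zero, zero_mul]

private theorem nn_succ_eq (s : ℕ) : p * nn p s + 1 = nn p s + p ^ s := by
  have hp : 2 ≤ p := (Fact.out : p.Prime).two_le
  have h1 := nn_mul p s (by omega)
  have h2 : 1 ≤ p ^ s := Nat.one_le_pow _ _ (by omega)
  obtain ⟨q, hq⟩ := Nat.exists_eq_add_of_le (show 1 ≤ p by omega)
  have h3 : q * nn p s = p ^ s - 1 := by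
    rw [← h1]
    congr 1
    omega
  have h4 : ∀ x : ℕ, p * x = x + q * x := by
    intro x
    rw [hq]
    ring
  have h5 := h4 (nn p s)
  omega

private theorem nc_pow_inj {t : K} (ht : NC p t) {s s' : ℕ} (h : t ^ (p ^ s) = t ^ (p ^ s')) :
    s = s' := by
  haveI : ExpChar K p := ExpChar.prime (Fact.out : p.Prime)
  have key : ∀ a b : ℕ, a < b → t ^ (p ^ a) = t ^ (p ^ b) → False := by
    intro a b hab he
    obtain ⟨c, rfl⟩ := Nat.exists_eq_add_of_lt hab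
    apply ht (c + 1) (by omega)
    apply iterateFrobenius_inj K p a
    rw [iterateFrobenius_def, iterateFrobenius_def, ← pow_mul, ← pow_add, he]
    congr 2
    omega
  rcases lt_trichotomy s s' with h1 | h1 | h1
  · exact (key s s' h1 h).elim
  · exact h1
  · exact (key s' s h1 h.symm).elim

theorem cg_of_pow {t : K} (ht : NC p t) {s : ℕ} {x y z : K} (hy : y ≠ 0) (hz : z ≠ 0)
    (h : x = y * z ^ nn p s) : Cg p t (t ^ (p ^ s)) x y := by
  refine ⟨ht, ?_, hy, s, rfl, z, hz, ?_⟩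
  · rw [h]
    exact mul_ne_zero hy (pow_ne_zero _ hz)
  · have e := nn_succ_eq (p := p) s
    calc x ^ p * y * z = y ^ p * y * (z ^ (nn p s * p) * z) := by
          rw [h, mul_pow, ← pow_mul]
          ring
      _ = y ^ p * y * z ^ (p * nn p s + 1) := by
          rw [pow_succ, mul_comm p]
      _ = y ^ p * y * (z ^ nn p s * z ^ (p ^ s)) := by
          rw [e, pow_add]
      _ = x * y ^ p * z ^ (p ^ s) := by
          rw [h]
          ring

theorem cg_ord (C : Chart p K) {t : K} {s : ℕ} {x y : K} (h : Cg p t (t ^ (p ^ s)) x y)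
    (P : C.S.I) : ((nn p s : ℕ) : ℤ) ∣ C.S.ord P (C.emb x) - C.S.ord P (C.emb y) := by
  have hp : 2 ≤ p := (Fact.out : p.Prime).two_le
  obtain ⟨ht, hx, hy, s', hs', z, hz, he⟩ := h
  have hss := nc_pow_inj ht hs'
  subst hss
  have hne : ∀ {u : K}, u ≠ 0 → C.emb u ≠ 0 := fun hu => (map_ne_zero C.emb).2 hu
  have h1 := congrArg (fun z => C.S.ord P (C.emb z)) he
  simp only [map_mul, map_pow] at h1
  have hX := hne hx
  have hY := hne hy
  have hZ := hne hz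
  rw [C.S.ord_mul P (mul_ne_zero (pow_ne_zero _ hX) hY) hZ, C.S.ord_mul P (pow_ne_zero _ hX) hY,
    C.S.ord_mul P (mul_ne_zero hX (pow_ne_zero _ hY)) (pow_ne_zero _ hZ),
    C.S.ord_mul P hX (pow_ne_zero _ hY), C.S.ord_pow, C.S.ord_pow, C.S.ord_pow] at h1
  have e := nn_succ_eq (p := p) s
  have e' : ((p : ℕ) : ℤ) * ((nn p s : ℕ) : ℤ) + 1 = ((nn p s : ℕ) : ℤ) + ((p ^ s : ℕ) : ℤ) := by
    exact_mod_cast e
  refine ⟨C.S.ord P (C.emb z), ?_⟩
  have hp1 : ((p : ℕ) : ℤ) - 1 ≠ 0 := by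
    have : (2 : ℤ) ≤ ((p : ℕ) : ℤ) := by exact_mod_cast hp
    omega
  apply mul_left_cancel₀ hp1
  have e'' : ((p ^ s : ℕ) : ℤ) = ((p : ℕ) : ℤ) * ((nn p s : ℕ) : ℤ) + 1 - ((nn p s : ℕ) : ℤ) := by
    linarith
  rw [e''] at h1
  linear_combination h1

theorem phi_antisymm {x y : K} (hx : NC p x) (h : Phi p x y) (h' : Phi p y x) : x = y := by
  obtain ⟨s, hs⟩ := h
  obtain ⟨s', hs'⟩ := h'
  rcases Nat.eq_zero_or_pos s with h0 | h0
  · rw [hs, h0, pow_zero, pow_one]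
  · exfalso
    apply hx (s + s') (by omega)
    rw [pow_add, pow_mul, ← hs, ← hs']

theorem dec_unique {t σ σ' b b' x x' : K} (h : Dec p t σ σ' b b' x) (h' : Dec p t σ σ' b b' x') :
    x = x' :=
  phi_antisymm h.1 (h.2.2.2 x' h'.1 h'.2.1 h'.2.2.1) (h'.2.2.2 x h.1 h.2.1 h.2.2.1)

theorem dec_exists (C : Chart p K) {t : K} (ht : NC p t) {y : K} (hy : NC p y) :
    ∃ s₀ : ℕ, ∀ s s' : ℕ, s₀ ≤ s → s₀ ≤ s' → ∀ b b' : K,
      (∃ z, z ≠ 0 ∧ b = y * z ^ nn p s) → (∃ z, z ≠ 0 ∧ b' = (1 - y) * z ^ nn p s') →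
      Dec p t (t ^ (p ^ s)) (t ^ (p ^ s')) b b' y := by
  have hp : 2 ≤ p := (Fact.out : p.Prime).two_le
  obtain ⟨s₀, hs₀⟩ := decode C hy
  have hy0 : y ≠ 0 := by
    rintro rfl
    exact hy 1 one_pos (zero_pow (pow_ne_zero _ (by omega)))
  have hy1 : 1 - y ≠ 0 := by
    intro h
    have h1 : y = 1 := (sub_eq_zero.1 h).symm
    exact hy 1 one_pos (by rw [h1, one_pow])
  refine ⟨s₀, ?_⟩
  rintro s s' hs hs' b b' ⟨z, hz, hb⟩ ⟨z', hz', hb'⟩
  have c1 := cg_of_pow ht hy0 hz hb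
  have c2 := cg_of_pow ht hy1 hz' hb'
  refine ⟨hy, c1, c2, fun x' hx' d1 d2 => ?_⟩
  refine hs₀ s s' hs hs' x' hx' (fun P => ?_) (fun P => ?_)
  · have h1 := dvd_sub (cg_ord C c1 P) (cg_ord C d1 P)
    have h2 : C.S.ord P (C.emb b) - C.S.ord P (C.emb y) -
        (C.S.ord P (C.emb b) - C.S.ord P (C.emb x')) =
        C.S.ord P (C.emb x') - C.S.ord P (C.emb y) := by ring
    rwa [h2] at h1
  · have h1 := dvd_sub (cg_ord C c2 P) (cg_ord C d2 P)
    have h2 : C.S.ord P (C.emb b') - C.S.ord P (C.emb (1 - y)) -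
        (C.S.ord P (C.emb b') - C.S.ord P (C.emb (1 - x'))) =
        C.S.ord P (C.emb (1 - x')) - C.S.ord P (C.emb (1 - y)) := by ring
    rwa [h2] at h1

private theorem root_of_coprime {w c : K} (hw : w ≠ 0) {M q : ℕ} (h : Nat.Coprime M q)
    (e : w ^ M = c ^ q) : ∃ d : K, d ^ q = w := by
  have h1 : ((1 : ℕ) : ℤ) = (M : ℤ) * Nat.gcdA M q + (q : ℤ) * Nat.gcdB M q := by
    rw [← Nat.gcd_eq_gcd_ab, h]
  have h2 : w = w ^ ((M : ℤ) * Nat.gcdA M q + (q : ℤ) * Nat.gcdB M q) := by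
    rw [← h1, Nat.cast_one, zpow_one]
  refine ⟨c ^ Nat.gcdA M q * w ^ Nat.gcdB M q, ?_⟩
  rw [mul_pow]
  conv_rhs => rw [h2, zpow_add₀ hw, zpow_mul, zpow_mul, zpow_natCast, zpow_natCast, e]
  congr 1
  · rw [← zpow_natCast, ← zpow_natCast, ← zpow_mul, ← zpow_mul, mul_comm]
  · rw [← zpow_natCast, ← zpow_natCast, ← zpow_mul, ← zpow_mul, mul_comm]

private theorem crt_aux {m : ℕ} (N : Fin m → ℕ) (hN1 : ∀ i, 1 ≤ N i)
    (hN : ∀ i j, i ≠ j → Nat.Coprime (N i) (N j)) (y : Fin m → K) (hy : ∀ i, y i ≠ 0) :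
    ∃ b : K, b ≠ 0 ∧ ∀ j, ∃ z, z ≠ 0 ∧ b = y j * z ^ N j := by
  classical
  have he : ∀ j, ∃ e : ℕ, (∃ q, e = N j * q + 1) ∧ ∀ i, i ≠ j → N i ∣ e := by
    intro j
    have hc : Nat.Coprime (N j) (∏ i ∈ Finset.univ.erase j, N i) :=
      Nat.Coprime.prod_right fun i hi => hN j i (Finset.ne_of_mem_erase hi).symm
    obtain ⟨e, he1, he2⟩ := Nat.chineseRemainder hc 1 0
    have hdall : ∀ i, N i ∣ ∏ i, N i := fun i => Finset.dvd_prod_of_mem N (Finset.mem_univ i)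
    have hpos : 1 ≤ ∏ i, N i := Nat.one_le_iff_ne_zero.2
      (Finset.prod_ne_zero_iff.2 fun i _ => by have := hN1 i; omega)
    refine ⟨e + ∏ i, N i, ?_, ?_⟩
    · have h1 : e + ∏ i, N i ≡ 1 [MOD N j] := by
        have h2 : ∏ i, N i ≡ 0 [MOD N j] := (Nat.modEq_zero_iff_dvd).2 (hdall j)
        exact Nat.ModEq.add he1 h2
      have h3 := (Nat.modEq_iff_dvd' (show 1 ≤ e + ∏ i, N i by omega)).1 h1.symm
      obtain ⟨q, hq⟩ := h3
      exact ⟨q, by omega⟩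
    · intro i hi
      refine dvd_add ?_ (hdall i)
      exact (Finset.dvd_prod_of_mem N (Finset.mem_erase.2 ⟨hi, Finset.mem_univ i⟩)).trans
        ((Nat.modEq_zero_iff_dvd).1 he2)
  choose e he1 he2 using he
  refine ⟨∏ i, y i ^ e i, Finset.prod_ne_zero_iff.2 fun i _ => pow_ne_zero _ (hy i), fun j => ?_⟩
  obtain ⟨q, hq⟩ := he1 j
  have h2 : ∀ i, i ≠ j → ∃ r, e i = N j * r := fun i hi => he2 i j hi.symm
  choose! r hr using h2
  refine ⟨y j ^ q * ∏ i ∈ Finset.univ.erase j, y i ^ r i, ?_, ?_⟩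
  · exact mul_ne_zero (pow_ne_zero _ (hy j))
      (Finset.prod_ne_zero_iff.2 fun i _ => pow_ne_zero _ (hy i))
  · rw [← Finset.mul_prod_erase Finset.univ (fun i => y i ^ e i) (Finset.mem_univ j), mul_pow,
      ← Finset.prod_pow, hq, pow_succ, ← pow_mul, mul_comm q, mul_comm (y j ^ (N j * q)) (y j),
      mul_assoc]
    congr 2
    refine Finset.prod_congr rfl fun i hi => ?_
    rw [hr i (Finset.ne_of_mem_erase hi), ← pow_mul, mul_comm (r i)]

theorem crt {m : ℕ} (s : Fin m → ℕ) (hs : ∀ i j, i ≠ j → Nat.Coprime (s i) (s j))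
    (hs1 : ∀ i, 1 ≤ s i) (y : Fin m → K) (hy : ∀ i, y i ≠ 0) {w : K} (hw : ∀ z : K, z ^ p ≠ w) :
    ∃ b : K, (∀ z : K, z ^ p ≠ b) ∧ ∀ j, ∃ z, z ≠ 0 ∧ b = y j * z ^ nn p (s j) := by
  have hp : 2 ≤ p := (Fact.out : p.Prime).two_le
  have hN1 : ∀ i, 1 ≤ nn p (s i) := fun i =>
    (Nat.one_le_pow _ _ (by omega)).trans (nn_ge p (s i) (hs1 i))
  obtain ⟨b₀, hb0, hb⟩ := crt_aux (fun i => nn p (s i)) hN1
    (fun i j hij => nn_coprime p hp (hs i j hij)) y hy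
  by_cases h : ∀ z : K, z ^ p ≠ b₀
  · exact ⟨b₀, h, hb⟩
  · push Not at h
    obtain ⟨v, hv⟩ := h
    have hw0 : w ≠ 0 := by
      rintro rfl
      exact hw 0 (zero_pow (by omega))
    have hv0 : v ≠ 0 := by
      rintro rfl
      apply hb0
      rw [← hv, zero_pow (by omega)]
    have hcop : Nat.Coprime (∏ i, nn p (s i)) p :=
      Nat.Coprime.prod_left fun i _ => nn_coprime_p p (s i) (hs1 i)
    refine ⟨b₀ * w ^ ∏ i, nn p (s i), ?_, ?_⟩
    · intro u hu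
      have h1 : w ^ ∏ i, nn p (s i) = (u / v) ^ p := by
        rw [div_pow, hu, hv, mul_div_cancel_left₀ _ hb0]
      obtain ⟨d, hd⟩ := root_of_coprime hw0 hcop h1
      exact hw d hd
    · intro j
      obtain ⟨z, hz, hbz⟩ := hb j
      obtain ⟨q, hq⟩ := Finset.dvd_prod_of_mem (fun i => nn p (s i)) (Finset.mem_univ j)
      refine ⟨z * w ^ q, mul_ne_zero hz (pow_ne_zero _ hw0), ?_⟩
      rw [hq, mul_pow, ← pow_mul, mul_comm q, ← mul_assoc, ← hbz]

end UDV
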