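import Pool.Agent.UDV.DefA
import Pool.Agent.UDV.Decode

/-!
# UDV: definability of the arithmetic relations

For `t` with `NC p t` the map `s ↦ t ^ (p ^ s)` is injective.

PROOFS (all relations are conjunctions with `NC t`, `ud_NC`; it suffices to give the equivalent
formula for `t` with `NC t`; use `UD.congr`).
* `ud_Le`: `Le t σ τ ↔ NC t ∧ Phi t σ ∧ Phi σ τ`.   `ud_Lt`: `Le t σ τ ∧ σ ≠ τ`.
* divisibility: for `σ = t ^ (p ^ s)`, `τ = t ^ (p ^ s')`: `s ∣ s'` iff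
  `∀ u ≠ 0, ∃ y ≠ 0, ∃ y₁ u₁, EE t σ y y₁ ∧ EE t τ u u₁ ∧ y₁ * u = u₁ * y` (`dvd_iff` with the chart
  of `exists_chart`; `EE t σ y y₁` says `y₁ = y ^ (p ^ s)`).
* `ud_Pr`: `Phi t σ`, `σ ≠ t`, `σ ≠ t ^ p` and for every `τ` with `Phi t τ` whose exponent divides
  that of `σ`: `τ = t ^ p ∨ τ = σ`.  (`s` is prime iff `s ≠ 0`, `s ≠ 1` and all divisors are `1`
  or `s`.)
* `ud_Np`: `Lt t σ τ ∧ Pr t τ ∧ ∀ ρ, Lt t σ ρ → Lt t ρ τ → ¬ Pr t ρ`.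
* `ud_Cg`: `NC t ∧ x ≠ 0 ∧ y ≠ 0 ∧ Phi t σ ∧ ∃ z ≠ 0, ∃ x₁ y₁ z₁, x₁ = x ^ p ∧ y₁ = y ^ p ∧
  EE t σ z z₁ ∧ x₁ * y * z = x * y₁ * z₁` (`ud_Frob`).
-/

open Polynomial

namespace UDV

universe u

section

/-- Substitution of terms for the variables. -/
private theorem sub3 {R : ∀ (K : Type u) [Field K], K → K → K → Prop}
    (h : UD (fun K _ v => R K (v 0) (v 1) (v 2)))
    {f₁ f₂ f₃ : ∀ (K : Type u) [Field K], (ℕ → K) → K} (h₁ : TT f₁) (h₂ : TT f₂) (h₃ : TT f₃) :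
    UD (fun K _ v => R K (f₁ K v) (f₂ K v) (f₃ K v)) := by
  refine UD.congr ?_ (UD.subst (σ := fun i => match i with
    | 0 => f₁ | 1 => f₂ | 2 => f₃ | _ => fun _ _ v => v 0) ?_ h)
  · intro K _ _ v
    exact Iff.rfl
  · intro i
    match i with
    | 0 => exact h₁
    | 1 => exact h₂
    | 2 => exact h₃
    | _ + 3 => exact TT.var 0

private theorem sub2 {R : ∀ (K : Type u) [Field K], K → K → Prop}
    (h : UD (fun K _ v => R K (v 0) (v 1)))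
    {f₁ f₂ : ∀ (K : Type u) [Field K], (ℕ → K) → K} (h₁ : TT f₁) (h₂ : TT f₂) :
    UD (fun K _ v => R K (f₁ K v) (f₂ K v)) :=
  sub3 (R := fun K _ a b _ => R K a b) h h₁ h₂ h₁

private theorem sub4 {R : ∀ (K : Type u) [Field K], K → K → K → K → Prop}
    (h : UD (fun K _ v => R K (v 0) (v 1) (v 2) (v 3)))
    {f₁ f₂ f₃ f₄ : ∀ (K : Type u) [Field K], (ℕ → K) → K} (h₁ : TT f₁) (h₂ : TT f₂)
    (h₃ : TT f₃) (h₄ : TT f₄) :
    UD (fun K _ v => R K (f₁ K v) (f₂ K v) (f₃ K v) (f₄ K v)) := by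
  refine UD.congr ?_ (UD.subst (σ := fun i => match i with
    | 0 => f₁ | 1 => f₂ | 2 => f₃ | 3 => f₄ | _ => fun _ _ v => v 0) ?_ h)
  · intro K _ _ v
    exact Iff.rfl
  · intro i
    match i with
    | 0 => exact h₁
    | 1 => exact h₂
    | 2 => exact h₃
    | 3 => exact h₄
    | _ + 4 => exact TT.var 0

variable {f₁ f₂ f₃ f₄ : ∀ (K : Type u) [Field K], (ℕ → K) → K}

theorem num_inj {p : ℕ} [Fact p.Prime] {K : Type u} [Field K] [CharP K p] {t : K} (ht : NC p t)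
    {s s' : ℕ} (h : t ^ (p ^ s) = t ^ (p ^ s')) : s = s' := by
  have key : ∀ a b : ℕ, a < b → t ^ (p ^ a) ≠ t ^ (p ^ b) := by
    intro a b hab h1
    obtain ⟨c, rfl⟩ := Nat.exists_eq_add_of_lt hab
    apply ht (c + 1) (Nat.succ_pos c)
    have : ExpChar K p := ExpChar.prime (Fact.out : p.Prime)
    apply iterateFrobenius_inj K p a
    rw [iterateFrobenius_def, iterateFrobenius_def, ← pow_mul, ← pow_add, h1]
    congr 2
    omega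
  rcases lt_trichotomy s s' with h1 | h1 | h1
  · exact absurd h (key _ _ h1)
  · exact h1
  · exact absurd h.symm (key _ _ h1)

private theorem le_iff {p : ℕ} {K : Type u} [Field K] {t σ τ : K} :
    Le p t σ τ ↔ NC p t ∧ Phi p t σ ∧ Phi p σ τ := by
  constructor
  · rintro ⟨h, s, s', hs, rfl, rfl⟩
    obtain ⟨c, rfl⟩ := Nat.exists_eq_add_of_le hs
    exact ⟨h, ⟨s, rfl⟩, c, by rw [← pow_mul, ← pow_add]⟩
  · rintro ⟨h, ⟨s, rfl⟩, c, rfl⟩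
    exact ⟨h, s, s + c, Nat.le_add_right _ _, rfl, by rw [← pow_mul, ← pow_add]⟩

theorem ud_Le (h₁ : TT f₁) (h₂ : TT f₂) (h₃ : TT f₃) :
    UD (fun K _ v => Le (ringChar K) (f₁ K v) (f₂ K v) (f₃ K v)) :=
  UD.congr (fun _ _ _ _ => le_iff.symm) ((ud_NC h₁).and ((ud_Phi h₁ h₂).and (ud_Phi h₂ h₃)))

private theorem lt_iff' {p : ℕ} [Fact p.Prime] {K : Type u} [Field K] [CharP K p] {t σ τ : K} :
    Lt p t σ τ ↔ Le p t σ τ ∧ ¬ σ = τ := by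
  constructor
  · rintro ⟨h, s, s', hs, rfl, rfl⟩
    exact ⟨⟨h, s, s', hs.le, rfl, rfl⟩, fun h1 => hs.ne (num_inj h h1)⟩
  · rintro ⟨⟨h, s, s', hs, rfl, rfl⟩, h1⟩
    exact ⟨h, s, s', lt_of_le_of_ne hs fun h2 => h1 (by rw [h2]), rfl, rfl⟩

theorem ud_Lt (h₁ : TT f₁) (h₂ : TT f₂) (h₃ : TT f₃) :
    UD (fun K _ v => Lt (ringChar K) (f₁ K v) (f₂ K v) (f₃ K v)) := by
  refine UD.congr (fun K _ hK v => ?_) ((ud_Le h₁ h₂ h₃).and (UD.eq h₂ h₃).not)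
  obtain ⟨hp, hc, -, -⟩ := hK.facts
  exact lt_iff'.symm

/-- divisibility -/
private def Dv (p : ℕ) {K : Type u} [Field K] (t σ τ : K) : Prop :=
  NC p t ∧ ∃ s s' : ℕ, s ∣ s' ∧ σ = t ^ (p ^ s) ∧ τ = t ^ (p ^ s')

private theorem dv_iff {K : Type u} [Field K] (hK : Good K) {t σ τ : K} :
    Dv (ringChar K) t σ τ ↔ NC (ringChar K) t ∧ Phi (ringChar K) t σ ∧ Phi (ringChar K) t τ ∧
      ∀ u : K, ¬ u = 0 → ∃ y : K, ¬ y = 0 ∧ ∃ y₁ u₁ : K, EE (ringChar K) t σ y y₁ ∧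
        EE (ringChar K) t τ u u₁ ∧ y₁ * u = u₁ * y := by
  obtain ⟨hp, hc, hfg, g, hg⟩ := hK.facts
  obtain ⟨C⟩ := exists_chart (ringChar K) K hfg hg
  constructor
  · rintro ⟨h, s, s', hs, rfl, rfl⟩
    refine ⟨h, ⟨s, rfl⟩, ⟨s', rfl⟩, fun u hu => ?_⟩
    obtain ⟨y, hy, h1⟩ := (dvd_iff C hg s s').2 hs u hu
    exact ⟨y, hy, _, _, ⟨s, rfl, rfl⟩, ⟨s', rfl, rfl⟩, h1⟩
  · rintro ⟨h, ⟨s, rfl⟩, ⟨s', rfl⟩, h1⟩
    refine ⟨h, s, s', (dvd_iff C hg s s').1 fun u hu => ?_, rfl, rfl⟩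
    obtain ⟨y, hy, y₁, u₁, ⟨a, ha, rfl⟩, ⟨b, hb, rfl⟩, h2⟩ := h1 u hu
    rw [← num_inj h ha, ← num_inj h hb] at h2
    exact ⟨y, hy, h2⟩

private theorem ud_Dv0 : UD.{u} (fun K _ v => Dv (ringChar K) (v 0) (v 1) (v 2)) := by
  have h1 : UD.{u} (fun K _ v => EE (ringChar K) (v 0) (v 1) (v 4) (v 5) ∧
      EE (ringChar K) (v 0) (v 2) (v 3) (v 6) ∧ v 5 * v 3 = v 6 * v 4) :=
    (ud_EE (TT.var 0) (TT.var 1) (TT.var 4) (TT.var 5)).and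
      ((ud_EE (TT.var 0) (TT.var 2) (TT.var 3) (TT.var 6)).and
        (UD.eq ((TT.var 5).mul (TT.var 3)) ((TT.var 6).mul (TT.var 4))))
  have h2 := UD.ex 5 (UD.ex 6 h1)
  have h3 := UD.ex 4 ((UD.eq (TT.var 4) TT.zero).not.and h2)
  have h4 := UD.all 3 (UD.imp (UD.eq (TT.var 3) TT.zero).not h3)
  have h5 := (ud_NC (TT.var 0)).and ((ud_Phi (TT.var 0) (TT.var 1)).and
    ((ud_Phi (TT.var 0) (TT.var 2)).and h4))
  refine UD.congr (fun K _ hK v => ?_) h5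
  rw [dv_iff hK]
  simp [Function.update_of_ne]

private theorem ud_Dv (h₁ : TT f₁) (h₂ : TT f₂) (h₃ : TT f₃) :
    UD (fun K _ v => Dv (ringChar K) (f₁ K v) (f₂ K v) (f₃ K v)) :=
  sub3 (R := fun K _ a b c => Dv (ringChar K) a b c) ud_Dv0 h₁ h₂ h₃

private theorem pr_iff {p : ℕ} [Fact p.Prime] {K : Type u} [Field K] [CharP K p] {t σ : K} :
    Pr p t σ ↔ NC p t ∧ Phi p t σ ∧ ¬ σ = t ∧ ¬ σ = t ^ p ∧
      ∀ τ : K, Dv p t τ σ → τ = t ^ p ∨ τ = σ := by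
  constructor
  · rintro ⟨h, s, hs, rfl⟩
    refine ⟨h, ⟨s, rfl⟩, fun h1 => ?_, fun h1 => ?_, ?_⟩
    · have h2 : t ^ (p ^ s) = t ^ (p ^ 0) := by rw [h1, pow_zero, pow_one]
      exact hs.ne_zero (num_inj h h2)
    · have h2 : t ^ (p ^ s) = t ^ (p ^ 1) := by rw [h1, pow_one]
      exact hs.ne_one (num_inj h h2)
    · rintro τ ⟨-, a, b, hab, rfl, hb⟩
      rw [← num_inj h hb] at hab
      rcases (Nat.dvd_prime hs).1 hab with h1 | h1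
      · left
        rw [h1, pow_one]
      · right
        rw [h1]
  · rintro ⟨h, ⟨s, rfl⟩, h1, h2, h3⟩
    refine ⟨h, s, ?_, rfl⟩
    rw [Nat.prime_def]
    have hs0 : s ≠ 0 := by
      rintro rfl
      exact h1 (by rw [pow_zero, pow_one])
    have hs1 : s ≠ 1 := by
      rintro rfl
      exact h2 (by rw [pow_one])
    refine ⟨by omega, fun m hm => ?_⟩
    rcases h3 (t ^ (p ^ m)) ⟨h, m, s, hm, rfl, rfl⟩ with h4 | h4
    · left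
      have h5 : t ^ (p ^ m) = t ^ (p ^ 1) := by rw [h4, pow_one]
      exact num_inj h h5
    · right
      exact num_inj h h4

private theorem ud_Pr0 : UD.{u} (fun K _ v => Pr (ringChar K) (v 0) (v 1)) := by
  have h1 : UD.{u} (fun K _ v => Dv (ringChar K) (v 0) (v 2) (v 1) →
      (v 2 = v 0 ^ ringChar K ∨ v 2 = v 1)) :=
    (ud_Dv (TT.var 0) (TT.var 2) (TT.var 1)).imp
      ((ud_Frob (TT.var 0) (TT.var 2)).or (UD.eq (TT.var 2) (TT.var 1)))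
  have h2 := UD.all 2 h1
  have h3 := (ud_NC (TT.var 0)).and ((ud_Phi (TT.var 0) (TT.var 1)).and
    ((UD.eq (TT.var 1) (TT.var 0)).not.and ((ud_Frob (TT.var 0) (TT.var 1)).not.and h2)))
  refine UD.congr (fun K _ hK v => ?_) h3
  obtain ⟨hp, hc, -, -⟩ := hK.facts
  rw [pr_iff]
  simp [Function.update_of_ne]

theorem ud_Pr (h₁ : TT f₁) (h₂ : TT f₂) :
    UD (fun K _ v => Pr (ringChar K) (f₁ K v) (f₂ K v)) :=
  sub2 (R := fun K _ a b => Pr (ringChar K) a b) ud_Pr0 h₁ h₂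

private theorem np_iff {p : ℕ} [Fact p.Prime] {K : Type u} [Field K] [CharP K p] {t σ τ : K} :
    Np p t σ τ ↔ Lt p t σ τ ∧ Pr p t τ ∧ ∀ ρ : K, Lt p t σ ρ → Lt p t ρ τ → ¬ Pr p t ρ := by
  constructor
  · rintro ⟨h, s, s', rfl, rfl, hs, hp, hq⟩
    refine ⟨⟨h, s, s', hs, rfl, rfl⟩, ⟨h, s', hp, rfl⟩, ?_⟩
    rintro ρ ⟨-, a, b, hab, ha, hb⟩ ⟨-, c, e, hce, hc, he⟩ ⟨-, q, hq1, hq2⟩
    have h1 := num_inj h ha
    have h2 := num_inj h he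
    have h3 := num_inj h (hb.symm.trans hc)
    have h4 := num_inj h (hb.symm.trans hq2)
    exact hq q (by omega) (by omega) hq1
  · rintro ⟨⟨h, s, s', hs, rfl, rfl⟩, ⟨-, q, hq, hq'⟩, h1⟩
    have h2 := num_inj h hq'
    refine ⟨h, s, s', rfl, rfl, hs, h2 ▸ hq, fun r hr1 hr2 hr => ?_⟩
    exact h1 (t ^ (p ^ r)) ⟨h, s, r, hr1, rfl, rfl⟩ ⟨h, r, s', hr2, rfl, rfl⟩
      ⟨h, r, hr, rfl⟩

private theorem ud_Np0 : UD.{u} (fun K _ v => Np (ringChar K) (v 0) (v 1) (v 2)) := by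
  have h1 : UD.{u} (fun K _ v => Lt (ringChar K) (v 0) (v 1) (v 3) →
      Lt (ringChar K) (v 0) (v 3) (v 2) → ¬ Pr (ringChar K) (v 0) (v 3)) :=
    (ud_Lt (TT.var 0) (TT.var 1) (TT.var 3)).imp
      ((ud_Lt (TT.var 0) (TT.var 3) (TT.var 2)).imp (ud_Pr (TT.var 0) (TT.var 3)).not)
  have h2 := UD.all 3 h1
  have h3 := (ud_Lt (TT.var 0) (TT.var 1) (TT.var 2)).and
    ((ud_Pr (TT.var 0) (TT.var 2)).and h2)
  refine UD.congr (fun K _ hK v => ?_) h3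
  obtain ⟨hp, hc, -, -⟩ := hK.facts
  rw [np_iff]
  simp [Function.update_of_ne]

theorem ud_Np (h₁ : TT f₁) (h₂ : TT f₂) (h₃ : TT f₃) :
    UD (fun K _ v => Np (ringChar K) (f₁ K v) (f₂ K v) (f₃ K v)) :=
  sub3 (R := fun K _ a b c => Np (ringChar K) a b c) ud_Np0 h₁ h₂ h₃

private theorem cg_iff {p : ℕ} {K : Type u} [Field K] {t σ x y : K} :
    Cg p t σ x y ↔ NC p t ∧ ¬ x = 0 ∧ ¬ y = 0 ∧ ∃ z : K, ¬ z = 0 ∧ ∃ x₁ y₁ z₁ : K,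
      x₁ = x ^ p ∧ y₁ = y ^ p ∧ EE p t σ z z₁ ∧ x₁ * y * z = x * y₁ * z₁ := by
  constructor
  · rintro ⟨h, hx, hy, s, rfl, z, hz, h1⟩
    exact ⟨h, hx, hy, z, hz, _, _, _, rfl, rfl, ⟨s, rfl, rfl⟩, h1⟩
  · rintro ⟨h, hx, hy, z, hz, _, _, _, rfl, rfl, ⟨s, rfl, rfl⟩, h1⟩
    exact ⟨h, hx, hy, s, rfl, z, hz, h1⟩

private theorem ud_Cg0 : UD.{u} (fun K _ v => Cg (ringChar K) (v 0) (v 1) (v 2) (v 3)) := by
  have h1 : UD.{u} (fun K _ v => v 5 = v 2 ^ ringChar K ∧ v 6 = v 3 ^ ringChar K ∧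
      EE (ringChar K) (v 0) (v 1) (v 4) (v 7) ∧ v 5 * v 3 * v 4 = v 2 * v 6 * v 7) :=
    (ud_Frob (TT.var 2) (TT.var 5)).and ((ud_Frob (TT.var 3) (TT.var 6)).and
      ((ud_EE (TT.var 0) (TT.var 1) (TT.var 4) (TT.var 7)).and
        (UD.eq (((TT.var 5).mul (TT.var 3)).mul (TT.var 4))
          (((TT.var 2).mul (TT.var 6)).mul (TT.var 7)))))
  have h2 := UD.ex 5 (UD.ex 6 (UD.ex 7 h1))
  have h3 := UD.ex 4 ((UD.eq (TT.var 4) TT.zero).not.and h2)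
  have h4 := (ud_NC (TT.var 0)).and ((UD.eq (TT.var 2) TT.zero).not.and
    ((UD.eq (TT.var 3) TT.zero).not.and h3))
  refine UD.congr (fun K _ hK v => ?_) h4
  rw [cg_iff]
  simp [Function.update_of_ne]

theorem ud_Cg (h₁ : TT f₁) (h₂ : TT f₂) (h₃ : TT f₃) (h₄ : TT f₄) :
    UD (fun K _ v => Cg (ringChar K) (f₁ K v) (f₂ K v) (f₃ K v) (f₄ K v)) :=
  sub4 (R := fun K _ a b c e => Cg (ringChar K) a b c e) ud_Cg0 h₁ h₂ h₃ h₄

end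

end UDV
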