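import Pool.Agent.UDV.CodeA
import Pool.Agent.UDV.DefB

/-!
# UDV: codes of pairs and of finite sequences

`q_j = Nat.nth Nat.Prime j` is the `j`-th prime (`Nat.prime_nth_prime`, strictly increasing,
`Nat.nth_strictMono Nat.infinite_setOf_prime`); there is no prime strictly between `q_j` and
`q_{j+1}` (`Nat.lt_nth_iff_count_lt`, or `Nat.count`), distinct primes are coprime, `q_j > j`.

PROOFS.
* `seq_code`: `s₀` = maximum of the numbers of `dec_exists` over the members of `l`; `N₀ = s₀`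
  (`q_{N + j} ≥ N + j ≥ s₀`).  `crt` for `s j = q_{N+j}`, `m = l.length`, `w = x₀`
  (`exists_not_pow_K`), once with `y = l[j]` and once with `1 - l[j]`.
* `pair_unique`: `β` is unique: if `Phi β a`, `Phi β' a`, `a = β ^ (p ^ s) = β' ^ (p ^ s')`, say
  `s ≤ s'`, then `β = β' ^ (p ^ (s' - s))`, i.e. `Phi β' β`, and the minimality of `β` gives
  `β' = β`.  `Np` is functional in its last argument (exponents are unique, `num_inj`), so the
  `σ_i` agree; `dec_unique`.
* `pair_exists`: let `u` be at least the numbers `s₀` of `dec_exists` for `c` and `c'` **for all**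
  `t` (the number `s₀` of `dec_exists` may depend on `t` in its statement; use `decode` and
  `cg_ord`, `cg_of_pow` directly, or apply `dec_exists'` below, where `s₀` does not depend on `t`).
  Let `s₁ < s₂ < s₃ < s₄` be the four primes following `u` (`q_k, ..., q_{k+3}` with `k` the
  number of primes `≤ u`).  `crt` with the values `c, 1 - c, c', 1 - c'` gives `β`, not a `p`-th
  power, so `NC` (`nc_of_not_pow`); `a = β ^ (p ^ u)`.  Minimality: if `β = z ^ (p ^ s)` then
  `s = 0`.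
-/

open Polynomial

namespace UDV

universe u

variable {p : ℕ} [Fact p.Prime] {K : Type u} [Field K] [CharP K p]

private theorem nc_ne_zero {y : K} (hy : NC p y) : y ≠ 0 := by
  have hp : p.Prime := Fact.out
  rintro rfl
  exact hy 1 one_pos (by simp [hp.ne_zero])

private theorem nc_one_sub {y : K} (hy : NC p y) : 1 - y ≠ 0 := by
  intro h
  have h1 : y = 1 := by linear_combination -h
  rw [h1] at hy
  exact hy 1 one_pos (one_pow _)

theorem dec_exists' (C : Chart p K) {y : K} (hy : NC p y) :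
    ∃ s₀ : ℕ, ∀ t : K, NC p t → ∀ s s' : ℕ, s₀ ≤ s → s₀ ≤ s' → ∀ b b' : K,
      (∃ z, z ≠ 0 ∧ b = y * z ^ nn p s) → (∃ z, z ≠ 0 ∧ b' = (1 - y) * z ^ nn p s') →
      Dec p t (t ^ (p ^ s)) (t ^ (p ^ s')) b b' y := by
  obtain ⟨s₀, hs₀⟩ := decode C hy
  refine ⟨s₀, fun t ht s s' hs hs' b b' hb hb' => ?_⟩
  have hy0 : y ≠ 0 := nc_ne_zero hy
  have hy1 : 1 - y ≠ 0 := nc_one_sub hy
  obtain ⟨z, hz, hbz⟩ := hb
  obtain ⟨z', hz', hbz'⟩ := hb'
  have c1 := cg_of_pow ht hy0 hz hbz
  have c2 := cg_of_pow ht hy1 hz' hbz'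
  refine ⟨hy, c1, c2, fun x' hx' d1 d2 => hs₀ s s' hs hs' x' hx' (fun P => ?_) (fun P => ?_)⟩
  · have e1 := cg_ord C c1 P
    have e2 := cg_ord C d1 P
    have e3 := dvd_sub e1 e2
    rwa [sub_sub_sub_cancel_left] at e3
  · have e1 := cg_ord C c2 P
    have e2 := cg_ord C d2 P
    have e3 := dvd_sub e1 e2
    rwa [sub_sub_sub_cancel_left] at e3

theorem seq_code (C : Chart p K) {t : K} (ht : NC p t) (l : List K) (hl : ∀ y ∈ l, NC p y) :
    ∃ N₀ : ℕ, ∀ N, N₀ ≤ N → ∃ b b' : K, (∀ z : K, z ^ p ≠ b) ∧ (∀ z : K, z ^ p ≠ b') ∧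
      ∀ (j : ℕ) (hj : j < l.length),
        Dec p t (t ^ (p ^ (Nat.nth Nat.Prime (N + j)))) (t ^ (p ^ (Nat.nth Nat.Prime (N + j))))
          b b' l[j] := by
  classical
  choose! f hf using fun y (hy : y ∈ l) => dec_exists' C (hl y hy)
  refine ⟨l.toFinset.sup f, fun N hN => ?_⟩
  have hmono := Nat.nth_strictMono Nat.infinite_setOfPred_prime
  have hcop : ∀ i j : Fin l.length, i ≠ j →
      Nat.Coprime (Nat.nth Nat.Prime (N + i)) (Nat.nth Nat.Prime (N + j)) := by
    intro i j hij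
    refine (Nat.coprime_primes (Nat.prime_nth_prime _) (Nat.prime_nth_prime _)).2 fun h => ?_
    have h2 := hmono.injective h
    exact hij (Fin.ext (by omega))
  have hone : ∀ i : Fin l.length, 1 ≤ Nat.nth Nat.Prime (N + i) := fun i =>
    (Nat.prime_nth_prime _).pos
  obtain ⟨b, hb, hb2⟩ := crt (p := p) (fun j : Fin l.length => Nat.nth Nat.Prime (N + j))
    hcop hone (fun j => l[j]) (fun i => nc_ne_zero (hl _ (List.getElem_mem _)))
    (exists_not_pow_K C)
  obtain ⟨b', hb', hb2'⟩ := crt (p := p) (fun j : Fin l.length => Nat.nth Nat.Prime (N + j))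
    hcop hone (fun j => 1 - l[j]) (fun i => nc_one_sub (hl _ (List.getElem_mem _)))
    (exists_not_pow_K C)
  refine ⟨b, b', hb, hb', fun j hj => ?_⟩
  have hmem : l[j] ∈ l := List.getElem_mem hj
  have hle : f l[j] ≤ Nat.nth Nat.Prime (N + j) := by
    have h1 : f l[j] ≤ l.toFinset.sup f := Finset.le_sup (f := f) (List.mem_toFinset.2 hmem)
    have h2 : N + j ≤ Nat.nth Nat.Prime (N + j) := hmono.le_apply
    omega
  exact hf _ hmem t ht _ _ hle hle b b' (hb2 ⟨j, hj⟩) (hb2' ⟨j, hj⟩)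

private theorem np_fun {t σ τ τ' : K} (h : Np p t σ τ) (h' : Np p t σ τ') : τ = τ' := by
  obtain ⟨ht, s, s₁, e1, e2, hlt, hpr, hn⟩ := h
  obtain ⟨-, s', s₁', e1', e2', hlt', hpr', hn'⟩ := h'
  have hs : s = s' := num_inj ht (e1.symm.trans e1')
  subst hs
  have h1 : s₁ = s₁' := by
    rcases lt_trichotomy s₁ s₁' with hh | hh | hh
    · exact absurd hpr (hn' s₁ hlt hh)
    · exact hh
    · exact absurd hpr' (hn s₁' hlt' hh)
  rw [e2, e2', h1]

private theorem base_aux {a β β' : K} {s s' : ℕ} (h : a = β ^ (p ^ s)) (h' : a = β' ^ (p ^ s'))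
    (hss : s ≤ s') : Phi p β' β := by
  haveI : ExpChar K p := ExpChar.prime (Fact.out : p.Prime)
  refine ⟨s' - s, ?_⟩
  apply iterateFrobenius_inj K p s
  rw [iterateFrobenius_def, iterateFrobenius_def, ← pow_mul, ← pow_add, Nat.sub_add_cancel hss,
    ← h, ← h']

theorem pair_unique {a c c' d d' : K} (h : Pair p a c c') (h' : Pair p a d d') :
    c = d ∧ c' = d' := by
  obtain ⟨β, hβ, ⟨s, hs⟩, hmin, σ₁, σ₂, σ₃, σ₄, n1, n2, n3, n4, d1, d2⟩ := h
  obtain ⟨β', hβ', ⟨s', hs'⟩, hmin', σ₁', σ₂', σ₃', σ₄', n1', n2', n3', n4', d1', d2'⟩ := h'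
  have hb : β = β' := by
    rcases le_total s s' with hss | hss
    · exact (hmin β' (base_aux hs hs' hss)).symm
    · exact hmin' β (base_aux hs' hs hss)
  subst hb
  have e1 := np_fun n1 n1'
  subst e1
  have e2 := np_fun n2 n2'
  subst e2
  have e3 := np_fun n3 n3'
  subst e3
  have e4 := np_fun n4 n4'
  subst e4
  exact ⟨dec_unique d1 d1', dec_unique d2 d2'⟩

private theorem next_prime (s : ℕ) :
    ∃ s', s < s' ∧ s'.Prime ∧ ∀ q, s < q → q < s' → ¬ q.Prime := by
  classical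
  have h := Nat.exists_infinite_primes (s + 1)
  refine ⟨Nat.find h, (Nat.find_spec h).1, (Nat.find_spec h).2, fun q hq hq' hpr => ?_⟩
  exact Nat.find_min h hq' ⟨hq, hpr⟩

theorem pair_exists (C : Chart p K) {c c' : K} (hc : NC p c) (hc' : NC p c') :
    ∃ a : K, NC p a ∧ Pair p a c c' := by
  obtain ⟨u₁, hu₁⟩ := dec_exists' C hc
  obtain ⟨u₂, hu₂⟩ := dec_exists' C hc'
  obtain ⟨v, hv⟩ : ∃ v, v = max u₁ u₂ := ⟨_, rfl⟩
  have hv1 : u₁ ≤ v := hv ▸ le_max_left _ _
  have hv2 : u₂ ≤ v := hv ▸ le_max_right _ _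
  obtain ⟨s₁, l1, p1, q1⟩ := next_prime v
  obtain ⟨s₂, l2, p2, q2⟩ := next_prime s₁
  obtain ⟨s₃, l3, p3, q3⟩ := next_prime s₂
  obtain ⟨s₄, l4, p4, q4⟩ := next_prime s₃
  obtain ⟨β, hβ, hβ2⟩ := crt (p := p) ![s₁, s₂, s₃, s₄] (by
      have c12 := (Nat.coprime_primes p1 p2).2 (by omega)
      have c13 := (Nat.coprime_primes p1 p3).2 (by omega)
      have c14 := (Nat.coprime_primes p1 p4).2 (by omega)
      have c23 := (Nat.coprime_primes p2 p3).2 (by omega)
      have c24 := (Nat.coprime_primes p2 p4).2 (by omega)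
      have c34 := (Nat.coprime_primes p3 p4).2 (by omega)
      intro i j hij
      fin_cases i <;> fin_cases j <;>
        first
          | exact absurd rfl hij
          | exact c12
          | exact c13
          | exact c14
          | exact c23
          | exact c24
          | exact c34
          | exact c12.symm
          | exact c13.symm
          | exact c14.symm
          | exact c23.symm
          | exact c24.symm
          | exact c34.symm) (by
      intro i
      fin_cases i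
      · exact p1.pos
      · exact p2.pos
      · exact p3.pos
      · exact p4.pos) ![c, 1 - c, c', 1 - c'] (by
      intro i
      fin_cases i
      · exact nc_ne_zero hc
      · exact nc_one_sub hc
      · exact nc_ne_zero hc'
      · exact nc_one_sub hc') (exists_not_pow_K C)
  have hN : NC p β := nc_of_not_pow hβ
  refine ⟨β ^ (p ^ v), hN.pow v, β, hN, ⟨v, rfl⟩, ?_, β ^ (p ^ s₁), β ^ (p ^ s₂), β ^ (p ^ s₃),
    β ^ (p ^ s₄), ⟨hN, v, s₁, rfl, rfl, l1, p1, q1⟩, ⟨hN, s₁, s₂, rfl, rfl, l2, p2, q2⟩,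
    ⟨hN, s₂, s₃, rfl, rfl, l3, p3, q3⟩, ⟨hN, s₃, s₄, rfl, rfl, l4, p4, q4⟩, ?_, ?_⟩
  · rintro z ⟨s, hs⟩
    rcases Nat.eq_zero_or_pos s with h0 | h0
    · rw [h0, pow_zero, pow_one] at hs
      exact hs.symm
    · obtain ⟨k, rfl⟩ : ∃ k, s = k + 1 := ⟨s - 1, by omega⟩
      exact absurd (by rw [hs, pow_succ, pow_mul]) (hβ (z ^ (p ^ k)))
  · exact hu₁ β hN s₁ s₂ (by omega) (by omega) β β (hβ2 0) (hβ2 1)
  · exact hu₂ β hN s₃ s₄ (by omega) (by omega) β β (hβ2 2) (hβ2 3)

end UDV
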