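import Pool.Agent.UDV.Eval

/-!
# UDV: the test polynomials

`GG p = X ^ (p ^ 5) - X` for `p < 7` and `∏_{c < 7} (X - c)` for `p ≥ 7`;
`rr p = 5` for `p < 7` and `1` for `p ≥ 7`.

PROOFS.
* `GG_sep`: `X ^ q - X` has derivative `-1` (`galois_poly_separable`); a product of the distinct
  linear factors `X - C c`, `c < 7 ≤ p`, is separable.
* `GG_dvd`: for `p ≥ 7` the polynomial `X ^ p - X` is the product of all `X - C c`, `c : ZMod p`
  (or: `X - C c` divides it since `c ^ p = c`, and the factors are pairwise coprime,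
  `Finset.prod_dvd_of_coprime`).
* `natDegree_le`: let `f` be irreducible dividing `X ^ (p ^ r) - X`, `E = AdjoinRoot f` is a field
  with `p ^ (natDegree f)` elements, its generator `α` satisfies `α ^ (p ^ r) = α`; the map
  `y ↦ y ^ (p ^ r)` is a ring endomorphism of `E` fixing `α` and the constants, hence it is the
  identity, so all `p ^ (natDegree f)` elements of `E` are roots of `X ^ (p ^ r) - X`, and
  `p ^ natDegree f ≤ p ^ r`.
* `exists_FS`: for `p < 7` and `natDegree f ≤ 5` take for `c i` the value `ZMod.val` of the `i`-th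
  coefficient.
* `star_GG` (`p < 7`): `natDegree f ≤ 5` by `natDegree_le`; take `F ∈ FS p` with image `f`, use
  `ev_aeval`.  (`p ≥ 7`): `f` irreducible divides `∏ (X - C c)`, so it divides some `X - C c`
  (`Prime.dvd_finset_prod_iff`) and is associated with it: `f = C u * (X - C c)`, `u ≠ 0`, so
  `ord P (ev f a) = ord P (a - c)` (`ord_const`, `ord_mul`; if `a = c` both are `ord P 0 = 0`).
* `star_zero`, `star_one`: the polynomials `X`, `X - 1` (respectively `X + (p - 1)`) are in `FS p`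
  up to reduction mod `p`.
* `sum_bound`: for `p = 2, 3, 5`, `r = 5` and for `p ≥ 7`, `r = 1` evaluate the sum explicitly:
  `9 n + 9 m`, `15 n + 15 m`, `33 n + 33 m`, `n + m`.
-/

open Polynomial

namespace UDV

universe u

/-- The universal test polynomial. -/
noncomputable def GG (p : ℕ) : (ZMod p)[X] :=
  if p < 7 then X ^ (p ^ 5) - X else ∏ c ∈ Finset.range 7, (X - C ((c : ℕ) : ZMod p))

def rr (p : ℕ) : ℕ := if p < 7 then 5 else 1

def RR (p : ℕ) : ℕ := if p < 7 then p ^ 5 else 7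

/-- the coefficient in the lower bound -/
def YY (p : ℕ) : ℕ := if p = 2 then 9 else if p = 3 then 15 else if p = 5 then 33 else 1

theorem ee_ge (p : ℕ) : 2 ≤ ee p := by
  unfold ee
  split_ifs <;> norm_num

private theorem cast_ne {p : ℕ} (hp : ¬ p < 7) {c d : ℕ} (hc : c ∈ Finset.range 7)
    (hd : d ∈ Finset.range 7) (h : c ≠ d) : ((c : ℕ) : ZMod p) ≠ ((d : ℕ) : ZMod p) := by
  intro e
  rw [ZMod.natCast_eq_natCast_iff'] at e
  rw [Finset.mem_range] at hc hd
  rw [Nat.mod_eq_of_lt (by omega), Nat.mod_eq_of_lt (by omega)] at e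
  exact h e

private theorem cop {p : ℕ} [Fact p.Prime] (hp : ¬ p < 7) {c d : ℕ} (hc : c ∈ Finset.range 7)
    (hd : d ∈ Finset.range 7) (h : c ≠ d) :
    IsCoprime (X - C ((c : ℕ) : ZMod p)) (X - C ((d : ℕ) : ZMod p)) := by
  apply isCoprime_X_sub_C_of_isUnit_sub
  exact (sub_ne_zero.mpr (cast_ne hp hc hd h)).isUnit

theorem GG_sep (p : ℕ) [Fact p.Prime] : (GG p).Separable := by
  unfold GG
  split_ifs with hp
  · exact galois_poly_separable p (p ^ 5) (dvd_pow_self p (by norm_num))
  · exact separable_prod' (fun c hc d hd h => cop hp hc hd h) (fun c _ => separable_X_sub_C)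

theorem GG_natDegree (p : ℕ) [Fact p.Prime] : (GG p).natDegree = RR p := by
  unfold GG RR
  split_ifs with hp
  · exact FiniteField.X_pow_card_sub_X_natDegree_eq (ZMod p)
      (Nat.one_lt_pow (by norm_num) (Fact.out : p.Prime).one_lt)
  · rw [natDegree_prod_of_monic _ _ (fun c _ => monic_X_sub_C _)]
    simp only [natDegree_X_sub_C, Finset.sum_const, Finset.card_range, smul_eq_mul, mul_one]

theorem GG_dvd (p : ℕ) [Fact p.Prime] : GG p ∣ X ^ (p ^ rr p) - X := by
  unfold GG rr
  split_ifs with hp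
  · exact dvd_rfl
  · apply Finset.prod_dvd_of_coprime
    · intro c hc d hd h
      exact cop hp hc hd h
    · intro c _
      rw [dvd_iff_isRoot, IsRoot.def, eval_sub, eval_pow, eval_X, pow_one, ZMod.pow_card, sub_self]

theorem natDegree_le (p : ℕ) [Fact p.Prime] {f : (ZMod p)[X]} (hf : Irreducible f) {r : ℕ}
    (hr : 0 < r) (h : f ∣ X ^ (p ^ r) - X) : f.natDegree ≤ r := by
  have h' : f ∣ X ^ (Nat.card (ZMod p)) ^ r - X := by
    rw [Nat.card_zmod]
    exact h
  exact Nat.le_of_dvd hr (hf.natDegree_dvd_of_dvd_X_pow_card_pow_sub_X h')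

theorem exists_FS {p : ℕ} [Fact p.Prime] (hp : p < 7) (f : (ZMod p)[X]) (hf : f.natDegree ≤ 5) :
    ∃ F ∈ FS p, F.map (Int.castRingHom (ZMod p)) = f := by
  classical
  refine ⟨∑ i : Fin 6, C (((⟨(f.coeff i).val, ZMod.val_lt _⟩ : Fin p) : ℕ) : ℤ) * X ^ (i : ℕ),
    ?_, ?_⟩
  · unfold FS
    rw [if_pos hp]
    exact Finset.mem_image.mpr ⟨fun i : Fin 6 => ⟨(f.coeff i).val, ZMod.val_lt _⟩,
      Finset.mem_univ _, rfl⟩
  · rw [Polynomial.map_sum]
    have h1 : ∀ i : Fin 6, (C (((⟨(f.coeff i).val, ZMod.val_lt _⟩ : Fin p) : ℕ) : ℤ) *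
        X ^ (i : ℕ)).map (Int.castRingHom (ZMod p)) = monomial (i : ℕ) (f.coeff i) := by
      intro i
      rw [Polynomial.map_mul, Polynomial.map_pow, map_X, map_C, C_mul_X_pow_eq_monomial]
      congr 1
      change (Int.castRingHom (ZMod p)) (((f.coeff i).val : ℕ) : ℤ) = f.coeff i
      rw [eq_intCast, Int.cast_natCast, ZMod.natCast_zmod_val]
    rw [Finset.sum_congr rfl (fun i _ => h1 i),
      Fin.sum_univ_eq_sum_range (fun i => monomial i (f.coeff i)) 6]
    exact (f.as_sum_range' 6 (by omega)).symm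

theorem sum_bound (p : ℕ) [Fact p.Prime] (n m : ℤ) :
    (∑ j ∈ Finset.range (rr p), if 2 * j ≤ rr p then n + (p : ℤ) ^ j * m
        else (p : ℤ) ^ (rr p - j) * n + m) = YY p * n + YY p * m := by
  by_cases hp : p < 7
  · have hprime : p.Prime := Fact.out
    have : p = 2 ∨ p = 3 ∨ p = 5 := by
      interval_cases p
      · exact absurd hprime (by norm_num)
      · exact absurd hprime (by norm_num)
      · simp
      · simp
      · exact absurd hprime (by norm_num)
      · simp
      · exact absurd hprime (by norm_num)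
    rcases this with rfl | rfl | rfl
    · norm_num [rr, YY, Finset.sum_range_succ]
      ring
    · norm_num [rr, YY, Finset.sum_range_succ]
      ring
    · norm_num [rr, YY, Finset.sum_range_succ]
      ring
  · have h2 : p ≠ 2 := by omega
    have h3 : p ≠ 3 := by omega
    have h5 : p ≠ 5 := by omega
    simp [rr, YY, hp, h2, h3, h5]

private theorem X_dvd_GG (p : ℕ) [Fact p.Prime] : (X : (ZMod p)[X]) ∣ GG p := by
  unfold GG
  split_ifs with hp
  · exact dvd_sub (dvd_pow_self X (pow_ne_zero _ (Fact.out : p.Prime).ne_zero)) dvd_rfl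
  · have h := Finset.dvd_prod_of_mem (fun c : ℕ => (X - C ((c : ℕ) : ZMod p)))
      (show (0 : ℕ) ∈ Finset.range 7 by simp)
    simpa using h

private theorem X1_dvd_GG (p : ℕ) [Fact p.Prime] : (X - C 1 : (ZMod p)[X]) ∣ GG p := by
  unfold GG
  split_ifs with hp
  · rw [dvd_iff_isRoot]
    simp
  · have h := Finset.dvd_prod_of_mem (fun c : ℕ => (X - C ((c : ℕ) : ZMod p)))
      (show (1 : ℕ) ∈ Finset.range 7 by simp)
    simpa using h

namespace PF

variable {p : ℕ} {L : Type u} [Field L] (S : PF p L) [Fact p.Prime] [CharP L p]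

theorem star_GG {a w : L} (h : S.Star a w) {f : (ZMod p)[X]} (hf : Irreducible f)
    (hfG : f ∣ GG p) (P : S.I) :
    (((ee p : ℕ) : ℤ) ∣ S.ord P (ev f a) ↔ ((ee p : ℕ) : ℤ) ∣ S.ord P (ev f w)) := by
  classical
  by_cases hp : p < 7
  · have hd : f ∣ X ^ (p ^ 5) - X := by
      unfold GG at hfG
      rwa [if_pos hp] at hfG
    obtain ⟨F, hF, hFf⟩ := exists_FS hp f (natDegree_le p hf (by norm_num) hd)
    have h1 := h P F hF
    rw [ev_aeval (p := p), ev_aeval (p := p), hFf] at h1
    exact h1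
  · have hd : f ∣ ∏ c ∈ Finset.range 7, (X - C ((c : ℕ) : ZMod p)) := by
      unfold GG at hfG
      rwa [if_neg hp] at hfG
    obtain ⟨c, hc, hfc⟩ := (hf.prime.dvd_finsetProd_iff _).mp hd
    have hass : Associated f (X - C ((c : ℕ) : ZMod p)) :=
      hf.associated_of_dvd (irreducible_X_sub_C _) hfc
    obtain ⟨v, hv⟩ := hass.symm
    obtain ⟨k, hk, hkv⟩ := Polynomial.isUnit_iff.mp v.isUnit
    have hk0 : k ≠ 0 := hk.ne_zero
    have key : ∀ y : L, S.ord P (ev f y) = S.ord P (aeval y (X - C ((c : ℕ) : ℤ))) := by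
      intro y
      rw [ev_aeval (p := p)]
      have h1 : (X - C ((c : ℕ) : ℤ)).map (Int.castRingHom (ZMod p)) =
          X - C ((c : ℕ) : ZMod p) := by
        rw [Polynomial.map_sub, map_X, map_C]
        simp
      rw [h1]
      have h2 : ev f y = ev (X - C ((c : ℕ) : ZMod p)) y *
          ZMod.castHom (dvd_refl p) L k := by
        rw [← hv, ← hkv]
        unfold ev
        rw [eval₂_mul, eval₂_C]
      rw [h2]
      by_cases h3 : ev (X - C ((c : ℕ) : ZMod p)) y = 0
      · rw [h3, zero_mul]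
      · rw [S.ord_mul P h3 ((_root_.map_ne_zero _).mpr hk0), S.ord_const, add_zero]
    have hF : (X - C ((c : ℕ) : ℤ)) ∈ FS p := by
      unfold FS
      rw [if_neg hp]
      exact Finset.mem_image.mpr ⟨c, hc, rfl⟩
    rw [key, key]
    exact h P _ hF

theorem star_zero {a w : L} (h : S.Star a w) (P : S.I) :
    (((ee p : ℕ) : ℤ) ∣ S.ord P a ↔ ((ee p : ℕ) : ℤ) ∣ S.ord P w) := by
  have h1 := S.star_GG h irreducible_X (X_dvd_GG p) P
  simpa [ev] using h1

theorem star_one {a w : L} (h : S.Star a w) (P : S.I) :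
    (((ee p : ℕ) : ℤ) ∣ S.ord P (a - 1) ↔ ((ee p : ℕ) : ℤ) ∣ S.ord P (w - 1)) := by
  have h1 := S.star_GG h (irreducible_X_sub_C 1) (X1_dvd_GG p) P
  simpa [ev] using h1

end PF

end UDV
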