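import Pool.Agent.UDV.Lower
import Pool.Agent.UDV.Test

/-!
# UDV: the curve lemma

PROOF of `curve`.  Suppose `w ≠ a`.  Put `n = deg w`, `m = deg a`, `B = S.B ≥ 0`,
`Λ = S.Lc (δ i a) ≥ 0`, `e = ee p`, `R = RR p`, `Y = YY p`; `m > B + Λ ≥ 0`.  `a`, `w` are `NC`
(`nc_of_delta`).  `upper` and `lower` (with `G = GG p`, `r = rr p`, `star_GG`, `star_zero`,
`star_one`, `GG_natDegree`, `sum_bound`) give
`(e - 1) (R n - (R + 1) m) ≤ e (2 n + B)` and `R m - Λ ≤ Y n + Y m`.
* `p = 2` (`e = 3`, `R = 32`, `Y = 9`): `58 n ≤ 66 m + 3 B`, `23 m ≤ 9 n + Λ`, so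
  `740 m ≤ 27 B + 58 Λ`.
* `p = 3` (`e = 2`, `R = 243`, `Y = 15`): `239 n ≤ 244 m + 2 B`, `228 m ≤ 15 n + Λ`, so
  `50832 m ≤ 30 B + 239 Λ`.
* `p = 5` (`e = 2`, `R = 3125`, `Y = 33`): `3121 n ≤ 3126 m + 2 B`, `3092 m ≤ 33 n + Λ`, so
  `9546974 m ≤ 66 B + 3121 Λ`.
* `p ≥ 7` (`e = 2`, `R = 7`, `Y = 1`): `3 n ≤ 8 m + 2 B`, `6 m ≤ n + Λ`, so `10 m ≤ 2 B + 3 Λ`.
All contradict `m > B + Λ ≥ 0` (`linarith`/`nlinarith`; a prime `< 7` is `2`, `3` or `5`).

PROOF of `not_star`.  `Λ < R m` as `R ≥ 1`, `m > Λ`, `m > 0`.  `exists_simple` gives `P`, `f` with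
`f ∣ GG p` irreducible and `ord P (ev f a) = 1`; by `star_GG` `e ∤ ord P (ev f w)`.  But `w` is
algebraic, `w ^ (p ^ k) = w` with `0 < k`, so `(ev f w) ^ (p ^ k) = ev f w` (Frobenius is a ring
homomorphism fixing the constants) and `ord P (ev f w) = 0` by `ord_alg`; contradiction.
-/

open Polynomial

namespace UDV

universe u

namespace PF

variable {p : ℕ} {L : Type u} [Field L] (S : PF p L) [Fact p.Prime] [CharP L p]

theorem ev_frob (f : (ZMod p)[X]) (w : L) (k : ℕ) : ev f (w ^ (p ^ k)) = (ev f w) ^ (p ^ k) := by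
  haveI : ExpChar L p := ExpChar.prime (Fact.out : p.Prime)
  unfold ev
  rw [← iterateFrobenius_def p k (eval₂ (ZMod.castHom (dvd_refl p) L) w f), Polynomial.hom_eval₂,
    iterateFrobenius_def]
  congr 1
  exact Subsingleton.elim _ _

private theorem curve_RR (p : ℕ) [Fact p.Prime] : 1 ≤ RR p := by
  unfold RR
  split_ifs
  · exact Nat.one_le_pow _ _ (Fact.out : p.Prime).pos
  · norm_num

private theorem curve_arith {p : ℕ} [Fact p.Prime] {n m B Λ : ℤ} (hB : 0 ≤ B) (hΛ : 0 ≤ Λ)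
    (hm : B + Λ < m)
    (h1 : (((ee p : ℕ) : ℤ) - 1) * (((RR p : ℕ) : ℤ) * n - (((RR p : ℕ) : ℤ) + 1) * m) ≤
      ((ee p : ℕ) : ℤ) * (2 * n + B))
    (h2 : ((RR p : ℕ) : ℤ) * m - Λ ≤ YY p * n + YY p * m) : False := by
  have hp : p.Prime := Fact.out
  by_cases h7 : p < 7
  · have h3 : p = 2 ∨ p = 3 ∨ p = 5 := by
      interval_cases p
      · exact absurd hp (by norm_num)
      · exact absurd hp (by norm_num)
      · exact Or.inl rfl
      · exact Or.inr (Or.inl rfl)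
      · exact absurd hp (by norm_num)
      · exact Or.inr (Or.inr rfl)
      · exact absurd hp (by norm_num)
    rcases h3 with rfl | rfl | rfl
    · have e1 : ee 2 = 3 := by decide
      have e2 : RR 2 = 32 := by decide
      have e3 : YY 2 = 9 := by decide
      rw [e1, e2] at h1
      rw [e2, e3] at h2
      push_cast at h1 h2
      linarith
    · have e1 : ee 3 = 2 := by decide
      have e2 : RR 3 = 243 := by decide
      have e3 : YY 3 = 15 := by decide
      rw [e1, e2] at h1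
      rw [e2, e3] at h2
      push_cast at h1 h2
      linarith
    · have e1 : ee 5 = 2 := by decide
      have e2 : RR 5 = 3125 := by norm_num [RR]
      have e3 : YY 5 = 33 := by decide
      rw [e1, e2] at h1
      rw [e2, e3] at h2
      push_cast at h1 h2
      linarith
  · have e1 : ee p = 2 := by
      unfold ee
      rw [if_neg (by omega)]
    have e2 : RR p = 7 := by
      unfold RR
      rw [if_neg h7]
    have e3 : YY p = 1 := by
      unfold YY
      rw [if_neg (by omega), if_neg (by omega), if_neg (by omega)]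
    rw [e1, e2] at h1
    rw [e2, e3] at h2
    push_cast at h1 h2
    linarith

theorem curve {a w : L} {i j₀ : Fin S.d} (hδa : S.δ i a ≠ 0) (hδw : S.δ j₀ w ≠ 0)
    (hst : S.Star a w) (hm : S.B + S.Lc (S.δ i a) < S.deg a) : w = a := by
  by_contra hwa
  have hR := curve_RR p
  have hdeg := GG_natDegree p
  have hstG : ∀ f : (ZMod p)[X], Irreducible f → f ∣ GG p → ∀ P,
      (((ee p : ℕ) : ℤ) ∣ S.ord P (ev f a) ↔ ((ee p : ℕ) : ℤ) ∣ S.ord P (ev f w)) :=
    fun f hf hfG P => S.star_GG hst hf hfG P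
  have h1 := S.upper (GG_sep p) (by rw [hdeg]; exact hR) (ee_ge p) (S.nc_of_delta hδa) hδw hstG
  have hr : 0 < rr p := by
    unfold rr
    split_ifs <;> norm_num
  have h2 := S.lower (GG_sep p) hr (GG_dvd p) (ee_ge p) hδa hδw hstG (S.star_zero hst)
    (S.star_one hst) hwa
  rw [sum_bound, hdeg] at h2
  rw [hdeg] at h1
  exact curve_arith S.B_nonneg (S.Lc_nonneg (S.δ i a)) hm h1 h2

theorem not_star {a w : L} {i : Fin S.d} (hδa : S.δ i a ≠ 0)
    (hm : S.B + S.Lc (S.δ i a) < S.deg a) (hw : ¬ NC p w) : ¬ S.Star a w := by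
  intro hst
  have hR : (1 : ℤ) ≤ ((RR p : ℕ) : ℤ) := by exact_mod_cast curve_RR p
  have hB := S.B_nonneg
  have hL := S.Lc_nonneg (S.δ i a)
  have h0 : S.Lc (S.δ i a) < (GG p).natDegree * S.deg a := by
    rw [GG_natDegree p]
    nlinarith
  obtain ⟨P, f, hf, hfG, h1⟩ := S.exists_simple (GG_sep p) hδa h0
  have h2 := (S.star_GG hst hf hfG P).2
  rw [h1] at h2
  have h3 : ∃ k, 0 < k ∧ w ^ (p ^ k) = w := by
    unfold NC at hw
    push Not at hw
    exact hw
  obtain ⟨k, hk, hwk⟩ := h3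
  have h4 : (ev f w) ^ (p ^ k) = ev f w := by
    rw [← ev_frob, hwk]
  rw [S.ord_alg hk h4 P] at h2
  have h5 := Int.le_of_dvd one_pos (h2 (dvd_zero _))
  have h6 : (2 : ℤ) ≤ ((ee p : ℕ) : ℤ) := by exact_mod_cast ee_ge p
  linarith

end PF

end UDV
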