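import Pool.Agent.UDV.Abc

/-!
# UDV: decoding, first part

PROOF of `dec_bound`.  Put `n = deg w`, `m = deg x`, `w`, `x` are `NC`, so `w, 1 - w ≠ 0`.
If `ord P x = 0` then `N ∣ p ^ l * ord P w`, so `N ∣ ord P w` (`N` is coprime to `p`).  Hence
`{ord P w ≠ 0} ⊆ {ord P x ≠ 0} ∪ {0 < ord P w, N ∣ ord P w} ∪ {ord P w < 0, N ∣ ord P w}` and
`6 * cnt (ord P w ≠ 0) ≤ 6 * 2 m + n + n` (`cnt_ne_le`, `cnt_mult_le`, `cnt_mult_neg_le`,
`6 ≤ N`, `cnt_mono`, `cnt_or_le`).  Similarly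
`6 * cnt (0 < ord P (1 - w)) ≤ 6 * 2 * deg (1 - x) + deg (1 - w) = 12 m + n`.
`abc`: `6 n ≤ 24 m + 3 n + 6 B`, so `n ≤ 8 m + 2 B`.

PROOF of `same_div`.  `W`, `1 - W`, `x`, `1 - x` are nonzero.  `c = x / W` and
`c' = (1 - x) / (1 - W)` have `ord P = 0` for all `P` and `c W + c' (1 - W) = 1`, i.e.
`(c - c') W = 1 - c'`.  If `c ≠ c'`: `0 ≤ ord P (c - c')` for all `P` (`ord_add_ge`), so by the
product formula (a sum of nonnegative terms is zero; or `deg (c - c') = 0` and `abs_ord_le`)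
`ord P (c - c') = 0` for all `P`; `1 - c' = (c - c') W ≠ 0` and in the same way
`ord P (1 - c') = 0`.  So `ord P W = 0` for all `P`, contradicting `NC` (`deg_pos_of_NC`, `deg` is
then `0`).  So `c = c'` and `0 = 1 - c'`, `c = 1`, `x = W`.
-/

open Polynomial

namespace UDV

universe u

namespace PF

variable {p : ℕ} {L : Type u} [Field L] (S : PF p L)

theorem decA_ne_zero [Fact p.Prime] {x : L} (hx : NC p x) : x ≠ 0 := by
  rintro rfl
  exact hx 1 one_pos (zero_pow (pow_ne_zero _ (Fact.out : p.Prime).ne_zero))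

theorem decA_one_sub_ne_zero [Fact p.Prime] {x : L} (hx : NC p x) : 1 - x ≠ 0 := by
  intro h
  have h1 : x = 1 := (sub_eq_zero.mp h).symm
  exact hx 1 one_pos (by rw [h1, one_pow])

theorem dec_bound [Fact p.Prime] [CharP L p] {x w : L} (hx : NC p x) {i : Fin S.d}
    (hδ : S.δ i w ≠ 0) {N N' l : ℕ} (hN : 6 ≤ N) (hN' : 6 ≤ N') (hNp : Nat.Coprime N p)
    (hNp' : Nat.Coprime N' p)
    (h : ∀ P, (N : ℤ) ∣ (p : ℤ) ^ l * S.ord P w - S.ord P x)
    (h' : ∀ P, (N' : ℤ) ∣ (p : ℤ) ^ l * S.ord P (1 - w) - S.ord P (1 - x)) :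
    S.deg w ≤ 8 * S.deg x + 2 * S.B := by
  have hw : NC p w := S.nc_of_delta hδ
  have hw0 := decA_ne_zero hw
  have hw1 := decA_one_sub_ne_zero hw
  have hx0 := decA_ne_zero hx
  have hx1 := decA_one_sub_ne_zero hx
  have hcop : ∀ (M : ℕ), Nat.Coprime M p → ∀ a b : ℤ, (M : ℤ) ∣ (p : ℤ) ^ l * a - b → b = 0 →
      (M : ℤ) ∣ a := by
    intro M hM a b hab hb
    rw [hb, sub_zero] at hab
    have hc : IsCoprime (M : ℤ) ((p : ℤ) ^ l) := by
      apply IsCoprime.pow_right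
      exact Nat.isCoprime_iff_coprime.mpr hM
    exact hc.dvd_of_dvd_mul_left hab
  -- finiteness
  have fx : {P | S.ord P x ≠ 0}.Finite := S.fin hx0
  have fx1 : {P | S.ord P (1 - x) ≠ 0}.Finite := S.fin hx1
  have fw : {P | S.ord P w ≠ 0}.Finite := S.fin hw0
  have fw1 : {P | S.ord P (1 - w) ≠ 0}.Finite := S.fin hw1
  have f1 : {P | 0 < S.ord P w ∧ (N : ℤ) ∣ S.ord P w}.Finite :=
    fw.subset fun P hP => (ne_of_gt hP.1)
  have f2 : {P | S.ord P w < 0 ∧ (N : ℤ) ∣ S.ord P w}.Finite :=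
    fw.subset fun P hP => (ne_of_lt hP.1)
  have f3 : {P | 0 < S.ord P (1 - w) ∧ (N' : ℤ) ∣ S.ord P (1 - w)}.Finite :=
    fw1.subset fun P hP => (ne_of_gt hP.1)
  have f12 : {P | (0 < S.ord P w ∧ (N : ℤ) ∣ S.ord P w) ∨
      (S.ord P w < 0 ∧ (N : ℤ) ∣ S.ord P w)}.Finite := f1.union f2
  have f012 : {P | S.ord P x ≠ 0 ∨ ((0 < S.ord P w ∧ (N : ℤ) ∣ S.ord P w) ∨
      (S.ord P w < 0 ∧ (N : ℤ) ∣ S.ord P w))}.Finite := fx.union f12
  have f13 : {P | S.ord P (1 - x) ≠ 0 ∨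
      (0 < S.ord P (1 - w) ∧ (N' : ℤ) ∣ S.ord P (1 - w))}.Finite := fx1.union f3
  -- first count
  have c1 : S.cnt (fun P => S.ord P w ≠ 0) ≤ S.cnt (fun P => S.ord P x ≠ 0) +
      (S.cnt (fun P => 0 < S.ord P w ∧ (N : ℤ) ∣ S.ord P w) +
        S.cnt (fun P => S.ord P w < 0 ∧ (N : ℤ) ∣ S.ord P w)) := by
    refine (S.cnt_mono f012 (fun P hP => ?_)).trans ((S.cnt_or_le fx f12).trans ?_)
    · by_cases h0 : S.ord P x = 0
      · right
        have hd := hcop N hNp _ _ (h P) h0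
        rcases lt_or_gt_of_ne hP with h1 | h1
        · exact Or.inr ⟨h1, hd⟩
        · exact Or.inl ⟨h1, hd⟩
      · exact Or.inl h0
    · have := S.cnt_or_le f1 f2
      linarith
  have c2 : S.cnt (fun P => 0 < S.ord P (1 - w)) ≤ S.cnt (fun P => S.ord P (1 - x) ≠ 0) +
      S.cnt (fun P => 0 < S.ord P (1 - w) ∧ (N' : ℤ) ∣ S.ord P (1 - w)) := by
    refine (S.cnt_mono f13 (fun P hP => ?_)).trans (S.cnt_or_le fx1 f3)
    by_cases h0 : S.ord P (1 - x) = 0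
    · right
      exact ⟨hP, hcop N' hNp' _ _ (h' P) h0⟩
    · exact Or.inl h0
  have e1 := S.cnt_mult_le hw0 N (by omega)
  have e2 := S.cnt_mult_neg_le w N (by omega)
  have e3 := S.cnt_mult_le hw1 N' (by omega)
  have n1 := S.cnt_nonneg (fun P => 0 < S.ord P w ∧ (N : ℤ) ∣ S.ord P w)
  have n2 := S.cnt_nonneg (fun P => S.ord P w < 0 ∧ (N : ℤ) ∣ S.ord P w)
  have n3 := S.cnt_nonneg (fun P => 0 < S.ord P (1 - w) ∧ (N' : ℤ) ∣ S.ord P (1 - w))
  have e4 := S.cnt_ne_le x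
  have e5 := S.cnt_ne_le (1 - x)
  have e6 := S.abc hδ
  have hN6 : (6 : ℤ) ≤ (N : ℤ) := by exact_mod_cast hN
  have hN6' : (6 : ℤ) ≤ (N' : ℤ) := by exact_mod_cast hN'
  have g1 := mul_le_mul_of_nonneg_right hN6 n1
  have g2 := mul_le_mul_of_nonneg_right hN6 n2
  have g3 := mul_le_mul_of_nonneg_right hN6' n3
  rw [S.deg_one_sub] at e3 e5
  linarith

/-- an element without poles and with nonnegative orders has order zero everywhere -/
theorem decA_ord_eq_zero {x : L} (h : ∀ P, x = 0 ∨ 0 ≤ S.ord P x) (P : S.I) :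
    S.ord P x = 0 := by
  have h0 : ∀ P, 0 ≤ S.ord P x := by
    intro P
    rcases h P with h1 | h1
    · rw [h1, S.ord_zero]
    · exact h1
  have hd : S.deg x = 0 := by
    unfold deg
    rw [finsum_eq_zero_of_forall_eq_zero]
    intro P
    rw [max_eq_left (neg_nonpos.mpr (h0 P)), mul_zero]
  have h1 := S.abs_ord_le P x
  rw [hd] at h1
  exact abs_eq_zero.mp (le_antisymm h1 (abs_nonneg _))

theorem same_div [Fact p.Prime] {x W : L} (hx : NC p x) (hW : NC p W)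
    (h : ∀ P, S.ord P x = S.ord P W) (h' : ∀ P, S.ord P (1 - x) = S.ord P (1 - W)) : x = W := by
  have hW0 := decA_ne_zero hW
  have hW1 := decA_one_sub_ne_zero hW
  have hx0 := decA_ne_zero hx
  have hx1 := decA_one_sub_ne_zero hx
  obtain ⟨c, hc⟩ : ∃ c, c = x / W := ⟨_, rfl⟩
  obtain ⟨c', hc'⟩ : ∃ c', c' = (1 - x) / (1 - W) := ⟨_, rfl⟩
  have hc0 : c ≠ 0 := by rw [hc]; exact div_ne_zero hx0 hW0
  have hc0' : c' ≠ 0 := by rw [hc']; exact div_ne_zero hx1 hW1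
  have hcx : c * W = x := by rw [hc, div_mul_cancel₀ x hW0]
  have hcx' : c' * (1 - W) = 1 - x := by rw [hc', div_mul_cancel₀ (1 - x) hW1]
  have oc : ∀ P, S.ord P c = 0 := by
    intro P
    have e := S.ord_mul P hc0 hW0
    rw [hcx, h P] at e
    linarith
  have oc' : ∀ P, S.ord P c' = 0 := by
    intro P
    have e := S.ord_mul P hc0' hW1
    rw [hcx', h' P] at e
    linarith
  have hrel : (c - c') * W = 1 - c' := by
    linear_combination hcx + hcx'
  have o1 : ∀ P, S.ord P (c - c') = 0 := by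
    refine S.decA_ord_eq_zero fun P => ?_
    rw [sub_eq_add_neg]
    refine S.ord_add_ge P (Or.inr (oc P).ge) (Or.inr ?_)
    rw [S.ord_neg, oc' P]
  have o2 : ∀ P, S.ord P (1 - c') = 0 := by
    refine S.decA_ord_eq_zero fun P => ?_
    rw [sub_eq_add_neg]
    refine S.ord_add_ge P (Or.inr (S.ord_one P).ge) (Or.inr ?_)
    rw [S.ord_neg, oc' P]
  by_cases hcc : c - c' = 0
  · rw [hcc, zero_mul] at hrel
    have h1 : c' = 1 := (sub_eq_zero.mp hrel.symm).symm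
    rw [h1, sub_eq_zero] at hcc
    rw [hcc, one_mul] at hcx
    exact hcx.symm
  · exfalso
    have oW : ∀ P, S.ord P W = 0 := by
      intro P
      have e := S.ord_mul P hcc hW0
      rw [hrel, o1 P, o2 P, zero_add] at e
      exact e.symm
    have hpos := S.deg_pos_of_NC hW
    have hd : S.deg W = 0 := by
      unfold deg
      rw [finsum_eq_zero_of_forall_eq_zero]
      intro P
      rw [oW P, neg_zero, max_self, mul_zero]
    omega

end PF

end UDV
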