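import Pool.Agent.UDV.Good

/-!
# UDV: the simultaneous Frobenius relation is definable

PROOF of `ee_iff`.
(⇐) Given `s` take `z' = z ^ (p ^ s)`; `z' + w = (z + t) ^ (p ^ s)`, `SR_frob`.
(⇒) Write `δ = C.S.δ C.i₀`, all elements of `K` are mapped to `L` by `emb`.
`exists_good`: choose `c = g ^ k`, `k ≥ 1`, such that `c ^ p * δ x₀` is different from
`0`, `- δ t`, `- δ x` (the elements `g ^ k` are pairwise different because
`deg (g ^ k) = k * deg g`, `deg g > 0`; so `k ↦ (g ^ k) ^ p * δ x₀` is injective and a bad value is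
taken at most once).  Put `z₀ = c ^ p * x₀`, `δ z₀ = c ^ p * δ x₀`
(derivative of a `p`-th power is `0`), and `z = (g ^ N) ^ p + z₀`.  Then `δ z = δ z₀ ≠ 0`,
`δ (z + t) = δ z₀ + δ t ≠ 0`, `δ (z + x) ≠ 0` do not depend on `N`, while
`deg z ≥ p * N * deg g - deg z₀` (`deg_sub_le`-type inequality) is as large as we want, and
`deg (z + t) ≥ deg z - deg t`.
By `good_frob`: `z' = z ^ (p ^ s)`, `z' + w = (z + t) ^ (p ^ s₁)`, `z' + y = (z + x) ^ (p ^ s₂)`.
`frob_deg`: `s₁ = s` and `s₂ = s` and the claim follows: `w = (z + t) ^ (p ^ s) - z ^ (p ^ s) =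
t ^ (p ^ s)`.

PROOF of `frob_deg`.  If `s < s₁`: `z ^ (p ^ s₁) = w - t ^ (p ^ s₁) + z ^ (p ^ s)`, so
`p ^ s₁ * deg z ≤ deg w + p ^ s₁ * deg t + p ^ s * deg z` and, as `2 * p ^ s ≤ p ^ s₁`,
`p ^ s₁ * deg z ≤ 2 deg w + 2 p ^ s₁ deg t`, contradiction to `deg z > 2 (deg w + deg t)`.
If `s₁ < s`: `z ^ (p ^ s) = z ^ (p ^ s₁) + t ^ (p ^ s₁) - w`, similarly
`p ^ s * deg z ≤ 2 (p ^ s₁ deg t + deg w)`.
-/

open Polynomial

namespace UDV

universe u

variable {p : ℕ} [Fact p.Prime]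

namespace PF

variable {L : Type u} [Field L] (S : PF p L) [CharP L p]

theorem frob_deg {z t w : L} {s s₁ : ℕ} (h : z ^ (p ^ s) + w = (z + t) ^ (p ^ s₁))
    (hz : 2 * (S.deg w + S.deg t) < S.deg z) : s₁ = s := by
  have hp : 2 ≤ p := (Fact.out : p.Prime).two_le
  have hp0 : 0 < p := by omega
  rw [add_pow_char_pow] at h
  have hW := S.deg_nonneg w
  have hT := S.deg_nonneg t
  have hpow : ∀ a b : ℕ, a < b → 2 * ((p ^ a : ℕ) : ℤ) ≤ ((p ^ b : ℕ) : ℤ) := by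
    intro a b hab
    have h1 : p ^ (a + 1) ≤ p ^ b := Nat.pow_le_pow_right hp0 hab
    have h2 : 2 * p ^ a ≤ p ^ (a + 1) := by
      rw [pow_succ, mul_comm]
      exact Nat.mul_le_mul_left _ hp
    exact_mod_cast h2.trans h1
  have hpos : ∀ a : ℕ, (1 : ℤ) ≤ ((p ^ a : ℕ) : ℤ) := by
    intro a
    exact_mod_cast Nat.one_le_iff_ne_zero.2 (pow_ne_zero _ hp0.ne')
  rcases lt_trichotomy s₁ s with hlt | heq | hlt
  · exfalso
    have h1 : z ^ (p ^ s) = (z ^ (p ^ s₁) + t ^ (p ^ s₁)) + -w := by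
      rw [← h]
      ring
    have h2 : S.deg (z ^ (p ^ s)) ≤ S.deg (z ^ (p ^ s₁)) + S.deg (t ^ (p ^ s₁)) + S.deg w := by
      rw [h1]
      refine (S.deg_add_le _ _).trans ?_
      rw [S.deg_neg]
      have := S.deg_add_le (z ^ (p ^ s₁)) (t ^ (p ^ s₁))
      linarith
    rw [S.deg_pow, S.deg_pow, S.deg_pow] at h2
    have h3 := hpow _ _ hlt
    have h4 := hpos s₁
    have h5 := hpos s
    generalize ((p ^ s : ℕ) : ℤ) = a at *
    generalize ((p ^ s₁ : ℕ) : ℤ) = b at *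
    nlinarith [mul_nonneg (sub_nonneg.2 h3) (show 0 ≤ S.deg z by linarith),
      mul_nonneg (sub_nonneg.2 h5) hW, mul_nonneg (sub_nonneg.2 h3) hT,
      mul_pos (show 0 < a by linarith) (sub_pos.2 hz)]
  · exact heq
  · exfalso
    have h1 : z ^ (p ^ s₁) = (z ^ (p ^ s) + w) + -t ^ (p ^ s₁) := by
      rw [h]
      ring
    have h2 : S.deg (z ^ (p ^ s₁)) ≤ S.deg (z ^ (p ^ s)) + S.deg w + S.deg (t ^ (p ^ s₁)) := by
      rw [h1]
      refine (S.deg_add_le _ _).trans ?_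
      rw [S.deg_neg]
      have := S.deg_add_le (z ^ (p ^ s)) w
      linarith
    rw [S.deg_pow, S.deg_pow, S.deg_pow] at h2
    have h3 := hpow _ _ hlt
    have h4 := hpos s₁
    have h5 := hpos s
    generalize ((p ^ s : ℕ) : ℤ) = a at *
    generalize ((p ^ s₁ : ℕ) : ℤ) = b at *
    nlinarith [mul_nonneg (sub_nonneg.2 h3) (show 0 ≤ S.deg z by linarith),
      mul_nonneg (sub_nonneg.2 h4) hW, mul_pos (show 0 < b by linarith) (sub_pos.2 hz)]

end PF

variable {K : Type u} [Field K] [CharP K p]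

omit [Fact p.Prime] in
private theorem delta_pow {L : Type u} [Field L] [CharP L p] (δ : Derivation ℤ L L) (a : L) :
    δ (a ^ p) = 0 := by
  rw [Derivation.leibniz_pow, ← Nat.cast_smul_eq_nsmul L, CharP.cast_eq_zero, zero_smul]

theorem exists_good (C : Chart p K) {g : K} (hg : NC p g) (t x : K) (D : ℤ) :
    ∃ z : K, D < C.S.deg (C.emb z) ∧
      (C.S.δ C.i₀ (C.emb z) ≠ 0 ∧
        C.S.B + C.S.Lc (C.S.δ C.i₀ (C.emb z)) < C.S.deg (C.emb z)) ∧
      (C.S.δ C.i₀ (C.emb (z + t)) ≠ 0 ∧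
        C.S.B + C.S.Lc (C.S.δ C.i₀ (C.emb (z + t))) < C.S.deg (C.emb (z + t))) ∧
      (C.S.δ C.i₀ (C.emb (z + x)) ≠ 0 ∧
        C.S.B + C.S.Lc (C.S.δ C.i₀ (C.emb (z + x))) < C.S.deg (C.emb (z + x))) := by
  have := C.charP
  have hp : 2 ≤ p := (Fact.out : p.Prime).two_le
  set γ := C.emb g with hγ
  have hγNC : NC p γ := by
    intro n hn h
    apply hg n hn
    rw [hγ, ← map_pow] at h
    exact C.emb.injective h
  have hG : 0 < C.S.deg γ := C.S.deg_pos_of_NC hγNC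
  have hγ0 : γ ≠ 0 := by
    intro h
    rw [h, C.S.deg_zero] at hG
    exact lt_irrefl _ hG
  set δ := C.S.δ C.i₀ with hδ
  have hx₀ : δ (C.emb C.x₀) ≠ 0 := C.hx₀
  -- choose the power
  have hinj : Function.Injective fun k : ℕ => (γ ^ k) ^ p * δ (C.emb C.x₀) := by
    intro k l hkl
    have h1 : (γ ^ k) ^ p = (γ ^ l) ^ p := mul_right_cancel₀ hx₀ hkl
    have h2 := congrArg C.S.deg h1
    rw [C.S.deg_pow, C.S.deg_pow, C.S.deg_pow, C.S.deg_pow] at h2
    have h3 : (p : ℤ) ≠ 0 := by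
      have : (2 : ℤ) ≤ p := by exact_mod_cast hp
      linarith
    have h4 := mul_right_cancel₀ hG.ne' (mul_left_cancel₀ h3 h2)
    exact_mod_cast h4
  obtain ⟨k, hk⟩ := ((Set.toFinite ({-δ (C.emb t), -δ (C.emb x)} : Set C.L)).preimage
    hinj.injOn).exists_notMem
  set A := (γ ^ k) ^ p * δ (C.emb C.x₀) with hA
  have hA0 : A ≠ 0 := mul_ne_zero (pow_ne_zero _ (pow_ne_zero _ hγ0)) hx₀
  have hAt : A + δ (C.emb t) ≠ 0 := by
    intro h
    apply hk
    refine Set.mem_preimage.2 (Or.inl ?_)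
    exact eq_neg_of_add_eq_zero_left h
  have hAx : A + δ (C.emb x) ≠ 0 := by
    intro h
    apply hk
    refine Set.mem_preimage.2 (Or.inr ?_)
    exact eq_neg_of_add_eq_zero_left h
  -- the size
  set z₀ : K := (g ^ k) ^ p * C.x₀ with hz₀
  have n1 := C.S.deg_nonneg (C.emb z₀)
  have n2 := C.S.deg_nonneg (C.emb t)
  have n3 := C.S.deg_nonneg (C.emb x)
  have n4 := C.S.B_nonneg
  have n5 := C.S.Lc_nonneg A
  have n6 := C.S.Lc_nonneg (A + δ (C.emb t))
  have n7 := C.S.Lc_nonneg (A + δ (C.emb x))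
  have n8 := abs_nonneg D
  have n9 := le_abs_self D
  set M : ℤ := C.S.deg (C.emb z₀) + C.S.deg (C.emb t) + C.S.deg (C.emb x) + C.S.B + C.S.Lc A +
    C.S.Lc (A + δ (C.emb t)) + C.S.Lc (A + δ (C.emb x)) + |D| + 1 with hM
  have hM0 : 0 ≤ M := by linarith
  obtain ⟨N, hN⟩ := Int.eq_ofNat_of_zero_le hM0
  set z : K := (g ^ N) ^ p + z₀ with hz
  have ez₀ : C.emb z₀ = (γ ^ k) ^ p * C.emb C.x₀ := by
    rw [hz₀, map_mul, map_pow, map_pow]
  have ez : C.emb z = (γ ^ N) ^ p + C.emb z₀ := by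
    rw [hz, map_add, map_pow, map_pow]
  have dz₀ : δ (C.emb z₀) = A := by
    rw [ez₀, Derivation.leibniz, delta_pow, smul_zero, add_zero, smul_eq_mul]
  have dz : δ (C.emb z) = A := by
    rw [ez, map_add, delta_pow, zero_add, dz₀]
  have dzt : δ (C.emb (z + t)) = A + δ (C.emb t) := by
    rw [map_add, map_add, dz]
  have dzx : δ (C.emb (z + x)) = A + δ (C.emb x) := by
    rw [map_add, map_add, dz]
  have hdz : M - C.S.deg (C.emb z₀) ≤ C.S.deg (C.emb z) := by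
    have h1 : (γ ^ N) ^ p = C.emb z + -C.emb z₀ := by
      rw [ez]
      ring
    have h2 := C.S.deg_add_le (C.emb z) (-C.emb z₀)
    rw [← h1, C.S.deg_neg, C.S.deg_pow, C.S.deg_pow] at h2
    have h3 : M ≤ (p : ℤ) * ((N : ℤ) * C.S.deg γ) := by
      have h4 : (1 : ℤ) ≤ p := by exact_mod_cast (by omega : 1 ≤ p)
      have h5 : (0 : ℤ) ≤ N := Int.natCast_nonneg N
      have h6 : (N : ℤ) ≤ N * C.S.deg γ := le_mul_of_one_le_right h5 hG
      have h7 : (N : ℤ) * C.S.deg γ ≤ p * (N * C.S.deg γ) :=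
        le_mul_of_one_le_left (h5.trans h6) h4
      calc M = N := hN
        _ ≤ _ := h6.trans h7
    linarith
  have hdt : C.S.deg (C.emb z) ≤ C.S.deg (C.emb (z + t)) + C.S.deg (C.emb t) := by
    have h1 : C.emb z = C.emb (z + t) + -C.emb t := by
      rw [map_add C.emb z t, add_neg_cancel_right]
    have h2 := C.S.deg_add_le (C.emb (z + t)) (-C.emb t)
    rwa [← h1, C.S.deg_neg] at h2
  have hdx : C.S.deg (C.emb z) ≤ C.S.deg (C.emb (z + x)) + C.S.deg (C.emb x) := by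
    have h1 : C.emb z = C.emb (z + x) + -C.emb x := by
      rw [map_add C.emb z x, add_neg_cancel_right]
    have h2 := C.S.deg_add_le (C.emb (z + x)) (-C.emb x)
    rwa [← h1, C.S.deg_neg] at h2
  refine ⟨z, by linarith, ⟨?_, ?_⟩, ⟨?_, ?_⟩, ⟨?_, ?_⟩⟩
  · rw [dz]
    exact hA0
  · rw [dz]
    linarith
  · rw [dzt]
    exact hAt
  · rw [dzt]
    linarith
  · rw [dzx]
    exact hAx
  · rw [dzx]
    linarith

theorem ee_iff (C : Chart p K) {g : K} (hg : NC p g) (t w x y : K) :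
    (∀ z : K, ∃ z' : K, SR p z z' ∧ SR p (z + t) (z' + w) ∧ SR p (z + x) (z' + y)) ↔
      EE p t w x y := by
  constructor
  · intro h
    have := C.charP
    obtain ⟨z, hz0, ⟨hz1, hz2⟩, ⟨ht1, ht2⟩, ⟨hx1, hx2⟩⟩ := exists_good C hg t x
      (2 * (C.S.deg (C.emb w) + C.S.deg (C.emb t)) +
        2 * (C.S.deg (C.emb y) + C.S.deg (C.emb x)))
    obtain ⟨z', h1, h2, h3⟩ := h z
    obtain ⟨s, rfl⟩ := good_frob C hz1 hz2 h1
    obtain ⟨s₁, hs₁⟩ := good_frob C ht1 ht2 h2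
    obtain ⟨s₂, hs₂⟩ := good_frob C hx1 hx2 h3
    have n1 := C.S.deg_nonneg (C.emb w)
    have n2 := C.S.deg_nonneg (C.emb t)
    have n3 := C.S.deg_nonneg (C.emb y)
    have n4 := C.S.deg_nonneg (C.emb x)
    have e1 : s₁ = s := by
      refine C.S.frob_deg (z := C.emb z) (t := C.emb t) (w := C.emb w) ?_ (by linarith)
      rw [← map_pow, ← map_add, ← map_add, ← map_pow, hs₁]
    have e2 : s₂ = s := by
      refine C.S.frob_deg (z := C.emb z) (t := C.emb x) (w := C.emb y) ?_ (by linarith)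
      rw [← map_pow, ← map_add, ← map_add, ← map_pow, hs₂]
    rw [e1, add_pow_char_pow] at hs₁
    rw [e2, add_pow_char_pow] at hs₂
    exact ⟨s, add_left_cancel hs₁, add_left_cancel hs₂⟩
  · rintro ⟨s, rfl, rfl⟩ z
    refine ⟨z ^ (p ^ s), SR_frob p z s, ?_, ?_⟩
    · rw [← add_pow_char_pow]
      exact SR_frob p (z + t) s
    · rw [← add_pow_char_pow]
      exact SR_frob p (z + x) s

end UDV
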