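import Pool.Agent.UDV.Base

/-!
# UDV: the definable relations (semantic definitions)

Numbers `s` are coded by the elements `t ^ (p ^ s)`, where `t` is transcendental.
-/

namespace UDV

universe u

section

variable (p : ℕ) {K : Type u} [Field K]

/-- `σ` codes a prime number -/
def Pr (t σ : K) : Prop := NC p t ∧ ∃ s : ℕ, s.Prime ∧ σ = t ^ (p ^ s)

def Lt (t σ τ : K) : Prop := NC p t ∧ ∃ s s' : ℕ, s < s' ∧ σ = t ^ (p ^ s) ∧ τ = t ^ (p ^ s')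

def Le (t σ τ : K) : Prop := NC p t ∧ ∃ s s' : ℕ, s ≤ s' ∧ σ = t ^ (p ^ s) ∧ τ = t ^ (p ^ s')

/-- `τ` codes the next prime after `σ` -/
def Np (t σ τ : K) : Prop :=
  NC p t ∧ ∃ s s' : ℕ, σ = t ^ (p ^ s) ∧ τ = t ^ (p ^ s') ∧ s < s' ∧ s'.Prime ∧
    ∀ q, s < q → q < s' → ¬ q.Prime

/-- `x` and `y` are congruent modulo `nn p s`-th powers and constants of the prime field -/
def Cg (t σ x y : K) : Prop :=
  NC p t ∧ x ≠ 0 ∧ y ≠ 0 ∧ ∃ s : ℕ, σ = t ^ (p ^ s) ∧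
    ∃ z : K, z ≠ 0 ∧ x ^ p * y * z = x * y ^ p * z ^ (p ^ s)

/-- `x` is decoded from the codes `b`, `b'` at the numbers `σ`, `σ'` -/
def Dec (t σ σ' b b' x : K) : Prop :=
  NC p x ∧ Cg p t σ b x ∧ Cg p t σ' b' (1 - x) ∧
    ∀ x' : K, NC p x' → Cg p t σ b x' → Cg p t σ' b' (1 - x') → Phi p x x'

/-- `a` codes the pair `c`, `c'` -/
def Pair (a c c' : K) : Prop :=
  ∃ β : K, NC p β ∧ Phi p β a ∧ (∀ z : K, Phi p z β → z = β) ∧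
    ∃ σ₁ σ₂ σ₃ σ₄ : K, Np p β a σ₁ ∧ Np p β σ₁ σ₂ ∧ Np p β σ₂ σ₃ ∧ Np p β σ₃ σ₄ ∧
      Dec p β σ₁ σ₂ β β c ∧ Dec p β σ₃ σ₄ β β c'

/-- `g` belongs to the finite set coded by `b`, `b'` between `A` and `B` -/
def Gen (t b b' A B g : K) : Prop :=
  ∃ σ : K, Pr p t σ ∧ Lt p t A σ ∧ Le p t σ B ∧ Dec p t σ σ b b' g

/-- `c` is the entry at `σ` of the sequence coded by `d`, `d'` between `A'` and `B'` -/
def Ent (t d d' A' B' σ c : K) : Prop :=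
  Pr p t σ ∧ Lt p t A' σ ∧ Le p t σ B' ∧ ∃ y : K, y * t = c * t + 1 ∧ Dec p t σ σ d d' y

/-- the rule for the entries of a derivation -/
def Rule (t b b' A B d d' A' B' σ c : K) : Prop :=
  c = 1 ∨ Gen p t b b' A B c ∨ ∃ σ₁ σ₂ c₁ c₂ : K, Lt p t σ₁ σ ∧ Lt p t σ₂ σ ∧
    Ent p t d d' A' B' σ₁ c₁ ∧ Ent p t d d' A' B' σ₂ c₂ ∧ (c = c₁ + c₂ ∨ c = c₁ * c₂)

/-- `d`, `d'`, `A'`, `B'` code a derivation -/
def Drv (t b b' A B d d' A' B' : K) : Prop :=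
  ∀ σ : K, Pr p t σ → Lt p t A' σ → Le p t σ B' →
    ∃ c : K, Ent p t d d' A' B' σ c ∧ Rule p t b b' A B d d' A' B' σ c

/-- `x` belongs to the ring generated by the finite set coded by `b`, `b'`, `A`, `B` -/
def Mem (t b b' A B x : K) : Prop :=
  ∃ d d' A' B' : K, Drv p t b b' A B d d' A' B' ∧ ∃ σ : K, Ent p t d d' A' B' σ x

/-- `x` belongs to the localization at the prime generated by `t` -/
def Val (t b b' A B x : K) : Prop :=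
  ∃ c : K, Mem p t b b' A B c ∧ Mem p t b b' A B (c * x) ∧ ¬ ∃ y : K, Mem p t b b' A B y ∧ y * t = c

/-- the final relation with one parameter -/
def Fnl (x a : K) : Prop :=
  ∃ a₂ a₃ a₄ c₁ c₂ c₃ c₄ c₅ : K, Pair p a c₁ a₂ ∧ Pair p a₂ c₂ a₃ ∧ Pair p a₃ c₃ a₄ ∧
    Pair p a₄ c₄ c₅ ∧ Val p c₁ c₂ c₃ c₄ c₅ x

end

end UDV
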