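import Pool.Agent.UDV.Calc
import Pool.Agent.UDV.Rel
import Pool.Agent.UDV.EEiff
import Pool.Agent.UDV.ChartEx

/-!
# UDV: definability of the Frobenius relations

All relations are used with `p = ringChar K` (in a good field `ringChar K` is the prime `p` with
`CharP K p`; `ringChar.eq`).

PROOFS.
* `ud_char`: for a natural number `q ≥ 1`... the sentence `(q : K) = 0` says `ringChar K ∣ q`; for a
  prime `q` it says `ringChar K = q` (in good fields `ringChar K` is prime).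
* `ud_SR`: by `ud_char`, case distinction `ringChar K = 2`, `= 3`, `= 5`, or none of these.
  For fixed `q` the relation `SR q a b` is definable: finite disjunction over `u ∈ range (ee q)`,
  `u ≥ 1`, finite conjunction over `f ∈ FS q` (`UD.finOr`, `UD.finAnd`), `UD.ex`, `UD.eq` with
  `TT.int`, `TT.pow`.  If `ringChar K ∉ {2,3,5}` is prime then it is `≥ 7`, and
  `FS p = FS 7`, `ee p = ee 7`, so `SR p = SR 7`.
* `ud_EE`: `ee_iff` with the chart of `exists_chart`: `EE` is equivalent to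
  `∀ z ∃ z', SR z z' ∧ SR (z + t) (z' + w) ∧ SR (z + x) (z' + y)`.
* `ud_Phi`: `Phi p x y ↔ EE p x y x y`.
* `ud_NC`: `NC p x ↔ ∃ y, Phi x y ∧ ¬ Phi y x`: if `x` is `NC` take `y = x ^ p`
  (`Phi (x ^ p) x` means `x = x ^ (p ^ (s + 1))`); if `x ^ (p ^ n) = x`, `n > 0` and
  `y = x ^ (p ^ s)` then `x = x ^ (p ^ (n (s+1)))= y ^ (p ^ (n (s + 1) - s))`.
* `ud_Frob`: for `NC` elements `t`: `τ = t ^ p` iff
  `Phi t τ ∧ τ ≠ t ∧ ∀ y, Phi t y → y ≠ t → Phi τ y` (if the right side holds, `τ = t ^ (p ^ s)`,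
  `s ≥ 1`, and `Phi τ (t ^ p)` gives `t ^ p = t ^ (p ^ (s + s'))`, so `s + s' = 1`).
  Then `y = x ^ p` iff `∃ t τ, NC t ∧ τ = t ^ p ∧ EE t τ x y`
  (the exponent `s` in `EE` is determined by `t ^ p = t ^ (p ^ s)`, `s = 1`).
-/

open Polynomial

namespace UDV

universe u

/-! ### Auxiliary lemmas -/

section subst

variable (f g h k : ∀ (K : Type u) [Field K], (ℕ → K) → K)

/-- Two terms. -/
private noncomputable def s2 (i : ℕ) : ∀ (K : Type u) [Field K], (ℕ → K) → K :=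
  Nat.casesOn i f (fun _ => g)

/-- Four terms. -/
private noncomputable def s4 (i : ℕ) : ∀ (K : Type u) [Field K], (ℕ → K) → K :=
  Nat.casesOn i f (fun i => Nat.casesOn i g (fun i => Nat.casesOn i h (fun _ => k)))

variable {f g h k}

private theorem tt_s2 (hf : TT f) (hg : TT g) (i : ℕ) : TT (s2 f g i) := by
  rcases i with _ | i
  · exact hf
  · exact hg

private theorem tt_s4 (hf : TT f) (hg : TT g) (hh : TT h) (hk : TT k) (i : ℕ) :
    TT (s4 f g h k i) := by
  rcases i with _ | _ | _ | i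
  · exact hf
  · exact hg
  · exact hh
  · exact hk

end subst

private theorem nc_inj {p : ℕ} [Fact p.Prime] {K : Type u} [Field K] [CharP K p] {t : K}
    (ht : NC p t) {a b : ℕ} (h : t ^ (p ^ a) = t ^ (p ^ b)) : a = b := by
  have key : ∀ {a b : ℕ}, a ≤ b → t ^ (p ^ a) = t ^ (p ^ b) → a = b := by
    intro a b hab h
    by_contra hne
    have h1 : t ^ (p ^ b) = (t ^ (p ^ (b - a))) ^ (p ^ a) := by
      rw [← pow_mul, ← pow_add]
      congr 2
      omega
    rw [h1] at h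
    have h2 : (t ^ (p ^ (b - a)) - t) ^ (p ^ a) = 0 := by
      rw [sub_pow_char_pow, h, sub_self]
    have h3 := pow_eq_zero_iff (pow_ne_zero a (Nat.Prime.ne_zero (Fact.out : p.Prime))) |>.1 h2
    exact ht (b - a) (by omega) (sub_eq_zero.1 h3)
  rcases le_total a b with hab | hab
  · exact key hab h
  · exact (key hab h.symm).symm

private theorem nc_iff {p : ℕ} [Fact p.Prime] {K : Type u} [Field K] [CharP K p] {x : K} :
    (∃ y, Phi p x y ∧ ¬ Phi p y x) ↔ NC p x := by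
  constructor
  · rintro ⟨y, ⟨s, rfl⟩, hn⟩ n hn0 hx
    apply hn
    have h1 : ∀ j : ℕ, x ^ (p ^ (n * j)) = x := by
      intro j
      induction j with
      | zero => simp
      | succ j ih => rw [Nat.mul_succ, pow_add, pow_mul, ih, hx]
    refine ⟨n * (s + 1) - s, ?_⟩
    have h2 : s ≤ n * (s + 1) := by nlinarith
    rw [← pow_mul, ← pow_add, Nat.add_sub_cancel' h2, h1]
  · intro hx
    refine ⟨x ^ (p ^ 1), ⟨1, rfl⟩, ?_⟩
    rintro ⟨s, hs⟩
    rw [← pow_mul, ← pow_add] at hs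
    exact hx (1 + s) (by omega) hs.symm

private theorem frob_char {p : ℕ} [Fact p.Prime] {K : Type u} [Field K] [CharP K p] {t τ : K}
    (ht : NC p t) : (Phi p t τ ∧ τ ≠ t ∧ ∀ y, Phi p t y → y ≠ t → Phi p τ y) ↔ τ = t ^ p := by
  constructor
  · rintro ⟨⟨s, rfl⟩, hne, hy⟩
    obtain ⟨s', hs'⟩ := hy (t ^ (p ^ 1)) ⟨1, rfl⟩ (ht 1 one_pos)
    rw [← pow_mul, ← pow_add] at hs'
    have h1 := nc_inj ht hs'
    have h2 : s ≠ 0 := by
      rintro rfl
      exact hne (by simp)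
    have h3 : s = 1 := by omega
    rw [h3, pow_one]
  · rintro rfl
    have h1 : t ^ p ≠ t := by
      have := ht 1 one_pos
      rwa [pow_one] at this
    refine ⟨⟨1, by rw [pow_one]⟩, h1, ?_⟩
    rintro y ⟨s, rfl⟩ hy
    have h2 : s ≠ 0 := by
      rintro rfl
      exact hy (by simp)
    refine ⟨s - 1, ?_⟩
    rw [← pow_mul, ← pow_succ']
    congr 2
    omega

private theorem frob_iff {p : ℕ} [Fact p.Prime] {K : Type u} [Field K] [CharP K p]
    (hg : ∃ g : K, NC p g) {x y : K} :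
    (∃ t τ : K, NC p t ∧ (Phi p t τ ∧ τ ≠ t ∧ ∀ y, Phi p t y → y ≠ t → Phi p τ y) ∧
      EE p t τ x y) ↔ y = x ^ p := by
  constructor
  · rintro ⟨t, τ, ht, h1, s, hs, rfl⟩
    rw [frob_char ht] at h1
    have h2 : t ^ (p ^ 1) = t ^ (p ^ s) := by rw [pow_one, ← h1, hs]
    rw [← nc_inj ht h2, pow_one]
  · rintro rfl
    obtain ⟨t, ht⟩ := hg
    exact ⟨t, t ^ p, ht, (frob_char ht).2 rfl, 1, by rw [pow_one], by rw [pow_one]⟩

private theorem tt_int (n : ℤ) : TT.{u} (fun _ _ _ => (n : _)) := by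
  have h := TT.int TT.zero.{u} (C n)
  have h1 : (fun (K : Type u) [Field K] (_ : ℕ → K) => aeval (0 : K) (C n : ℤ[X])) =
      fun (K : Type u) [Field K] (_ : ℕ → K) => (n : K) := by
    funext K _ v
    rw [aeval_C]
    rfl
  rw [h1] at h
  exact h

private theorem ud_SRq (q : ℕ) : UD.{u} (fun K _ v => SR q (v 0) (v 1)) := by
  have h1 : ∀ u ∈ Finset.Ico 1 (ee q), UD.{u} (fun K _ v => ∀ f ∈ FS q, ∃ y : K, y ≠ 0 ∧
      aeval (v 1) f = (aeval (v 0) f) ^ u * y ^ (ee q)) := by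
    intro m _
    refine UD.finAnd (FS q) fun f _ => ?_
    have h2 : UD.{u} (fun K _ v => ¬ (v 2 = 0) ∧
        aeval (v 1) f = (aeval (v 0) f) ^ m * (v 2) ^ (ee q)) :=
      ((UD.eq (TT.var 2) TT.zero).not).and (UD.eq ((TT.var 1).int f)
        ((((TT.var 0).int f).pow m).mul ((TT.var 2).pow (ee q))))
    refine (h2.ex 2).congr fun K _ _ v => ?_
    simp
  refine (UD.finOr (Finset.Ico 1 (ee q)) h1).congr fun K _ _ v => ?_
  unfold SR
  simp only [Finset.mem_Ico, and_assoc]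

private theorem prime_ge {p : ℕ} (hp : p.Prime) (h2 : p ≠ 2) (h3 : p ≠ 3) (h5 : p ≠ 5) :
    ¬ p < 7 := by
  intro h
  interval_cases p <;> first | omega | (revert hp; decide)

private theorem FS_ge {p : ℕ} (h : ¬ p < 7) : FS p = FS 7 := by
  unfold FS
  rw [if_neg h, if_neg (by omega)]

private theorem ee_ge' {p : ℕ} (h : ¬ p < 7) : ee p = ee 7 := by
  unfold ee
  rw [if_neg (by omega), if_neg (by omega)]

private theorem SR_ge {p : ℕ} (h : ¬ p < 7) {K : Type u} [Field K] (a b : K) :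
    SR p a b ↔ SR 7 a b := by
  unfold SR
  rw [FS_ge h, ee_ge' h]

theorem Good.facts {K : Type u} [Field K] (h : Good K) :
    Fact (ringChar K).Prime ∧ CharP K (ringChar K) ∧
      (∃ s : Finset K, Subfield.closure (s : Set K) = ⊤) ∧ ∃ g : K, NC (ringChar K) g := by
  obtain ⟨p, hp, hchar, hfg, g, hg⟩ := h
  have h1 : ringChar K = p := ringChar.eq_iff.2 hchar
  rw [h1]
  exact ⟨⟨hp⟩, hchar, hfg, g, hg⟩

theorem ud_char (q : ℕ) (hq : q.Prime) : UD.{u} (fun K _ _ => ringChar K = q) := by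
  have h1 := UD.eq (tt_int.{u} (q : ℤ)) TT.zero
  refine h1.congr fun K _ hK v => ?_
  obtain ⟨hp, hchar, -, -⟩ := hK.facts
  have h2 : (((q : ℤ) : K) = 0) ↔ ringChar K ∣ q := by
    rw [Int.cast_natCast]
    exact CharP.cast_eq_zero_iff K (ringChar K) q
  refine h2.trans ?_
  exact Nat.prime_dvd_prime_iff_eq hp.out hq

theorem ud_SR {f g : ∀ (K : Type u) [Field K], (ℕ → K) → K} (hf : TT f) (hg : TT g) :
    UD (fun K _ v => SR (ringChar K) (f K v) (g K v)) := by
  have h0 : UD.{u} (fun K _ v => SR (ringChar K) (v 0) (v 1)) := by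
    have h1 := ((ud_char.{u} 2 (by norm_num)).and (ud_SRq 2)).or
      (((ud_char.{u} 3 (by norm_num)).and (ud_SRq 3)).or
        (((ud_char.{u} 5 (by norm_num)).and (ud_SRq 5)).or
          (((ud_char.{u} 2 (by norm_num)).not.and
            ((ud_char.{u} 3 (by norm_num)).not.and (ud_char.{u} 5 (by norm_num)).not)).and
              (ud_SRq 7))))
    refine h1.congr fun K _ hK v => ?_
    obtain ⟨hp, hchar, -, -⟩ := hK.facts
    by_cases h2 : ringChar K = 2
    · simp [h2]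
    · by_cases h3 : ringChar K = 3
      · simp [h3]
      · by_cases h5 : ringChar K = 5
        · simp [h5]
        · have h7 := prime_ge hp.out h2 h3 h5
          rw [SR_ge h7]
          simp [h2, h3, h5]
  exact UD.subst (tt_s2 hf hg) h0

theorem ud_EE {f g h k : ∀ (K : Type u) [Field K], (ℕ → K) → K} (hf : TT f) (hg : TT g)
    (hh : TT h) (hk : TT k) :
    UD (fun K _ v => EE (ringChar K) (f K v) (g K v) (h K v) (k K v)) := by
  have h0 : UD.{u} (fun K _ v => EE (ringChar K) (v 0) (v 1) (v 2) (v 3)) := by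
    have h1 := (ud_SR (TT.var 4) (TT.var.{u} 5)).and
      ((ud_SR ((TT.var 4).add (TT.var 0)) ((TT.var.{u} 5).add (TT.var 1))).and
        (ud_SR ((TT.var 4).add (TT.var 2)) ((TT.var.{u} 5).add (TT.var 3))))
    refine ((h1.ex 5).all 4).congr fun K _ hK v => ?_
    obtain ⟨hp, hchar, hfg, g, hg⟩ := hK.facts
    obtain ⟨C⟩ := exists_chart (ringChar K) K hfg hg
    rw [← ee_iff C hg]
    simp
  exact UD.subst (tt_s4 hf hg hh hk) h0

theorem ud_Phi {f g : ∀ (K : Type u) [Field K], (ℕ → K) → K} (hf : TT f) (hg : TT g) :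
    UD (fun K _ v => Phi (ringChar K) (f K v) (g K v)) := by
  refine (ud_EE hf hg hf hg).congr fun K _ _ v => ?_
  constructor
  · rintro ⟨s, h1, -⟩
    exact ⟨s, h1⟩
  · rintro ⟨s, h1⟩
    exact ⟨s, h1, h1⟩

theorem ud_NC {f : ∀ (K : Type u) [Field K], (ℕ → K) → K} (hf : TT f) :
    UD (fun K _ v => NC (ringChar K) (f K v)) := by
  have h0 : UD.{u} (fun K _ v => NC (ringChar K) (v 0)) := by
    have h1 := (ud_Phi (TT.var 0) (TT.var.{u} 1)).and (ud_Phi (TT.var 1) (TT.var.{u} 0)).not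
    refine (h1.ex 1).congr fun K _ hK v => ?_
    obtain ⟨hp, hchar, -, -⟩ := hK.facts
    rw [← nc_iff]
    simp
  exact UD.subst (tt_s2 hf hf) h0

theorem ud_Frob {f g : ∀ (K : Type u) [Field K], (ℕ → K) → K} (hf : TT f) (hg : TT g) :
    UD (fun K _ v => g K v = f K v ^ ringChar K) := by
  have h0 : UD.{u} (fun K _ v => v 1 = v 0 ^ ringChar K) := by
    have h1 := (ud_Phi (TT.var 2) (TT.var.{u} 4)).imp
      ((UD.eq (TT.var 4) (TT.var.{u} 2)).not.imp (ud_Phi (TT.var 3) (TT.var.{u} 4)))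
    have h2 := (ud_NC (TT.var.{u} 2)).and
      (((ud_Phi (TT.var 2) (TT.var.{u} 3)).and
        ((UD.eq (TT.var 3) (TT.var.{u} 2)).not.and (h1.all 4))).and
          (ud_EE (TT.var 2) (TT.var 3) (TT.var 0) (TT.var.{u} 1)))
    refine ((h2.ex 3).ex 2).congr fun K _ hK v => ?_
    obtain ⟨hp, hchar, -, hg⟩ := hK.facts
    rw [← frob_iff hg]
    simp
  exact UD.subst (tt_s2 hf hg) h0

end UDV
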