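import Pool.Agent.UDV.Base

/-!
# UDV: degrees in a product formula field

PROOFS.  All `finsum`s have finite support because `{P | ord P x ≠ 0}` is finite for `x ≠ 0`
(and `ord P 0 = 0`); `finsum_eq_sum_of_support_subset` turns them into sums over a finset.

* `ord_one`: `ord (1*1) = ord 1 + ord 1`.  `ord_neg_one`: `ord ((-1)*(-1)) = 0 = 2 ord (-1)`.
  `ord_inv`: from `x * x⁻¹ = 1` (and both are `0` for `x = 0`).
  `ord_pow`: induction (the case `x = 0`: both sides are `0`, also for `n = 0`, as `ord 1 = 0`).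
* `deg_zeros`: `max 0 (-a) = max 0 a - a` and the product formula.
-/

open Polynomial

namespace UDV

universe u

namespace PF

variable {p : ℕ} {L : Type u} [Field L] (S : PF p L)

theorem prod_finset {x : L} (hx : x ≠ 0) (T : Finset S.I) (hT : ∀ P, P ∉ T → S.ord P x = 0) :
    ∑ P ∈ T, (S.wt P : ℤ) * S.ord P x = 0 := by
  rw [← finsum_eq_sum_of_support_subset]
  · exact S.prod hx
  · intro P hP
    by_contra hPT
    apply hP
    have h := hT P (fun h => hPT (Finset.mem_coe.mpr h))
    simp only [h, mul_zero]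

theorem deg_finset (x : L) (T : Finset S.I) (hT : ∀ P, P ∉ T → S.ord P x = 0) :
    S.deg x = ∑ P ∈ T, (S.wt P : ℤ) * max 0 (-(S.ord P x)) := by
  unfold deg
  rw [finsum_eq_sum_of_support_subset]
  intro P hP
  by_contra hPT
  apply hP
  have h := hT P (fun h => hPT (Finset.mem_coe.mpr h))
  simp only [h, neg_zero, max_self, mul_zero]

theorem exists_finset (X : Finset L) : ∃ T : Finset S.I, ∀ x ∈ X, ∀ P, P ∉ T → S.ord P x = 0 := by
  classical
  induction X using Finset.induction_on with
  | empty => exact ⟨∅, fun x hx => absurd hx (Finset.notMem_empty x)⟩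
  | insert a X _ ih =>
    obtain ⟨T, hT⟩ := ih
    by_cases ha : a = 0
    · refine ⟨T, fun x hx P hP => ?_⟩
      rcases Finset.mem_insert.mp hx with h | h
      · rw [h, ha]; exact S.ord_zero P
      · exact hT x h P hP
    · refine ⟨T ∪ (S.fin ha).toFinset, fun x hx P hP => ?_⟩
      rw [Finset.mem_union, not_or] at hP
      rcases Finset.mem_insert.mp hx with h | h
      · have h2 := hP.2
        rw [Set.Finite.mem_toFinset, Set.mem_ofPred_eq, not_not] at h2
        rw [h]; exact h2
      · exact hT x h P hP.1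

theorem deg_nonneg (x : L) : 0 ≤ S.deg x := by
  unfold deg
  exact finsum_nonneg fun P => mul_nonneg (Int.natCast_nonneg _) (le_max_left _ _)

theorem deg_zero : S.deg 0 = 0 := by
  rw [S.deg_finset 0 ∅ (fun P _ => S.ord_zero P), Finset.sum_empty]

theorem deg_zeros {x : L} (hx : x ≠ 0) : S.deg x = ∑ᶠ P, (S.wt P : ℤ) * max 0 (S.ord P x) := by
  classical
  obtain ⟨T, hT⟩ := S.exists_finset {x}
  have hT' := hT x (Finset.mem_singleton_self x)
  rw [S.deg_finset x T hT', finsum_eq_sum_of_support_subset (s := T)]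
  · have h := S.prod_finset hx T hT'
    have h2 : ∑ P ∈ T, (S.wt P : ℤ) * S.ord P x = ∑ P ∈ T, ((S.wt P : ℤ) * max 0 (S.ord P x)
        - (S.wt P : ℤ) * max 0 (-(S.ord P x))) := by
      refine Finset.sum_congr rfl fun P _ => ?_
      rcases le_total 0 (S.ord P x) with h0 | h0
      · rw [max_eq_left (neg_nonpos.mpr h0), max_eq_right h0]; ring
      · rw [max_eq_right (neg_nonneg.mpr h0), max_eq_left h0]; ring
    rw [h2, Finset.sum_sub_distrib, sub_eq_zero] at h
    exact h.symm
  · intro P hP
    by_contra hPT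
    apply hP
    have h := hT' P (fun h => hPT (Finset.mem_coe.mpr h))
    simp only [h, max_self, mul_zero]

theorem ord_one (P : S.I) : S.ord P 1 = 0 := by
  have h := S.ord_mul P (one_ne_zero (α := L)) (one_ne_zero (α := L))
  rw [mul_one] at h
  linarith

theorem ord_neg_one (P : S.I) : S.ord P (-1) = 0 := by
  have h1 : (-1 : L) ≠ 0 := neg_ne_zero.mpr one_ne_zero
  have h := S.ord_mul P h1 h1
  rw [neg_mul_neg, mul_one, S.ord_one P] at h
  linarith

theorem ord_neg (P : S.I) (x : L) : S.ord P (-x) = S.ord P x := by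
  by_cases hx : x = 0
  · rw [hx, neg_zero]
  · have h1 : (-1 : L) ≠ 0 := neg_ne_zero.mpr one_ne_zero
    have h := S.ord_mul P h1 hx
    rw [neg_one_mul, S.ord_neg_one P, zero_add] at h
    exact h

theorem ord_inv (P : S.I) (x : L) : S.ord P x⁻¹ = -S.ord P x := by
  by_cases hx : x = 0
  · rw [hx, inv_zero, S.ord_zero P, neg_zero]
  · have h := S.ord_mul P hx (inv_ne_zero hx)
    rw [mul_inv_cancel₀ hx, S.ord_one P] at h
    linarith

theorem ord_pow (P : S.I) (x : L) (n : ℕ) : S.ord P (x ^ n) = n * S.ord P x := by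
  by_cases hx : x = 0
  · rw [hx, S.ord_zero P, mul_zero]
    rcases Nat.eq_zero_or_pos n with h | h
    · rw [h, pow_zero, S.ord_one P]
    · rw [zero_pow h.ne', S.ord_zero P]
  · induction n with
    | zero => rw [pow_zero, S.ord_one P]; simp
    | succ n ih =>
      rw [pow_succ, S.ord_mul P (pow_ne_zero n hx) hx, ih]
      push_cast
      ring

/-- variant of `ord_add` with a lower bound, also valid if a term is zero -/
theorem ord_add_ge (P : S.I) {x y : L} {c : ℤ} (hx : x = 0 ∨ c ≤ S.ord P x)
    (hy : y = 0 ∨ c ≤ S.ord P y) : x + y = 0 ∨ c ≤ S.ord P (x + y) := by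
  by_cases hx0 : x = 0
  · rw [hx0, zero_add]; exact hy
  by_cases hy0 : y = 0
  · rw [hy0, add_zero]; exact hx
  by_cases hxy : x + y = 0
  · exact Or.inl hxy
  · right
    have h := S.ord_add P hx0 hy0 hxy
    have h1 := hx.resolve_left hx0
    have h2 := hy.resolve_left hy0
    exact (le_min h1 h2).trans h

/-- the strict case of the ultrametric inequality -/
theorem ord_add_eq (P : S.I) {x y : L} (hx : x ≠ 0) (hy : y = 0 ∨ S.ord P x < S.ord P y) :
    x + y ≠ 0 ∧ S.ord P (x + y) = S.ord P x := by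
  by_cases hy0 : y = 0
  · rw [hy0, add_zero]; exact ⟨hx, rfl⟩
  have hlt := hy.resolve_left hy0
  have hne : x + y ≠ 0 := by
    intro h
    have h1 : y = -x := (neg_eq_of_add_eq_zero_right h).symm
    rw [h1, S.ord_neg] at hlt
    exact lt_irrefl _ hlt
  refine ⟨hne, le_antisymm ?_ ?_⟩
  · by_contra hcon
    push Not at hcon
    have hny : -y ≠ 0 := neg_ne_zero.mpr hy0
    have h1 : (x + y) + -y ≠ 0 := by rwa [add_neg_cancel_right]
    have h2 := S.ord_add P hne hny h1
    rw [add_neg_cancel_right, S.ord_neg] at h2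
    exact absurd h2 (not_le.mpr (lt_min hcon hlt))
  · have h := S.ord_add P hx hy0 hne
    rwa [min_eq_left hlt.le] at h

end PF

end UDV
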