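import Pool.Agent.UDV.Deg

/-!
# UDV: degrees in a product formula field, continued

PROOFS.
* `deg_mul_le`: if `x = 0` or `y = 0` the left side is `0`; else
  `max 0 (-(a+b)) ≤ max 0 (-a) + max 0 (-b)` and sum.
* `deg_add_le`: if one of `x`, `y`, `x+y` is `0` it is trivial (use `deg_nonneg`); else
  `max 0 (-c) ≤ max 0 (-a) + max 0 (-b)` if `min a b ≤ c`.
* `deg_inv`: `deg_zeros` and `ord_inv`.   `deg_pow`: `ord_pow`.
* `abs_ord_le`: if `ord P x = -k < 0` then `k ≤ wt P * k ≤ deg x` (one term of a sum of nonnegative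
  terms, `1 ≤ wt P`); if it is `> 0` use `deg_zeros`; if `x = 0` trivial.
* `ord_alg`: if `x ^ (p ^ n) = x`, `n > 0`, `x ≠ 0` then `p^n * ord P x = ord P x`, so
  `ord P x = 0` as `p^n ≥ 2`.
* `deg_pos_of_NC`: `x ≠ 0` (else `0 ^ p = 0` contradicts `NC`); if `deg x = 0` then all
  `ord P x = 0` by `abs_ord_le`, and `S.const` contradicts `NC`.
* `nc_of_delta`: if `x ^ (p ^ n) = x`, `n > 0`, then `δ x = p^n * x^(p^n-1) * δ x = 0`
  (`Derivation.leibniz_pow`, `CharP`).
* `exists_not_pow`: for `NC p x` there is a largest `s` with `x = y ^ (p ^ s)` solvable, as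
  `deg x = p^s * deg y`, `deg y > 0`, so `p ^ s ≤ deg x`; the last `y` is not a `p`-th power.
-/

open Polynomial

namespace UDV

universe u

namespace PF

variable {p : ℕ} {L : Type u} [Field L] (S : PF p L)

theorem deg_mul_le (x y : L) : S.deg (x * y) ≤ S.deg x + S.deg y := by
  classical
  have h1 := S.deg_nonneg x
  have h2 := S.deg_nonneg y
  by_cases hx : x = 0
  · rw [hx, zero_mul, S.deg_zero]
    linarith
  by_cases hy : y = 0
  · rw [hy, mul_zero, S.deg_zero]
    linarith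
  obtain ⟨T, hT⟩ := S.exists_finset {x, y, x * y}
  rw [S.deg_finset x T (hT x (by simp)), S.deg_finset y T (hT y (by simp)),
    S.deg_finset (x * y) T (hT (x * y) (by simp)), ← Finset.sum_add_distrib]
  refine Finset.sum_le_sum fun P _ => ?_
  rw [← mul_add, S.ord_mul P hx hy]
  exact mul_le_mul_of_nonneg_left (by omega) (Int.natCast_nonneg _)

theorem deg_add_le (x y : L) : S.deg (x + y) ≤ S.deg x + S.deg y := by
  classical
  have h1 := S.deg_nonneg x
  have h2 := S.deg_nonneg y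
  by_cases hx : x = 0
  · rw [hx, zero_add, S.deg_zero]
    linarith
  by_cases hy : y = 0
  · rw [hy, add_zero, S.deg_zero]
    linarith
  by_cases hxy : x + y = 0
  · rw [hxy, S.deg_zero]
    linarith
  obtain ⟨T, hT⟩ := S.exists_finset {x, y, x + y}
  rw [S.deg_finset x T (hT x (by simp)), S.deg_finset y T (hT y (by simp)),
    S.deg_finset (x + y) T (hT (x + y) (by simp)), ← Finset.sum_add_distrib]
  refine Finset.sum_le_sum fun P _ => ?_
  have h3 := S.ord_add P hx hy hxy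
  rw [← mul_add]
  exact mul_le_mul_of_nonneg_left (by omega) (Int.natCast_nonneg _)

theorem deg_neg (x : L) : S.deg (-x) = S.deg x := by
  unfold deg
  simp only [S.ord_neg]

theorem deg_inv (x : L) : S.deg x⁻¹ = S.deg x := by
  by_cases hx : x = 0
  · rw [hx, inv_zero]
  · rw [S.deg_zeros hx]
    unfold deg
    simp only [S.ord_inv, neg_neg]

theorem deg_pow (x : L) (n : ℕ) : S.deg (x ^ n) = n * S.deg x := by
  classical
  obtain ⟨T, hT⟩ := S.exists_finset {x}
  have h1 := hT x (by simp)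
  rw [S.deg_finset x T h1, S.deg_finset (x ^ n) T (fun P hP => by
    rw [S.ord_pow, h1 P hP, mul_zero]), Finset.mul_sum]
  refine Finset.sum_congr rfl fun P _ => ?_
  rw [S.ord_pow, ← mul_neg, mul_left_comm]
  congr 1
  rw [mul_max_of_nonneg _ _ (Int.natCast_nonneg n), mul_zero]

private theorem neg_ord_le (P : S.I) (x : L) : -S.ord P x ≤ S.deg x := by
  classical
  obtain ⟨T, hT⟩ := S.exists_finset {x}
  have h1 := hT x (by simp)
  rw [S.deg_finset x (insert P T) (fun P' hP' => h1 P' fun h => hP' (Finset.mem_insert_of_mem h))]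
  have h2 : (S.wt P : ℤ) * max 0 (-(S.ord P x)) ≤
      ∑ P ∈ insert P T, (S.wt P : ℤ) * max 0 (-(S.ord P x)) :=
    Finset.single_le_sum (f := fun P => (S.wt P : ℤ) * max 0 (-(S.ord P x)))
      (fun P' _ => mul_nonneg (Int.natCast_nonneg _) (le_max_left _ _))
      (Finset.mem_insert_self P T)
  have h3 : (1 : ℤ) ≤ (S.wt P : ℤ) := by exact_mod_cast S.wt_pos P
  have h4 : max 0 (-(S.ord P x)) ≤ (S.wt P : ℤ) * max 0 (-(S.ord P x)) :=
    le_mul_of_one_le_left (le_max_left _ _) h3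
  have h5 : -S.ord P x ≤ max 0 (-(S.ord P x)) := le_max_right _ _
  linarith

theorem abs_ord_le (P : S.I) (x : L) : |S.ord P x| ≤ S.deg x := by
  rw [abs_le]
  have h1 := S.neg_ord_le P x
  have h2 := S.neg_ord_le P x⁻¹
  rw [S.ord_inv, S.deg_inv] at h2
  constructor <;> linarith

theorem ord_alg [Fact p.Prime] {x : L} {n : ℕ} (hn : 0 < n) (hx : x ^ (p ^ n) = x) (P : S.I) :
    S.ord P x = 0 := by
  have h1 := S.ord_pow P x (p ^ n)
  rw [hx] at h1
  have h2 : 1 < p ^ n := Nat.one_lt_pow hn.ne' (Fact.out : p.Prime).one_lt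
  have h3 : (1 : ℤ) < ((p ^ n : ℕ) : ℤ) := by exact_mod_cast h2
  have h4 : (((p ^ n : ℕ) : ℤ) - 1) * S.ord P x = 0 := by
    rw [sub_mul, one_mul, ← h1, sub_self]
  rcases mul_eq_zero.mp h4 with h5 | h5
  · omega
  · exact h5

theorem deg_pos_of_NC [Fact p.Prime] {x : L} (hx : NC p x) : 0 < S.deg x := by
  by_contra h
  have h0 : S.deg x ≤ 0 := not_lt.mp h
  have hx0 : x ≠ 0 := by
    rintro rfl
    exact hx 1 one_pos (zero_pow (pow_ne_zero _ (Fact.out : p.Prime).ne_zero))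
  obtain ⟨n, hn, h1⟩ := S.const hx0 (fun P => by
    have h2 := S.abs_ord_le P x
    have h3 := abs_nonneg (S.ord P x)
    exact abs_eq_zero.mp (le_antisymm (h2.trans h0) h3))
  exact hx n hn h1

theorem nc_of_delta [Fact p.Prime] [CharP L p] {x : L} {i : Fin S.d} (hx : S.δ i x ≠ 0) :
    NC p x := by
  intro n hn h
  apply hx
  have h1 := (S.δ i).leibniz_pow x (p ^ n)
  rw [h] at h1
  rw [h1, ← Nat.cast_smul_eq_nsmul L, Nat.cast_pow, CharP.cast_eq_zero, zero_pow hn.ne',
    zero_smul]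

theorem exists_not_pow [Fact p.Prime] {x : L} (hx : NC p x) :
    ∃ (s : ℕ) (y : L), x = y ^ (p ^ s) ∧ (∀ z, z ^ p ≠ y) ∧ ∃ i, S.δ i y ≠ 0 := by
  classical
  have hbd : ∀ s, (∃ y : L, x = y ^ (p ^ s)) → s ≤ (S.deg x).toNat := by
    rintro s ⟨y, hy⟩
    have hyN : NC p y := by
      intro n hn h
      apply hx n hn
      rw [hy, ← pow_mul, mul_comm, pow_mul, h]
    have h1 := S.deg_pos_of_NC hyN
    have h2 : S.deg x = ((p ^ s : ℕ) : ℤ) * S.deg y := by rw [hy, S.deg_pow]
    have h3 : s < p ^ s := Nat.lt_pow_self (Fact.out : p.Prime).one_lt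
    have h4 : (s : ℤ) < ((p ^ s : ℕ) : ℤ) := by exact_mod_cast h3
    have h5 : ((p ^ s : ℕ) : ℤ) ≤ S.deg x := by
      rw [h2]
      exact le_mul_of_one_le_right (by positivity) h1
    omega
  have h0 : ∃ y : L, x = y ^ (p ^ 0) := ⟨x, by simp⟩
  have hspec := Nat.findGreatest_spec (P := fun s => ∃ y : L, x = y ^ (p ^ s))
    (Nat.zero_le (S.deg x).toNat) h0
  set s := Nat.findGreatest (fun s => ∃ y : L, x = y ^ (p ^ s)) (S.deg x).toNat with hs
  obtain ⟨y, hy⟩ := hspec
  have hz : ∀ z, z ^ p ≠ y := by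
    intro z hz
    have h1 : ∃ y : L, x = y ^ (p ^ (s + 1)) := ⟨z, by
      rw [hy, ← hz, ← pow_mul, pow_succ']⟩
    exact Nat.findGreatest_is_greatest (P := fun s => ∃ y : L, x = y ^ (p ^ s))
      (lt_of_le_of_lt (le_of_eq hs.symm) (Nat.lt_succ_self s)) (hbd _ h1) h1
  refine ⟨s, y, hy, hz, ?_⟩
  by_contra h
  push Not at h
  obtain ⟨z, hz'⟩ := S.δ_sep y h
  exact hz z hz'

theorem B_nonneg : 0 ≤ S.B := by
  unfold B
  exact finsum_nonneg fun P => by positivity

theorem Lc_nonneg (y : L) : 0 ≤ S.Lc y := by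
  unfold Lc
  refine mul_nonneg (by norm_num) (finsum_nonneg fun P => ?_)
  exact mul_nonneg (Int.natCast_nonneg _)
    (add_nonneg (le_max_left _ _) (Int.natCast_nonneg _))

end PF

end UDV
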