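import Pool.Agent.UDV.DegB

/-!
# UDV: valuations of polynomials over the prime field

Here `ev f a` is the value at `a` of `f : (ZMod p)[X]`.

PROOFS.  Constants: every `c : ZMod p` satisfies `c ^ p = c`, so its image `x` in `L` has
`x ^ (p ^ 1) = x` and `ord P x = 0` (`ord_alg`).
* `ev_int`: write `ev f a = ∑ c_i a^i` (`eval₂_eq_sum_range`) and use `ord_add_ge` repeatedly
  (or `Polynomial.induction_on`), all terms being `0` or of `ord ≥ 0`; recall `ord P 0 = 0`.
* `ev_pole`: `f = C c * X ^ N + g`, `c ≠ 0`, `N = natDegree f`, `g` of smaller degree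
  (`Polynomial.eraseLead`); by strong induction on the degree (or by induction with
  `ord_add_ge` with the bound `(N-1) * ord P a`) `ev g a = 0 ∨ N * ord P a < ord P (ev g a)`, and
  `ord_add_eq` applies (`ord P (c a^N) = N * ord P a`).
* `van_coprime`: `u * f + v * g = 1` gives `ev u a * ev f a + ev v a * ev g a = 1`; if both
  `ev f a` and `ev g a` vanish at `P` then `1 = 0 ∨ 0 < ord P 1 = 0` (`ord_add_ge` with `c = 1`).
* `ev_ne_zero`: if `ev f a = 0` with `f ≠ 0` then `a` is algebraic over the finite field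
  `ZMod p` (`ZMod.algebra L p`), so it lies in the finite field `(ZMod p)(a)` with `p ^ n`
  elements, `n > 0`, and `a ^ (p ^ n) = a` (`FiniteField.pow_card`), contradicting `NC`.
* `deg_ev`: by `deg_finset` and `ev_pole`, `ev_int`: the poles of `ev f a` are those of `a` with
  multiplicity multiplied by `natDegree f` (if `natDegree f = 0` both sides are `0`).
* `nc_iff`: `NC p x` fails iff `x` is `0` or has all `ord P x = 0`
-/

open Polynomial

namespace UDV

universe u

theorem ev_aeval {p : ℕ} {L : Type u} [Field L] [CharP L p] (F : ℤ[X]) (a : L) :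
    aeval a F = ev (p := p) (F.map (Int.castRingHom (ZMod p))) a := by
  unfold ev
  rw [eval₂_map, aeval_def]
  congr 1
  exact RingHom.ext_int _ _

theorem ev_ne_zero {p : ℕ} {L : Type u} [Field L] [Fact p.Prime] [CharP L p] {a : L}
    (ha : NC p a) {f : (ZMod p)[X]} (hf : f ≠ 0) : ev f a ≠ 0 := by
  intro h
  letI : Algebra (ZMod p) L := ZMod.algebra L p
  have h1 : aeval a f = 0 := h
  have h2 : IsIntegral (ZMod p) a := (isAlgebraic_iff_isIntegral).1 ⟨f, hf, h1⟩
  haveI : FiniteDimensional (ZMod p) (IntermediateField.adjoin (ZMod p) {a}) :=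
    IntermediateField.adjoin.finiteDimensional h2
  haveI : Finite (IntermediateField.adjoin (ZMod p) {a}) := Module.finite_of_finite (ZMod p)
  haveI := Fintype.ofFinite (IntermediateField.adjoin (ZMod p) {a})
  haveI : CharP (IntermediateField.adjoin (ZMod p) {a}) p :=
    charP_of_injective_algebraMap (algebraMap (ZMod p) _).injective p
  obtain ⟨n, -, hn⟩ := FiniteField.card (IntermediateField.adjoin (ZMod p) {a}) p
  have h3 := FiniteField.pow_card (IntermediateField.AdjoinSimple.gen (ZMod p) a)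
  rw [hn] at h3
  refine ha n n.pos ?_
  have h4 := congrArg (fun x : IntermediateField.adjoin (ZMod p) {a} => (x : L)) h3
  simpa using h4

namespace PF

variable {p : ℕ} {L : Type u} [Field L] (S : PF p L) [Fact p.Prime] [CharP L p]

theorem ord_const (P : S.I) (c : ZMod p) : S.ord P (ZMod.castHom (dvd_refl p) L c) = 0 := by
  refine S.ord_alg one_pos ?_ P
  rw [pow_one, ← map_pow, ZMod.pow_card]

private theorem ord_term (P : S.I) (a : L) (c : ZMod p) (n : ℕ) :
    ZMod.castHom (dvd_refl p) L c * a ^ n = 0 ∨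
      S.ord P (ZMod.castHom (dvd_refl p) L c * a ^ n) = n * S.ord P a := by
  by_cases h : ZMod.castHom (dvd_refl p) L c * a ^ n = 0
  · exact Or.inl h
  · right
    obtain ⟨h1, h2⟩ := mul_ne_zero_iff.1 h
    rw [S.ord_mul P h1 h2, S.ord_const, S.ord_pow, zero_add]

private theorem ord_sum (P : S.I) (c : ℤ) (T : Finset ℕ) (g : ℕ → L)
    (hg : ∀ i ∈ T, g i = 0 ∨ c ≤ S.ord P (g i)) :
    ∑ i ∈ T, g i = 0 ∨ c ≤ S.ord P (∑ i ∈ T, g i) := by
  classical
  induction T using Finset.induction_on with
  | empty => exact Or.inl Finset.sum_empty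
  | insert i T hi ih =>
    rw [Finset.sum_insert hi]
    exact S.ord_add_ge P (hg i (Finset.mem_insert_self i T))
      (ih fun j hj => hg j (Finset.mem_insert_of_mem hj))

private theorem ev_sum (f : (ZMod p)[X]) (a : L) : ev f a =
    ∑ i ∈ Finset.range (f.natDegree + 1), ZMod.castHom (dvd_refl p) L (f.coeff i) * a ^ i := by
  unfold ev
  exact eval₂_eq_sum_range _ _

private theorem ev_low (P : S.I) {a : L} (ha : S.ord P a < 0) (f : (ZMod p)[X]) (M : ℕ)
    (hM : f.natDegree ≤ M) : ev f a = 0 ∨ M * S.ord P a ≤ S.ord P (ev f a) := by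
  rw [ev_sum]
  refine S.ord_sum P _ _ _ fun i hi => ?_
  rcases S.ord_term P a (f.coeff i) i with h | h
  · exact Or.inl h
  · right
    rw [h]
    have h1 : (i : ℤ) ≤ (M : ℤ) := by
      have := Finset.mem_range.1 hi
      exact_mod_cast (by omega : i ≤ M)
    exact mul_le_mul_of_nonpos_right h1 ha.le

theorem ev_int (P : S.I) {a : L} (ha : 0 ≤ S.ord P a) (f : (ZMod p)[X]) :
    0 ≤ S.ord P (ev f a) := by
  have h : ev f a = 0 ∨ 0 ≤ S.ord P (ev f a) := by
    rw [ev_sum]
    refine S.ord_sum P _ _ _ fun i _ => ?_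
    rcases S.ord_term P a (f.coeff i) i with h | h
    · exact Or.inl h
    · right
      rw [h]
      positivity
  rcases h with h | h
  · rw [h, S.ord_zero]
  · exact h

theorem ev_pole (P : S.I) {a : L} (ha : S.ord P a < 0) {f : (ZMod p)[X]} (hf : f ≠ 0) :
    ev f a ≠ 0 ∧ S.ord P (ev f a) = f.natDegree * S.ord P a := by
  have ha0 : a ≠ 0 := by
    rintro rfl
    rw [S.ord_zero] at ha
    exact lt_irrefl _ ha
  have hlead : ZMod.castHom (dvd_refl p) L f.leadingCoeff * a ^ f.natDegree ≠ 0 := by
    refine mul_ne_zero ?_ (pow_ne_zero _ ha0)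
    rw [map_ne_zero_iff _ (ZMod.castHom (dvd_refl p) L).injective]
    exact leadingCoeff_ne_zero.2 hf
  have hord : S.ord P (ZMod.castHom (dvd_refl p) L f.leadingCoeff * a ^ f.natDegree) =
      f.natDegree * S.ord P a := (S.ord_term P a _ _).resolve_left hlead
  have hev : ev f a = ZMod.castHom (dvd_refl p) L f.leadingCoeff * a ^ f.natDegree +
      ev f.eraseLead a := by
    unfold ev
    conv_lhs => rw [← eraseLead_add_monomial_natDegree_leadingCoeff f, eval₂_add, eval₂_monomial]
    exact add_comm _ _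
  have hlow : ev f.eraseLead a = 0 ∨ S.ord P (ZMod.castHom (dvd_refl p) L f.leadingCoeff *
      a ^ f.natDegree) < S.ord P (ev f.eraseLead a) := by
    rcases Nat.eq_zero_or_pos f.natDegree with h0 | h0
    · left
      rw [natDegree_eq_zero.1 h0 |>.choose_spec.symm, eraseLead_C]
      exact eval₂_zero _ _
    · rcases S.ev_low P ha f.eraseLead (f.natDegree - 1) (eraseLead_natDegree_le f) with h | h
      · exact Or.inl h
      · right
        rw [hord]
        refine lt_of_lt_of_le ?_ h
        have h1 : ((f.natDegree - 1 : ℕ) : ℤ) = (f.natDegree : ℤ) - 1 := by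
          rw [Nat.cast_sub h0, Nat.cast_one]
        rw [h1, sub_mul, one_mul]
        linarith
  have h := S.ord_add_eq P hlead hlow
  rw [← hev, hord] at h
  exact h

theorem van_coprime (P : S.I) {a : L} (ha : 0 ≤ S.ord P a) {f g : (ZMod p)[X]}
    (hfg : IsCoprime f g) : ¬ (S.Van P (ev f a) ∧ S.Van P (ev g a)) := by
  rintro ⟨h1, h2⟩
  obtain ⟨u, v, huv⟩ := hfg
  have hmul : ∀ u f : (ZMod p)[X], S.Van P (ev f a) →
      ev u a * ev f a = 0 ∨ 1 ≤ S.ord P (ev u a * ev f a) := by
    intro u f hf
    by_cases h : ev u a * ev f a = 0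
    · exact Or.inl h
    · right
      obtain ⟨h3, h4⟩ := mul_ne_zero_iff.1 h
      have h5 := S.ev_int P ha u
      have h6 := hf.resolve_left h4
      rw [S.ord_mul P h3 h4]
      omega
  have h3 := S.ord_add_ge P (hmul u f h1) (hmul v g h2)
  have h4 : ev u a * ev f a + ev v a * ev g a = 1 := by
    unfold ev
    rw [← eval₂_mul, ← eval₂_mul, ← eval₂_add, huv, eval₂_one]
  rw [h4, S.ord_one] at h3
  rcases h3 with h3 | h3
  · exact one_ne_zero h3
  · omega

theorem deg_ev {a : L} (ha : NC p a) {f : (ZMod p)[X]} (hf : f ≠ 0) :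
    S.deg (ev f a) = f.natDegree * S.deg a := by
  classical
  obtain ⟨T, hT⟩ := S.exists_finset {a, ev f a}
  rw [S.deg_finset a T (hT a (by simp)), S.deg_finset (ev f a) T (hT (ev f a) (by simp)),
    Finset.mul_sum]
  refine Finset.sum_congr rfl fun P _ => ?_
  rcases lt_or_ge (S.ord P a) 0 with h | h
  · rw [(S.ev_pole P h hf).2, max_eq_right (by linarith : 0 ≤ -S.ord P a), max_eq_right]
    · ring
    · have := mul_nonneg (Int.natCast_nonneg f.natDegree) (by linarith : 0 ≤ -S.ord P a)
      linarith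
  · have h1 := S.ev_int P h f
    rw [max_eq_left (by linarith), max_eq_left (by linarith)]
    ring

theorem nc_iff {a : L} : NC p a ↔ ∃ P, S.ord P a ≠ 0 := by
  constructor
  · intro ha
    by_contra h
    push Not at h
    have ha0 : a ≠ 0 := by
      rintro rfl
      exact ha 1 one_pos (zero_pow (pow_ne_zero _ (Fact.out : p.Prime).ne_zero))
    obtain ⟨n, hn, h1⟩ := S.const ha0 h
    exact ha n hn h1
  · rintro ⟨P, hP⟩ n hn h
    exact hP (S.ord_alg hn h P)

end PF

end UDV
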