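import Pool.Agent.UDV.Eval

/-!
# UDV: residues which are conjugate over the prime field

PROOF of `res_conj`.  `O = {x | 0 ≤ ord P x}` is a subring of `L` and `m = {x ∈ O | Van P x}` is a
prime ideal of it (`ord_mul`, `ord_add_ge`, `ord_zero`; `1 ∉ m` by `ord_one`).  `Q = O / m` is an
integral domain of characteristic `p` (a ring homomorphism `ZMod p → L` has image in `O` by
`ord_const`).  Let `A`, `W` be the images of `a`, `w` in `Q`.  Then `f(A) = 0 = f(W)` and, as
`f ∣ X ^ (p ^ r) - X`, also `A ^ (p ^ r) = A` (this is the second claim).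
Consider `H = ∏_{j < r} (X - C (A ^ (p ^ j))) : Q[X]`.  The ring homomorphism
`frobenius Q p` permutes cyclically the elements `A ^ (p ^ j)`, `j < r`, because
`A ^ (p ^ r) = A`, so `H.map (frobenius Q p) = H`, i.e. every coefficient `c` of `H` satisfies
`c ^ p = c`.  In a domain `Q` of characteristic `p` the roots of `X ^ p - X` are exactly the `p`
elements of the image of `ZMod p` (at most `p` roots, `card_roots'`).  Hence `H` is the image of
some `h : (ZMod p)[X]`, and `h(A) = 0`.  As `f` is irreducible and `f`, `h` are not coprime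
(otherwise `1 = 0` in `Q`, evaluate at `A`), `f ∣ h`, so `h(W) = 0`, i.e.
`∏ (W - A ^ (p ^ j)) = 0` and one factor is `0`, which is the first claim.
-/

open Polynomial

namespace UDV

universe u

namespace PF

variable {p : ℕ} {L : Type u} [Field L] (S : PF p L) [Fact p.Prime] [CharP L p]

/-- the ring of the place -/
private def rO (P : S.I) : Subring L where
  carrier := {x | 0 ≤ S.ord P x}
  mul_mem' := fun {x y} (hx : 0 ≤ S.ord P x) (hy : 0 ≤ S.ord P y) => by
    change 0 ≤ S.ord P (x * y)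
    by_cases h : x * y = 0
    · rw [h, S.ord_zero]
    · obtain ⟨h1, h2⟩ := mul_ne_zero_iff.1 h
      rw [S.ord_mul P h1 h2]
      exact add_nonneg hx hy
  one_mem' := (S.ord_one P).ge
  add_mem' := fun {x y} (hx : 0 ≤ S.ord P x) (hy : 0 ≤ S.ord P y) => by
    change 0 ≤ S.ord P (x + y)
    rcases S.ord_add_ge P (Or.inr hx) (Or.inr hy) with h | h
    · rw [h, S.ord_zero]
    · exact h
  zero_mem' := (S.ord_zero P).ge
  neg_mem' := fun {x} (hx : 0 ≤ S.ord P x) => by
    change 0 ≤ S.ord P (-x)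
    rw [S.ord_neg]
    exact hx

private theorem van_iff (P : S.I) (x : L) : S.Van P x ↔ x = 0 ∨ 1 ≤ S.ord P x := Iff.rfl

/-- the maximal ideal of the place -/
private def rM (P : S.I) : Ideal (S.rO P) where
  carrier := {x | S.Van P x.1}
  add_mem' := fun {x y} hx hy => S.ord_add_ge P hx hy
  zero_mem' := Or.inl rfl
  smul_mem' := fun c x hx => by
    change S.Van P (c.1 * x.1)
    by_cases h : c.1 * x.1 = 0
    · exact Or.inl h
    · obtain ⟨h1, h2⟩ := mul_ne_zero_iff.1 h
      right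
      rw [S.ord_mul P h1 h2]
      have h3 : 0 ≤ S.ord P c.1 := c.2
      have h4 : 0 < S.ord P x.1 := Or.resolve_left hx h2
      exact add_pos_of_nonneg_of_pos h3 h4

private theorem rM_prime (P : S.I) : (S.rM P).IsPrime := by
  refine ⟨fun h => ?_, fun {x y} hxy => ?_⟩
  · have h1 : (1 : S.rO P) ∈ S.rM P := by
      rw [h]
      trivial
    have h2 : (1 : L) = 0 ∨ 0 < S.ord P (1 : L) := h1
    rw [S.ord_one] at h2
    rcases h2 with h2 | h2
    · exact one_ne_zero h2
    · exact lt_irrefl _ h2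
  · have h1 : S.Van P (x.1 * y.1) := hxy
    by_cases hx : x.1 = 0
    · exact Or.inl (Or.inl hx)
    by_cases hy : y.1 = 0
    · exact Or.inr (Or.inl hy)
    have h2 : 0 < S.ord P (x.1 * y.1) := Or.resolve_left h1 (mul_ne_zero hx hy)
    rw [S.ord_mul P hx hy] at h2
    rcases lt_or_ge 0 (S.ord P x.1) with h3 | h3
    · exact Or.inl (Or.inr h3)
    · exact Or.inr (Or.inr (by omega))

/-- conjugacy of the roots of an irreducible polynomial over the prime field, in a field -/
private theorem conj_field {p : ℕ} [Fact p.Prime] {F : Type u} [Field F] [CharP F p] {A W : F}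
    {f : (ZMod p)[X]} (hf : Irreducible f) {r : ℕ} (hr : 0 < r) (hA : A ^ (p ^ r) = A)
    (h1 : f.eval₂ (ZMod.castHom (dvd_refl p) F) A = 0)
    (h2 : f.eval₂ (ZMod.castHom (dvd_refl p) F) W = 0) : ∃ j, j < r ∧ W = A ^ (p ^ j) := by
  classical
  set g := ZMod.castHom (dvd_refl p) F with hg
  set H : F[X] := ∏ j ∈ Finset.range r, (X - C (A ^ (p ^ j))) with hH
  have hmap : H.map (frobenius F p) = H := by
    have e1 : H.map (frobenius F p) = ∏ j ∈ Finset.range r, (X - C (A ^ (p ^ (j + 1)))) := by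
      rw [hH, Polynomial.map_prod]
      refine Finset.prod_congr rfl fun j _ => ?_
      rw [Polynomial.map_sub, map_X, map_C, frobenius_def, ← pow_mul, pow_succ]
    have e2 := Finset.prod_range_succ (fun j => (X - C (A ^ (p ^ j)) : F[X])) r
    have e3 := Finset.prod_range_succ' (fun j => (X - C (A ^ (p ^ j)) : F[X])) r
    rw [e2] at e3
    rw [e1]
    have e4 : (X - C (A ^ (p ^ r)) : F[X]) = X - C (A ^ (p ^ 0)) := by
      rw [hA, pow_zero, pow_one]
    rw [e4] at e3
    exact (mul_right_cancel₀ (X_sub_C_ne_zero _) e3).symm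
  have hcoef : ∀ i, ∃ c : ZMod p, g c = H.coeff i := by
    intro i
    have e1 : (H.coeff i) ^ p = H.coeff i := by
      conv_rhs => rw [← hmap]
      rw [coeff_map, frobenius_def]
    have e2 := (Subfield.mem_bot_iff_pow_eq_self F p).2 e1
    rw [← ZMod.fieldRange_castHom_eq_bot p] at e2
    exact e2
  have hlift : H ∈ lifts g := by
    rw [lifts_iff_coeff_lifts]
    intro i
    exact hcoef i
  obtain ⟨h, hh⟩ := (mem_lifts H).1 hlift
  have hev : ∀ x, h.eval₂ g x = ∏ j ∈ Finset.range r, (x - A ^ (p ^ j)) := by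
    intro x
    rw [← eval_map, hh, hH, eval_prod]
    refine Finset.prod_congr rfl fun j _ => ?_
    rw [eval_sub, eval_X, eval_C]
  have hA0 : h.eval₂ g A = 0 := by
    rw [hev]
    refine Finset.prod_eq_zero (Finset.mem_range.2 hr) ?_
    rw [pow_zero, pow_one, sub_self]
  have hdvd : f ∣ h := by
    by_contra hnd
    obtain ⟨u, v, huv⟩ := (hf.coprime_iff_not_dvd).2 hnd
    have e1 := congrArg (fun z => z.eval₂ g A) huv
    simp only [eval₂_add, eval₂_mul, eval₂_one, h1, hA0, mul_zero, add_zero] at e1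
    exact zero_ne_one e1
  obtain ⟨q, rfl⟩ := hdvd
  have hW := hev W
  rw [eval₂_mul, h2, zero_mul] at hW
  obtain ⟨j, hj, hj0⟩ := Finset.prod_eq_zero_iff.1 hW.symm
  exact ⟨j, Finset.mem_range.1 hj, sub_eq_zero.1 hj0⟩

theorem res_conj (P : S.I) {a w : L} (ha : 0 ≤ S.ord P a) (hw : 0 ≤ S.ord P w)
    {f : (ZMod p)[X]} (hf : Irreducible f) {r : ℕ} (hr : 0 < r)
    (hfr : f ∣ X ^ (p ^ r) - X) (h1 : S.Van P (ev f a)) (h2 : S.Van P (ev f w)) :
    (∃ j, j < r ∧ S.Van P (w - a ^ (p ^ j))) ∧ S.Van P (a ^ (p ^ r) - a) := by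
  haveI := S.rM_prime P
  let F := FractionRing (S.rO P ⧸ S.rM P)
  let π : S.rO P →+* F := (algebraMap (S.rO P ⧸ S.rM P) F).comp (Ideal.Quotient.mk (S.rM P))
  have hπ : ∀ x : S.rO P, π x = 0 ↔ S.Van P x.1 := by
    intro x
    have e1 : π x = algebraMap (S.rO P ⧸ S.rM P) F (Ideal.Quotient.mk (S.rM P) x) := rfl
    rw [e1, map_eq_zero_iff _ (IsFractionRing.injective (S.rO P ⧸ S.rM P) F),
      Ideal.Quotient.eq_zero_iff_mem]
    rfl
  let gO : ZMod p →+* S.rO P := (ZMod.castHom (dvd_refl p) L).codRestrict (S.rO P)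
    (fun c => (S.ord_const P c).ge)
  haveI : CharP F p := charP_of_injective_ringHom (π.comp gO).injective p
  have hg : π.comp gO = ZMod.castHom (dvd_refl p) F := Subsingleton.elim _ _
  have hev : ∀ (f : (ZMod p)[X]) (x : L) (hx : 0 ≤ S.ord P x),
      f.eval₂ (ZMod.castHom (dvd_refl p) F) (π ⟨x, hx⟩) = π ⟨ev f x, S.ev_int P hx f⟩ := by
    intro f x hx
    rw [← hg, ← hom_eval₂]
    congr 1
    apply Subtype.ext
    have e1 := hom_eval₂ f gO (S.rO P).subtype ⟨x, hx⟩
    exact e1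
  have hA1 : f.eval₂ (ZMod.castHom (dvd_refl p) F) (π ⟨a, ha⟩) = 0 := by
    rw [hev, hπ]
    exact h1
  have hW1 : f.eval₂ (ZMod.castHom (dvd_refl p) F) (π ⟨w, hw⟩) = 0 := by
    rw [hev, hπ]
    exact h2
  have hA2 : (π ⟨a, ha⟩) ^ (p ^ r) = π ⟨a, ha⟩ := by
    obtain ⟨q, hq⟩ := hfr
    have e1 := congrArg (fun z => z.eval₂ (ZMod.castHom (dvd_refl p) F) (π ⟨a, ha⟩)) hq
    simp only [eval₂_sub, eval₂_mul, eval₂_pow, eval₂_X] at e1
    rw [hA1, zero_mul] at e1
    exact sub_eq_zero.1 e1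
  refine ⟨?_, ?_⟩
  · obtain ⟨j, hj, hj2⟩ := conj_field hf hr hA2 hA1 hW1
    refine ⟨j, hj, ?_⟩
    rw [← map_pow, ← sub_eq_zero, ← map_sub, hπ] at hj2
    exact hj2
  · rw [← map_pow, ← sub_eq_zero, ← map_sub, hπ] at hA2
    exact hA2

end PF

end UDV
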