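import Pool.Agent.UDV.Simple
import Pool.Agent.UDV.Res

/-!
# UDV: the lower bound

PROOF.  `a`, `w` are `NC` (`nc_of_delta`).  By `simple_zeros` the left side is at most
`cnt (ord P (ev G a) = 1)`.  Let `P` be such a place.
1. `exists_factor` (with `a` in the role of `w`) gives an irreducible `f ∣ G` with
`ord P (ev f a) = 1`.  `e ∤ 1` as `e ≥ 2`, so by `hst`, `e ∤ ord P (ev f w)`, in particular it is
not `0`.  Also `0 ≤ ord P a` (otherwise `ord P (ev G a)` is a multiple of `ord P a < 0`, negative,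
`ev_pole`).
2. Claim `0 ≤ ord P w`.  Suppose `ord P w < 0`.  Then `ord P (ev f w) = natDegree f * ord P w`, so
`e ∤ ord P w`.  If `ord P a = 0`: by `h0`, `e ∣ ord P w`, contradiction.  If `0 < ord P a`:
`ord P (a - 1) = 0` and `ord P (w - 1) = ord P w` (`ord_add_eq`), so by `h1` `e ∣ ord P w`,
contradiction.
3. So `0 < ord P (ev f w)` (`ev_int`, and it is not `0`).  `res_conj` gives `j < r` with
`Van P (w - a ^ (p ^ j))`, and `Van P (a ^ (p ^ r) - a)`.
4. If `2 * j ≤ r`: `w - a ^ (p ^ j) ≠ 0` (for `j = 0` by `hwa`; for `j ≥ 1`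
`δ j₀ (a ^ (p ^ j)) = 0 ≠ δ j₀ w`), so `0 < ord P (w - a ^ (p ^ j))`.
5. If `r < 2 * j`: put `k = r - j ≥ 1`.  `(w - a ^ (p ^ j)) ^ (p ^ k) = w ^ (p ^ k) - a ^ (p ^ r)`
(characteristic `p`, `sub_pow_char_pow`) vanishes at `P`; adding `a ^ (p ^ r) - a` gives
`Van P (w ^ (p ^ k) - a)` (`ord_add_ge`), and `w ^ (p ^ k) - a ≠ 0` as `δ i a ≠ 0`.
6. So the set of places is contained in the union over `j < r` of the zero sets of the nonzero
elements `w - a ^ (p ^ j)` resp. `w ^ (p ^ (r - j)) - a`; use `cnt_mono`, `cnt_biUnion_le`,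
`cnt_zeros_le`, and `deg (x - y) ≤ deg x + deg y`, `deg_pow`.
-/

open Polynomial

namespace UDV

universe u

namespace PF

variable {p : ℕ} {L : Type u} [Field L] (S : PF p L) [Fact p.Prime] [CharP L p]

omit [Fact p.Prime] in
/-- the derivation of a `p`-th power vanishes -/
theorem delta_pow_zero (D : Derivation ℤ L L) (x : L) {k : ℕ} (hk : 0 < k) :
    D (x ^ (p ^ k)) = 0 := by
  rw [Derivation.leibniz_pow]
  have h1 : ((p ^ k : ℕ) : L) = 0 := by
    rw [Nat.cast_pow, CharP.cast_eq_zero, zero_pow hk.ne']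
  rw [nsmul_eq_mul, h1, zero_mul]

/-- the comparison elements -/
noncomputable def zz (p : ℕ) {L : Type u} [Field L] (r : ℕ) (a w : L) (j : ℕ) : L :=
  if 2 * j ≤ r then w - a ^ (p ^ j) else w ^ (p ^ (r - j)) - a

omit [Fact p.Prime] in
theorem zz_ne {r : ℕ} {a w : L} {i j₀ : Fin S.d} (hδa : S.δ i a ≠ 0) (hδw : S.δ j₀ w ≠ 0)
    (hwa : w ≠ a) {j : ℕ} (hj : j < r) : zz p r a w j ≠ 0 := by
  unfold zz
  split_ifs with h
  · rcases Nat.eq_zero_or_pos j with h0 | h0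
    · subst h0
      rw [pow_zero, pow_one]
      exact sub_ne_zero.2 hwa
    · intro h1
      rw [sub_eq_zero] at h1
      apply hδw
      rw [h1]
      exact delta_pow_zero _ _ h0
  · intro h1
    rw [sub_eq_zero] at h1
    apply hδa
    rw [← h1]
    exact delta_pow_zero _ _ (by omega)

theorem zz_cover {G : (ZMod p)[X]} (hG : G.Separable) {r : ℕ} (hr : 0 < r)
    (hGr : G ∣ X ^ (p ^ r) - X) {e : ℕ} (he : 2 ≤ e) {a w : L} {i j₀ : Fin S.d}
    (hδa : S.δ i a ≠ 0) (hδw : S.δ j₀ w ≠ 0)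
    (hst : ∀ f : (ZMod p)[X], Irreducible f → f ∣ G → ∀ P,
      ((e : ℤ) ∣ S.ord P (ev f a) ↔ (e : ℤ) ∣ S.ord P (ev f w)))
    (h0 : ∀ P, ((e : ℤ) ∣ S.ord P a ↔ (e : ℤ) ∣ S.ord P w))
    (h1 : ∀ P, ((e : ℤ) ∣ S.ord P (a - 1) ↔ (e : ℤ) ∣ S.ord P (w - 1)))
    (hwa : w ≠ a) (P : S.I) (hP : S.ord P (ev G a) = 1) :
    ∃ j, j < r ∧ 0 < S.ord P (zz p r a w j) := by
  have haNC : NC p a := S.nc_of_delta hδa
  obtain ⟨f, h, hf, hfh, -, hord⟩ := S.exists_factor P haNC hG (by rw [hP]; exact one_pos)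
  rw [hP] at hord
  have hfG : f ∣ G := ⟨h, hfh⟩
  have hne1 : ¬ (e : ℤ) ∣ 1 := by
    intro hd
    have := Int.le_of_dvd one_pos hd
    omega
  have hnw : ¬ (e : ℤ) ∣ S.ord P (ev f w) := by
    intro hd
    have := (hst f hf hfG P).2 hd
    rw [hord] at this
    exact hne1 this
  have ha0 : 0 ≤ S.ord P a := by
    by_contra hcon
    have hlt : S.ord P a < 0 := not_le.1 hcon
    have h2 := (S.ev_pole P hlt hG.ne_zero).2
    rw [hP] at h2
    nlinarith [Int.natCast_nonneg G.natDegree]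
  have hw0 : 0 ≤ S.ord P w := by
    by_contra hcon
    have hlt : S.ord P w < 0 := not_le.1 hcon
    have h2 := (S.ev_pole P hlt hf.ne_zero).2
    have h3 : ¬ (e : ℤ) ∣ S.ord P w := by
      intro hd
      apply hnw
      rw [h2]
      exact hd.mul_left _
    rcases ha0.eq_or_lt with h4 | h4
    · exact h3 ((h0 P).1 (by rw [← h4]; exact dvd_zero _))
    · have hm1 : S.ord P (-1 : L) = 0 := by rw [S.ord_neg, S.ord_one]
      have h5 := (S.ord_add_eq P (x := (-1 : L)) (y := a) (by simp)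
        (Or.inr (by rw [hm1]; exact h4))).2
      have hwne : w ≠ 0 := by
        rintro rfl
        rw [S.ord_zero] at hlt
        exact lt_irrefl _ hlt
      have h6 := (S.ord_add_eq P (x := w) (y := (-1 : L)) hwne
        (Or.inr (by rw [hm1]; exact hlt))).2
      have e1 : a - 1 = -1 + a := by ring
      have e2 : w - 1 = w + -1 := by ring
      have h7 := (h1 P).1 (by rw [e1, h5, hm1]; exact dvd_zero _)
      rw [e2, h6] at h7
      exact h3 h7
  have hfw : 0 < S.ord P (ev f w) := by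
    refine lt_of_le_of_ne (S.ev_int P hw0 f) ?_
    intro h2
    apply hnw
    rw [← h2]
    exact dvd_zero _
  obtain ⟨⟨j, hj, hV⟩, hV2⟩ := S.res_conj P ha0 hw0 hf hr (hfG.trans hGr)
    (Or.inr (by rw [hord]; exact one_pos)) (Or.inr hfw)
  refine ⟨j, hj, ?_⟩
  have hne := S.zz_ne hδa hδw hwa hj
  unfold zz at hne ⊢
  split_ifs at hne ⊢ with h2
  · rcases hV with hV | hV
    · exact absurd hV hne
    · exact hV
  · have hpk : p ^ (r - j) ≠ 0 := pow_ne_zero _ (Nat.Prime.ne_zero Fact.out)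
    have e1 : (w - a ^ (p ^ j)) ^ (p ^ (r - j)) = w ^ (p ^ (r - j)) - a ^ (p ^ r) := by
      rw [sub_pow_char_pow, ← pow_mul, ← pow_add]
      congr 3
      omega
    have h3 : (w ^ (p ^ (r - j)) - a ^ (p ^ r) : L) = 0 ∨
        1 ≤ S.ord P (w ^ (p ^ (r - j)) - a ^ (p ^ r)) := by
      rw [← e1]
      rcases hV with hV | hV
      · left
        rw [hV, zero_pow hpk]
      · right
        rw [S.ord_pow]
        have h4 : (1 : ℤ) ≤ ((p ^ (r - j) : ℕ) : ℤ) := by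
          exact_mod_cast Nat.one_le_iff_ne_zero.2 hpk
        nlinarith
    have h4 : (a ^ (p ^ r) - a : L) = 0 ∨ 1 ≤ S.ord P (a ^ (p ^ r) - a) := by
      rcases hV2 with h | h
      · exact Or.inl h
      · exact Or.inr h
    have h5 := S.ord_add_ge P h3 h4
    have e2 : w ^ (p ^ (r - j)) - a ^ (p ^ r) + (a ^ (p ^ r) - a) = w ^ (p ^ (r - j)) - a := by
      ring
    rw [e2] at h5
    rcases h5 with h5 | h5
    · exact absurd h5 hne
    · exact lt_of_lt_of_le one_pos h5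

omit [Fact p.Prime] [CharP L p] in
theorem zz_deg (r : ℕ) (a w : L) (j : ℕ) :
    S.deg (zz p r a w j) ≤ if 2 * j ≤ r then S.deg w + (p : ℤ) ^ j * S.deg a
        else (p : ℤ) ^ (r - j) * S.deg w + S.deg a := by
  unfold zz
  split_ifs with h
  · rw [sub_eq_add_neg]
    refine (S.deg_add_le _ _).trans ?_
    rw [S.deg_neg, S.deg_pow]
    push_cast
    exact le_rfl
  · rw [sub_eq_add_neg]
    refine (S.deg_add_le _ _).trans ?_
    rw [S.deg_neg, S.deg_pow]
    push_cast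
    exact le_rfl

theorem lower {G : (ZMod p)[X]} (hG : G.Separable) {r : ℕ} (hr : 0 < r)
    (hGr : G ∣ X ^ (p ^ r) - X) {e : ℕ} (he : 2 ≤ e) {a w : L} {i j₀ : Fin S.d}
    (hδa : S.δ i a ≠ 0) (hδw : S.δ j₀ w ≠ 0)
    (hst : ∀ f : (ZMod p)[X], Irreducible f → f ∣ G → ∀ P,
      ((e : ℤ) ∣ S.ord P (ev f a) ↔ (e : ℤ) ∣ S.ord P (ev f w)))
    (h0 : ∀ P, ((e : ℤ) ∣ S.ord P a ↔ (e : ℤ) ∣ S.ord P w))
    (h1 : ∀ P, ((e : ℤ) ∣ S.ord P (a - 1) ↔ (e : ℤ) ∣ S.ord P (w - 1)))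
    (hwa : w ≠ a) :
    G.natDegree * S.deg a - S.Lc (S.δ i a) ≤
      ∑ j ∈ Finset.range r, if 2 * j ≤ r then S.deg w + (p : ℤ) ^ j * S.deg a
        else (p : ℤ) ^ (r - j) * S.deg w + S.deg a := by
  have hfin : ∀ j, j < r → {P | 0 < S.ord P (zz p r a w j)}.Finite := fun j hj =>
    S.fin_pos (S.zz_ne hδa hδw hwa hj)
  refine (S.simple_zeros hG hδa).trans ?_
  refine (S.cnt_mono (B := fun P => ∃ j, j < r ∧ 0 < S.ord P (zz p r a w j)) ?_
    (S.zz_cover hG hr hGr he hδa hδw hst h0 h1 hwa)).trans ?_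
  · refine ((Set.finite_lt_nat r).biUnion hfin).subset ?_
    rintro P ⟨j, hj, hP⟩
    exact Set.mem_biUnion (show j ∈ {i | i < r} from hj) hP
  · refine (S.cnt_biUnion_le r _ hfin).trans (Finset.sum_le_sum fun j hj => ?_)
    exact (S.cnt_zeros_le (S.zz_ne hδa hδw hwa (Finset.mem_range.1 hj))).trans
      (S.zz_deg r a w j)

end PF

end UDV
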