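import Pool.Agent.UDV.CodeB

/-!
# UDV: codes of finite sets and of derivations

`q_j = Nat.nth Nat.Prime j`.

PROOFS.
* `seq_interval`: with `A₀ = q_N - 1`, `B₀ = q_{N + m} - 1` the primes `s` with `A₀ < s ≤ B₀` are
  exactly `q_N, ..., q_{N+m-1}`.
* `gen_code`: `l` = the list of the elements of `S`, `seq_code` with some `N ≥ N₀`;
  `A = t ^ (p ^ A₀)`, `B = t ^ (p ^ B₀)`, `m = l.length`.  If `Gen g` at `σ = t ^ (p ^ s)`, then
  `A₀ < s ≤ B₀` (exponents are unique, `num_inj`), so `s = q_{N+j}` and `g = l[j]`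
  (`dec_unique`).  Conversely clear.  `b`, `b'` are `NC` (`nc_of_not_pow`), `A`, `B` too
  (`NC.pow`).
* `ent_unique`: `y t = c t + 1` determines `c` from `y` (`t ≠ 0`); `dec_unique`.
* `mem_sound`: let the derivation be coded by `d, d', A', B'`.  By strong induction on the number
  `s`: if `σ = t ^ (p ^ s)` and `Ent σ c` then `c ∈ Subring.closure S`.  Indeed `Drv` applied to
  `σ` gives an entry `c₁` at `σ` satisfying the rule, `c₁ = c` by `ent_unique`; the rule: `c = 1`,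
  or `Gen c`, i.e. `c ∈ S`, or `c` is a sum or product of entries at smaller numbers.
-/

open Polynomial

namespace UDV

universe u

variable {p : ℕ} [Fact p.Prime] {K : Type u} [Field K] [CharP K p]

theorem seq_interval (N m s : ℕ) :
    (s.Prime ∧ Nat.nth Nat.Prime N - 1 < s ∧ s ≤ Nat.nth Nat.Prime (N + m) - 1) ↔
      ∃ j, j < m ∧ s = Nat.nth Nat.Prime (N + j) := by
  have hmono : StrictMono (Nat.nth Nat.Prime) := Nat.nth_strictMono Nat.infinite_setOf_prime
  have h2 : ∀ k, 2 ≤ Nat.nth Nat.Prime k := fun k => (Nat.prime_nth_prime k).two_le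
  constructor
  · rintro ⟨hs, h1, h3⟩
    have hk : Nat.nth Nat.Prime (Nat.count Nat.Prime s) = s := Nat.nth_count hs
    have hN := h2 N
    have hM := h2 (N + m)
    have h4 : N ≤ Nat.count Nat.Prime s := by
      rw [← hmono.le_iff_le, hk]
      omega
    have h5 : Nat.count Nat.Prime s < N + m := by
      rw [← hmono.lt_iff_lt, hk]
      omega
    refine ⟨Nat.count Nat.Prime s - N, by omega, ?_⟩
    rw [Nat.add_sub_cancel' h4, hk]
  · rintro ⟨j, hj, rfl⟩
    have hN := h2 N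
    have h4 : Nat.nth Nat.Prime N ≤ Nat.nth Nat.Prime (N + j) := hmono.monotone (Nat.le_add_right _ _)
    have h5 : Nat.nth Nat.Prime (N + j) < Nat.nth Nat.Prime (N + m) := hmono (by omega)
    exact ⟨Nat.prime_nth_prime _, by omega, by omega⟩

theorem gen_code (C : Chart p K) {t : K} (ht : NC p t) (S : Finset K) (hS : ∀ g ∈ S, NC p g) :
    ∃ b b' A B : K, NC p b ∧ NC p b' ∧ NC p A ∧ NC p B ∧ ∀ g, Gen p t b b' A B g ↔ g ∈ S := by
  classical
  obtain ⟨N, hN⟩ := seq_code C ht S.toList (fun y hy => hS y (Finset.mem_toList.mp hy))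
  obtain ⟨b, b', hb, hb', hdec⟩ := hN N le_rfl
  set A₀ := Nat.nth Nat.Prime N - 1 with hA₀
  set B₀ := Nat.nth Nat.Prime (N + S.toList.length) - 1 with hB₀
  refine ⟨b, b', t ^ (p ^ A₀), t ^ (p ^ B₀), nc_of_not_pow hb, nc_of_not_pow hb', ht.pow A₀,
    ht.pow B₀, fun g => ?_⟩
  constructor
  · rintro ⟨σ, ⟨-, s, hs, rfl⟩, ⟨-, s1, s2, h12, hA, hσ⟩, ⟨-, s3, s4, h34, hσ', hB⟩, hd⟩
    have e1 := num_inj ht hA
    have e2 := num_inj ht hσ
    have e3 := num_inj ht hσ'
    have e4 := num_inj ht hB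
    obtain ⟨j, hj, hsj⟩ := (seq_interval N S.toList.length s).mp
      ⟨hs, by rw [← hA₀, e1, e2]; exact h12, by rw [← hB₀, e4, e3]; exact h34⟩
    have h5 := hdec j hj
    rw [← hsj] at h5
    rw [dec_unique hd h5]
    exact Finset.mem_toList.mp (List.getElem_mem hj)
  · intro hg
    obtain ⟨j, hj, rfl⟩ := List.mem_iff_getElem.mp (Finset.mem_toList.mpr hg)
    obtain ⟨hp, h1, h2⟩ := (seq_interval N S.toList.length (Nat.nth Nat.Prime (N + j))).mpr
      ⟨j, hj, rfl⟩
    exact ⟨t ^ (p ^ (Nat.nth Nat.Prime (N + j))), ⟨ht, _, hp, rfl⟩, ⟨ht, _, _, h1, rfl, rfl⟩,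
      ⟨ht, _, _, h2, rfl, rfl⟩, hdec j hj⟩

theorem ent_unique {t d d' A' B' σ c c' : K} (ht : NC p t) (h : Ent p t d d' A' B' σ c)
    (h' : Ent p t d d' A' B' σ c') : c = c' := by
  have ht0 : t ≠ 0 := by
    rintro rfl
    have h2 : (Fact.out : p.Prime).two_le = (Fact.out : p.Prime).two_le := rfl
    have hp : 2 ≤ p := (Fact.out : p.Prime).two_le
    exact ht 1 one_pos (zero_pow (by rw [pow_one]; omega))
  obtain ⟨-, -, -, y, hy, hd⟩ := h
  obtain ⟨-, -, -, y', hy', hd'⟩ := h'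
  have hyy := dec_unique hd hd'
  rw [hyy, hy'] at hy
  have h1 : c' * t = c * t := by linear_combination hy
  exact (mul_right_cancel₀ ht0 h1).symm

theorem mem_sound {t b b' A B : K} (ht : NC p t) {S : Finset K}
    (hgen : ∀ g, Gen p t b b' A B g ↔ g ∈ S) {x : K} (h : Mem p t b b' A B x) :
    x ∈ Subring.closure (S : Set K) := by
  obtain ⟨d, d', A', B', hdrv, σ, hσ⟩ := h
  have key : ∀ (s : ℕ) (c : K), Ent p t d d' A' B' (t ^ (p ^ s)) c →
      c ∈ Subring.closure (S : Set K) := by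
    intro s
    induction s using Nat.strong_induction_on with
    | _ s ih =>
      intro c hc
      obtain ⟨h1, h2, h3, h4⟩ := hc
      obtain ⟨c₁, hc₁, hr⟩ := hdrv _ h1 h2 h3
      rw [ent_unique ht ⟨h1, h2, h3, h4⟩ hc₁]
      rcases hr with rfl | hg | ⟨σ₁, σ₂, e₁, e₂, hl₁, hl₂, he₁, he₂, hr⟩
      · exact one_mem _
      · exact Subring.subset_closure ((hgen _).mp hg)
      · obtain ⟨-, s1, s2, h12, rfl, hs2⟩ := hl₁
        obtain ⟨-, s3, s4, h34, rfl, hs4⟩ := hl₂
        have e2 := num_inj ht hs2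
        have e4 := num_inj ht hs4
        have m1 := ih s1 (by omega) e₁ he₁
        have m2 := ih s3 (by omega) e₂ he₂
        rcases hr with rfl | rfl
        · exact add_mem m1 m2
        · exact mul_mem m1 m2
  obtain ⟨-, s, -, rfl⟩ := hσ.1
  exact key s x hσ

end UDV
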