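import Pool.Agent.UDV.MemA

/-!
# UDV: completeness of derivations

PROOFS.
* `Der S l`: the list `l` is a derivation: every `l[i]` is `1`, or in `S`, or `l[j] + l[k]` or
  `l[j] * l[k]` with `j, k < i`.
* `der_append`: the concatenation of two derivations is a derivation (shift the indices of the second
  one).
* `exists_der`: the set of `x` which are members of a derivation contains `1` and `S` and is closed
  under `+` and `*` (concatenate, then append the sum resp. product).  It contains `-1 = p - 1`
  (characteristic `p`: `(p - 1)` times `1`, `p - 1 ≥ 1`) and `0 = 1 + (p-1)`, so it is closed under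
  negation (multiply by `-1`); use `Subring.closure_induction`.
* members of a derivation are in the closure: `der_mem` (strong induction on the index).
* `mem_complete`: let `l` be a derivation containing `x`.  All its members `c` are in the closure
  (`der_mem`), so `c + t⁻¹` is `NC`.  `seq_code` applied to the list `l.map (· + t⁻¹)` gives
  `N`, `d`, `d'`; `A' = t ^ (p ^ (q_N - 1))`, `B' = t ^ (p ^ (q_{N+m} - 1))`, `m = l.length`.  By
  `seq_interval` the prime numbers between them are the `q_{N+j}`, `j < m`, and the entry at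
  `q_{N+j}` is `l[j]`: `y = l[j] + t⁻¹`, `y * t = l[j] * t + 1`.  The rule: from `Der`
  (entries `j, k < i` are at smaller primes).
-/

open Polynomial

namespace UDV

universe u

variable {p : ℕ} [Fact p.Prime] {K : Type u} [Field K] [CharP K p]

/-- `l` is a derivation from `S`. -/
def Der (S : Finset K) (l : List K) : Prop :=
  ∀ (i : ℕ) (hi : i < l.length), l[i] = 1 ∨ l[i] ∈ S ∨
    ∃ (j k : ℕ) (hj : j < i) (hk : k < i), l[i] = l[j] + l[k] ∨ l[i] = l[j] * l[k]

theorem der_mem {S : Finset K} {l : List K} (h : Der S l) {x : K} (hx : x ∈ l) :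
    x ∈ Subring.closure (S : Set K) := by
  have key : ∀ (i : ℕ) (hi : i < l.length), l[i] ∈ Subring.closure (S : Set K) := by
    intro i
    induction i using Nat.strong_induction_on with
    | _ i ih =>
      intro hi
      rcases h i hi with h1 | h1 | ⟨j, k, hj, hk, h1 | h1⟩
      · rw [h1]
        exact Subring.one_mem _
      · exact Subring.subset_closure (by exact_mod_cast h1)
      · rw [h1]
        exact Subring.add_mem _ (ih j hj (by omega)) (ih k hk (by omega))
      · rw [h1]
        exact Subring.mul_mem _ (ih j hj (by omega)) (ih k hk (by omega))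
  obtain ⟨i, hi, rfl⟩ := List.mem_iff_getElem.1 hx
  exact key i hi

theorem der_append {S : Finset K} {l l' : List K} (h : Der S l) (h' : Der S l') :
    Der S (l ++ l') := by
  intro i hi
  rw [List.length_append] at hi
  by_cases hil : i < l.length
  · have e : (l ++ l')[i]'(by rw [List.length_append]; exact hi) = l[i] :=
      List.getElem_append_left hil
    rw [e]
    rcases h i hil with h1 | h1 | ⟨j, k, hj, hk, h1⟩
    · exact Or.inl h1
    · exact Or.inr (Or.inl h1)
    · refine Or.inr (Or.inr ⟨j, k, hj, hk, ?_⟩)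
      have ej : (l ++ l')[j]'(by rw [List.length_append]; omega) = l[j] :=
        List.getElem_append_left (by omega)
      have ek : (l ++ l')[k]'(by rw [List.length_append]; omega) = l[k] :=
        List.getElem_append_left (by omega)
      rw [ej, ek]
      exact h1
  · have hil' : l.length ≤ i := by omega
    have hlt : i - l.length < l'.length := by omega
    have e : (l ++ l')[i]'(by rw [List.length_append]; exact hi) = l'[i - l.length] :=
      List.getElem_append_right hil'
    rw [e]
    rcases h' (i - l.length) hlt with h1 | h1 | ⟨j, k, hj, hk, h1⟩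
    · exact Or.inl h1
    · exact Or.inr (Or.inl h1)
    · refine Or.inr (Or.inr ⟨l.length + j, l.length + k, by omega, by omega, ?_⟩)
      have ej : (l ++ l')[l.length + j]'(by rw [List.length_append]; omega) = l'[j] := by
        rw [List.getElem_append_right (by omega)]
        simp
      have ek : (l ++ l')[l.length + k]'(by rw [List.length_append]; omega) = l'[k] := by
        rw [List.getElem_append_right (by omega)]
        simp
      rw [ej, ek]
      exact h1

theorem der_snoc {S : Finset K} {l : List K} (h : Der S l) {z : K}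
    (hz : z = 1 ∨ z ∈ S ∨ ∃ x ∈ l, ∃ y ∈ l, z = x + y ∨ z = x * y) : Der S (l ++ [z]) := by
  intro i hi
  rw [List.length_append, List.length_singleton] at hi
  by_cases hil : i < l.length
  · have e : (l ++ [z])[i]'(by rw [List.length_append, List.length_singleton]; exact hi) = l[i] :=
      List.getElem_append_left hil
    rw [e]
    rcases h i hil with h1 | h1 | ⟨j, k, hj, hk, h1⟩
    · exact Or.inl h1
    · exact Or.inr (Or.inl h1)
    · refine Or.inr (Or.inr ⟨j, k, hj, hk, ?_⟩)
      have ej : (l ++ [z])[j]'(by rw [List.length_append, List.length_singleton]; omega) = l[j] :=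
        List.getElem_append_left (by omega)
      have ek : (l ++ [z])[k]'(by rw [List.length_append, List.length_singleton]; omega) = l[k] :=
        List.getElem_append_left (by omega)
      rw [ej, ek]
      exact h1
  · have hie : i = l.length := by omega
    subst hie
    have e : (l ++ [z])[l.length]'(by
        rw [List.length_append, List.length_singleton]; exact hi) = z := by
      simp
    rw [e]
    rcases hz with h1 | h1 | ⟨x, hx, y, hy, h1⟩
    · exact Or.inl h1
    · exact Or.inr (Or.inl h1)
    · obtain ⟨j, hj, rfl⟩ := List.mem_iff_getElem.1 hx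
      obtain ⟨k, hk, rfl⟩ := List.mem_iff_getElem.1 hy
      refine Or.inr (Or.inr ⟨j, k, hj, hk, ?_⟩)
      have ej : (l ++ [z])[j]'(by rw [List.length_append, List.length_singleton]; omega) = l[j] :=
        List.getElem_append_left hj
      have ek : (l ++ [z])[k]'(by rw [List.length_append, List.length_singleton]; omega) = l[k] :=
        List.getElem_append_left hk
      rw [ej, ek]
      exact h1

include p in
theorem exists_der {S : Finset K} {x : K} (hx : x ∈ Subring.closure (S : Set K)) :
    ∃ l : List K, Der S l ∧ x ∈ l := by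
  have hnil : Der S ([] : List K) := by
    intro i hi
    simp at hi
  have hone : ∃ l : List K, Der S l ∧ (1 : K) ∈ l :=
    ⟨[] ++ [1], der_snoc hnil (Or.inl rfl), by simp⟩
  have hadd : ∀ {x y : K}, (∃ l : List K, Der S l ∧ x ∈ l) → (∃ l : List K, Der S l ∧ y ∈ l) →
      ∃ l : List K, Der S l ∧ x + y ∈ l := by
    rintro x y ⟨l, hl, hxl⟩ ⟨l', hl', hyl⟩
    refine ⟨(l ++ l') ++ [x + y], der_snoc (der_append hl hl') ?_, by simp⟩
    exact Or.inr (Or.inr ⟨x, List.mem_append_left _ hxl, y, List.mem_append_right _ hyl,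
      Or.inl rfl⟩)
  have hmul : ∀ {x y : K}, (∃ l : List K, Der S l ∧ x ∈ l) → (∃ l : List K, Der S l ∧ y ∈ l) →
      ∃ l : List K, Der S l ∧ x * y ∈ l := by
    rintro x y ⟨l, hl, hxl⟩ ⟨l', hl', hyl⟩
    refine ⟨(l ++ l') ++ [x * y], der_snoc (der_append hl hl') ?_, by simp⟩
    exact Or.inr (Or.inr ⟨x, List.mem_append_left _ hxl, y, List.mem_append_right _ hyl,
      Or.inr rfl⟩)
  have hnat : ∀ n : ℕ, ∃ l : List K, Der S l ∧ ((n + 1 : ℕ) : K) ∈ l := by
    intro n
    induction n with
    | zero => simpa using hone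
    | succ n ih =>
      have := hadd ih hone
      have e : ((n + 1 + 1 : ℕ) : K) = ((n + 1 : ℕ) : K) + 1 := by push_cast; ring
      rw [e]
      exact this
  have hp2 : 2 ≤ p := (Fact.out : p.Prime).two_le
  have hneg1 : ∃ l : List K, Der S l ∧ (-1 : K) ∈ l := by
    have h := hnat (p - 2)
    have e : ((p - 2 + 1 : ℕ) : K) = -1 := by
      have h1 : ((p - 2 + 1 + 1 : ℕ) : K) = 0 := by
        have : p - 2 + 1 + 1 = p := by omega
        rw [this]
        exact CharP.cast_eq_zero K p
      have h2 : ((p - 2 + 1 + 1 : ℕ) : K) = ((p - 2 + 1 : ℕ) : K) + 1 := by push_cast; ring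
      rw [h2] at h1
      exact eq_neg_of_add_eq_zero_left h1
    rw [e] at h
    exact h
  have hzero : ∃ l : List K, Der S l ∧ (0 : K) ∈ l := by
    have h := hadd hone hneg1
    rwa [add_neg_cancel] at h
  induction hx using Subring.closure_induction with
  | mem x hx =>
    exact ⟨[] ++ [x], der_snoc hnil (Or.inr (Or.inl (by exact_mod_cast hx))), by simp⟩
  | zero => exact hzero
  | one => exact hone
  | add x y _ _ hx hy => exact hadd hx hy
  | neg x _ hx =>
    have h := hmul hneg1 hx
    rwa [neg_one_mul] at h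
  | mul x y _ _ hx hy => exact hmul hx hy

theorem mem_complete (C : Chart p K) {t b b' A B : K} (ht : NC p t) {S : Finset K}
    (hgen : ∀ g, Gen p t b b' A B g ↔ g ∈ S)
    (hnc : ∀ c ∈ Subring.closure (S : Set K), NC p (c + t⁻¹)) {x : K}
    (hx : x ∈ Subring.closure (S : Set K)) : Mem p t b b' A B x := by
  obtain ⟨l, hl, hxl⟩ := exists_der (p := p) hx
  have hp0 : p ≠ 0 := (Fact.out : p.Prime).ne_zero
  have ht0 : t ≠ 0 := by
    rintro rfl
    exact ht 1 one_pos (by rw [pow_one, zero_pow hp0])
  obtain ⟨N, hN⟩ := seq_code C ht (l.map (· + t⁻¹)) (by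
    intro y hy
    obtain ⟨c, hc, rfl⟩ := List.mem_map.1 hy
    exact hnc c (der_mem hl hc))
  obtain ⟨d, d', -, -, hdec⟩ := hN N le_rfl
  -- the entries
  have hE : ∀ (j : ℕ) (hj : j < l.length),
      Ent p t d d' (t ^ (p ^ (Nat.nth Nat.Prime N - 1)))
        (t ^ (p ^ (Nat.nth Nat.Prime (N + l.length) - 1)))
        (t ^ (p ^ (Nat.nth Nat.Prime (N + j)))) l[j] := by
    intro j hj
    obtain ⟨h1, h2, h3⟩ := (seq_interval N l.length (Nat.nth Nat.Prime (N + j))).2 ⟨j, hj, rfl⟩
    refine ⟨⟨ht, _, h1, rfl⟩, ⟨ht, _, _, h2, rfl, rfl⟩, ⟨ht, _, _, h3, rfl, rfl⟩,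
      l[j] + t⁻¹, ?_, ?_⟩
    · rw [add_mul, inv_mul_cancel₀ ht0]
    · have h4 := hdec j (by rw [List.length_map]; exact hj)
      rw [List.getElem_map] at h4
      exact h4
  obtain ⟨i, hi, rfl⟩ := List.mem_iff_getElem.1 hxl
  refine ⟨d, d', t ^ (p ^ (Nat.nth Nat.Prime N - 1)),
    t ^ (p ^ (Nat.nth Nat.Prime (N + l.length) - 1)), ?_, _, hE i hi⟩
  rintro σ ⟨-, s, hs, rfl⟩ ⟨-, s1, s2, hs12, hA, hσ⟩ ⟨-, s3, s4, hs34, hσ', hB⟩
  have e1 := num_inj ht hA
  have e2 := num_inj ht hσ
  have e3 := num_inj ht hσ'
  have e4 := num_inj ht hB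
  obtain ⟨j, hj, hsj⟩ := (seq_interval N l.length s).1 ⟨hs, by omega, by omega⟩
  subst hsj
  refine ⟨l[j], hE j hj, ?_⟩
  rcases hl j hj with h1 | h1 | ⟨j1, j2, hj1, hj2, h1⟩
  · exact Or.inl h1
  · exact Or.inr (Or.inl ((hgen _).2 h1))
  · refine Or.inr (Or.inr ⟨_, _, l[j1], l[j2], ?_, ?_, hE j1 (by omega), hE j2 (by omega), h1⟩)
    · exact ⟨ht, _, _, Nat.nth_strictMono Nat.infinite_setOfPred_prime (by omega), rfl, rfl⟩
    · exact ⟨ht, _, _, Nat.nth_strictMono Nat.infinite_setOfPred_prime (by omega), rfl, rfl⟩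

end UDV
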