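import Pool.Agent.UDV.Upper

/-!
# UDV: most zeros of `G(a)` are simple

PROOF of `simple_zeros`.  Let `g = ev G a`, `y = δ i a ≠ 0`; `NC p a` by `nc_of_delta`, `g ≠ 0`.
For a place `P` with `k = ord P g ≥ 2`: as in `UDV.Upper` (a), `0 ≤ ord P a`,
`ord P (ev G' a) = 0`, `δ g = ev G' a * y` (`delta_ev`), so
`k - 1 - b P ≤ ord P (δ g) = ord P y`, and `k ≤ 2 (k - 1) ≤ 2 (ord P y + b P)
≤ 2 (max 0 (ord P y) + b P)`.
So `G.natDegree * deg a = deg g = ∑ wt P * max 0 (ord P g) ≤ cnt (ord P g = 1) +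
2 ∑ wt P (max 0 (ord P y) + b P)`.

PROOF of `exists_simple`: the count is positive, so there is `P` with `ord P (ev G a) = 1`;
`exists_factor`.
-/

open Polynomial

namespace UDV

universe u

namespace PF

variable {p : ℕ} {L : Type u} [Field L] (S : PF p L) [Fact p.Prime] [CharP L p]

theorem simple_zeros {G : (ZMod p)[X]} (hG : G.Separable) {a : L} {i : Fin S.d}
    (hδ : S.δ i a ≠ 0) :
    G.natDegree * S.deg a - S.Lc (S.δ i a) ≤ S.cnt (fun P => S.ord P (ev G a) = 1) := by
  classical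
  have hNC : NC p a := S.nc_of_delta hδ
  have hG0 : G ≠ 0 := hG.ne_zero
  have hg : ev G a ≠ 0 := ev_ne_zero hNC hG0
  obtain ⟨T₀, hT₀⟩ := S.exists_finset {ev G a, a, S.δ i a}
  set T : Finset S.I := T₀ ∪ S.b_fin.toFinset with hT
  have hTg : ∀ P, P ∉ T → S.ord P (ev G a) = 0 := by
    intro P hP
    apply hT₀ _ (by simp) P
    intro h
    exact hP (Finset.mem_union_left _ h)
  have hTy : ∀ P, P ∉ T → S.ord P (S.δ i a) = 0 := by
    intro P hP
    apply hT₀ _ (by simp) P
    intro h
    exact hP (Finset.mem_union_left _ h)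
  have hTb : ∀ P, P ∉ T → S.b P = 0 := by
    intro P hP
    by_contra h
    apply hP
    apply Finset.mem_union_right
    rw [Set.Finite.mem_toFinset]
    exact h
  have hdeg : S.deg (ev G a) = ∑ P ∈ T, (S.wt P : ℤ) * max 0 (S.ord P (ev G a)) := by
    rw [S.deg_zeros hg]
    apply finsum_eq_sum_of_support_subset
    intro P hP
    by_contra hPT
    apply hP
    have : S.ord P (ev G a) = 0 := hTg P (by simpa using hPT)
    simp [this]
  have hLc : S.Lc (S.δ i a) =
      2 * ∑ P ∈ T, (S.wt P : ℤ) * (max 0 (S.ord P (S.δ i a)) + (S.b P : ℤ)) := by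
    unfold PF.Lc
    congr 1
    apply finsum_eq_sum_of_support_subset
    intro P hP
    by_contra hPT
    apply hP
    have h1 : S.ord P (S.δ i a) = 0 := hTy P (by simpa using hPT)
    have h2 : S.b P = 0 := hTb P (by simpa using hPT)
    simp [h1, h2]
  have hcnt := S.cnt_finset (fun P => S.ord P (ev G a) = 1) T (by
    intro P hP
    by_contra hPT
    have := hTg P hPT
    have hP' : S.ord P (ev G a) = 1 := hP
    omega)
  rw [hcnt, hLc, ← S.deg_ev hNC hG0, hdeg, Finset.mul_sum, sub_le_iff_le_add,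
    ← Finset.sum_add_distrib]
  apply Finset.sum_le_sum
  intro P _
  have hw : (0 : ℤ) ≤ (S.wt P : ℤ) := Int.natCast_nonneg _
  have hb : (0 : ℤ) ≤ (S.b P : ℤ) := Int.natCast_nonneg _
  have hm : (0 : ℤ) ≤ max 0 (S.ord P (S.δ i a)) := le_max_left _ _
  have hrhs : 0 ≤ 2 * ((S.wt P : ℤ) * (max 0 (S.ord P (S.δ i a)) + (S.b P : ℤ))) := by positivity
  rcases le_or_gt (S.ord P (ev G a)) 0 with h0 | h0
  · rw [max_eq_left h0]
    have h1 : ¬ S.ord P (ev G a) = 1 := by omega
    simp only [h1, if_false]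
    simpa using hrhs
  · rcases eq_or_ne (S.ord P (ev G a)) 1 with h1 | h1
    · simp only [h1, if_true]
      have : max (0 : ℤ) 1 = 1 := by norm_num
      rw [this]
      linarith
    · have h2 : 2 ≤ S.ord P (ev G a) := by omega
      have ha : 0 ≤ S.ord P a := by
        by_contra hlt
        push Not at hlt
        have := (S.ev_pole P hlt hG0).2
        have h3 : (G.natDegree : ℤ) * S.ord P a ≤ 0 :=
          mul_nonpos_of_nonneg_of_nonpos (Int.natCast_nonneg _) hlt.le
        omega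
      have hcop : IsCoprime G (derivative G) := hG
      have hv := S.van_coprime P ha hcop
      have hvg : S.Van P (ev G a) := Or.inr h0
      have hv' : ¬ S.Van P (ev (derivative G) a) := fun h => hv ⟨hvg, h⟩
      unfold PF.Van at hv'
      push Not at hv'
      have hi := S.ev_int P ha (derivative G)
      have ho : S.ord P (ev (derivative G) a) = 0 := le_antisymm hv'.2 hi
      have hd : S.δ i (ev G a) = ev (derivative G) a * S.δ i a := delta_ev _ _ _
      have hd0 : S.δ i (ev G a) ≠ 0 := by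
        rw [hd]
        exact mul_ne_zero hv'.1 hδ
      have hord := S.δ_ord P i hg hd0
      rw [hd, S.ord_mul P hv'.1 hδ, ho, zero_add] at hord
      have hmx : S.ord P (S.δ i a) ≤ max 0 (S.ord P (S.δ i a)) := le_max_right _ _
      simp only [h1, if_false]
      rw [max_eq_right h0.le, zero_add]
      have : S.ord P (ev G a) ≤ 2 * (max 0 (S.ord P (S.δ i a)) + (S.b P : ℤ)) := by linarith
      calc (S.wt P : ℤ) * S.ord P (ev G a) ≤
          (S.wt P : ℤ) * (2 * (max 0 (S.ord P (S.δ i a)) + (S.b P : ℤ))) :=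
            mul_le_mul_of_nonneg_left this hw
        _ = _ := by ring

theorem exists_simple {G : (ZMod p)[X]} (hG : G.Separable) {a : L} {i : Fin S.d}
    (hδ : S.δ i a ≠ 0) (h : S.Lc (S.δ i a) < G.natDegree * S.deg a) :
    ∃ (P : S.I) (f : (ZMod p)[X]), Irreducible f ∧ f ∣ G ∧ S.ord P (ev f a) = 1 := by
  have h1 := S.simple_zeros hG hδ
  have h2 : 0 < S.cnt (fun P => S.ord P (ev G a) = 1) := by linarith
  obtain ⟨P, hP⟩ := S.exists_of_cnt_pos h2
  have hP1 : S.ord P (ev G a) = 1 := hP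
  obtain ⟨f, g, hf, hfg, -, ho⟩ := S.exists_factor P (S.nc_of_delta hδ) hG (by omega)
  exact ⟨P, f, hf, ⟨g, hfg⟩, by rw [ho, hP1]⟩

end PF

end UDV
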