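import Pool.Agent.UDV.Cnt
import Pool.Agent.UDV.Eval

/-!
# UDV: the upper bound for the degree of `w`

PROOF.  Put `R = natDegree G`, `g = ev G w`, `n = deg w`, `m = deg a`.  `g ≠ 0` (`ev_ne_zero`).
Derivation: `δ (ev G w) = ev (derivative G) w * δ w` (`Derivation` on `ℤ`-algebras; prove by
`Polynomial.induction_on'`, constants of `ZMod p` have derivative `0` because they are images of
integers).
Let `Z` be the set of places with `0 < ord P g`.

(a) For `P ∈ Z` we have `0 ≤ ord P w` (`ev_pole`: otherwise `ord P g = R * ord P w < 0`).  As `G`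
is separable, `G` and `G'` are coprime, so `ev G' w` does not vanish at `P` (`van_coprime`) and
`ord P (ev G' w) = 0` (`ev_int`).  So `δ g ≠ 0`, `ord P (δ w) = ord P (δ g) ≥ ord P g - 1 - b P`.
(b) For `P ∉ Z` with `0 ≤ ord P w` : `ord P (δ w) ≥ - b P` (`δ_int`; `w ≠ 0`).
(c) For `ord P w < 0`: `ord P (δ w) ≥ ord P w - 1 - b P ≥ 2 * ord P w - b P`.

Summing `wt P * ...` over a finset `T` containing everything (`exists_finset`, `b_fin`):
`0 = ∑ wt P * ord P (δ w) ≥ ∑_{P ∈ Z} wt P (ord P g - 1) - 2 n - B`.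

(d) `∑_{P ∈ Z} wt P * ord P g = deg g = R n` (`deg_zeros`, `deg_ev`).
(e) Let `Z'` be the set of `P ∈ Z` with `¬ e ∣ ord P g`.  For `P ∈ Z` with `e ∣ ord P g`:
`e (ord P g - 1) ≥ (e-1) ord P g` (as `ord P g ≥ e`), for `P ∈ Z'`:
`e (ord P g - 1) ≥ (e - 1) (ord P g - 1)`.
So `e (2 n + B) ≥ e ∑_{Z} wt (ord P g - 1) ≥ (e-1) (R n - cnt Z')`.
(f) `cnt Z' ≤ (R + 1) m`: let `P ∈ Z'`.  Write `G` as a product of irreducible factors
(`UniqueFactorizationMonoid`), `g = ∏ ev f_i w` up to a nonzero constant; some `f = f_i` has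
`0 < ord P (ev f w)`, and as `G` is squarefree (separable) `G = f * h` with `f`, `h` coprime, so
`ord P (ev h w) = 0` (`van_coprime`, `ev_int`) and `ord P (ev f w) = ord P g`.
By `hst`, `¬ e ∣ ord P (ev f a)`, so `ord P (ev f a) ≠ 0`.  If `0 ≤ ord P a` then
`0 < ord P (ev f a)` (`ev_int`) and `0 < ord P (ev G a)` (as `ord P (ev h a) ≥ 0`).  Hence `P` is a
zero of `ev G a` or a pole of `a`; `cnt_or_le`, `cnt_zeros_le`, `cnt_poles_le`, `deg_ev`.
-/

open Polynomial

namespace UDV

universe u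

theorem upper_ev_zero {p : ℕ} {L : Type u} [Field L] [CharP L p] (a : L) :
    ev (0 : (ZMod p)[X]) a = 0 := by
  unfold ev
  exact Polynomial.eval₂_zero _ _

theorem upper_ev_C {p : ℕ} {L : Type u} [Field L] [CharP L p] (c : ZMod p) (a : L) :
    ev (C c) a = ZMod.castHom (dvd_refl p) L c := by
  unfold ev
  exact Polynomial.eval₂_C _ _

theorem upper_ev_mul {p : ℕ} {L : Type u} [Field L] [CharP L p] (f g : (ZMod p)[X]) (a : L) :
    ev (f * g) a = ev f a * ev g a := by
  unfold ev
  exact Polynomial.eval₂_mul _ _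

namespace PF

variable {p : ℕ} {L : Type u} [Field L] (S : PF p L) [Fact p.Prime] [CharP L p]

/-- chain rule -/
theorem delta_ev (D : Derivation ℤ L L) (G : (ZMod p)[X]) (w : L) :
    D (ev G w) = ev (derivative G) w * D w := by
  have hc : ∀ c : ZMod p, D (ZMod.castHom (dvd_refl p) L c) = 0 := by
    intro c
    have h1 : c = ((c.val : ℕ) : ZMod p) := (ZMod.natCast_zmod_val c).symm
    rw [h1, map_natCast]
    exact Derivation.map_natCast D _
  unfold ev
  induction G using Polynomial.induction_on' with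
  | add f g hf hg =>
    rw [Polynomial.eval₂_add, map_add, hf, hg, derivative_add, Polynomial.eval₂_add, add_mul]
  | monomial n c =>
    rw [Polynomial.eval₂_monomial, Derivation.leibniz, hc, smul_zero, add_zero,
      Derivation.leibniz_pow, Polynomial.derivative_monomial, Polynomial.eval₂_monomial, map_mul,
      map_natCast]
    simp only [smul_eq_mul, nsmul_eq_mul]
    ring

/-- an irreducible factor carries the whole valuation -/
theorem exists_factor (P : S.I) {w : L} (hw : NC p w) {G : (ZMod p)[X]} (hG : G.Separable)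
    (hP : 0 < S.ord P (ev G w)) :
    ∃ f h : (ZMod p)[X], Irreducible f ∧ G = f * h ∧ IsCoprime f h ∧
      S.ord P (ev f w) = S.ord P (ev G w) := by
  have hpole : 0 ≤ S.ord P w := by
    by_contra hneg
    push Not at hneg
    have h1 := (S.ev_pole P hneg hG.ne_zero).2
    rw [h1] at hP
    have h2 : (0 : ℤ) ≤ (G.natDegree : ℤ) := Int.natCast_nonneg _
    nlinarith
  have key : ∀ F : (ZMod p)[X], 0 < S.ord P (ev F w) →
      ∃ f : (ZMod p)[X], Irreducible f ∧ f ∣ F ∧ 0 < S.ord P (ev f w) := by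
    intro F
    induction F using WfDvdMonoid.induction_on_irreducible with
    | zero =>
      intro h
      rw [upper_ev_zero, S.ord_zero] at h
      exact absurd h (lt_irrefl _)
    | unit u hu =>
      intro h
      obtain ⟨c, _, rfl⟩ := Polynomial.isUnit_iff.mp hu
      rw [upper_ev_C, S.ord_const] at h
      exact absurd h (lt_irrefl _)
    | mul F i hF hi ih =>
      intro h
      rw [upper_ev_mul, S.ord_mul P (ev_ne_zero hw hi.ne_zero) (ev_ne_zero hw hF)] at h
      by_cases h1 : 0 < S.ord P (ev i w)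
      · exact ⟨i, hi, dvd_mul_right _ _, h1⟩
      · obtain ⟨f, hf, hd, hp⟩ := ih (by linarith [not_lt.mp h1])
        exact ⟨f, hf, dvd_mul_of_dvd_right hd _, hp⟩
  obtain ⟨f, hf, ⟨h, rfl⟩, hfp⟩ := key G hP
  have hco : IsCoprime f h := hG.isCoprime
  have hh0 : h ≠ 0 := right_ne_zero_of_mul hG.ne_zero
  refine ⟨f, h, hf, rfl, hco, ?_⟩
  have h1 := S.van_coprime P hpole hco
  have h2 : ¬ S.Van P (ev h w) := fun hv => h1 ⟨Or.inr hfp, hv⟩
  have h3 : ¬ 0 < S.ord P (ev h w) := fun hv => h2 (Or.inr hv)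
  have h4 := S.ev_int P hpole h
  rw [upper_ev_mul, S.ord_mul P (ev_ne_zero hw hf.ne_zero) (ev_ne_zero hw hh0)]
  omega

theorem upper {G : (ZMod p)[X]} (hG : G.Separable) (hG0 : 0 < G.natDegree) {e : ℕ} (he : 2 ≤ e)
    {a w : L} (ha : NC p a) {i : Fin S.d} (hδ : S.δ i w ≠ 0)
    (hst : ∀ f : (ZMod p)[X], Irreducible f → f ∣ G → ∀ P,
      ((e : ℤ) ∣ S.ord P (ev f a) ↔ (e : ℤ) ∣ S.ord P (ev f w))) :
    ((e : ℤ) - 1) * (G.natDegree * S.deg w - (G.natDegree + 1) * S.deg a) ≤
      e * (2 * S.deg w + S.B) := by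
  classical
  have hw : NC p w := S.nc_of_delta hδ
  have hG0' : G ≠ 0 := hG.ne_zero
  set g : L := ev G w with hg
  have hgne : g ≠ 0 := ev_ne_zero hw hG0'
  have hw0 : w ≠ 0 := by
    rintro rfl
    rw [map_zero] at hδ
    exact hδ rfl
  -- a finite set of places
  obtain ⟨T0, hT0⟩ := S.exists_finset {w, g, S.δ i w}
  set T : Finset S.I := T0 ∪ S.b_fin.toFinset with hT
  have hTw : ∀ P, P ∉ T → S.ord P w = 0 := fun P hP =>
    hT0 w (by simp) P (fun h => hP (Finset.mem_union_left _ h))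
  have hTg : ∀ P, P ∉ T → S.ord P g = 0 := fun P hP =>
    hT0 g (by simp) P (fun h => hP (Finset.mem_union_left _ h))
  have hTd : ∀ P, P ∉ T → S.ord P (S.δ i w) = 0 := fun P hP =>
    hT0 (S.δ i w) (by simp) P (fun h => hP (Finset.mem_union_left _ h))
  have hTb : ∀ P, P ∉ T → S.b P = 0 := by
    intro P hP
    by_contra hb
    exact hP (Finset.mem_union_right _ ((Set.Finite.mem_toFinset _).mpr hb))
  have hprod := S.prod_finset hδ T hTd
  have hdegw := S.deg_finset w T hTw
  have hB : S.B = ∑ P ∈ T, (S.wt P : ℤ) * (S.b P : ℤ) := by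
    unfold PF.B
    apply finsum_eq_sum_of_support_subset
    intro P hP
    by_contra hPT
    apply hP
    simp only
    rw [hTb P hPT]
    simp
  have hdegg : S.deg g = ∑ P ∈ T, (S.wt P : ℤ) * max 0 (S.ord P g) := by
    rw [S.deg_zeros hgne]
    apply finsum_eq_sum_of_support_subset
    intro P hP
    by_contra hPT
    apply hP
    simp only
    rw [hTg P hPT]
    simp
  have hdg : S.deg g = G.natDegree * S.deg w := S.deg_ev hw hG0'
  -- the local inequality
  have hloc : ∀ P, (if 0 < S.ord P g then S.ord P g - 1 else 0) - 2 * max 0 (-(S.ord P w)) - S.b P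
      ≤ S.ord P (S.δ i w) := by
    intro P
    by_cases hZ : 0 < S.ord P g
    · rw [if_pos hZ]
      have hpole : 0 ≤ S.ord P w := by
        by_contra hneg
        push Not at hneg
        have h1 := (S.ev_pole P hneg hG0').2
        rw [← hg] at h1
        rw [h1] at hZ
        have h2 : (0 : ℤ) ≤ (G.natDegree : ℤ) := Int.natCast_nonneg _
        nlinarith
      rw [max_eq_left (by omega : -(S.ord P w) ≤ 0)]
      have hv := S.van_coprime P hpole hG
      have h2 : ¬ S.Van P (ev (derivative G) w) := fun h => hv ⟨Or.inr hZ, h⟩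
      have h3 : ev (derivative G) w ≠ 0 := fun h => h2 (Or.inl h)
      have h4 : ¬ 0 < S.ord P (ev (derivative G) w) := fun h => h2 (Or.inr h)
      have h5 := S.ev_int P hpole (derivative G)
      have h6 : S.δ i g = ev (derivative G) w * S.δ i w := delta_ev _ G w
      have h7 : S.δ i g ≠ 0 := by
        rw [h6]
        exact mul_ne_zero h3 hδ
      have h8 := S.δ_ord P i hgne h7
      rw [h6, S.ord_mul P h3 hδ] at h8
      omega
    · rw [if_neg hZ]
      by_cases hpole : 0 ≤ S.ord P w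
      · have h1 := S.δ_int P i hw0 hpole hδ
        rw [max_eq_left (by omega : -(S.ord P w) ≤ 0)]
        omega
      · push Not at hpole
        have h1 := S.δ_ord P i hw0 hδ
        rw [max_eq_right (by omega : 0 ≤ -(S.ord P w))]
        omega
  set Z' : S.I → Prop := fun P => 0 < S.ord P g ∧ ¬ (e : ℤ) ∣ S.ord P g with hZ'
  have hcnt : S.cnt Z' = ∑ P ∈ T, if Z' P then (S.wt P : ℤ) else 0 := by
    have := S.cnt_finset Z' T (fun P hP => by
      by_contra hPT
      have h1 := hP.1
      rw [hTg P hPT] at h1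
      exact lt_irrefl _ h1)
    rw [this]
    refine Finset.sum_congr rfl fun P _ => ?_
    by_cases h : Z' P
    · rw [if_pos h, if_pos h]
    · rw [if_neg h, if_neg h]
  have he' : (2 : ℤ) ≤ (e : ℤ) := by exact_mod_cast he
  -- summation
  have hsum : ((e : ℤ) - 1) * (S.deg g - S.cnt Z') ≤ e * (2 * S.deg w + S.B) := by
    have h1 : ((e : ℤ) - 1) * (S.deg g - S.cnt Z') =
        ∑ P ∈ T, (S.wt P : ℤ) * (((e : ℤ) - 1) * (max 0 (S.ord P g) - if Z' P then 1 else 0)) := by
      rw [hdegg, hcnt, ← Finset.sum_sub_distrib, Finset.mul_sum]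
      refine Finset.sum_congr rfl fun P _ => ?_
      split_ifs <;> ring
    have h2 : (e : ℤ) * (2 * S.deg w + S.B) =
        ∑ P ∈ T, (S.wt P : ℤ) * (e * (2 * max 0 (-(S.ord P w)) + S.b P + S.ord P (S.δ i w))) := by
      have h3 : (e : ℤ) * (2 * S.deg w + S.B) = (e : ℤ) * (2 * S.deg w + S.B) +
          e * ∑ P ∈ T, (S.wt P : ℤ) * S.ord P (S.δ i w) := by
        rw [hprod]
        ring
      rw [h3, hdegw, hB, Finset.mul_sum (a := (2 : ℤ)), ← Finset.sum_add_distrib, ← mul_add,
        ← Finset.sum_add_distrib, Finset.mul_sum]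
      refine Finset.sum_congr rfl fun P _ => ?_
      ring
    rw [h1, h2]
    refine Finset.sum_le_sum fun P _ => ?_
    apply mul_le_mul_of_nonneg_left _ (Int.natCast_nonneg _)
    have h3 := hloc P
    by_cases hZ : 0 < S.ord P g
    · rw [if_pos hZ] at h3
      rw [max_eq_right hZ.le]
      by_cases hd : (e : ℤ) ∣ S.ord P g
      · rw [if_neg (fun h : Z' P => h.2 hd)]
        have h4 : (e : ℤ) ≤ S.ord P g := Int.le_of_dvd hZ hd
        nlinarith
      · rw [if_pos (⟨hZ, hd⟩ : Z' P)]
        nlinarith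
    · rw [if_neg hZ] at h3
      rw [max_eq_left (not_lt.mp hZ), if_neg (fun h : Z' P => hZ h.1)]
      have h4 : 0 ≤ 2 * max 0 (-(S.ord P w)) + (S.b P : ℤ) + S.ord P (S.δ i w) := by linarith
      have h5 : (0 : ℤ) ≤ (e : ℤ) * (2 * max 0 (-(S.ord P w)) + (S.b P : ℤ) + S.ord P (S.δ i w)) :=
        mul_nonneg (by linarith) h4
      linarith
  -- the number of places of `Z'`
  have hZcnt : S.cnt Z' ≤ (G.natDegree + 1) * S.deg a := by
    have hfin1 : {P | 0 < S.ord P (ev G a)}.Finite := S.fin_pos (ev_ne_zero ha hG0')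
    have hfin2 : {P | S.ord P a < 0}.Finite := S.fin_neg a
    have hfin : {P | 0 < S.ord P (ev G a) ∨ S.ord P a < 0}.Finite := by
      rw [Set.ofPred_or]
      exact hfin1.union hfin2
    have h1 : S.cnt Z' ≤ S.cnt (fun P => 0 < S.ord P (ev G a) ∨ S.ord P a < 0) := by
      refine S.cnt_mono hfin ?_
      intro P hP
      obtain ⟨f, h, hf, hGfh, hco, hord⟩ := S.exists_factor P hw hG hP.1
      have hfG : f ∣ G := ⟨h, hGfh⟩
      have hh0 : h ≠ 0 := by
        rintro rfl
        rw [mul_zero] at hGfh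
        exact hG0' hGfh
      have h2 : ¬ (e : ℤ) ∣ S.ord P (ev f w) := by
        rw [hord]
        exact hP.2
      have h3 : ¬ (e : ℤ) ∣ S.ord P (ev f a) := fun h => h2 ((hst f hf hfG P).mp h)
      have h4 : S.ord P (ev f a) ≠ 0 := by
        intro h5
        rw [h5] at h3
        exact h3 (dvd_zero _)
      by_cases hpa : S.ord P a < 0
      · exact Or.inr hpa
      · left
        push Not at hpa
        have h5 := S.ev_int P hpa f
        have h6 := S.ev_int P hpa h
        rw [hGfh, upper_ev_mul, S.ord_mul P (ev_ne_zero ha hf.ne_zero) (ev_ne_zero ha hh0)]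
        omega
    have h2 := S.cnt_or_le hfin1 hfin2
    have h3 := S.cnt_zeros_le (ev_ne_zero ha hG0')
    have h4 := S.cnt_poles_le a
    rw [S.deg_ev ha hG0'] at h3
    calc S.cnt Z' ≤ _ := h1
      _ ≤ _ := h2
      _ ≤ G.natDegree * S.deg a + S.deg a := add_le_add h3 h4
      _ = _ := by ring
  have h9 : ((e : ℤ) - 1) * (G.natDegree * S.deg w - (G.natDegree + 1) * S.deg a) ≤
      ((e : ℤ) - 1) * (S.deg g - S.cnt Z') := by
    apply mul_le_mul_of_nonneg_left _ (by linarith)
    rw [hdg]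
    linarith
  exact le_trans h9 hsum

end PF

end UDV
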